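import Mathlib
import Pool.Agent.H296R2.LE.Basic

/-!
A criterion for the domination of the Taylor coefficients by those of `((1+z)/(1-z))^(2p)`.
-/

set_option autoImplicit false

open MeasureTheory Filter Topology Complex Set Metric
open scoped Nat

noncomputable section

namespace Pool.Agent.Helper854_CM

/-- the extremal function with exponent `s` -/
def TT (s : ℝ) (z : ℂ) : ℂ := ((1 + z) / (1 - z)) ^ ((s : ℝ) : ℂ)

theorem cay_mem {z : ℂ} (hz : ‖z‖ < 1) : (1 + z) / (1 - z) ∈ slitPlane := by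
  left
  have h1 : (1 : ℂ) - z ≠ 0 := by
    intro h
    have : z = 1 := (sub_eq_zero.1 h).symm
    rw [this] at hz
    simp at hz
  have h2 : 0 < normSq (1 - z) := normSq_pos.2 h1
  rw [Complex.div_re, ← add_div]
  apply div_pos _ h2
  have h3 : z.re ^ 2 + z.im ^ 2 < 1 := by
    have : ‖z‖ ^ 2 < 1 := by
      have := norm_nonneg z
      nlinarith
    rw [← Complex.normSq_eq_norm_sq, Complex.normSq_apply] at this
    linarith
  simp
  nlinarith

theorem one_sub_ne' {z : ℂ} (hz : ‖z‖ < 1) : (1 : ℂ) - z ≠ 0 := by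
  intro h
  have : z = 1 := (sub_eq_zero.1 h).symm
  rw [this] at hz
  simp at hz

theorem one_add_ne' {z : ℂ} (hz : ‖z‖ < 1) : (1 : ℂ) + z ≠ 0 := by
  intro h
  have : z = -1 := (eq_neg_of_add_eq_zero_right h)
  rw [this] at hz
  simp at hz

theorem TT_deriv (s : ℝ) {z : ℂ} (hz : ‖z‖ < 1) :
    HasDerivAt (TT s) (2 * s / (1 - z ^ 2) * TT s z) z := by
  have h1 := one_sub_ne' hz
  have h2 := one_add_ne' hz
  have hn : HasDerivAt (fun z : ℂ => 1 + z) 1 z := (hasDerivAt_id z).const_add 1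
  have hdn : HasDerivAt (fun z : ℂ => 1 - z) (-1) z := (hasDerivAt_id z).const_sub 1
  have hq := hn.div hdn h1
  have h := hq.cpow_const (c := (s : ℂ)) (cay_mem hz)
  refine h.congr_deriv ?_
  have h3 : (1 + z) / (1 - z) ≠ 0 := div_ne_zero h2 h1
  have h4 : (1 : ℂ) - z ^ 2 ≠ 0 := by
    have : (1 : ℂ) - z ^ 2 = (1 - z) * (1 + z) := by ring
    rw [this]
    exact mul_ne_zero h1 h2
  simp only [Pi.div_apply]
  rw [TT, Complex.cpow_sub _ _ h3, Complex.cpow_one]
  have h5 : (1 : ℂ) - z ^ 2 = (1 - z) * (1 + z) := by ring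
  rw [h5]
  field_simp
  ring

theorem TT_diff (s : ℝ) : DifferentiableOn ℂ (TT s) (ball 0 1) := fun z hz =>
  (TT_deriv s (by simpa using hz)).differentiableAt.differentiableWithinAt

theorem TT_an (s : ℝ) : AnalyticAt ℂ (TT s) 0 :=
  (TT_diff s).analyticAt (isOpen_ball.mem_nhds (mem_ball_self one_pos))

theorem TT_zero (s : ℝ) : TT s 0 = 1 := by simp [TT]

theorem TT_ode (s : ℝ) : (fun z : ℂ => (1 - z ^ 2)) * deriv (TT s) =ᶠ[𝓝 0]
    fun z => (2 * s : ℂ) * TT s z := by
  filter_upwards [isOpen_ball.mem_nhds (mem_ball_self (x := (0 : ℂ)) one_pos)] with z hz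
  have hz' : ‖z‖ < 1 := by simpa using hz
  rw [Pi.mul_apply, (TT_deriv s hz').deriv]
  have h1 := one_sub_ne' hz'
  have h2 := one_add_ne' hz'
  have h4 : (1 : ℂ) - z ^ 2 ≠ 0 := by
    have : (1 : ℂ) - z ^ 2 = (1 - z) * (1 + z) := by ring
    rw [this]
    exact mul_ne_zero h1 h2
  field_simp

theorem iter_P (i : ℕ) : iteratedDeriv i (fun z : ℂ => (1 : ℂ) - z ^ 2) 0 =
    if i = 0 then 1 else if i = 2 then -2 else 0 := by
  have h1 : iteratedDeriv i (fun z : ℂ => (1 : ℂ) - z ^ 2) 0 =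
      iteratedDeriv i (fun _ : ℂ => (1 : ℂ)) 0 - iteratedDeriv i (fun z : ℂ => z ^ 2) 0 :=
    iteratedDeriv_fun_sub contDiffAt_const (by fun_prop)
  rw [h1]
  match i with
  | 0 => simp
  | 1 => simp
  | 2 => simp [iteratedDeriv_const]
  | (k + 3) =>
    have h2 : iteratedDeriv (k + 3) (fun z : ℂ => z ^ 2) 0 = 0 := by
      rw [iteratedDeriv_pow]
      have : (2 : ℕ).descFactorial (k + 3) = 0 := Nat.descFactorial_eq_zero_iff_lt.2 (by omega)
      rw [this]
      simp
    rw [h2, iteratedDeriv_const]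
    simp

/-- the coefficients `C_{n,p}` -/
def cc (p : ℝ) : ℕ → ℝ
  | 0 => 1
  | 1 => 4 * p
  | (n + 2) => (4 * p * cc p (n + 1) + n * cc p n) / (n + 2)

theorem cc_nonneg {p : ℝ} (hp : 0 ≤ p) (n : ℕ) : 0 ≤ cc p n := by
  induction n using Nat.strong_induction_on with
  | _ n ih =>
    match n with
    | 0 => simp [cc]
    | 1 => rw [cc]; positivity
    | (k + 2) =>
      rw [cc]
      have h1 := ih (k + 1) (by omega)
      have h2 := ih k (by omega)
      positivity

theorem iter_rec (s : ℝ) (n : ℕ) :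
    iteratedDeriv (n + 3) (TT s) 0 - (n + 2) * (n + 1) * iteratedDeriv (n + 1) (TT s) 0 =
      2 * s * iteratedDeriv (n + 2) (TT s) 0 := by
  have hd : ContDiffAt ℂ ((n + 2 : ℕ) : WithTop ℕ∞) (deriv (TT s)) 0 :=
    ((TT_an s).deriv).contDiffAt
  have hT : ContDiffAt ℂ ((n + 2 : ℕ) : WithTop ℕ∞) (TT s) 0 := (TT_an s).contDiffAt
  have h1 : iteratedDeriv (n + 2) ((fun z : ℂ => (1 - z ^ 2)) * deriv (TT s)) 0 =
      2 * s * iteratedDeriv (n + 2) (TT s) 0 := by
    rw [(TT_ode s).iteratedDeriv_eq]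
    exact iteratedDeriv_const_mul _ hT
  rw [iteratedDeriv_mul (by fun_prop) hd] at h1
  rw [← h1, Finset.sum_range_succ', Finset.sum_range_succ', Finset.sum_range_succ']
  have h2 : ∑ k ∈ Finset.range n, (((n + 2).choose (k + 1 + 1 + 1) : ℕ) : ℂ) *
      iteratedDeriv (k + 1 + 1 + 1) (fun z : ℂ => 1 - z ^ 2) 0 *
        iteratedDeriv (n + 2 - (k + 1 + 1 + 1)) (deriv (TT s)) 0 = 0 := by
    refine Finset.sum_eq_zero fun k _ => ?_
    rw [iter_P, if_neg (by omega), if_neg (by omega)]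
    simp
  rw [h2, iter_P, iter_P, iter_P]
  simp only [← iteratedDeriv_succ']
  have h3 : (((n + 2).choose 2 : ℕ) : ℂ) = (n + 2) * (n + 1) / 2 := by
    rw [Nat.cast_choose_two]
    push_cast
    ring
  simp
  rw [h3]
  ring

theorem TT_coeff (p : ℝ) (n : ℕ) :
    iteratedDeriv n (TT (2 * p)) 0 = (((n ! : ℝ) * cc p n : ℝ) : ℂ) := by
  have h0 : iteratedDeriv 0 (TT (2 * p)) 0 = 1 := by rw [iteratedDeriv_zero, TT_zero]
  have h1 : iteratedDeriv 1 (TT (2 * p)) 0 = 4 * p := by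
    rw [iteratedDeriv_one, (TT_deriv (2 * p) (z := 0) (by simp)).deriv, TT_zero]
    push_cast
    ring
  have h2 : iteratedDeriv 2 (TT (2 * p)) 0 = 16 * p ^ 2 := by
    have hd : ContDiffAt ℂ ((1 : ℕ) : WithTop ℕ∞) (deriv (TT (2 * p))) 0 :=
      ((TT_an (2 * p)).deriv).contDiffAt
    have hT : ContDiffAt ℂ ((1 : ℕ) : WithTop ℕ∞) (TT (2 * p)) 0 := (TT_an (2 * p)).contDiffAt
    have e1 : iteratedDeriv 1 ((fun z : ℂ => (1 - z ^ 2)) * deriv (TT (2 * p))) 0 =
        2 * ((2 * p : ℝ) : ℂ) * iteratedDeriv 1 (TT (2 * p)) 0 := by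
      rw [(TT_ode (2 * p)).iteratedDeriv_eq]
      exact iteratedDeriv_const_mul _ hT
    rw [iteratedDeriv_mul (by fun_prop) hd, h1, Finset.sum_range_succ, Finset.sum_range_succ,
      Finset.sum_range_zero] at e1
    simp only [iter_P, ← iteratedDeriv_succ'] at e1
    simp at e1
    rw [e1]
    ring
  induction n using Nat.strong_induction_on with
  | _ n ih =>
    match n with
    | 0 => rw [h0]; simp [cc]
    | 1 => rw [h1]; simp [cc]
    | 2 =>
      rw [h2]
      simp [cc, Nat.factorial]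
      ring
    | (k + 3) =>
      have e1 := iter_rec (2 * p) k
      rw [ih (k + 1) (by omega), ih (k + 2) (by omega)] at e1
      have e2 : iteratedDeriv (k + 3) (TT (2 * p)) 0 =
          (((2 * (2 * p) * (((k + 2)! : ℕ) * cc p (k + 2)) +
            (k + 2) * (k + 1) * (((k + 1)! : ℕ) * cc p (k + 1)) : ℝ)) : ℂ) := by
        push_cast at e1 ⊢
        linear_combination e1
      rw [e2]
      congr 1
      have e3 : cc p (k + 3) = (4 * p * cc p (k + 2) + ((k + 1 : ℕ) : ℝ) * cc p (k + 1)) /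
          (((k + 1 : ℕ) : ℝ) + 2) := by
        rw [cc]
      rw [e3]
      have e4 : (((k + 3)! : ℕ) : ℝ) = (k + 3) * (k + 2) * ((k + 1)! : ℕ) := by
        rw [Nat.factorial_succ (k + 2), Nat.factorial_succ (k + 1)]
        push_cast
        ring
      have e5 : (((k + 2)! : ℕ) : ℝ) = (k + 2) * ((k + 1)! : ℕ) := by
        rw [Nat.factorial_succ (k + 1)]
        push_cast
        ring
      rw [e4, e5]
      push_cast
      have : (k : ℝ) + 1 + 2 ≠ 0 := by positivity
      field_simp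
      ring

/-- convexity inequality used for the lower bound of the coefficients -/
theorem conv_ineq {p : ℝ} (hp : 1 ≤ p) (hp2 : p ≤ 2) {x : ℝ} (hx : x ∈ Icc (0 : ℝ) 1) :
    (1 + x) ^ (p + 1) - (1 - x) ^ (p + 1) ≤ 4 * p * x := by
  have hconv : ConvexOn ℝ (Icc (0 : ℝ) 1) fun x : ℝ => (1 + x) ^ (p + 1) - (1 - x) ^ (p + 1) := by
    have hd : ∀ x : ℝ, HasDerivAt (fun x : ℝ => (1 + x) ^ (p + 1) - (1 - x) ^ (p + 1))
        ((p + 1) * ((1 + x) ^ p + (1 - x) ^ p)) x := by
      intro x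
      have h1 : HasDerivAt (fun x : ℝ => (1 + x) ^ (p + 1))
          (1 * (p + 1) * (1 + x) ^ (p + 1 - 1)) x :=
        ((hasDerivAt_id x).const_add 1).rpow_const (Or.inr (by linarith))
      have h2 : HasDerivAt (fun x : ℝ => (1 - x) ^ (p + 1))
          (-1 * (p + 1) * (1 - x) ^ (p + 1 - 1)) x :=
        ((hasDerivAt_id x).const_sub 1).rpow_const (Or.inr (by linarith))
      refine (h1.sub h2).congr_deriv ?_
      rw [add_sub_cancel_right]
      ring
    have hd2 : ∀ x : ℝ, HasDerivAt (fun x : ℝ => (p + 1) * ((1 + x) ^ p + (1 - x) ^ p))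
        ((p + 1) * (p * ((1 + x) ^ (p - 1) - (1 - x) ^ (p - 1)))) x := by
      intro x
      have h1 : HasDerivAt (fun x : ℝ => (1 + x) ^ p) (1 * p * (1 + x) ^ (p - 1)) x :=
        ((hasDerivAt_id x).const_add 1).rpow_const (Or.inr hp)
      have h2 : HasDerivAt (fun x : ℝ => (1 - x) ^ p) (-1 * p * (1 - x) ^ (p - 1)) x :=
        ((hasDerivAt_id x).const_sub 1).rpow_const (Or.inr hp)
      refine ((h1.add h2).const_mul (p + 1)).congr_deriv ?_
      ring
    refine convexOn_of_hasDerivWithinAt2_nonneg (convex_Icc 0 1)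
      (fun x _ => (hd x).continuousAt.continuousWithinAt)
      (f' := fun x => (p + 1) * ((1 + x) ^ p + (1 - x) ^ p))
      (f'' := fun x => (p + 1) * (p * ((1 + x) ^ (p - 1) - (1 - x) ^ (p - 1))))
      (fun x _ => (hd x).hasDerivWithinAt) (fun x _ => (hd2 x).hasDerivWithinAt) ?_
    intro x hx
    rw [interior_Icc] at hx
    have h1 : (1 - x) ^ (p - 1) ≤ (1 + x) ^ (p - 1) :=
      Real.rpow_le_rpow (by linarith [hx.2]) (by linarith [hx.1]) (by linarith)
    have h2 : 0 ≤ (1 + x) ^ (p - 1) - (1 - x) ^ (p - 1) := by linarith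
    positivity
  have h1 := hconv.2 (left_mem_Icc.2 zero_le_one) (right_mem_Icc.2 zero_le_one)
    (by linarith [hx.2] : 0 ≤ 1 - x) hx.1 (by ring)
  simp only [smul_eq_mul, mul_zero, zero_add, mul_one, add_zero, sub_zero, Real.one_rpow, sub_self]
    at h1
  rw [Real.zero_rpow (by linarith), sub_zero] at h1
  -- `2 ^ (p+1) ≤ 4 p` on `[1, 2]`
  have h2 : (1 + 1 : ℝ) ^ (p + 1) ≤ 4 * p := by
    have hc := convexOn_rpow_left (b := (2 : ℝ)) two_pos
    have h3 := hc.2 (mem_univ (1 : ℝ)) (mem_univ (2 : ℝ)) (by linarith : 0 ≤ 2 - p)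
      (by linarith : 0 ≤ p - 1) (by ring)
    simp only [smul_eq_mul] at h3
    have h4 : (2 - p) * 1 + (p - 1) * 2 = p := by ring
    rw [h4, Real.rpow_one] at h3
    have h5 : (2 : ℝ) ^ (2 : ℝ) = 4 := by
      rw [show (2 : ℝ) = ((2 : ℕ) : ℝ) by norm_num, Real.rpow_natCast]
      norm_num
    rw [h5] at h3
    rw [one_add_one_eq_two, Real.rpow_add_one two_ne_zero]
    linarith
  calc (1 + x) ^ (p + 1) - (1 - x) ^ (p + 1) ≤ x * (1 + 1 : ℝ) ^ (p + 1) := h1
    _ ≤ x * (4 * p) := mul_le_mul_of_nonneg_left h2 hx.1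
    _ = 4 * p * x := by ring

theorem cc_lower {p : ℝ} (hp : 1 ≤ p) (hp2 : p ≤ 2) (n : ℕ) :
    4 * p * ((n : ℝ) + 1) ^ p ≤ cc p (n + 1) := by
  induction n using Nat.strong_induction_on with
  | _ n ih =>
    match n with
    | 0 => simp [cc]
    | (k + 1) =>
      have h1 := ih k (by omega)
      -- the case of the previous index, with the convention `0 ^ p = 0`
      have h2 : 4 * p * (k : ℝ) ^ p * k ≤ k * cc p k := by
        rcases Nat.eq_zero_or_pos k with rfl | hk
        · simp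
        · obtain ⟨m, rfl⟩ := Nat.exists_eq_succ_of_ne_zero hk.ne'
          have h3 := ih m (by omega)
          have h4 : (0 : ℝ) ≤ ((m + 1 : ℕ) : ℝ) := by positivity
          push_cast
          nlinarith
      rw [cc]
      have hk1 : (0 : ℝ) < (k : ℝ) + 1 := by positivity
      rw [le_div_iff₀ (by positivity)]
      have hx : (1 : ℝ) / (k + 1) ∈ Icc (0 : ℝ) 1 := by
        refine ⟨by positivity, ?_⟩
        rw [div_le_one hk1]
        linarith [(Nat.cast_nonneg k : (0 : ℝ) ≤ k)]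
      have h3 := conv_ineq hp hp2 hx
      have e1 : (1 + 1 / ((k : ℝ) + 1)) = (k + 2) / (k + 1) := by field_simp; ring
      have e2 : (1 - 1 / ((k : ℝ) + 1)) = k / (k + 1) := by field_simp; ring
      rw [e1, e2, Real.div_rpow (by positivity) hk1.le, Real.div_rpow (by positivity) hk1.le,
        ← sub_div, div_le_iff₀ (by positivity), Real.rpow_add_one (by positivity),
        Real.rpow_add_one hk1.ne'] at h3
      have e3 : (k : ℝ) ^ (p + 1) = (k : ℝ) ^ p * k := by
        rcases Nat.eq_zero_or_pos k with rfl | hk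
        · simp [Real.zero_rpow (by linarith : p + 1 ≠ 0)]
        · rw [Real.rpow_add_one (by positivity)]
      rw [e3] at h3
      have e4 : 4 * p * (1 / ((k : ℝ) + 1)) * (((k : ℝ) + 1) ^ p * (k + 1)) =
          4 * p * ((k : ℝ) + 1) ^ p := by field_simp
      rw [e4] at h3
      have e5 : (((k + 1 : ℕ) : ℝ) + 1) = k + 2 := by push_cast; ring
      rw [e5]
      have hp0 : 0 ≤ 4 * p := by linarith
      have h5 : 4 * p * (4 * p * ((k : ℝ) + 1) ^ p) ≤ 4 * p * cc p (k + 1) :=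
        mul_le_mul_of_nonneg_left h1 hp0
      have h6 : 4 * p * (((k : ℝ) + 2) ^ p * (k + 2) - (k : ℝ) ^ p * k) ≤
          4 * p * (4 * p * ((k : ℝ) + 1) ^ p) := mul_le_mul_of_nonneg_left h3 hp0
      nlinarith

end Pool.Agent.Helper854_CM
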