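import Mathlib

/-!
The perturbation argument in terms of coefficients.
-/

set_option autoImplicit false

open Finset

noncomputable section

namespace Pool.Agent.Helper854_CM.FD

theorem geo_sum {c : ℕ → ℝ} {ρ : ℝ} (hρ0 : 0 ≤ ρ) (hρ1 : ρ < 1) (h0 : 0 ≤ c 1)
    (h : ∀ m, c (m + 2) ≤ ρ * c (m + 1)) (j : ℕ) :
    ∑ m ∈ range j, c (m + 1) ≤ c 1 / (1 - ρ) := by
  have hρ : 0 < 1 - ρ := by linarith
  have h1 : ∀ m, c (m + 1) ≤ ρ ^ m * c 1 := by
    intro m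
    induction m with
    | zero => simp
    | succ m ih =>
      calc c (m + 1 + 1) ≤ ρ * c (m + 1) := h m
        _ ≤ ρ * (ρ ^ m * c 1) := by gcongr
        _ = ρ ^ (m + 1) * c 1 := by ring
  have h2 : ∑ m ∈ range j, c (m + 1) ≤ (c 1 - ρ ^ j * c 1) / (1 - ρ) := by
    induction j with
    | zero => simp
    | succ j ih =>
      rw [Finset.sum_range_succ]
      have := h1 j
      have e : (c 1 - ρ ^ (j + 1) * c 1) / (1 - ρ) = (c 1 - ρ ^ j * c 1) / (1 - ρ) + ρ ^ j * c 1 := by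
        field_simp
        ring
      rw [e]
      linarith
  refine h2.trans ?_
  have : 0 ≤ ρ ^ j * c 1 := by positivity
  gcongr
  linarith

theorem sum_t (j : ℕ) : ∑ m ∈ range j, (35 / 512 : ℝ) ^ (m + 1) ≤ 0.07338 := by
  have := geo_sum (c := fun m => (35 / 512 : ℝ) ^ m) (ρ := 35 / 512) (by norm_num) (by norm_num)
    (by norm_num) (fun m => le_of_eq (by ring)) j
  refine this.trans ?_
  norm_num

theorem sum_2 (j : ℕ) : ∑ m ∈ range j, (((m + 1 : ℕ) : ℝ) + 1) * (35 / 512 : ℝ) ^ (m + 1) ≤ 0.15235 := by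
  have := geo_sum (c := fun m : ℕ => ((m : ℝ) + 1) * (35 / 512 : ℝ) ^ m) (ρ := 3 / 2 * (35 / 512))
    (by norm_num) (by norm_num) (by norm_num) (fun m => by
      have h1 : ((m + 2 : ℕ) : ℝ) + 1 ≤ 3 / 2 * (((m + 1 : ℕ) : ℝ) + 1) := by
        push_cast
        have : (0 : ℝ) ≤ m := Nat.cast_nonneg m
        linarith
      have h2 : (0 : ℝ) ≤ (35 / 512) ^ (m + 1) := by positivity
      calc (((m + 2 : ℕ) : ℝ) + 1) * (35 / 512 : ℝ) ^ (m + 2)
          = (((m + 2 : ℕ) : ℝ) + 1) * ((35 / 512) * (35 / 512) ^ (m + 1)) := by ring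
        _ ≤ (3 / 2 * (((m + 1 : ℕ) : ℝ) + 1)) * ((35 / 512) * (35 / 512) ^ (m + 1)) := by gcongr
        _ = _ := by ring) j
  refine this.trans ?_
  norm_num

theorem sum_4 (j : ℕ) : ∑ m ∈ range j, ((m + 1 : ℕ) : ℝ) * (35 / 512 : ℝ) ^ (m + 1) ≤ 0.0792 := by
  have := geo_sum (c := fun m : ℕ => (m : ℝ) * (35 / 512 : ℝ) ^ m) (ρ := 2 * (35 / 512))
    (by norm_num) (by norm_num) (by norm_num) (fun m => by
      have h1 : ((m + 2 : ℕ) : ℝ) ≤ 2 * ((m + 1 : ℕ) : ℝ) := by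
        push_cast
        have : (0 : ℝ) ≤ m := Nat.cast_nonneg m
        linarith
      calc ((m + 2 : ℕ) : ℝ) * (35 / 512 : ℝ) ^ (m + 2)
          = ((m + 2 : ℕ) : ℝ) * ((35 / 512) * (35 / 512) ^ (m + 1)) := by ring
        _ ≤ (2 * ((m + 1 : ℕ) : ℝ)) * ((35 / 512) * (35 / 512) ^ (m + 1)) := by gcongr
        _ = _ := by ring) j
  refine this.trans ?_
  norm_num

theorem sum_3 (j : ℕ) : ∑ m ∈ range j, ((m + 1 : ℕ) : ℝ) * (((m + 1 : ℕ) : ℝ) + 1) *
    (35 / 512 : ℝ) ^ (m + 1) ≤ 0.172 := by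
  have := geo_sum (c := fun m : ℕ => (m : ℝ) * ((m : ℝ) + 1) * (35 / 512 : ℝ) ^ m)
    (ρ := 3 * (35 / 512))
    (by norm_num) (by norm_num) (by norm_num) (fun m => by
      have h1 : ((m + 2 : ℕ) : ℝ) * (((m + 2 : ℕ) : ℝ) + 1) ≤
          3 * (((m + 1 : ℕ) : ℝ) * (((m + 1 : ℕ) : ℝ) + 1)) := by
        push_cast
        have : (0 : ℝ) ≤ m := Nat.cast_nonneg m
        nlinarith
      calc ((m + 2 : ℕ) : ℝ) * (((m + 2 : ℕ) : ℝ) + 1) * (35 / 512 : ℝ) ^ (m + 2)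
          = ((m + 2 : ℕ) : ℝ) * (((m + 2 : ℕ) : ℝ) + 1) * ((35 / 512) * (35 / 512) ^ (m + 1)) := by
            ring
        _ ≤ (3 * (((m + 1 : ℕ) : ℝ) * (((m + 1 : ℕ) : ℝ) + 1))) *
            ((35 / 512) * (35 / 512) ^ (m + 1)) := by gcongr
        _ = _ := by ring) j
  refine this.trans ?_
  norm_num

theorem sum_1 (j : ℕ) : ∑ m ∈ range j, (((m + 1 : ℕ) : ℝ) + 1) ^ 3 * (5 / 128 : ℝ) ^ (m + 1) ≤
    0.36 := by
  have := geo_sum (c := fun m : ℕ => ((m : ℝ) + 1) ^ 3 * (5 / 128 : ℝ) ^ m)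
    (ρ := 27 / 8 * (5 / 128))
    (by norm_num) (by norm_num) (by norm_num) (fun m => by
      have h1 : (((m + 2 : ℕ) : ℝ) + 1) ^ 3 ≤ 27 / 8 * (((m + 1 : ℕ) : ℝ) + 1) ^ 3 := by
        have h2 : ((m + 2 : ℕ) : ℝ) + 1 ≤ 3 / 2 * (((m + 1 : ℕ) : ℝ) + 1) := by
          push_cast
          have : (0 : ℝ) ≤ m := Nat.cast_nonneg m
          linarith
        calc (((m + 2 : ℕ) : ℝ) + 1) ^ 3 ≤ (3 / 2 * (((m + 1 : ℕ) : ℝ) + 1)) ^ 3 := by gcongr
          _ = _ := by ring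
      calc (((m + 2 : ℕ) : ℝ) + 1) ^ 3 * (5 / 128 : ℝ) ^ (m + 2)
          = (((m + 2 : ℕ) : ℝ) + 1) ^ 3 * ((5 / 128) * (5 / 128) ^ (m + 1)) := by
            ring
        _ ≤ (27 / 8 * (((m + 1 : ℕ) : ℝ) + 1) ^ 3) *
            ((5 / 128) * (5 / 128) ^ (m + 1)) := by gcongr
        _ = _ := by ring) j
  refine this.trans ?_
  norm_num

theorem sum_5 (j : ℕ) : ∑ m ∈ range j, ((m + 1 : ℕ) : ℝ) * (5 / 128 : ℝ) ^ (m + 1) ≤ 0.0424 := by
  have := geo_sum (c := fun m : ℕ => (m : ℝ) * (5 / 128 : ℝ) ^ m) (ρ := 2 * (5 / 128))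
    (by norm_num) (by norm_num) (by norm_num) (fun m => by
      have h1 : ((m + 2 : ℕ) : ℝ) ≤ 2 * ((m + 1 : ℕ) : ℝ) := by
        push_cast
        have : (0 : ℝ) ≤ m := Nat.cast_nonneg m
        linarith
      calc ((m + 2 : ℕ) : ℝ) * (5 / 128 : ℝ) ^ (m + 2)
          = ((m + 2 : ℕ) : ℝ) * ((5 / 128) * (5 / 128) ^ (m + 1)) := by ring
        _ ≤ (2 * ((m + 1 : ℕ) : ℝ)) * ((5 / 128) * (5 / 128) ^ (m + 1)) := by gcongr
        _ = _ := by ring) j
  refine this.trans ?_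
  norm_num

theorem sum_6 (j : ℕ) : ∑ m ∈ range j, ((m + 1 : ℕ) : ℝ) ^ 2 * (5 / 128 : ℝ) ^ (m + 1) ≤
    0.0463 := by
  have := geo_sum (c := fun m : ℕ => (m : ℝ) ^ 2 * (5 / 128 : ℝ) ^ m) (ρ := 4 * (5 / 128))
    (by norm_num) (by norm_num) (by norm_num) (fun m => by
      have h1 : ((m + 2 : ℕ) : ℝ) ^ 2 ≤ 4 * ((m + 1 : ℕ) : ℝ) ^ 2 := by
        push_cast
        have : (0 : ℝ) ≤ m := Nat.cast_nonneg m
        nlinarith
      calc ((m + 2 : ℕ) : ℝ) ^ 2 * (5 / 128 : ℝ) ^ (m + 2)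
          = ((m + 2 : ℕ) : ℝ) ^ 2 * ((5 / 128) * (5 / 128) ^ (m + 1)) := by ring
        _ ≤ (4 * ((m + 1 : ℕ) : ℝ) ^ 2) * ((5 / 128) * (5 / 128) ^ (m + 1)) := by gcongr
        _ = _ := by ring) j
  refine this.trans ?_
  norm_num

theorem step {δ τ : ℝ} (hτ : 0 ≤ τ) (hδ : δ = τ ^ 2) (hδ1 : δ ≤ 42 / 121)
    {H : ℕ → ℂ} {H0 : ℕ → ℝ} (hH0 : H 0 = ((4 - δ : ℝ) : ℂ))
    (hH0m : ∀ m, 0 ≤ H0 m ∧ H0 m ≤ 4)
    (hB : ∀ m, 1 ≤ m → ‖H m‖ ≤ 6 * (7 / 4) ^ m)
    (hX : ∀ m : ℕ, 1 ≤ m → |(H m).re - H0 m| ≤ ((m : ℝ) + 1) ^ 3 * δ)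
    (hY : ∀ m : ℕ, 1 ≤ m → |(H m).im| ≤ 17 / 4 * ((m : ℝ) + 1) * (7 / 4) ^ m * τ)
    {j : ℕ} {P : ℕ → ℂ} {P0 : ℕ → ℝ} (hP0 : ∀ m ≤ j, 0 ≤ P0 m)
    (hP1 : ∀ m ≤ j, ‖P m‖ ≤ (5 / 128) ^ m)
    (hP2 : ∀ m ≤ j, |(P m).im| ≤ m * (5 / 128) ^ m * (6 / 25 * τ))
    (hP3 : ∀ m ≤ j, |(P m).re - P0 m| ≤
      δ * ((5 / 128) ^ m * (m * (23 / 50) + m ^ 2 * (18 / 625))))
    {q : ℂ} (hq : q = 1 / 4 * (H 0 + ∑ m ∈ range j, H (m + 1) * P (m + 1)))
    {Q : ℝ} (hQ : Q = 1 / 4 * (4 + ∑ m ∈ range j, H0 (m + 1) * P0 (m + 1))) :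
    ‖q - 1‖ ≤ 1 / 5 ∧ |q.im| ≤ 24 / 125 * τ ∧ |q.re - Q + δ / 4| ≤ 31 / 200 * δ ∧ 1 ≤ Q := by
  have hδ0 : 0 ≤ δ := by rw [hδ]; positivity
  have ht : ∀ m : ℕ, (7 / 4 : ℝ) ^ m * (5 / 128) ^ m = (35 / 512) ^ m := by
    intro m
    rw [← mul_pow]
    norm_num
  refine ⟨?_, ?_, ?_, ?_⟩
  · have h1 : q - 1 = ((-(δ / 4) : ℝ) : ℂ) + 1 / 4 * ∑ m ∈ range j, H (m + 1) * P (m + 1) := by
      rw [hq, hH0]
      push_cast
      ring
    have h2 : ‖∑ m ∈ range j, H (m + 1) * P (m + 1)‖ ≤ 6 * 0.07338 := by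
      calc ‖∑ m ∈ range j, H (m + 1) * P (m + 1)‖
          ≤ ∑ m ∈ range j, 6 * (35 / 512 : ℝ) ^ (m + 1) := by
            refine norm_sum_le_of_le _ fun m hm => ?_
            rw [mem_range] at hm
            rw [norm_mul, ← ht, ← mul_assoc]
            have e1 := hB (m + 1) (by omega)
            have e2 := hP1 (m + 1) (by omega)
            gcongr
        _ = 6 * ∑ m ∈ range j, (35 / 512 : ℝ) ^ (m + 1) := by rw [Finset.mul_sum]
        _ ≤ 6 * 0.07338 := by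
            have := sum_t j
            gcongr
    rw [h1]
    refine (norm_add_le _ _).trans ?_
    rw [Complex.norm_real, norm_mul, Real.norm_eq_abs, abs_neg, abs_of_nonneg (by positivity)]
    have h3 : ‖(1 / 4 : ℂ)‖ = 1 / 4 := by norm_num
    rw [h3]
    linarith
  · have h1 : q.im = 1 / 4 * ∑ m ∈ range j, (H (m + 1) * P (m + 1)).im := by
      have e : q = ((1 / 4 : ℝ) : ℂ) * (((4 - δ : ℝ) : ℂ) +
          ∑ m ∈ range j, H (m + 1) * P (m + 1)) := by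
        rw [hq, hH0]
        push_cast
        ring
      rw [e, Complex.im_ofReal_mul, Complex.add_im, Complex.ofReal_im, zero_add, Complex.im_sum]
    have h2 : |∑ m ∈ range j, (H (m + 1) * P (m + 1)).im| ≤
        (6 * (6 / 25) * 0.0792 + 17 / 4 * 0.15235) * τ := by
      calc |∑ m ∈ range j, (H (m + 1) * P (m + 1)).im|
          ≤ ∑ m ∈ range j, |(H (m + 1) * P (m + 1)).im| := abs_sum_le_sum_abs _ _
        _ ≤ ∑ m ∈ range j, (6 * (6 / 25) * τ * (((m + 1 : ℕ) : ℝ) * (35 / 512 : ℝ) ^ (m + 1)) +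
              17 / 4 * τ * ((((m + 1 : ℕ) : ℝ) + 1) * (35 / 512 : ℝ) ^ (m + 1))) := by
            refine sum_le_sum fun m hm => ?_
            rw [mem_range] at hm
            have e1 := hB (m + 1) (by omega)
            have e2 := hP1 (m + 1) (by omega)
            have e3 := hP2 (m + 1) (by omega)
            have e4 := hY (m + 1) (by omega)
            have e5 := (Complex.abs_re_le_norm (H (m + 1))).trans e1
            have e6 := (Complex.abs_re_le_norm (P (m + 1))).trans e2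
            rw [Complex.mul_im]
            refine (abs_add_le _ _).trans ?_
            rw [abs_mul, abs_mul]
            have e7 : |(H (m + 1)).re| * |(P (m + 1)).im| ≤
                (6 * (7 / 4) ^ (m + 1)) * (((m + 1 : ℕ) : ℝ) * (5 / 128) ^ (m + 1) *
                  (6 / 25 * τ)) := by gcongr
            have e8 : |(H (m + 1)).im| * |(P (m + 1)).re| ≤
                (17 / 4 * (((m + 1 : ℕ) : ℝ) + 1) * (7 / 4) ^ (m + 1) * τ) * (5 / 128) ^ (m + 1) := by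
              gcongr
            rw [← ht]
            refine (add_le_add e7 e8).trans (le_of_eq ?_)
            ring
        _ = 6 * (6 / 25) * τ * (∑ m ∈ range j, ((m + 1 : ℕ) : ℝ) * (35 / 512 : ℝ) ^ (m + 1)) +
              17 / 4 * τ * (∑ m ∈ range j,
                (((m + 1 : ℕ) : ℝ) + 1) * (35 / 512 : ℝ) ^ (m + 1)) := by
            rw [sum_add_distrib, ← Finset.mul_sum, ← Finset.mul_sum]
        _ ≤ 6 * (6 / 25) * τ * 0.0792 + 17 / 4 * τ * 0.15235 := by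
            have s1 := sum_4 j
            have s2 := sum_2 j
            gcongr
        _ = _ := by ring
    rw [h1, abs_mul, abs_of_pos (by norm_num : (0 : ℝ) < 1 / 4)]
    nlinarith
  · have h1 : q.re - Q + δ / 4 =
        1 / 4 * ∑ m ∈ range j, ((H (m + 1) * P (m + 1)).re - H0 (m + 1) * P0 (m + 1)) := by
      have e : q = ((1 / 4 : ℝ) : ℂ) * (((4 - δ : ℝ) : ℂ) +
          ∑ m ∈ range j, H (m + 1) * P (m + 1)) := by
        rw [hq, hH0]
        push_cast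
        ring
      rw [e, Complex.re_ofReal_mul, Complex.add_re, Complex.ofReal_re, Complex.re_sum, hQ,
        sum_sub_distrib]
      ring
    have h2 : |∑ m ∈ range j, ((H (m + 1) * P (m + 1)).re - H0 (m + 1) * P0 (m + 1))| ≤
        (0.36 + 4 * (23 / 50) * 0.0424 + 4 * (18 / 625) * 0.0463 + 17 / 4 * (6 / 25) * 0.172) *
          δ := by
      calc |∑ m ∈ range j, ((H (m + 1) * P (m + 1)).re - H0 (m + 1) * P0 (m + 1))|
          ≤ ∑ m ∈ range j, |(H (m + 1) * P (m + 1)).re - H0 (m + 1) * P0 (m + 1)| :=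
            abs_sum_le_sum_abs _ _
        _ ≤ ∑ m ∈ range j, (δ * ((((m + 1 : ℕ) : ℝ) + 1) ^ 3 * (5 / 128 : ℝ) ^ (m + 1)) +
              4 * (23 / 50) * δ * (((m + 1 : ℕ) : ℝ) * (5 / 128 : ℝ) ^ (m + 1)) +
              4 * (18 / 625) * δ * (((m + 1 : ℕ) : ℝ) ^ 2 * (5 / 128 : ℝ) ^ (m + 1)) +
              17 / 4 * (6 / 25) * δ * (((m + 1 : ℕ) : ℝ) * (((m + 1 : ℕ) : ℝ) + 1) *
                (35 / 512 : ℝ) ^ (m + 1))) := by
            refine sum_le_sum fun m hm => ?_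
            rw [mem_range] at hm
            have e1 := hX (m + 1) (by omega)
            have e2 := (Complex.abs_re_le_norm (P (m + 1))).trans (hP1 (m + 1) (by omega))
            have e3 := hP2 (m + 1) (by omega)
            have e4 := hY (m + 1) (by omega)
            have e5 := hP3 (m + 1) (by omega)
            have e6 := hH0m (m + 1)
            have d : (H (m + 1) * P (m + 1)).re - H0 (m + 1) * P0 (m + 1) =
                ((H (m + 1)).re - H0 (m + 1)) * (P (m + 1)).re +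
                H0 (m + 1) * ((P (m + 1)).re - P0 (m + 1)) -
                (H (m + 1)).im * (P (m + 1)).im := by
              rw [Complex.mul_re]
              ring
            rw [d]
            have f1 : |((H (m + 1)).re - H0 (m + 1)) * (P (m + 1)).re| ≤
                ((((m + 1 : ℕ) : ℝ) + 1) ^ 3 * δ) * (5 / 128 : ℝ) ^ (m + 1) := by
              rw [abs_mul]
              gcongr
            have f2 : |H0 (m + 1) * ((P (m + 1)).re - P0 (m + 1))| ≤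
                4 * (δ * ((5 / 128) ^ (m + 1) * (((m + 1 : ℕ) : ℝ) * (23 / 50) +
                  ((m + 1 : ℕ) : ℝ) ^ 2 * (18 / 625)))) := by
              rw [abs_mul, abs_of_nonneg e6.1]
              have := e6.2
              gcongr
            have f3 : |(H (m + 1)).im * (P (m + 1)).im| ≤
                (17 / 4 * (((m + 1 : ℕ) : ℝ) + 1) * (7 / 4) ^ (m + 1) * τ) *
                (((m + 1 : ℕ) : ℝ) * (5 / 128) ^ (m + 1) * (6 / 25 * τ)) := by
              rw [abs_mul]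
              gcongr
            refine (abs_sub _ _).trans ?_
            have f4 := abs_add_le (((H (m + 1)).re - H0 (m + 1)) * (P (m + 1)).re)
              (H0 (m + 1) * ((P (m + 1)).re - P0 (m + 1)))
            rw [← ht]
            have f5 : (17 / 4 * (((m + 1 : ℕ) : ℝ) + 1) * (7 / 4) ^ (m + 1) * τ) *
                (((m + 1 : ℕ) : ℝ) * (5 / 128) ^ (m + 1) * (6 / 25 * τ)) =
                17 / 4 * (6 / 25) * δ * (((m + 1 : ℕ) : ℝ) * (((m + 1 : ℕ) : ℝ) + 1) *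
                ((7 / 4) ^ (m + 1) * (5 / 128) ^ (m + 1))) := by
              rw [hδ]; ring
            rw [f5] at f3
            refine (add_le_add (f4.trans (add_le_add f1 f2)) f3).trans (le_of_eq ?_)
            ring
        _ = δ * (∑ m ∈ range j, (((m + 1 : ℕ) : ℝ) + 1) ^ 3 * (5 / 128 : ℝ) ^ (m + 1)) +
              4 * (23 / 50) * δ * (∑ m ∈ range j, ((m + 1 : ℕ) : ℝ) * (5 / 128 : ℝ) ^ (m + 1)) +
              4 * (18 / 625) * δ *
                (∑ m ∈ range j, ((m + 1 : ℕ) : ℝ) ^ 2 * (5 / 128 : ℝ) ^ (m + 1)) +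
              17 / 4 * (6 / 25) * δ * (∑ m ∈ range j, ((m + 1 : ℕ) : ℝ) *
                (((m + 1 : ℕ) : ℝ) + 1) * (35 / 512 : ℝ) ^ (m + 1)) := by
            rw [sum_add_distrib, sum_add_distrib, sum_add_distrib, ← Finset.mul_sum,
              ← Finset.mul_sum, ← Finset.mul_sum, ← Finset.mul_sum]
        _ ≤ δ * 0.36 + 4 * (23 / 50) * δ * 0.0424 + 4 * (18 / 625) * δ * 0.0463 +
              17 / 4 * (6 / 25) * δ * 0.172 := by
            have s1 := sum_1 j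
            have s2 := sum_5 j
            have s3 := sum_6 j
            have s4 := sum_3 j
            gcongr
        _ = _ := by ring
    rw [h1, abs_mul, abs_of_pos (by norm_num : (0 : ℝ) < 1 / 4)]
    nlinarith
  · have : 0 ≤ ∑ m ∈ range j, H0 (m + 1) * P0 (m + 1) := by
      refine sum_nonneg fun m hm => ?_
      rw [mem_range] at hm
      exact mul_nonneg (hH0m _).1 (hP0 _ (by omega))
    rw [hQ]
    linarith

end Pool.Agent.Helper854_CM.FD
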