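import Mathlib
import Pool.Agent.Helper854_CM.FD

/-!
The perturbation argument in terms of coefficients: the induction.
-/

set_option autoImplicit false

open Finset

noncomputable section

namespace Pool.Agent.Helper854_CM.FD

theorem qr {δ τ : ℝ} (hτ : 0 ≤ τ) (hδ : δ = τ ^ 2) (hδ1 : δ ≤ 42 / 121) {e : ℝ} (he0 : 0 < e)
    (he1 : e ≤ 1 / 32) {q : ℂ} {Q : ℝ} (h1 : ‖q - 1‖ ≤ 1 / 5) (h2 : |q.im| ≤ 24 / 125 * τ)
    (h3 : |q.re - Q + δ / 4| ≤ 31 / 200 * δ) (h4 : 1 ≤ Q) :
    q ≠ 0 ∧ ‖(e : ℂ) / q‖ ≤ 5 / 128 ∧ |((e : ℂ) / q).im| ≤ 5 / 128 * (6 / 25 * τ) ∧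
      |((e : ℂ) / q).re - e / Q| ≤ δ * (5 / 128 * (23 / 50)) ∧ ‖q‖ ≤ Q := by
  have hδ0 : 0 ≤ δ := by rw [hδ]; positivity
  have hn : 4 / 5 ≤ ‖q‖ := by
    have e1 : ‖(1 : ℂ)‖ ≤ ‖q‖ + ‖q - 1‖ := by
      have : (1 : ℂ) = q - (q - 1) := by ring
      calc ‖(1 : ℂ)‖ = ‖q - (q - 1)‖ := by rw [← this]
        _ ≤ ‖q‖ + ‖q - 1‖ := norm_sub_le _ _
    rw [norm_one] at e1
    linarith
  have hn0 : 0 < ‖q‖ := by linarith
  have hq0 : q ≠ 0 := norm_pos_iff.1 hn0
  have hsq : Complex.normSq q = ‖q‖ ^ 2 := Complex.normSq_eq_norm_sq q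
  have hsq2 : ‖q‖ ^ 2 = q.re ^ 2 + q.im ^ 2 := by
    rw [← hsq, Complex.normSq_apply]; ring
  have him : ((e : ℂ) / q).im = -(e * q.im) / ‖q‖ ^ 2 := by
    rw [Complex.div_im, hsq]
    simp
    ring
  have hre : ((e : ℂ) / q).re = e * q.re / ‖q‖ ^ 2 := by
    rw [Complex.div_re, hsq]
    simp
  have hn2 : 16 / 25 ≤ ‖q‖ ^ 2 := by nlinarith
  have hrele := Complex.abs_re_le_norm q
  have him2 : q.im ^ 2 ≤ (24 / 125) ^ 2 * δ := by
    have : |q.im| ^ 2 ≤ (24 / 125 * τ) ^ 2 := by gcongr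
    rw [sq_abs] at this
    rw [hδ]
    nlinarith
  have h3' := abs_le.1 h3
  refine ⟨hq0, ?_, ?_, ?_, ?_⟩
  · rw [norm_div, Complex.norm_real, Real.norm_of_nonneg he0.le, div_le_iff₀ hn0]
    nlinarith
  · rw [him, abs_div, abs_neg, abs_mul, abs_of_pos he0, abs_of_pos (by positivity : 0 < ‖q‖ ^ 2),
      div_le_iff₀ (by positivity)]
    calc e * |q.im| ≤ 1 / 32 * (24 / 125 * τ) := by gcongr
      _ = 5 / 128 * (6 / 25 * τ) * (16 / 25) := by ring
      _ ≤ _ := by gcongr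
  · have hQ0 : 0 < Q := by linarith
    have e1 : ((e : ℂ) / q).re - e / Q = e * (q.re * (Q - q.re) - q.im ^ 2) / (‖q‖ ^ 2 * Q) := by
      rw [hre, div_sub_div _ _ (by positivity) hQ0.ne']
      congr 1
      rw [hsq2]
      ring
    rw [e1, abs_div, abs_mul, abs_of_pos he0, abs_of_pos (by positivity : 0 < ‖q‖ ^ 2 * Q),
      div_le_iff₀ (by positivity)]
    have e2 : |Q - q.re| ≤ 81 / 200 * δ := by
      rw [abs_le]
      constructor <;> linarith
    have e3 : |q.re * (Q - q.re) - q.im ^ 2| ≤ ‖q‖ * (81 / 200 * δ) + (24 / 125) ^ 2 * δ := by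
      refine (abs_sub _ _).trans ?_
      rw [abs_mul, abs_of_nonneg (sq_nonneg q.im)]
      gcongr
    have e4 : ‖q‖ * (81 / 200 * δ) ≤ ‖q‖ ^ 2 * (81 / 160 * δ) := by
      have : ‖q‖ ≤ ‖q‖ ^ 2 * (5 / 4) := by nlinarith
      nlinarith
    have e5 : (24 / 125) ^ 2 * δ ≤ ‖q‖ ^ 2 * ((24 / 125) ^ 2 * (25 / 16) * δ) := by
      nlinarith
    calc e * |q.re * (Q - q.re) - q.im ^ 2|
        ≤ 1 / 32 * (‖q‖ ^ 2 * (81 / 160 * δ) + ‖q‖ ^ 2 * ((24 / 125) ^ 2 * (25 / 16) * δ)) := by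
          have := e3.trans (add_le_add e4 e5)
          gcongr
      _ = ‖q‖ ^ 2 * (1 / 32 * (81 / 160 + (24 / 125) ^ 2 * (25 / 16)) * δ) := by ring
      _ ≤ ‖q‖ ^ 2 * (δ * (5 / 128 * (23 / 50))) := by
          refine mul_le_mul_of_nonneg_left ?_ (by positivity)
          rw [mul_comm δ]
          exact mul_le_mul_of_nonneg_right (by norm_num) hδ0
      _ ≤ δ * (5 / 128 * (23 / 50)) * (‖q‖ ^ 2 * Q) := by
          have : 0 ≤ δ * (5 / 128 * (23 / 50)) * ‖q‖ ^ 2 := by positivity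
          nlinarith
  · have hre0 : 0 ≤ q.re := by
      have := Complex.abs_re_le_norm (q - 1)
      rw [Complex.sub_re, Complex.one_re] at this
      have := (abs_le.1 (this.trans h1)).1
      linarith
    have hQ0 : 0 ≤ Q := by linarith
    have e1 : q.re ≤ Q - 19 / 200 * δ := by linarith
    have e2 : q.re ^ 2 ≤ (Q - 19 / 200 * δ) ^ 2 := by gcongr
    have e3 : ‖q‖ ^ 2 ≤ Q ^ 2 := by
      rw [hsq2]
      have e4 : 0 ≤ δ * (Q - 1) := mul_nonneg hδ0 (by linarith)
      have e5 : 0 ≤ δ * (42 / 121 - δ) := mul_nonneg hδ0 (by linarith)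
      nlinarith
    exact (sq_le_sq₀ (norm_nonneg _) hQ0).1 e3

/-- the state of the induction -/
def St (τ δ : ℝ) (a : ℕ → ℂ) (C : ℕ → ℝ) (i : ℕ) : Prop :=
  a (i + 1) ≠ 0 ∧ ‖a i / a (i + 1)‖ ≤ 5 / 128 ∧ |(a i / a (i + 1)).im| ≤ 5 / 128 * (6 / 25 * τ) ∧
    |(a i / a (i + 1)).re - C i / C (i + 1)| ≤ δ * (5 / 128 * (23 / 50)) ∧ ‖a (i + 1)‖ ≤ C (i + 1)

theorem prodP {δ τ : ℝ} (hτ : 0 ≤ τ) (hδ : δ = τ ^ 2) {a : ℕ → ℂ} {C : ℕ → ℝ}
    (ha0 : a 0 ≠ 0) (hC : ∀ i, 0 < C i) {j : ℕ}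
    (hR : ∀ i < j, C i / C (i + 1) ≤ 5 / 128) (hS : ∀ i < j, St τ δ a C i) :
    ∀ m ≤ j, ‖a (j - m) / a j‖ ≤ (5 / 128) ^ m ∧
      |(a (j - m) / a j).im| ≤ m * (5 / 128) ^ m * (6 / 25 * τ) ∧
      |(a (j - m) / a j).re - C (j - m) / C j| ≤
        δ * ((5 / 128) ^ m * (m * (23 / 50) + m ^ 2 * (18 / 625))) := by
  have hδ0 : 0 ≤ δ := by rw [hδ]; positivity
  have hane : ∀ i ≤ j, a i ≠ 0 := by
    intro i hi
    rcases Nat.eq_zero_or_pos i with rfl | h
    · exact ha0
    · obtain ⟨i', rfl⟩ : ∃ i', i = i' + 1 := ⟨i - 1, by omega⟩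
      exact (hS i' (by omega)).1
  intro m
  induction m with
  | zero =>
    intro _
    simp [hane j le_rfl, (hC j).ne']
  | succ m ih =>
    intro hm
    obtain ⟨i1, i2, i3⟩ := ih (by omega)
    obtain ⟨i, hi⟩ : ∃ i, i = j - (m + 1) := ⟨_, rfl⟩
    have hi1 : j - m = i + 1 := by omega
    have hij : i < j := by omega
    obtain ⟨s1, s2, s3, s4, -⟩ := hS i hij
    have hr := hR i hij
    rw [← hi]
    rw [hi1] at i1 i2 i3
    have hCi := hC i
    have hCi1 := hC (i + 1)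
    have hCj := hC j
    have e1 : a i / a j = (a (i + 1) / a j) * (a i / a (i + 1)) := by
      have := hane j le_rfl
      field_simp
    have e2 : C i / C j = (C (i + 1) / C j) * (C i / C (i + 1)) := by
      field_simp
    rw [e1, e2]
    generalize a (i + 1) / a j = P at i1 i2 i3 ⊢
    generalize a i / a (i + 1) = r at s2 s3 s4 ⊢
    have hR0 : 0 < C i / C (i + 1) := by positivity
    generalize C (i + 1) / C j = P0 at i3 ⊢
    generalize C i / C (i + 1) = R at s4 hr hR0 ⊢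
    have p1 := (Complex.abs_re_le_norm P).trans i1
    have r1 := (Complex.abs_re_le_norm r).trans s2
    have hE : (0 : ℝ) ≤ (5 / 128) ^ m := by positivity
    refine ⟨?_, ?_, ?_⟩
    · rw [norm_mul, pow_succ]
      gcongr
    · rw [Complex.mul_im]
      refine (abs_add_le _ _).trans ?_
      rw [abs_mul, abs_mul]
      calc |P.re| * |r.im| + |P.im| * |r.re|
          ≤ (5 / 128) ^ m * (5 / 128 * (6 / 25 * τ)) +
            (m * (5 / 128) ^ m * (6 / 25 * τ)) * (5 / 128) := by gcongr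
        _ = _ := by push_cast; ring
    · have d : (P * r).re - P0 * R = P.re * (r.re - R) + (P.re - P0) * R - P.im * r.im := by
        rw [Complex.mul_re]
        ring
      rw [d]
      refine (abs_sub _ _).trans ?_
      have f1 := abs_add_le (P.re * (r.re - R)) ((P.re - P0) * R)
      rw [abs_mul, abs_mul, abs_of_pos hR0] at f1
      rw [abs_mul P.im]
      have f2 : |P.re| * |r.re - R| ≤ (5 / 128) ^ m * (δ * (5 / 128 * (23 / 50))) := by gcongr
      have f3 : |P.re - P0| * R ≤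
          (δ * ((5 / 128) ^ m * (m * (23 / 50) + m ^ 2 * (18 / 625)))) * (5 / 128) := by gcongr
      have f4 : |P.im| * |r.im| ≤
          (m * (5 / 128) ^ m * (6 / 25 * τ)) * (5 / 128 * (6 / 25 * τ)) := by gcongr
      have f5 : (m * (5 / 128) ^ m * (6 / 25 * τ)) * (5 / 128 * (6 / 25 * τ)) =
          δ * ((5 / 128) ^ (m + 1) * (m * (36 / 625))) := by
        rw [hδ]; ring
      rw [f5] at f4
      calc |P.re * (r.re - R) + (P.re - P0) * R| + |P.im| * |r.im|
          ≤ (5 / 128) ^ m * (δ * (5 / 128 * (23 / 50))) +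
            (δ * ((5 / 128) ^ m * (m * (23 / 50) + m ^ 2 * (18 / 625)))) * (5 / 128) +
            δ * ((5 / 128) ^ (m + 1) * (m * (36 / 625))) := by linarith
        _ = δ * ((5 / 128) ^ (m + 1) * ((m + 1) * (23 / 50) + (m ^ 2 + 2 * m) * (18 / 625))) := by
            ring
        _ ≤ δ * ((5 / 128) ^ (m + 1) * (((m + 1 : ℕ) : ℝ) * (23 / 50) +
              ((m + 1 : ℕ) : ℝ) ^ 2 * (18 / 625))) := by
            push_cast
            gcongr
            nlinarith

/-- The case of small `δ`. -/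
theorem small {δ τ : ℝ} (hτ : 0 ≤ τ) (hδ : δ = τ ^ 2) (hδ1 : δ ≤ 42 / 121)
    {H : ℕ → ℂ} {H0 : ℕ → ℝ} (hH0 : H 0 = ((4 - δ : ℝ) : ℂ)) (hH00 : H0 0 = 4)
    (hH0m : ∀ m, 0 ≤ H0 m ∧ H0 m ≤ 4)
    (hB : ∀ m, 1 ≤ m → ‖H m‖ ≤ 6 * (7 / 4) ^ m)
    (hX : ∀ m : ℕ, 1 ≤ m → |(H m).re - H0 m| ≤ ((m : ℝ) + 1) ^ 3 * δ)
    (hY : ∀ m : ℕ, 1 ≤ m → |(H m).im| ≤ 17 / 4 * ((m : ℝ) + 1) * (7 / 4) ^ m * τ)
    {p : ℝ} (hp : 0 < p) {a : ℕ → ℂ} {C : ℕ → ℝ} (ha0 : a 0 = 1) (hC0 : C 0 = 1)
    (ha : ∀ j : ℕ, ((j : ℂ) + 1) * a (j + 1) = p * ∑ m ∈ range (j + 1), H m * a (j - m))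
    (hC : ∀ j : ℕ, ((j : ℝ) + 1) * C (j + 1) = p * ∑ m ∈ range (j + 1), H0 m * C (j - m))
    {n : ℕ} (hn : 8 * (n : ℝ) ≤ p) : ‖a n‖ ≤ C n := by
  have hCpos : ∀ i, 0 < C i := by
    intro i
    induction i using Nat.strong_induction_on with
    | _ i ih =>
      rcases Nat.eq_zero_or_pos i with rfl | h
      · rw [hC0]; exact one_pos
      · obtain ⟨j, rfl⟩ : ∃ j, i = j + 1 := ⟨i - 1, by omega⟩
        have h1 := hC j
        rw [sum_range_succ'] at h1
        have h2 : 0 ≤ ∑ m ∈ range j, H0 (m + 1) * C (j - (m + 1)) :=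
          sum_nonneg fun m hm => by
            rw [mem_range] at hm
            exact mul_nonneg (hH0m _).1 (ih _ (by omega)).le
        rw [hH00, Nat.sub_zero] at h1
        have h3 := ih j (by omega)
        have h4 : 0 < ((j : ℝ) + 1) * C (j + 1) := by
          rw [h1]
          have : 0 < 4 * C j := by linarith
          exact mul_pos hp (by linarith)
        exact pos_of_mul_pos_right h4 (by positivity)
  have hR : ∀ i < n, C i / C (i + 1) ≤ 5 / 128 := by
    intro i hi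
    have h1 := hC i
    rw [sum_range_succ', hH00, Nat.sub_zero] at h1
    have h2 : 0 ≤ ∑ m ∈ range i, H0 (m + 1) * C (i - (m + 1)) :=
      sum_nonneg fun m hm => mul_nonneg (hH0m _).1 (hCpos _).le
    have h3 : 4 * p * C i ≤ ((i : ℝ) + 1) * C (i + 1) := by
      rw [h1]
      nlinarith
    have h4 : ((i : ℝ) + 1) ≤ n := by exact_mod_cast hi
    have h5 := hCpos (i + 1)
    have h6 := hCpos i
    rw [div_le_iff₀ h5]
    have h7 : ((i : ℝ) + 1) * C (i + 1) ≤ p / 8 * C (i + 1) := by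
      have : ((i : ℝ) + 1) ≤ p / 8 := by linarith
      gcongr
    have h8 : p * (32 * C i) ≤ p * C (i + 1) := by linarith
    have h9 := le_of_mul_le_mul_left h8 hp
    linarith
  have key : ∀ j, j < n → St τ δ a C j := by
    intro j
    induction j using Nat.strong_induction_on with
    | _ j ih =>
      intro hj
      have hS : ∀ i < j, St τ δ a C i := fun i hi => ih i hi (by omega)
      have hane : ∀ i ≤ j, a i ≠ 0 := by
        intro i hi
        rcases Nat.eq_zero_or_pos i with rfl | h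
        · rw [ha0]; exact one_ne_zero
        · obtain ⟨i', rfl⟩ : ∃ i', i = i' + 1 := ⟨i - 1, by omega⟩
          exact (hS i' (by omega)).1
      have hP := prodP hτ hδ (by rw [ha0]; exact one_ne_zero) hCpos
        (fun i hi => hR i (by omega)) hS
      obtain ⟨q, hq⟩ : ∃ q : ℂ, q = 1 / 4 * (H 0 + ∑ m ∈ range j, H (m + 1) *
        (a (j - (m + 1)) / a j)) := ⟨_, rfl⟩
      obtain ⟨Q, hQ⟩ : ∃ Q : ℝ, Q = 1 / 4 * (4 + ∑ m ∈ range j, H0 (m + 1) *
        (C (j - (m + 1)) / C j)) := ⟨_, rfl⟩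
      obtain ⟨g1, g2, g3, g4⟩ := step (P := fun m => a (j - m) / a j)
        (P0 := fun m => C (j - m) / C j) hτ hδ hδ1 hH0 hH0m hB hX hY
        (fun m hm => (div_pos (hCpos _) (hCpos _)).le) (fun m hm => (hP m hm).1)
        (fun m hm => (hP m hm).2.1) (fun m hm => (hP m hm).2.2) hq hQ
      obtain ⟨e, he⟩ : ∃ e : ℝ, e = ((j : ℝ) + 1) / (4 * p) := ⟨_, rfl⟩
      have he0 : 0 < e := by rw [he]; positivity
      have hjn : ((j : ℝ) + 1) ≤ n := by exact_mod_cast hj
      have he1 : e ≤ 1 / 32 := by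
        rw [he, div_le_iff₀ (by positivity)]
        linarith
      obtain ⟨k1, k2, k3, k4, k5⟩ := qr hτ hδ hδ1 he0 he1 g1 g2 g3 g4
      have haj := hane j le_rfl
      have hpC : (p : ℂ) ≠ 0 := by exact_mod_cast hp.ne'
      have hjC : ((j : ℂ) + 1) ≠ 0 := by exact_mod_cast (Nat.succ_ne_zero j)
      have hqa : ((j : ℂ) + 1) * a (j + 1) = 4 * p * a j * q := by
        rw [ha j, sum_range_succ', Nat.sub_zero, hq]
        have h1 : ∀ m ∈ range j, H (m + 1) * (a (j - (m + 1)) / a j) =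
            H (m + 1) * a (j - (m + 1)) / a j := fun m _ => by ring
        rw [sum_congr rfl h1, ← sum_div]
        field_simp
        ring
      have hQC : ((j : ℝ) + 1) * C (j + 1) = 4 * p * C j * Q := by
        have := (hCpos j).ne'
        rw [hC j, sum_range_succ', Nat.sub_zero, hQ, hH00]
        have h1 : ∀ m ∈ range j, H0 (m + 1) * (C (j - (m + 1)) / C j) =
            H0 (m + 1) * C (j - (m + 1)) / C j := fun m _ => by ring
        rw [sum_congr rfl h1, ← sum_div]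
        field_simp
        ring
      have ha1 : a (j + 1) = a j * (q / e) := by
        rw [he]
        push_cast
        field_simp
        rw [mul_comm, hqa]
        ring
      have hC1 : C (j + 1) = C j * (Q / e) := by
        rw [he]
        field_simp
        rw [mul_comm, hQC]
        ring
      have heC : (e : ℂ) ≠ 0 := by exact_mod_cast he0.ne'
      have hr1 : a j / a (j + 1) = e / q := by
        rw [ha1]
        field_simp
      have hr2 : C j / C (j + 1) = e / Q := by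
        have := (hCpos j).ne'
        have : Q ≠ 0 := by linarith
        rw [hC1]
        field_simp
      refine ⟨?_, ?_, ?_, ?_, ?_⟩
      · rw [ha1]
        exact mul_ne_zero haj (div_ne_zero k1 heC)
      · rw [hr1]; exact k2
      · rw [hr1]; exact k3
      · rw [hr1, hr2]; exact k4
      · rw [ha1, hC1, norm_mul, norm_div, Complex.norm_real, Real.norm_of_nonneg he0.le]
        have h1 : ‖a j‖ ≤ C j := by
          rcases Nat.eq_zero_or_pos j with rfl | h
          · rw [ha0, hC0, norm_one]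
          · obtain ⟨i', rfl⟩ : ∃ i', j = i' + 1 := ⟨j - 1, by omega⟩
            exact (hS i' (by omega)).2.2.2.2
        have h2 := (hCpos j).le
        gcongr
  rcases Nat.eq_zero_or_pos n with rfl | h
  · rw [ha0, hC0, norm_one]
  · obtain ⟨j, rfl⟩ : ∃ j, n = j + 1 := ⟨n - 1, by omega⟩
    exact (key j (by omega)).2.2.2.2

/-- The case of large `δ`. -/
theorem large {δ : ℝ} (hδ1 : 42 / 121 ≤ δ) (hδ4 : δ ≤ 4)
    {H : ℕ → ℂ} {H0 : ℕ → ℝ} (hH0 : H 0 = ((4 - δ : ℝ) : ℂ)) (hH00 : H0 0 = 4)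
    (hH0m : ∀ m, 0 ≤ H0 m ∧ H0 m ≤ 4)
    (hB : ∀ m, 1 ≤ m → ‖H m‖ ≤ 6 * (7 / 4) ^ m)
    {p : ℝ} (hp : 0 < p) {a : ℕ → ℂ} {C : ℕ → ℝ} (ha0 : a 0 = 1) (hC0 : C 0 = 1)
    (ha : ∀ j : ℕ, ((j : ℂ) + 1) * a (j + 1) = p * ∑ m ∈ range (j + 1), H m * a (j - m))
    (hC : ∀ j : ℕ, ((j : ℝ) + 1) * C (j + 1) = p * ∑ m ∈ range (j + 1), H0 m * C (j - m))
    {n : ℕ} (hn : 8 * (n : ℝ) ≤ p) : ‖a n‖ ≤ C n := by
  obtain ⟨T, hT0, hT⟩ : ∃ T : ℕ → ℝ, T 0 = 1 ∧ ∀ j : ℕ, ((j : ℝ) + 1) * T (j + 1) = 4 * p * T j := by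
    refine ⟨fun j => (4 * p) ^ j / (j.factorial : ℝ), by simp, fun j => ?_⟩
    simp only [Nat.factorial_succ]
    push_cast
    field_simp
    ring
  have hTpos : ∀ i, 0 < T i := by
    intro i
    induction i with
    | zero => rw [hT0]; exact one_pos
    | succ i ih =>
      have h1 := hT i
      have h2 : 0 < ((i : ℝ) + 1) * T (i + 1) := by rw [h1]; positivity
      exact pos_of_mul_pos_right h2 (by positivity)
  have hTr : ∀ i < n, T i ≤ 1 / 32 * T (i + 1) := by
    intro i hi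
    have h1 := hT i
    have h4 : ((i : ℝ) + 1) ≤ n := by exact_mod_cast hi
    have h5 := hTpos (i + 1)
    have h7 : ((i : ℝ) + 1) * T (i + 1) ≤ p / 8 * T (i + 1) := by
      have : ((i : ℝ) + 1) ≤ p / 8 := by linarith
      gcongr
    have h8 : p * (32 * T i) ≤ p * T (i + 1) := by linarith
    have h9 := le_of_mul_le_mul_left h8 hp
    linarith
  have hTm : ∀ j ≤ n, ∀ m ≤ j, T (j - m) ≤ (1 / 32) ^ m * T j := by
    intro j hj m
    induction m with
    | zero => intro _; simp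
    | succ m ih =>
      intro hm
      have h1 := ih (by omega)
      have h2 := hTr (j - (m + 1)) (by omega)
      have h3 : j - (m + 1) + 1 = j - m := by omega
      rw [h3] at h2
      calc T (j - (m + 1)) ≤ 1 / 32 * T (j - m) := h2
        _ ≤ 1 / 32 * ((1 / 32) ^ m * T j) := by gcongr
        _ = _ := by ring
  have hCT : ∀ j, T j ≤ C j ∧ 0 < C j := by
    intro j
    induction j using Nat.strong_induction_on with
    | _ j ih =>
      rcases Nat.eq_zero_or_pos j with rfl | h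
      · rw [hT0, hC0]; exact ⟨le_rfl, one_pos⟩
      · obtain ⟨i, rfl⟩ : ∃ i, j = i + 1 := ⟨j - 1, by omega⟩
        have h1 := hC i
        rw [sum_range_succ', hH00, Nat.sub_zero] at h1
        have h2 : 0 ≤ ∑ m ∈ range i, H0 (m + 1) * C (i - (m + 1)) :=
          sum_nonneg fun m hm => by
            rw [mem_range] at hm
            exact mul_nonneg (hH0m _).1 (ih _ (by omega)).2.le
        have h3 : 4 * p * C i ≤ ((i : ℝ) + 1) * C (i + 1) := by
          rw [h1]
          nlinarith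
        have h4 := ih i (by omega)
        have h5 : ((i : ℝ) + 1) * T (i + 1) ≤ ((i : ℝ) + 1) * C (i + 1) := by
          rw [hT i]
          refine le_trans ?_ h3
          have := h4.1
          gcongr
        have h6 := le_of_mul_le_mul_left h5 (by positivity)
        exact ⟨h6, lt_of_lt_of_le (hTpos _) h6⟩
  have hsum : ∀ j : ℕ, ∑ m ∈ range j, (7 / 128 : ℝ) ^ (m + 1) ≤ 7 / 121 := by
    intro j
    have := geo_sum (c := fun m => (7 / 128 : ℝ) ^ m) (ρ := 7 / 128) (by norm_num) (by norm_num)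
      (by norm_num) (fun m => le_of_eq (by ring)) j
    refine this.trans (le_of_eq ?_)
    norm_num
  have key : ∀ j ≤ n, ‖a j‖ ≤ T j := by
    intro j
    induction j using Nat.strong_induction_on with
    | _ j ih =>
      intro hj
      rcases Nat.eq_zero_or_pos j with rfl | h
      · rw [ha0, hT0, norm_one]
      · obtain ⟨i, rfl⟩ : ∃ i, j = i + 1 := ⟨j - 1, by omega⟩
        have h1 := ha i
        rw [sum_range_succ', Nat.sub_zero, hH0] at h1
        have h2 : ‖((i : ℂ) + 1) * a (i + 1)‖ = ((i : ℝ) + 1) * ‖a (i + 1)‖ := by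
          rw [norm_mul]
          congr 1
          have : ((i : ℂ) + 1) = (((i : ℝ) + 1 : ℝ) : ℂ) := by push_cast; ring
          rw [this, Complex.norm_real, Real.norm_of_nonneg (by positivity)]
        have hTi := hTpos i
        have h3 : ‖∑ m ∈ range i, H (m + 1) * a (i - (m + 1))‖ ≤ 42 / 121 * T i := by
          calc ‖∑ m ∈ range i, H (m + 1) * a (i - (m + 1))‖
              ≤ ∑ m ∈ range i, 6 * T i * (7 / 128 : ℝ) ^ (m + 1) := by
                refine norm_sum_le_of_le _ fun m hm => ?_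
                rw [mem_range] at hm
                rw [norm_mul]
                have e1 := hB (m + 1) (by omega)
                have e2 := (ih (i - (m + 1)) (by omega) (by omega)).trans
                  (hTm i (by omega) (m + 1) (by omega))
                have e3 : (7 / 128 : ℝ) ^ (m + 1) = (7 / 4) ^ (m + 1) * (1 / 32) ^ (m + 1) := by
                  rw [← mul_pow]
                  norm_num
                rw [e3]
                calc ‖H (m + 1)‖ * ‖a (i - (m + 1))‖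
                    ≤ (6 * (7 / 4) ^ (m + 1)) * ((1 / 32) ^ (m + 1) * T i) := by gcongr
                  _ = _ := by ring
            _ = 6 * T i * ∑ m ∈ range i, (7 / 128 : ℝ) ^ (m + 1) := by rw [Finset.mul_sum]
            _ ≤ 6 * T i * (7 / 121) := by
                have := hsum i
                gcongr
            _ = _ := by ring
        have h4 : ‖((4 - δ : ℝ) : ℂ) * a i‖ ≤ (4 - 42 / 121) * T i := by
          rw [norm_mul, Complex.norm_real, Real.norm_of_nonneg (by linarith)]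
          have := ih i (by omega) (by omega)
          have : (0 : ℝ) ≤ 4 - δ := by linarith
          gcongr
        have h5 : ((i : ℝ) + 1) * ‖a (i + 1)‖ ≤ ((i : ℝ) + 1) * T (i + 1) := by
          rw [← h2, h1, norm_mul, Complex.norm_real, Real.norm_of_nonneg hp.le, hT i]
          have h6 := (norm_add_le (∑ m ∈ range i, H (m + 1) * a (i - (m + 1)))
            (((4 - δ : ℝ) : ℂ) * a i)).trans (add_le_add h3 h4)
          calc p * ‖(∑ m ∈ range i, H (m + 1) * a (i - (m + 1))) + ((4 - δ : ℝ) : ℂ) * a i‖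
              ≤ p * (42 / 121 * T i + (4 - 42 / 121) * T i) := by gcongr
            _ = _ := by ring
        exact le_of_mul_le_mul_left h5 (by positivity)
  exact (key n le_rfl).trans (hCT n).1

end Pool.Agent.Helper854_CM.FD
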