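import Mathlib
import Pool.Agent.H821R3.Wirt

/-!
An isoperimetric inequality for closed curves on the Riemann sphere, proved with a gauge
transformation and Wirtinger's inequality for antiperiodic functions.
-/

set_option autoImplicit false

open MeasureTheory Filter Topology Complex

noncomputable section

namespace Pool.Agent.Helper854_CM

theorem wirt_pair (f g f' g' : ℝ → ℝ) (hf : ∀ x, HasDerivAt f (f' x) x)
    (hg : ∀ x, HasDerivAt g (g' x) x) (hf' : Continuous f') (hg' : Continuous g')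
    (pf : ∀ x, f (x + 2 * Real.pi) = f x) (pg : ∀ x, g (x + 2 * Real.pi) = g x) :
    0 ≤ ∫ x in (0 : ℝ)..(2 * Real.pi),
      ((f' x - (1 / 2) * g x) ^ 2 + (g' x + (1 / 2) * f x) ^ 2 - (1 / 4) * (f x ^ 2 + g x ^ 2)) := by
  have hpi := Real.pi_pos
  have hfc : Continuous f := continuous_iff_continuousAt.2 fun x => (hf x).continuousAt
  have hgc : Continuous g := continuous_iff_continuousAt.2 fun x => (hg x).continuousAt
  have pf' : ∀ x, f' (x + 2 * Real.pi) = f' x := by
    intro x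
    have h1 : HasDerivAt (fun y => f (y + 2 * Real.pi)) (f' (x + 2 * Real.pi)) x :=
      (hf (x + 2 * Real.pi)).comp_add_const x (2 * Real.pi)
    rw [funext pf] at h1
    exact h1.unique (hf x)
  have hw := Pool.Agent.H821R3.wirtinger f f' hf hf' pf pf'
  set T : ℝ := 2 * Real.pi with hT
  have hT0 : 0 < T := by positivity
  set m : ℝ := 1 / T * ∫ θ in (0 : ℝ)..T, f θ with hm
  have e1 : ∫ x in (0 : ℝ)..T, (f' x * g x + f x * g' x) = 0 := by
    have h1 : ∀ x ∈ Set.uIcc (0 : ℝ) T, HasDerivAt (fun y => f y * g y)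
        (f' x * g x + f x * g' x) x := fun x _ => (hf x).mul (hg x)
    rw [intervalIntegral.integral_eq_sub_of_hasDerivAt h1
      (((hf'.mul hgc).add (hfc.mul hg')).intervalIntegrable _ _)]
    have h2 := pf 0
    have h3 := pg 0
    rw [zero_add] at h2 h3
    rw [h2, h3, sub_self]
  have e2 : ∫ x in (0 : ℝ)..T, g' x = 0 := by
    rw [intervalIntegral.integral_eq_sub_of_hasDerivAt (fun x _ => hg x)
      (hg'.intervalIntegrable _ _)]
    have h3 := pg 0
    rw [zero_add] at h3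
    rw [h3, sub_self]
  have e3 : ∫ x in (0 : ℝ)..T, (f' x ^ 2 - (f x - m) ^ 2) =
      (∫ x in (0 : ℝ)..T, f' x ^ 2) + 1 / T * (∫ x in (0 : ℝ)..T, f x) ^ 2 -
        ∫ x in (0 : ℝ)..T, f x ^ 2 := by
    have h1 : ∀ x, f' x ^ 2 - (f x - m) ^ 2 = ((f' x ^ 2 - f x ^ 2) + (2 * m) * f x) - m ^ 2 := by
      intro x; ring
    rw [intervalIntegral.integral_congr (fun x _ => h1 x),
      intervalIntegral.integral_sub, intervalIntegral.integral_add, intervalIntegral.integral_sub,
      intervalIntegral.integral_const_mul, intervalIntegral.integral_const, sub_zero, smul_eq_mul]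
    · have h2 : ∫ θ in (0 : ℝ)..T, f θ = T * m := by
        rw [hm]
        field_simp
      rw [h2]
      field_simp
      ring
    · exact (hf'.pow 2).intervalIntegrable _ _
    · exact (hfc.pow 2).intervalIntegrable _ _
    · exact ((hf'.pow 2).sub (hfc.pow 2)).intervalIntegrable _ _
    · exact (hfc.const_mul _).intervalIntegrable _ _
    · exact (((hf'.pow 2).sub (hfc.pow 2)).add (hfc.const_mul _)).intervalIntegrable _ _
    · exact continuous_const.intervalIntegrable _ _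
  have e4 : ∀ x, ((f' x - (1 / 2) * g x) ^ 2 + (g' x + (1 / 2) * f x) ^ 2 -
      (1 / 4) * (f x ^ 2 + g x ^ 2)) = (((g' x + (f x - m)) ^ 2 + (f' x ^ 2 - (f x - m) ^ 2)) -
        (f' x * g x + f x * g' x)) + (2 * m) * g' x := by
    intro x; ring
  rw [intervalIntegral.integral_congr (fun x _ => e4 x), intervalIntegral.integral_add,
    intervalIntegral.integral_sub, intervalIntegral.integral_add,
    intervalIntegral.integral_const_mul, e1, e2, e3]
  · have h1 : 0 ≤ ∫ x in (0 : ℝ)..T, (g' x + (f x - m)) ^ 2 :=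
      intervalIntegral.integral_nonneg hT0.le fun x _ => sq_nonneg _
    linarith
  · exact ((hg'.add (hfc.sub continuous_const)).pow 2).intervalIntegrable _ _
  · exact ((hf'.pow 2).sub ((hfc.sub continuous_const).pow 2)).intervalIntegrable _ _
  · exact (((hg'.add (hfc.sub continuous_const)).pow 2).add
      ((hf'.pow 2).sub ((hfc.sub continuous_const).pow 2))).intervalIntegrable _ _
  · exact ((hf'.mul hgc).add (hfc.mul hg')).intervalIntegrable _ _
  · exact ((((hg'.add (hfc.sub continuous_const)).pow 2).add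
      ((hf'.pow 2).sub ((hfc.sub continuous_const).pow 2))).sub
        ((hf'.mul hgc).add (hfc.mul hg'))).intervalIntegrable _ _
  · exact (hg'.const_mul _).intervalIntegrable _ _

theorem nsq (z : ℂ) : ‖z‖ ^ 2 = z.re ^ 2 + z.im ^ 2 := by
  rw [← Complex.normSq_eq_norm_sq, Complex.normSq_apply]
  ring

theorem algKey (g g' : ℂ) (R R' A x lam : ℝ) (hr : R ^ 2 * (1 + ‖g‖ ^ 2) = 1)
    (hA : A = (g' * (starRingEnd ℂ) g).im * R ^ 2)
    (hR' : R' = -(g' * (starRingEnd ℂ) g).re * R ^ 3) (hx : x = A - lam + 1 / 2) :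
    (‖(R' : ℂ) - (x : ℂ) * (R : ℂ) * I‖ ^ 2 - (1 / 4) * ‖(R : ℂ)‖ ^ 2) +
      (‖(R' : ℂ) * g + (R : ℂ) * g' - (x : ℂ) * (R : ℂ) * I * g‖ ^ 2 -
        (1 / 4) * ‖(R : ℂ) * g‖ ^ 2) = ‖g'‖ ^ 2 * R ^ 4 - lam * (1 - lam) := by
  simp only [nsq] at hr ⊢
  obtain ⟨a, b⟩ := g
  obtain ⟨c, d⟩ := g'
  simp at hr hA hR' ⊢
  subst hx hA hR'
  linear_combination ((c * a + d * b) ^ 2 * R ^ 4 + ((-(c * b) + d * a) * R ^ 2 - lam + 1 / 2) ^ 2 -
    1 / 4 - R ^ 2 * (c ^ 2 + d ^ 2)) * hr

/-- The complex form of the inequality for antiperiodic functions. -/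
theorem wirtC (R R' : ℝ → ℂ) (hR : ∀ x, HasDerivAt R (R' x) x) (hR' : Continuous R')
    (pR : ∀ x, R (x + 2 * Real.pi) = R x) :
    0 ≤ ∫ x in (0 : ℝ)..(2 * Real.pi), (‖R' x - (I / 2) * R x‖ ^ 2 - (1 / 4) * ‖R x‖ ^ 2) := by
  have hre : ∀ x, HasDerivAt (fun y => (R y).re) ((R' x).re) x := fun x => by
    exact Complex.reCLM.hasFDerivAt.comp_hasDerivAt x (hR x)
  have him : ∀ x, HasDerivAt (fun y => (R y).im) ((R' x).im) x := fun x => by
    exact Complex.imCLM.hasFDerivAt.comp_hasDerivAt x (hR x)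
  have h := wirt_pair (fun y => (R y).im) (fun y => (R y).re) (fun y => (R' y).im)
    (fun y => (R' y).re) him hre (Complex.continuous_im.comp hR') (Complex.continuous_re.comp hR')
    (fun x => by simp only [pR]) (fun x => by simp only [pR])
  refine h.trans (le_of_eq (intervalIntegral.integral_congr fun x _ => ?_))
  simp only [nsq]
  simp
  ring

/-- A closed curve `γ` of winding area `lam` (as a fraction of the sphere) satisfies
`lam (1 - lam) ≤` mean of the square of the spherical speed. -/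
theorem loop (γ γ' : ℝ → ℂ) (hγ : ∀ x, HasDerivAt γ (γ' x) x) (hc : Continuous γ')
    (per : ∀ x, γ (x + 2 * Real.pi) = γ x) (lam : ℝ)
    (hlam : ∫ x in (0 : ℝ)..(2 * Real.pi), (γ' x * (starRingEnd ℂ) (γ x)).im / (1 + ‖γ x‖ ^ 2)
      = 2 * Real.pi * lam) :
    2 * Real.pi * (lam * (1 - lam)) ≤
      ∫ x in (0 : ℝ)..(2 * Real.pi), ‖γ' x‖ ^ 2 / (1 + ‖γ x‖ ^ 2) ^ 2 := by
  have hpi := Real.pi_pos
  have hγc : Continuous γ := continuous_iff_continuousAt.2 fun x => (hγ x).continuousAt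
  have per' : ∀ x, γ' (x + 2 * Real.pi) = γ' x := by
    intro x
    have h1 : HasDerivAt (fun y => γ (y + 2 * Real.pi)) (γ' (x + 2 * Real.pi)) x :=
      (hγ (x + 2 * Real.pi)).comp_add_const x (2 * Real.pi)
    rw [funext per] at h1
    exact h1.unique (hγ x)
  -- the connection form
  obtain ⟨A, hA⟩ : ∃ A : ℝ → ℝ, ∀ x, A x = (γ' x * (starRingEnd ℂ) (γ x)).im / (1 + ‖γ x‖ ^ 2) :=
    ⟨_, fun x => rfl⟩
  obtain ⟨N, hN⟩ : ∃ N : ℝ → ℝ, ∀ x, N x = 1 + ‖γ x‖ ^ 2 := ⟨_, fun x => rfl⟩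
  have hNpos : ∀ x, 0 < N x := fun x => by rw [hN]; positivity
  have hNc : Continuous N := by
    rw [funext hN]; fun_prop
  have hAc : Continuous A := by
    rw [funext hA]
    refine Continuous.div ?_ (by fun_prop) fun x => by positivity
    exact Complex.continuous_im.comp (hc.mul (Complex.continuous_conj.comp hγc))
  have hAper : ∀ x, A (x + 2 * Real.pi) = A x := fun x => by rw [hA, hA, per, per']
  -- the gauge
  obtain ⟨Psi, hPsi⟩ : ∃ Psi : ℝ → ℝ, ∀ x, Psi x = ∫ s in (0 : ℝ)..x, (A s - lam) :=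
    ⟨_, fun x => rfl⟩
  have hPd : ∀ x, HasDerivAt Psi (A x - lam) x := by
    intro x
    rw [funext hPsi]
    exact intervalIntegral.integral_hasDerivAt_right
      ((hAc.sub continuous_const).intervalIntegrable _ _)
      ((hAc.sub continuous_const).stronglyMeasurableAtFilter _ _)
      (hAc.sub continuous_const).continuousAt
  have hPper : ∀ x, Psi (x + 2 * Real.pi) = Psi x := by
    intro x
    have h1 : Psi (x + 2 * Real.pi) - Psi x = ∫ s in x..(x + 2 * Real.pi), (A s - lam) := by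
      rw [hPsi, hPsi, intervalIntegral.integral_interval_sub_left]
      · exact (hAc.sub continuous_const).intervalIntegrable _ _
      · exact (hAc.sub continuous_const).intervalIntegrable _ _
    have h2 : ∫ s in x..(x + 2 * Real.pi), (A s - lam) =
        ∫ s in (0 : ℝ)..(0 + 2 * Real.pi), (A s - lam) := by
      refine Function.Periodic.intervalIntegral_add_eq ?_ x 0
      intro y
      simp only [hAper]
    have h3 : ∫ s in (0 : ℝ)..(0 + 2 * Real.pi), (A s - lam) = 0 := by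
      rw [zero_add, intervalIntegral.integral_sub (hAc.intervalIntegrable _ _)
        (continuous_const.intervalIntegrable _ _), intervalIntegral.integral_const]
      have : ∫ x in (0 : ℝ)..(2 * Real.pi), A x = 2 * Real.pi * lam := by
        rw [← hlam]
        exact intervalIntegral.integral_congr fun x _ => hA x
      rw [this]
      simp
    linarith
  -- the normalising factor
  obtain ⟨rho, hrho⟩ : ∃ rho : ℝ → ℝ, ∀ x, rho x = (Real.sqrt (N x))⁻¹ := ⟨_, fun x => rfl⟩
  obtain ⟨N', hN'⟩ : ∃ N' : ℝ → ℝ, ∀ x, N' x = 2 * (γ' x * (starRingEnd ℂ) (γ x)).re :=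
    ⟨_, fun x => rfl⟩
  have hNd : ∀ x, HasDerivAt N (N' x) x := by
    intro x
    rw [funext hN]
    have h1 := (hγ x).norm_sq
    have h2 : N' x = 2 * inner ℝ (γ x) (γ' x) := by
      rw [hN', Complex.inner]
    rw [h2]
    exact h1.const_add 1
  have hN'c : Continuous N' := by
    rw [funext hN']
    exact continuous_const.mul (Complex.continuous_re.comp
      (hc.mul (Complex.continuous_conj.comp hγc)))
  obtain ⟨rho', hrho'⟩ : ∃ rho' : ℝ → ℝ, ∀ x, rho' x = -(N' x / (2 * Real.sqrt (N x))) / N x :=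
    ⟨_, fun x => rfl⟩
  have hrd : ∀ x, HasDerivAt rho (rho' x) x := by
    intro x
    rw [funext hrho]
    have h1 := ((hNd x).sqrt (hNpos x).ne').inv (Real.sqrt_pos.2 (hNpos x)).ne'
    refine h1.congr_deriv ?_
    rw [hrho', Real.sq_sqrt (hNpos x).le]
  have hrc : Continuous rho := continuous_iff_continuousAt.2 fun x => (hrd x).continuousAt
  have hr'c : Continuous rho' := by
    rw [funext hrho']
    refine Continuous.div (Continuous.neg (Continuous.div hN'c (by fun_prop) fun x => ?_)) hNc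
      fun x => (hNpos x).ne'
    have := Real.sqrt_pos.2 (hNpos x)
    positivity
  -- the two components
  obtain ⟨E, hE⟩ : ∃ E : ℝ → ℂ, ∀ x, E x = cexp (((-Psi x : ℝ) : ℂ) * I) := ⟨_, fun x => rfl⟩
  have hEd : ∀ x, HasDerivAt E (E x * (((-(A x - lam) : ℝ) : ℂ) * I)) x := by
    intro x
    rw [funext hE]
    have h1 : HasDerivAt (fun y => ((-Psi y : ℝ) : ℂ)) ((-(A x - lam) : ℝ) : ℂ) x :=
      ((hPd x).neg).ofReal_comp
    exact (h1.mul_const I).cexp
  have hEn : ∀ x, ‖E x‖ = 1 := fun x => by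
    rw [hE, Complex.norm_exp_ofReal_mul_I]
  have hEc : Continuous E := continuous_iff_continuousAt.2 fun x => (hEd x).continuousAt
  have hEper : ∀ x, E (x + 2 * Real.pi) = E x := fun x => by rw [hE, hE, hPper]
  have hNper : ∀ x, N (x + 2 * Real.pi) = N x := fun x => by rw [hN, hN, per]
  have hrper : ∀ x, rho (x + 2 * Real.pi) = rho x := fun x => by rw [hrho, hrho, hNper]
  have d1 : ∀ x, HasDerivAt (fun y => E y * (rho y : ℂ))
      (E x * (((-(A x - lam) : ℝ) : ℂ) * I) * (rho x : ℂ) + E x * (rho' x : ℂ)) x :=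
    fun x => (hEd x).mul (hrd x).ofReal_comp
  have d2 : ∀ x, HasDerivAt (fun y => E y * (rho y : ℂ) * γ y)
      ((E x * (((-(A x - lam) : ℝ) : ℂ) * I) * (rho x : ℂ) + E x * (rho' x : ℂ)) * γ x +
        E x * (rho x : ℂ) * γ' x) x :=
    fun x => (d1 x).mul (hγ x)
  have c1 : Continuous fun x => (E x * (((-(A x - lam) : ℝ) : ℂ) * I) * (rho x : ℂ) +
      E x * (rho' x : ℂ)) := by fun_prop
  have c2 : Continuous fun x => ((E x * (((-(A x - lam) : ℝ) : ℂ) * I) * (rho x : ℂ) +
      E x * (rho' x : ℂ)) * γ x + E x * (rho x : ℂ) * γ' x) := by fun_prop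
  have w1 := wirtC _ _ d1 c1 (fun x => by simp only [hEper, hrper])
  have w2 := wirtC _ _ d2 c2 (fun x => by simp only [hEper, hrper, per])
  have hcont1 : Continuous fun x => (‖(E x * (((-(A x - lam) : ℝ) : ℂ) * I) * (rho x : ℂ) +
      E x * (rho' x : ℂ)) - (I / 2) * (E x * (rho x : ℂ))‖ ^ 2 -
        (1 / 4) * ‖E x * (rho x : ℂ)‖ ^ 2) := by fun_prop
  have hcont2 : Continuous fun x => (‖((E x * (((-(A x - lam) : ℝ) : ℂ) * I) * (rho x : ℂ) +
      E x * (rho' x : ℂ)) * γ x + E x * (rho x : ℂ) * γ' x) -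
        (I / 2) * (E x * (rho x : ℂ) * γ x)‖ ^ 2 -
        (1 / 4) * ‖E x * (rho x : ℂ) * γ x‖ ^ 2) := by fun_prop
  have hsum := add_nonneg w1 w2
  rw [← intervalIntegral.integral_add (hcont1.intervalIntegrable _ _)
    (hcont2.intervalIntegrable _ _)] at hsum
  have key : ∀ x, (‖(E x * (((-(A x - lam) : ℝ) : ℂ) * I) * (rho x : ℂ) +
      E x * (rho' x : ℂ)) - (I / 2) * (E x * (rho x : ℂ))‖ ^ 2 -
        (1 / 4) * ‖E x * (rho x : ℂ)‖ ^ 2) +
      (‖((E x * (((-(A x - lam) : ℝ) : ℂ) * I) * (rho x : ℂ) +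
      E x * (rho' x : ℂ)) * γ x + E x * (rho x : ℂ) * γ' x) -
        (I / 2) * (E x * (rho x : ℂ) * γ x)‖ ^ 2 -
        (1 / 4) * ‖E x * (rho x : ℂ) * γ x‖ ^ 2) =
      ‖γ' x‖ ^ 2 / (1 + ‖γ x‖ ^ 2) ^ 2 - lam * (1 - lam) := by
    intro x
    have f1 : (E x * (((-(A x - lam) : ℝ) : ℂ) * I) * (rho x : ℂ) +
      E x * (rho' x : ℂ)) - (I / 2) * (E x * (rho x : ℂ)) =
        E x * ((rho' x : ℂ) - ((A x - lam + 1 / 2 : ℝ) : ℂ) * (rho x : ℂ) * I) := by
      push_cast; ring
    have f2 : ((E x * (((-(A x - lam) : ℝ) : ℂ) * I) * (rho x : ℂ) +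
      E x * (rho' x : ℂ)) * γ x + E x * (rho x : ℂ) * γ' x) -
        (I / 2) * (E x * (rho x : ℂ) * γ x) =
        E x * ((rho' x : ℂ) * γ x + (rho x : ℂ) * γ' x -
          ((A x - lam + 1 / 2 : ℝ) : ℂ) * (rho x : ℂ) * I * γ x) := by
      push_cast; ring
    rw [f1, f2]
    have hsq : Real.sqrt (N x) ^ 2 = N x := Real.sq_sqrt (hNpos x).le
    have hsp := Real.sqrt_pos.2 (hNpos x)
    have hrr : rho x ^ 2 * N x = 1 := by
      rw [hrho, inv_pow, hsq, inv_mul_cancel₀ (hNpos x).ne']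
    have hr' : rho' x = -(γ' x * (starRingEnd ℂ) (γ x)).re * rho x ^ 3 := by
      have h3 : rho x ^ 3 = (Real.sqrt (N x))⁻¹ / N x := by
        rw [pow_succ, hrho, inv_pow, hsq]
        field_simp
      rw [h3, hrho', hN']
      field_simp
    have hAN : A x = (γ' x * (starRingEnd ℂ) (γ x)).im * rho x ^ 2 := by
      rw [hA, hrho, inv_pow, hsq, hN]
      rfl
    have hsplit : ‖γ' x‖ ^ 2 / (1 + ‖γ x‖ ^ 2) ^ 2 = ‖γ' x‖ ^ 2 * rho x ^ 4 := by
      have h4 : rho x ^ 4 = ((N x) ^ 2)⁻¹ := by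
        rw [show rho x ^ 4 = (rho x ^ 2) ^ 2 by ring, hrho, inv_pow, hsq, inv_pow]
      rw [h4, hN]
      rfl
    rw [hsplit, ← algKey (γ x) (γ' x) (rho x) (rho' x) (A x) (A x - lam + 1 / 2) lam
      (by rw [← hN]; exact hrr) hAN hr' rfl]
    simp only [norm_mul, hEn, one_mul]
  rw [intervalIntegral.integral_congr (fun x _ => key x)] at hsum
  rw [intervalIntegral.integral_sub, intervalIntegral.integral_const] at hsum
  · simp at hsum ⊢
    linarith
  · refine Continuous.intervalIntegrable ?_ _ _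
    refine Continuous.div (by fun_prop) (by fun_prop) fun x => by positivity
  · exact continuous_const.intervalIntegrable _ _

end Pool.Agent.Helper854_CM
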