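import Mathlib
import Pool.Agent.Helper854_CM.Loop

/-!
The spherical area of a holomorphic function on concentric discs: derivative formula and the
differential inequality of Dufresnoy.
-/

set_option autoImplicit false

open MeasureTheory Filter Topology Complex Set Metric

noncomputable section

namespace Pool.Agent.Helper854_CM

/-- polar coordinates -/
def zz (r θ : ℝ) : ℂ := (r : ℂ) * cexp (θ * I)

theorem norm_zz (r θ : ℝ) : ‖zz r θ‖ = |r| := by
  rw [zz, norm_mul, Complex.norm_exp_ofReal_mul_I, mul_one, Complex.norm_real, Real.norm_eq_abs]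

theorem zz_mem {r : ℝ} (hr : r ∈ Ioo (-1 : ℝ) 1) (θ : ℝ) : zz r θ ∈ ball (0 : ℂ) 1 := by
  rw [mem_ball_zero_iff, norm_zz, abs_lt]
  exact hr

theorem zz_per (r θ : ℝ) : zz r (θ + 2 * Real.pi) = zz r θ := by
  unfold zz
  congr 1
  have : ((θ + 2 * Real.pi : ℝ) : ℂ) * I = θ * I + 2 * Real.pi * I := by push_cast; ring
  rw [this, Complex.exp_periodic]

theorem zz_dr (r θ : ℝ) : HasDerivAt (fun r : ℝ => zz r θ) (cexp (θ * I)) r := by
  unfold zz
  have h := (HasDerivAt.ofReal_comp (hasDerivAt_id r)).mul_const (cexp (θ * I))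
  simpa using h

theorem zz_dt (r θ : ℝ) : HasDerivAt (fun θ : ℝ => zz r θ) (I * zz r θ) θ := by
  unfold zz
  have h1 : HasDerivAt (fun θ : ℝ => ((θ : ℝ) : ℂ) * I) (1 * I) θ :=
    (HasDerivAt.ofReal_comp (hasDerivAt_id θ)).mul_const I
  have h2 := (h1.cexp).const_mul (r : ℂ)
  refine h2.congr_deriv ?_
  ring

theorem zz_cont : Continuous fun p : ℝ × ℝ => zz p.1 p.2 := by
  unfold zz
  fun_prop

section
variable {G : ℂ → ℂ} (hG : DifferentiableOn ℂ G (ball 0 1))
include hG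

theorem G_dr {r : ℝ} (hr : r ∈ Ioo (-1 : ℝ) 1) (θ : ℝ) :
    HasDerivAt (fun r : ℝ => G (zz r θ)) (deriv G (zz r θ) * cexp (θ * I)) r := by
  have h1 : HasDerivAt G (deriv G (zz r θ)) (zz r θ) :=
    (hG.differentiableAt (isOpen_ball.mem_nhds (zz_mem hr θ))).hasDerivAt
  exact h1.comp r (zz_dr r θ)

theorem G_dt {r : ℝ} (hr : r ∈ Ioo (-1 : ℝ) 1) (θ : ℝ) :
    HasDerivAt (fun θ : ℝ => G (zz r θ)) (deriv G (zz r θ) * (I * zz r θ)) θ := by
  have h1 : HasDerivAt G (deriv G (zz r θ)) (zz r θ) :=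
    (hG.differentiableAt (isOpen_ball.mem_nhds (zz_mem hr θ))).hasDerivAt
  exact h1.comp θ (zz_dt r θ)

theorem G_cont : ContinuousOn (fun p : ℝ × ℝ => G (zz p.1 p.2)) (Ioo (-1 : ℝ) 1 ×ˢ univ) :=
  hG.continuousOn.comp zz_cont.continuousOn fun p hp => zz_mem hp.1 p.2

end

/-- numerator -/
def num (G : ℂ → ℂ) (r θ : ℝ) : ℂ := zz r θ * deriv G (zz r θ) * (starRingEnd ℂ) (G (zz r θ))

/-- denominator -/
def den (G : ℂ → ℂ) (r θ : ℝ) : ℝ := 1 + ‖G (zz r θ)‖ ^ 2

theorem den_pos (G : ℂ → ℂ) (r θ : ℝ) : 0 < den G r θ := by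
  unfold den; positivity

/-- `r`-derivative of `num.re / den`. -/
def AR (G : ℂ → ℂ) (r θ : ℝ) : ℝ :=
  (((cexp (θ * I) * deriv G (zz r θ) + zz r θ * (deriv (deriv G) (zz r θ) * cexp (θ * I))) *
    (starRingEnd ℂ) (G (zz r θ)) +
    zz r θ * deriv G (zz r θ) * (starRingEnd ℂ) (deriv G (zz r θ) * cexp (θ * I))).re *
      den G r θ - (num G r θ).re *
        (2 * (deriv G (zz r θ) * cexp (θ * I) * (starRingEnd ℂ) (G (zz r θ))).re)) /
          den G r θ ^ 2

/-- `θ`-derivative of `num.im / den`. -/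
def BT (G : ℂ → ℂ) (r θ : ℝ) : ℝ :=
  (((I * zz r θ * deriv G (zz r θ) + zz r θ * (deriv (deriv G) (zz r θ) * (I * zz r θ))) *
    (starRingEnd ℂ) (G (zz r θ)) +
    zz r θ * deriv G (zz r θ) * (starRingEnd ℂ) (deriv G (zz r θ) * (I * zz r θ))).im *
      den G r θ - (num G r θ).im *
        (2 * (deriv G (zz r θ) * (I * zz r θ) * (starRingEnd ℂ) (G (zz r θ))).re)) /
          den G r θ ^ 2

theorem conj_deriv {f : ℝ → ℂ} {f' : ℂ} {x : ℝ} (h : HasDerivAt f f' x) :
    HasDerivAt (fun y => (starRingEnd ℂ) (f y)) ((starRingEnd ℂ) f') x :=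
  (Complex.conjCLE.toContinuousLinearMap.hasFDerivAt.comp_hasDerivAt x h)

theorem re_deriv {f : ℝ → ℂ} {f' : ℂ} {x : ℝ} (h : HasDerivAt f f' x) :
    HasDerivAt (fun y => (f y).re) f'.re x :=
  Complex.reCLM.hasFDerivAt.comp_hasDerivAt x h

theorem im_deriv {f : ℝ → ℂ} {f' : ℂ} {x : ℝ} (h : HasDerivAt f f' x) :
    HasDerivAt (fun y => (f y).im) f'.im x :=
  Complex.imCLM.hasFDerivAt.comp_hasDerivAt x h

theorem normsq_deriv {f : ℝ → ℂ} {f' : ℂ} {x : ℝ} (h : HasDerivAt f f' x) :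
    HasDerivAt (fun y => 1 + ‖f y‖ ^ 2) (2 * (f' * (starRingEnd ℂ) (f x)).re) x := by
  have h1 := h.norm_sq
  have h2 : 2 * (f' * (starRingEnd ℂ) (f x)).re = 2 * inner ℝ (f x) f' := by
    rw [Complex.inner]
  rw [h2]
  exact h1.const_add 1

section
variable {G : ℂ → ℂ} (hG : DifferentiableOn ℂ G (ball 0 1))
include hG

theorem A_dr {r : ℝ} (hr : r ∈ Ioo (-1 : ℝ) 1) (θ : ℝ) :
    HasDerivAt (fun r : ℝ => (num G r θ).re / den G r θ) (AR G r θ) r := by
  have hG' : DifferentiableOn ℂ (deriv G) (ball 0 1) := hG.deriv isOpen_ball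
  have h1 := G_dr hG hr θ
  have h2 := G_dr hG' hr θ
  have h3 := ((zz_dr r θ).mul h2).mul (conj_deriv h1)
  exact (re_deriv h3).div (normsq_deriv h1) (den_pos G r θ).ne'

theorem B_dt {r : ℝ} (hr : r ∈ Ioo (-1 : ℝ) 1) (θ : ℝ) :
    HasDerivAt (fun θ : ℝ => (num G r θ).im / den G r θ) (BT G r θ) θ := by
  have hG' : DifferentiableOn ℂ (deriv G) (ball 0 1) := hG.deriv isOpen_ball
  have h1 := G_dt hG hr θ
  have h2 := G_dt hG' hr θ
  have h3 := ((zz_dt r θ).mul h2).mul (conj_deriv h1)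
  exact (im_deriv h3).div (normsq_deriv h1) (den_pos G r θ).ne'

theorem den_cont : ContinuousOn (fun p : ℝ × ℝ => den G p.1 p.2) (Ioo (-1 : ℝ) 1 ×ˢ univ) := by
  have h := G_cont hG
  unfold den
  exact continuousOn_const.add (h.norm.pow 2)

theorem num_cont : ContinuousOn (fun p : ℝ × ℝ => num G p.1 p.2) (Ioo (-1 : ℝ) 1 ×ˢ univ) := by
  have h0 : ContinuousOn (fun p : ℝ × ℝ => zz p.1 p.2) (Ioo (-1 : ℝ) 1 ×ˢ univ) :=
    zz_cont.continuousOn
  have h := G_cont hG
  have h1 := G_cont (hG.deriv isOpen_ball)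
  exact (h0.mul h1).mul (Complex.continuous_conj.comp_continuousOn h)

theorem AR_cont : ContinuousOn (fun p : ℝ × ℝ => AR G p.1 p.2) (Ioo (-1 : ℝ) 1 ×ˢ univ) := by
  have h0 : ContinuousOn (fun p : ℝ × ℝ => zz p.1 p.2) (Ioo (-1 : ℝ) 1 ×ˢ univ) :=
    zz_cont.continuousOn
  have he : ContinuousOn (fun p : ℝ × ℝ => cexp (p.2 * I)) (Ioo (-1 : ℝ) 1 ×ˢ univ) := by
    fun_prop
  have h := G_cont hG
  have h1 := G_cont (hG.deriv isOpen_ball)
  have h2 := G_cont ((hG.deriv isOpen_ball).deriv isOpen_ball)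
  have hd := den_cont hG
  have hn := num_cont hG
  have hc := Complex.continuous_conj.comp_continuousOn h
  have hc1 := Complex.continuous_conj.comp_continuousOn (h1.mul he)
  refine ContinuousOn.div ?_ (hd.pow 2) fun p _ => (pow_pos (den_pos G _ _) 2).ne'
  refine ContinuousOn.sub (ContinuousOn.mul ?_ hd) (ContinuousOn.mul ?_ ?_)
  · exact Complex.continuous_re.comp_continuousOn
      ((((he.mul h1).add (h0.mul (h2.mul he))).mul hc).add ((h0.mul h1).mul hc1))
  · exact Complex.continuous_re.comp_continuousOn hn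
  · exact continuousOn_const.mul (Complex.continuous_re.comp_continuousOn ((h1.mul he).mul hc))

theorem BT_cont {r : ℝ} (hr : r ∈ Ioo (-1 : ℝ) 1) : Continuous (BT G r) := by
  have hz : Continuous fun θ : ℝ => zz r θ := zz_cont.comp (by fun_prop : Continuous fun θ : ℝ => (r, θ))
  have e : ∀ F : ℂ → ℂ, DifferentiableOn ℂ F (ball 0 1) → Continuous fun θ : ℝ => F (zz r θ) := by
    intro F hF
    exact continuous_iff_continuousAt.2 fun θ => (G_dt hF hr θ).continuousAt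
  have h := e G hG
  have h1 := e _ (hG.deriv isOpen_ball)
  have h2 := e _ ((hG.deriv isOpen_ball).deriv isOpen_ball)
  have hd : Continuous fun θ => den G r θ := by
    unfold den
    exact continuous_const.add (h.norm.pow 2)
  have hc := Complex.continuous_conj.comp h
  have hi : Continuous fun θ : ℝ => I * zz r θ := continuous_const.mul hz
  have hc1 := Complex.continuous_conj.comp (h1.mul hi)
  have hn : Continuous fun θ => num G r θ := (hz.mul h1).mul hc
  refine Continuous.div ?_ (hd.pow 2) fun θ => (pow_pos (den_pos G _ _) 2).ne'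
  refine Continuous.sub (Continuous.mul ?_ hd) (Continuous.mul ?_ ?_)
  · exact Complex.continuous_im.comp
      ((((hi.mul h1).add (hz.mul (h2.mul hi))).mul hc).add ((hz.mul h1).mul hc1))
  · exact Complex.continuous_im.comp hn
  · exact continuous_const.mul (Complex.continuous_re.comp ((h1.mul hi).mul hc))

end

/-- the algebraic identity behind `Δ log (1 + |G|²) = 4 |G'|² / (1 + |G|²)²` -/
theorem AR_BT (G : ℂ → ℂ) (r θ : ℝ) :
    r * AR G r θ = BT G r θ + 2 * (‖zz r θ * deriv G (zz r θ)‖ ^ 2 / den G r θ ^ 2) := by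
  have hz : zz r θ = (r : ℂ) * cexp (θ * I) := rfl
  have hd := (den_pos G r θ).ne'
  have hd2 : den G r θ = 1 + ((G (zz r θ)).re ^ 2 + (G (zz r θ)).im ^ 2) := by
    rw [den, nsq]
  unfold AR BT num
  rw [nsq, ← mul_div_assoc, ← mul_div_assoc, ← add_div]
  congr 1
  rw [hd2]
  generalize hg : G (zz r θ) = g
  generalize hg1 : deriv G (zz r θ) = g1
  generalize hg2 : deriv (deriv G) (zz r θ) = g2
  rw [hz]
  generalize cexp (θ * I) = e
  obtain ⟨a, b⟩ := g
  obtain ⟨a1, b1⟩ := g1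
  obtain ⟨a2, b2⟩ := g2
  obtain ⟨c, d⟩ := e
  simp
  ring

end Pool.Agent.Helper854_CM
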