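import Mathlib
import Pool.Agent.Helper854_CM.Sph

/-!
The function `lam r` (spherical area over `|z| < r` divided by the area of the sphere), its
derivative and the differential inequality.
-/

set_option autoImplicit false

open MeasureTheory Filter Topology Complex Set Metric

noncomputable section

namespace Pool.Agent.Helper854_CM

/-- the area fraction, as a circle mean -/
def lam (G : ℂ → ℂ) (r : ℝ) : ℝ :=
  1 / (2 * Real.pi) * ∫ θ in (0 : ℝ)..(2 * Real.pi), (num G r θ).re / den G r θ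

/-- the circle integral of the square of the spherical derivative -/
def JJ (G : ℂ → ℂ) (r : ℝ) : ℝ :=
  ∫ θ in (0 : ℝ)..(2 * Real.pi), ‖deriv G (zz r θ)‖ ^ 2 / den G r θ ^ 2

theorem JJ_nonneg (G : ℂ → ℂ) (r : ℝ) : 0 ≤ JJ G r := by
  have hpi := Real.pi_pos
  exact intervalIntegral.integral_nonneg (by positivity) fun x _ => by positivity

theorem strip_slice {Q : ℝ × ℝ → ℝ} (hQ : ContinuousOn Q (Ioo (-1 : ℝ) 1 ×ˢ univ)) {r : ℝ}
    (hr : r ∈ Ioo (-1 : ℝ) 1) : Continuous fun θ : ℝ => Q (r, θ) := by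
  rw [← continuousOn_univ]
  have hp : Continuous fun θ : ℝ => ((r, θ) : ℝ × ℝ) := by fun_prop
  exact ContinuousOn.comp hQ hp.continuousOn fun θ _ => ⟨hr, mem_univ _⟩

section
variable {G : ℂ → ℂ} (hG : DifferentiableOn ℂ G (ball 0 1))
include hG

theorem slice_cont {F : ℂ → ℂ} (hF : DifferentiableOn ℂ F (ball 0 1)) {r : ℝ}
    (hr : r ∈ Ioo (-1 : ℝ) 1) : Continuous fun θ : ℝ => F (zz r θ) :=
  continuous_iff_continuousAt.2 fun θ => (G_dt hF hr θ).continuousAt

theorem lam_deriv {r : ℝ} (hr : r ∈ Ioo (-1 : ℝ) 1) :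
    HasDerivAt (lam G) (1 / (2 * Real.pi) * ∫ θ in (0 : ℝ)..(2 * Real.pi), AR G r θ) r := by
  have hpi := Real.pi_pos
  unfold lam
  refine HasDerivAt.const_mul _ ?_
  obtain ⟨ε, hε, hball⟩ := Metric.isOpen_iff.1 (isOpen_Ioo (a := (-1 : ℝ)) (b := 1)) r hr
  have hsub : Icc (r - ε / 2) (r + ε / 2) ⊆ Ioo (-1 : ℝ) 1 := by
    intro x hx
    apply hball
    rw [Metric.mem_ball, Real.dist_eq, abs_lt]
    constructor <;> linarith [hx.1, hx.2]
  have hA := AR_cont hG
  have hK : IsCompact (Icc (r - ε / 2) (r + ε / 2) ×ˢ Icc (0 : ℝ) (2 * Real.pi)) :=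
    isCompact_Icc.prod isCompact_Icc
  obtain ⟨C, hC⟩ := hK.exists_bound_of_continuousOn
    (hA.mono (prod_mono hsub (subset_univ _)))
  have hs : Icc (r - ε / 2) (r + ε / 2) ∈ 𝓝 r := Icc_mem_nhds (by linarith) (by linarith)
  have hcA : ∀ x ∈ Ioo (-1 : ℝ) 1, Continuous (AR G x) := fun x hx => strip_slice hA hx
  have h1 : ContinuousOn (fun p : ℝ × ℝ => (num G p.1 p.2).re / den G p.1 p.2)
      (Ioo (-1 : ℝ) 1 ×ˢ univ) :=
    (Complex.continuous_re.comp_continuousOn (num_cont hG)).div (den_cont hG)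
      fun p _ => (den_pos G _ _).ne'
  have hcN : ∀ x ∈ Ioo (-1 : ℝ) 1, Continuous fun θ => (num G x θ).re / den G x θ :=
    fun x hx => strip_slice h1 hx
  refine (intervalIntegral.hasDerivAt_integral_of_dominated_loc_of_deriv_le
    (bound := fun _ => C) hs ?_ ((hcN r hr).intervalIntegrable _ _)
    (hcA r hr).aestronglyMeasurable ?_ (continuous_const.intervalIntegrable _ _) ?_).2
  · filter_upwards [isOpen_Ioo.mem_nhds hr] with x hx
    exact (hcN x hx).aestronglyMeasurable
  · refine Eventually.of_forall fun t ht x hx => ?_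
    rw [uIoc_of_le (by positivity)] at ht
    exact hC (x, t) ⟨hx, ⟨ht.1.le, ht.2⟩⟩
  · exact Eventually.of_forall fun t _ x hx => A_dr hG (hsub hx) t

theorem den_slice {r : ℝ} (hr : r ∈ Ioo (-1 : ℝ) 1) : Continuous fun θ => den G r θ := by
  unfold den
  exact continuous_const.add ((slice_cont hG hG hr).norm.pow 2)

theorem AR_int {r : ℝ} (hr : r ∈ Ioo (0 : ℝ) 1) :
    ∫ θ in (0 : ℝ)..(2 * Real.pi), AR G r θ = 2 * r * JJ G r := by
  have hr' : r ∈ Ioo (-1 : ℝ) 1 := ⟨by linarith [hr.1], hr.2⟩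
  have hr0 : r ≠ 0 := hr.1.ne'
  have hB : ∫ θ in (0 : ℝ)..(2 * Real.pi), BT G r θ = 0 := by
    rw [intervalIntegral.integral_eq_sub_of_hasDerivAt (fun θ _ => B_dt hG hr' θ)
      ((BT_cont hG hr').intervalIntegrable _ _)]
    have h := zz_per r 0
    rw [zero_add] at h
    simp only [num, den, h, sub_self]
  have hc1 : Continuous fun θ => ‖deriv G (zz r θ)‖ ^ 2 / den G r θ ^ 2 :=
    ((slice_cont hG (hG.deriv isOpen_ball) hr').norm.pow 2).div ((den_slice hG hr').pow 2)
      fun θ => (pow_pos (den_pos G _ _) 2).ne'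
  have hAR : ∀ θ, AR G r θ = r⁻¹ * BT G r θ + 2 * r * (‖deriv G (zz r θ)‖ ^ 2 / den G r θ ^ 2) := by
    intro θ
    have h := AR_BT G r θ
    rw [norm_mul, norm_zz, mul_pow, sq_abs] at h
    field_simp at h ⊢
    linarith
  rw [intervalIntegral.integral_congr (fun θ _ => hAR θ), intervalIntegral.integral_add,
    intervalIntegral.integral_const_mul, intervalIntegral.integral_const_mul, hB, mul_zero,
    zero_add]
  · rfl
  · exact ((BT_cont hG hr').intervalIntegrable _ _).const_mul _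
  · exact (hc1.intervalIntegrable _ _).const_mul _

theorem lam_deriv' {r : ℝ} (hr : r ∈ Ioo (0 : ℝ) 1) :
    HasDerivAt (lam G) (r / Real.pi * JJ G r) r := by
  have h := lam_deriv hG (r := r) ⟨by linarith [hr.1], hr.2⟩
  rw [AR_int hG hr] at h
  refine h.congr_deriv ?_
  have hpi := Real.pi_pos
  field_simp

theorem lam_ode {r : ℝ} (hr : r ∈ Ioo (0 : ℝ) 1) :
    2 * (lam G r * (1 - lam G r)) ≤ r * (r / Real.pi * JJ G r) := by
  have hpi := Real.pi_pos
  have hr' : r ∈ Ioo (-1 : ℝ) 1 := ⟨by linarith [hr.1], hr.2⟩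
  have h := loop (fun θ => G (zz r θ)) (fun θ => deriv G (zz r θ) * (I * zz r θ))
    (fun θ => G_dt hG hr' θ)
    ((slice_cont hG (hG.deriv isOpen_ball) hr').mul
      (continuous_const.mul (zz_cont.comp (by fun_prop : Continuous fun θ : ℝ => (r, θ)))))
    (fun θ => by simp only [zz_per]) (lam G r) (by
      rw [lam, ← mul_assoc, mul_one_div_cancel (by positivity), one_mul]
      refine intervalIntegral.integral_congr fun θ _ => ?_
      simp only [num, den]
      congr 1
      simp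
      ring)
  have h2 : ∫ x in (0 : ℝ)..(2 * Real.pi), ‖deriv G (zz r x) * (I * zz r x)‖ ^ 2 /
      (1 + ‖G (zz r x)‖ ^ 2) ^ 2 = r ^ 2 * JJ G r := by
    rw [JJ, ← intervalIntegral.integral_const_mul]
    refine intervalIntegral.integral_congr fun θ _ => ?_
    simp only [den, norm_mul, Complex.norm_I, one_mul, norm_zz, mul_pow, sq_abs]
    ring
  rw [h2] at h
  have h3 : r * (r / Real.pi * JJ G r) = (r ^ 2 * JJ G r) / Real.pi := by ring
  rw [h3, le_div_iff₀ hpi]
  linarith

theorem lam_zero : lam G 0 = 0 := by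
  have : ∀ θ, (num G 0 θ).re / den G 0 θ = 0 := by
    intro θ
    simp [num, zz]
  rw [lam, intervalIntegral.integral_congr (fun θ _ => this θ)]
  simp

theorem lam_cont : ContinuousOn (lam G) (Ioo (-1 : ℝ) 1) :=
  fun _ hr => (lam_deriv hG hr).continuousAt.continuousWithinAt

theorem lam_nonneg {r : ℝ} (hr : r ∈ Ico (0 : ℝ) 1) : 0 ≤ lam G r := by
  have h : MonotoneOn (lam G) (Icc 0 r) := by
    refine monotoneOn_of_deriv_nonneg (convex_Icc _ _) ?_ ?_ ?_
    · exact (lam_cont hG).mono fun x hx => ⟨by linarith [hx.1], by linarith [hx.2, hr.2]⟩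
    · rw [interior_Icc]
      intro x hx
      exact (lam_deriv' hG ⟨hx.1, by linarith [hx.2, hr.2]⟩).differentiableAt.differentiableWithinAt
    · rw [interior_Icc]
      intro x hx
      rw [(lam_deriv' hG ⟨hx.1, by linarith [hx.2, hr.2]⟩).deriv]
      have := JJ_nonneg G x
      have := Real.pi_pos
      have := hx.1
      positivity
  have h1 := h (left_mem_Icc.2 hr.1) (right_mem_Icc.2 hr.1) hr.1
  rwa [lam_zero hG] at h1

theorem lam_eq_int {r : ℝ} (hr : r ∈ Ioo (0 : ℝ) 1) :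
    lam G r = ∫ x in (0 : ℝ)..r, x / Real.pi * JJ G x ∧
      IntervalIntegrable (fun x => x / Real.pi * JJ G x) volume 0 r := by
  have hc : ContinuousOn (lam G) (Icc 0 r) :=
    (lam_cont hG).mono fun x hx => ⟨by linarith [hx.1], by linarith [hx.2, hr.2]⟩
  have hd : ∀ x ∈ Ioo 0 r, HasDerivAt (lam G) (x / Real.pi * JJ G x) x :=
    fun x hx => lam_deriv' hG ⟨hx.1, by linarith [hx.2, hr.2]⟩
  have hi : IntervalIntegrable (fun x => x / Real.pi * JJ G x) volume 0 r := by
    refine intervalIntegral.intervalIntegrable_deriv_of_nonneg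
      (by rwa [uIcc_of_le hr.1.le]) (fun x hx => ?_) (fun x hx => ?_)
    · rw [min_eq_left hr.1.le, max_eq_right hr.1.le] at hx
      exact hd x hx
    · rw [min_eq_left hr.1.le, max_eq_right hr.1.le] at hx
      have := JJ_nonneg G x
      have := Real.pi_pos
      have := hx.1
      positivity
  refine ⟨?_, hi⟩
  rw [intervalIntegral.integral_eq_sub_of_hasDerivAt_of_le hr.1.le hc hd hi, lam_zero hG, sub_zero]

end

end Pool.Agent.Helper854_CM
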