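import Mathlib
import Pool.Agent.Helper854_CM.Sph2

/-!
Dufresnoy's inequality: if the spherical area (with multiplicity) of the image of the disc is at
most half of the sphere, the spherical derivative at the centre is at most one.
-/

set_option autoImplicit false

open MeasureTheory Filter Topology Complex Set Metric

noncomputable section

namespace Pool.Agent.Helper854_CM

theorem symm_eq_zz (p : ℝ × ℝ) : Complex.polarCoord.symm p = zz p.1 p.2 := by
  rw [Complex.polarCoord_symm_apply, zz, Complex.exp_mul_I]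
  push_cast
  ring

section
variable {G : ℂ → ℂ} (hG : DifferentiableOn ℂ G (ball 0 1))
include hG

theorem area_lower {r : ℝ} (hr : r ∈ Ioo (0 : ℝ) 1) :
    ENNReal.ofReal (Real.pi * lam G r) ≤
      ∫⁻ z in ball (0 : ℂ) 1, ENNReal.ofReal (‖deriv G z‖ ^ 2 / (1 + ‖G z‖ ^ 2) ^ 2) := by
  have hpi := Real.pi_pos
  have hsub : Ioo 0 r ⊆ Ioo (-1 : ℝ) 1 := fun x hx => ⟨by linarith [hx.1], by linarith [hx.2, hr.2]⟩
  -- the integrand in polar coordinates
  obtain ⟨q, hq⟩ : ∃ q : ℝ × ℝ → ℝ, ∀ p, q p = ‖deriv G (zz p.1 p.2)‖ ^ 2 / den G p.1 p.2 ^ 2 :=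
    ⟨_, fun p => rfl⟩
  have hq0 : ∀ p, 0 ≤ q p := fun p => by rw [hq]; positivity
  have hqc : ContinuousOn q (Ioo (-1 : ℝ) 1 ×ˢ univ) := by
    rw [funext hq]
    exact ((G_cont (hG.deriv isOpen_ball)).norm.pow 2).div ((den_cont hG).pow 2)
      fun p _ => (pow_pos (den_pos G _ _) 2).ne'
  have hqs : ∀ x ∈ Ioo (0 : ℝ) r, Continuous fun θ => q (x, θ) :=
    fun x hx => strip_slice hqc (hsub hx)
  have hinner : ∀ x ∈ Ioo (0 : ℝ) r, ∫⁻ θ in Ioo (-Real.pi) Real.pi, ENNReal.ofReal (x * q (x, θ)) =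
      ENNReal.ofReal (x * JJ G x) := by
    intro x hx
    have e1 : ∫ θ in Ioo (-Real.pi) Real.pi, x * q (x, θ) = x * JJ G x := by
      rw [← integral_Ioc_eq_integral_Ioo, ← intervalIntegral.integral_of_le (by linarith),
        intervalIntegral.integral_const_mul]
      congr 1
      have hp : Function.Periodic (fun θ => q (x, θ)) (2 * Real.pi) := by
        intro θ
        simp only [hq, den, zz_per]
      have h2 := hp.intervalIntegral_add_eq (-Real.pi) 0
      have h3 : -Real.pi + 2 * Real.pi = Real.pi := by ring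
      rw [h3, zero_add] at h2
      rw [h2, JJ]
      exact intervalIntegral.integral_congr fun θ _ => hq (x, θ)
    rw [← e1, ofReal_integral_eq_lintegral_ofReal]
    · have hcc : Continuous fun θ => x * q (x, θ) := continuous_const.mul (hqs x hx)
      exact (hcc.continuousOn.integrableOn_Icc (a := -Real.pi) (b := Real.pi)).mono_set
        Ioo_subset_Icc_self
    · exact Eventually.of_forall fun θ => mul_nonneg hx.1.le (hq0 _)
  have houter : ∫⁻ x in Ioo (0 : ℝ) r, ENNReal.ofReal (x * JJ G x) =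
      ENNReal.ofReal (Real.pi * lam G r) := by
    obtain ⟨h1, h2⟩ := lam_eq_int hG hr
    have e2 : Real.pi * lam G r = ∫ x in Ioo (0 : ℝ) r, x * JJ G x := by
      rw [h1, ← intervalIntegral.integral_const_mul, intervalIntegral.integral_of_le hr.1.le,
        integral_Ioc_eq_integral_Ioo]
      refine setIntegral_congr_fun measurableSet_Ioo fun x _ => ?_
      field_simp
    rw [e2, ofReal_integral_eq_lintegral_ofReal]
    · have h3 : IntervalIntegrable (fun x => Real.pi * (x / Real.pi * JJ G x)) volume 0 r :=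
        h2.const_mul _
      rw [intervalIntegrable_iff_integrableOn_Ioo_of_le hr.1.le] at h3
      refine h3.congr ?_
      refine Eventually.of_forall fun x => ?_
      simp only
      field_simp
    · refine (ae_restrict_iff' measurableSet_Ioo).2 (Eventually.of_forall fun x hx => ?_)
      exact mul_nonneg hx.1.le (JJ_nonneg G x)
  rw [← houter, ← setLIntegral_congr_fun measurableSet_Ioo hinner]
  have hmeas : AEMeasurable (fun p : ℝ × ℝ => ENNReal.ofReal (p.1 * q p))
      ((volume.prod volume).restrict (Ioo (0 : ℝ) r ×ˢ Ioo (-Real.pi) Real.pi)) := by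
    refine ENNReal.measurable_ofReal.comp_aemeasurable ?_
    refine ContinuousOn.aemeasurable ?_ (measurableSet_Ioo.prod measurableSet_Ioo)
    exact (continuous_fst.continuousOn).mul (hqc.mono (prod_mono hsub (subset_univ _)))
  have hton := setLIntegral_prod (μ := (volume : Measure ℝ)) (ν := (volume : Measure ℝ))
    (fun p : ℝ × ℝ => ENNReal.ofReal (p.1 * q p)) hmeas
  rw [← hton, ← lintegral_indicator measurableSet_ball,
    ← Complex.lintegral_comp_polarCoord_symm, polarCoord_target]
  rw [← Measure.volume_eq_prod]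
  refine le_trans ?_ (lintegral_mono_set (s := Ioo (0 : ℝ) r ×ˢ Ioo (-Real.pi) Real.pi)
    (prod_mono (fun x hx => hx.1) subset_rfl))
  refine setLIntegral_mono' (measurableSet_Ioo.prod measurableSet_Ioo) fun p hp => ?_
  have hmem : Complex.polarCoord.symm p ∈ ball (0 : ℂ) 1 := by
    rw [symm_eq_zz]
    exact zz_mem (hsub hp.1) _
  rw [indicator_of_mem hmem, symm_eq_zz, ENNReal.ofReal_mul hp.1.1.le, hq, smul_eq_mul]
  rfl

/-- Dufresnoy's inequality, case of half of the sphere. -/
theorem dufresnoy (hS : ∫⁻ z in ball (0 : ℂ) 1,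
      ENNReal.ofReal (‖deriv G z‖ ^ 2 / (1 + ‖G z‖ ^ 2) ^ 2) ≤ ENNReal.ofReal (Real.pi / 2)) :
    ‖deriv G 0‖ ≤ 1 + ‖G 0‖ ^ 2 := by
  have hpi := Real.pi_pos
  have hle : ∀ r ∈ Ioo (0 : ℝ) 1, lam G r ≤ 1 / 2 := by
    intro r hr
    have h1 := (area_lower hG hr).trans hS
    rw [ENNReal.ofReal_le_ofReal_iff (by positivity)] at h1
    have : lam G r * Real.pi ≤ (1 / 2) * Real.pi := by linarith
    exact le_of_mul_le_mul_right this hpi
  have hmem : ∀ r ∈ Ioo (0 : ℝ) 1, r ∈ Ico (0 : ℝ) 1 := fun r hr => ⟨hr.1.le, hr.2⟩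
  -- the monotone quantity
  have hder : ∀ r ∈ Ioo (0 : ℝ) 1, HasDerivAt (fun r => lam G r / (1 - lam G r) / r ^ 2)
      (((r / Real.pi * JJ G r * (1 - lam G r) - lam G r * (-(r / Real.pi * JJ G r))) /
        (1 - lam G r) ^ 2 * r ^ 2 - lam G r / (1 - lam G r) * (2 * r)) / (r ^ 2) ^ 2) r := by
    intro r hr
    have h1 := lam_deriv' hG hr
    have h2 : HasDerivAt (fun r => 1 - lam G r) (-(r / Real.pi * JJ G r)) r := h1.const_sub 1
    have h3 := h1.div h2 (by have := hle r hr; linarith)
    have h4 : HasDerivAt (fun r : ℝ => r ^ 2) (2 * r) r := by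
      have := hasDerivAt_pow 2 r
      simpa using this
    exact h3.div h4 (pow_ne_zero 2 hr.1.ne')
  have hmono : MonotoneOn (fun r => lam G r / (1 - lam G r) / r ^ 2) (Ioo (0 : ℝ) 1) := by
    refine monotoneOn_of_deriv_nonneg (convex_Ioo _ _) ?_ ?_ ?_
    · exact fun r hr => (hder r hr).continuousAt.continuousWithinAt
    · rw [interior_Ioo]
      exact fun r hr => (hder r hr).differentiableAt.differentiableWithinAt
    · rw [interior_Ioo]
      intro r hr
      rw [(hder r hr).deriv]
      have h1 := lam_ode hG hr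
      have h2 := hle r hr
      have h3 : 0 < 1 - lam G r := by linarith
      have h4 := hr.1
      have h5 : ((r / Real.pi * JJ G r * (1 - lam G r) - lam G r * (-(r / Real.pi * JJ G r))) /
        (1 - lam G r) ^ 2 * r ^ 2 - lam G r / (1 - lam G r) * (2 * r)) =
          r / (1 - lam G r) ^ 2 * (r * (r / Real.pi * JJ G r) - 2 * (lam G r * (1 - lam G r))) := by
        field_simp
        ring
      rw [h5]
      have h6 : 0 ≤ r * (r / Real.pi * JJ G r) - 2 * (lam G r * (1 - lam G r)) := by linarith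
      positivity
  have hbd : ∀ r ∈ Ioo (0 : ℝ) 1, lam G r ≤ r ^ 2 := by
    intro r hr
    have h1 : ∀ s ∈ Ioo r 1, lam G r / (1 - lam G r) * s ^ 2 ≤ r ^ 2 := by
      intro s hs
      have hs' : s ∈ Ioo (0 : ℝ) 1 := ⟨hr.1.trans hs.1, hs.2⟩
      have h2 := hmono hr hs' hs.1.le
      simp only at h2
      have h3 : lam G s / (1 - lam G s) ≤ 1 := by
        rw [div_le_one (by have := hle s hs'; linarith)]
        have := hle s hs'
        linarith
      have h4 : lam G s / (1 - lam G s) / s ^ 2 ≤ 1 / s ^ 2 := by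
        have := hs'.1
        gcongr
      have h5 := h2.trans h4
      rw [div_le_div_iff₀ (by have := hr.1; positivity) (by have := hs'.1; positivity)] at h5
      linarith
    have h2 : lam G r / (1 - lam G r) * 1 ^ 2 ≤ r ^ 2 := by
      have hc : ContinuousWithinAt (fun s : ℝ => lam G r / (1 - lam G r) * s ^ 2) (Ioo r 1) 1 := by
        fun_prop
      have hcl : (1 : ℝ) ∈ closure (Ioo r 1) := by
        rw [closure_Ioo hr.2.ne]
        exact right_mem_Icc.2 hr.2.le
      have := hc.mem_closure hcl (t := Iic (r ^ 2)) (fun s hs => h1 s hs)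
      rw [closure_Iic] at this
      exact this
    have h3 := hle r hr
    have h4 := lam_nonneg hG (hmem r hr)
    have h5 : lam G r ≤ lam G r / (1 - lam G r) := by
      rw [le_div_iff₀ (by linarith)]
      nlinarith
    linarith
  -- behaviour near the centre
  by_contra hcon
  push Not at hcon
  have hm0 : 1 < ‖deriv G 0‖ ^ 2 / (1 + ‖G 0‖ ^ 2) ^ 2 := by
    rw [one_lt_div (by positivity)]
    exact pow_lt_pow_left₀ hcon (by positivity) two_ne_zero
  obtain ⟨κ, hκ1, hκ2⟩ := exists_between hm0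
  have h0mem : (0 : ℂ) ∈ ball (0 : ℂ) 1 := mem_ball_self one_pos
  have hcont : ContinuousAt (fun z => ‖deriv G z‖ ^ 2 / (1 + ‖G z‖ ^ 2) ^ 2) 0 := by
    have c1 : ContinuousAt G 0 := (hG.differentiableAt (isOpen_ball.mem_nhds h0mem)).continuousAt
    have c2 : ContinuousAt (deriv G) 0 :=
      ((hG.deriv isOpen_ball).differentiableAt (isOpen_ball.mem_nhds h0mem)).continuousAt
    refine (c2.norm.pow 2).div ((continuousAt_const.add (c1.norm.pow 2)).pow 2) (by positivity)
  have hev : ∀ᶠ z in 𝓝 (0 : ℂ), κ < ‖deriv G z‖ ^ 2 / (1 + ‖G z‖ ^ 2) ^ 2 :=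
    hcont.eventually (lt_mem_nhds hκ2)
  obtain ⟨ε, hε, hball⟩ := Metric.eventually_nhds_iff_ball.1 hev
  obtain ⟨δ, hδ0, hδ⟩ : ∃ δ : ℝ, 0 < δ ∧ δ < min ε 1 := exists_between (lt_min hε one_pos)
  have hδε : δ < ε := hδ.trans_le (min_le_left _ _)
  have hδ1 : δ < 1 := hδ.trans_le (min_le_right _ _)
  have hJ : ∀ r ∈ Ioo 0 δ, 2 * Real.pi * κ ≤ JJ G r := by
    intro r hr
    have hr' : r ∈ Ioo (-1 : ℝ) 1 := ⟨by linarith [hr.1], by linarith [hr.2]⟩
    have hc1 : Continuous fun θ => ‖deriv G (zz r θ)‖ ^ 2 / den G r θ ^ 2 :=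
      ((slice_cont hG (hG.deriv isOpen_ball) hr').norm.pow 2).div ((den_slice hG hr').pow 2)
        fun θ => (pow_pos (den_pos G _ _) 2).ne'
    have h1 : ∫ θ in (0 : ℝ)..(2 * Real.pi), κ ≤ JJ G r := by
      refine intervalIntegral.integral_mono_on (by positivity)
        (continuous_const.intervalIntegrable _ _) (hc1.intervalIntegrable _ _) fun θ _ => ?_
      have h2 : zz r θ ∈ ball (0 : ℂ) ε := by
        rw [mem_ball_zero_iff, norm_zz, abs_of_pos hr.1]
        linarith [hr.2]
      exact (hball _ h2).le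
    rw [intervalIntegral.integral_const, smul_eq_mul, sub_zero] at h1
    exact h1
  have hmono2 : MonotoneOn (fun r => lam G r - κ * r ^ 2) (Icc 0 (δ / 2)) := by
    refine monotoneOn_of_deriv_nonneg (convex_Icc _ _) ?_ ?_ ?_
    · refine ContinuousOn.sub ((lam_cont hG).mono fun x hx => ?_) (by fun_prop)
      exact ⟨by linarith [hx.1], by linarith [hx.2]⟩
    · rw [interior_Icc]
      intro x hx
      have := lam_deriv' hG (r := x) ⟨hx.1, by linarith [hx.2]⟩
      exact (this.differentiableAt.sub (by fun_prop)).differentiableWithinAt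
    · rw [interior_Icc]
      intro x hx
      have h1 := lam_deriv' hG (r := x) ⟨hx.1, by linarith [hx.2]⟩
      have h2 : HasDerivAt (fun r : ℝ => κ * r ^ 2) (κ * (2 * x)) x := by
        have := (hasDerivAt_pow 2 x).const_mul κ
        simpa using this
      have h12 : HasDerivAt (fun r => lam G r - κ * r ^ 2) (x / Real.pi * JJ G x - κ * (2 * x)) x :=
        h1.sub h2
      rw [h12.deriv]
      have h3 := hJ x ⟨hx.1, by linarith [hx.2]⟩
      have h4 : x / Real.pi * JJ G x - κ * (2 * x) = x / Real.pi * (JJ G x - 2 * Real.pi * κ) := by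
        field_simp
      rw [h4]
      have := hx.1
      have h5 : 0 ≤ JJ G x - 2 * Real.pi * κ := by linarith
      positivity
  have h1 := hmono2 (left_mem_Icc.2 (by positivity : (0 : ℝ) ≤ δ / 2))
    (right_mem_Icc.2 (by positivity)) (by positivity)
  simp only [lam_zero hG] at h1
  have h2 := hbd (δ / 2) ⟨by positivity, by linarith⟩
  have h3 : (0 : ℝ) < (δ / 2) ^ 2 := by positivity
  nlinarith

end

end Pool.Agent.Helper854_CM
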