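import Mathlib
import Pool.Agent.Helper854_CM.Duf
import Pool.Agent.H296R2.LE.Basic

/-!
The sharp bound for the logarithmic derivative at the centre, from the area inequality.
-/

set_option autoImplicit false

open MeasureTheory Filter Topology Complex Set Metric
open scoped ENNReal

noncomputable section

namespace Pool.Agent.Helper854_CM

/-- The weight that pulls back the spherical metric under `w ↦ (w / c) ^ (1 / (2 q))`. -/
def wt (c q R : ℝ) : ℝ :=
  (R / c) ^ (1 / q) / (4 * q ^ 2 * R ^ 2 * (1 + (R / c) ^ (1 / q)) ^ 2)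

theorem wt_meas (c q : ℝ) : Measurable (wt c q) := by
  unfold wt
  fun_prop

theorem wt_int {c q : ℝ} (hc : 0 < c) (hq : 0 < q) :
    ∫⁻ R in Ioi (0 : ℝ), ENNReal.ofReal (wt c q R) * ENNReal.ofReal R =
      ENNReal.ofReal (1 / (4 * q)) := by
  -- antiderivative
  obtain ⟨g, hg⟩ : ∃ g : ℝ → ℝ, ∀ R, g R = -(1 / (4 * q)) * (1 + (R / c) ^ (1 / q))⁻¹ :=
    ⟨_, fun R => rfl⟩
  have hy : ∀ R : ℝ, 0 ≤ R → 0 ≤ (R / c) ^ (1 / q) := fun R hR => by positivity
  have hd : ∀ R ∈ Ioi (0 : ℝ), HasDerivAt g (wt c q R * R) R := by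
    intro R hR
    have hR0 : (0 : ℝ) < R := hR
    rw [funext hg]
    have h1 : HasDerivAt (fun R : ℝ => R / c) (1 / c) R := (hasDerivAt_id R).div_const c
    have h2 : HasDerivAt (fun R : ℝ => (R / c) ^ (1 / q))
        (1 / c * (1 / q) * (R / c) ^ (1 / q - 1)) R :=
      h1.rpow_const (Or.inl (by positivity))
    have h3 := (h2.const_add 1).inv (by have := hy R hR0.le; positivity)
    have h4 := h3.const_mul (-(1 / (4 * q)))
    refine h4.congr_deriv ?_
    have h5 : (R / c) ^ (1 / q - 1) = (R / c) ^ (1 / q) / (R / c) := by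
      rw [Real.rpow_sub_one (by positivity)]
    rw [h5, wt]
    have := hy R hR0.le
    field_simp
  have hpos : ∀ R ∈ Ioi (0 : ℝ), 0 ≤ wt c q R * R := by
    intro R hR
    have hR0 : (0 : ℝ) < R := hR
    unfold wt
    have := hy R hR0.le
    positivity
  have hcont : ContinuousWithinAt g (Ici 0) 0 := by
    rw [funext hg]
    refine ContinuousWithinAt.mul continuousWithinAt_const ?_
    refine ContinuousWithinAt.inv₀ ?_ (by have := hy 0 le_rfl; positivity)
    refine ContinuousWithinAt.add continuousWithinAt_const ?_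
    refine ContinuousAt.continuousWithinAt ?_
    have : Continuous fun R : ℝ => (R / c) ^ (1 / q) := by
      refine Continuous.rpow_const (by fun_prop) fun x => Or.inr (by positivity)
    exact this.continuousAt
  have hlim : Tendsto g atTop (𝓝 0) := by
    rw [funext hg]
    have h1 : Tendsto (fun R : ℝ => (R / c) ^ (1 / q)) atTop atTop :=
      (tendsto_rpow_atTop (by positivity)).comp (tendsto_id.atTop_div_const hc)
    have h2 := (tendsto_atTop_add_const_left atTop (1 : ℝ) h1).inv_tendsto_atTop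
    have h3 := h2.const_mul (-(1 / (4 * q)))
    rw [mul_zero] at h3
    exact h3
  have hint := integrableOn_Ioi_deriv_of_nonneg hcont hd hpos hlim
  have hval := integral_Ioi_of_hasDerivAt_of_nonneg hcont hd hpos hlim
  have h0 : g 0 = -(1 / (4 * q)) := by
    rw [hg, zero_div, Real.zero_rpow (by positivity)]
    simp
  rw [h0] at hval
  have e1 : ∫⁻ R in Ioi (0 : ℝ), ENNReal.ofReal (wt c q R) * ENNReal.ofReal R =
      ∫⁻ R in Ioi (0 : ℝ), ENNReal.ofReal (wt c q R * R) := by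
    refine setLIntegral_congr_fun measurableSet_Ioi fun R hR => ?_
    exact (ENNReal.ofReal_mul' (le_of_lt hR)).symm
  rw [e1, ← ofReal_integral_eq_lintegral_ofReal hint
    ((ae_restrict_iff' measurableSet_Ioi).2 (Eventually.of_forall hpos)), hval]
  congr 1
  ring

/-- The bound `|F'(0)| ≤ 4 q |F(0)|` for nonvanishing functions satisfying the area inequality of
circumferentially mean `q`-valent functions. -/
theorem one_bound {q : ℝ} (hq : 0 < q) {F : ℂ → ℂ} (hF : DifferentiableOn ℂ F (ball 0 1))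
    (hne : ∀ z ∈ ball (0 : ℂ) 1, F z ≠ 0)
    (harea : ∀ w : ℝ → ℝ, Measurable w →
      ∫⁻ z in ball (0 : ℂ) 1, ENNReal.ofReal (w ‖F z‖) * ENNReal.ofReal (‖deriv F z‖ ^ 2) ≤
        ENNReal.ofReal (2 * Real.pi * q) *
          ∫⁻ R in Ioi (0 : ℝ), ENNReal.ofReal (w R) * ENNReal.ofReal R) :
    ‖deriv F 0‖ ≤ 4 * q * ‖F 0‖ := by
  have hpi := Real.pi_pos
  have h0mem : (0 : ℂ) ∈ ball (0 : ℂ) 1 := mem_ball_self one_pos
  obtain ⟨h, hh0, hhd, hhF⟩ := Pool.Agent.H296R2.LE.exists_log one_pos hF hne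
  have hc : 0 < ‖F 0‖ := norm_pos_iff.2 (hne 0 h0mem)
  obtain ⟨G, hG⟩ : ∃ G : ℂ → ℂ, ∀ z, G z = cexp (((1 / (2 * q) : ℝ) : ℂ) * h z) :=
    ⟨_, fun z => rfl⟩
  have hGd : ∀ z ∈ ball (0 : ℂ) 1, HasDerivAt G
      (cexp (((1 / (2 * q) : ℝ) : ℂ) * h z) * (((1 / (2 * q) : ℝ) : ℂ) * (deriv F z / F z))) z := by
    intro z hz
    rw [funext hG]
    exact ((hhd z hz).const_mul _).cexp
  have hGdiff : DifferentiableOn ℂ G (ball 0 1) :=
    fun z hz => (hGd z hz).differentiableAt.differentiableWithinAt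
  have hFn : ∀ z ∈ ball (0 : ℂ) 1, ‖F z‖ = ‖F 0‖ * Real.exp (h z).re := by
    intro z hz
    rw [hhF z hz, norm_mul, Complex.norm_exp]
  have hGn : ∀ z, ‖G z‖ = Real.exp (1 / (2 * q) * (h z).re) := by
    intro z
    rw [hG, Complex.norm_exp, Complex.re_ofReal_mul]
  have hpt : ∀ z ∈ ball (0 : ℂ) 1, ENNReal.ofReal (‖deriv G z‖ ^ 2 / (1 + ‖G z‖ ^ 2) ^ 2) =
      ENNReal.ofReal (wt ‖F 0‖ q ‖F z‖) * ENNReal.ofReal (‖deriv F z‖ ^ 2) := by
    intro z hz
    rw [← ENNReal.ofReal_mul' (by positivity)]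
    congr 1
    have hFz : 0 < ‖F z‖ := norm_pos_iff.2 (hne z hz)
    have e1 : (‖F z‖ / ‖F 0‖) ^ (1 / q) = ‖G z‖ ^ 2 := by
      rw [hFn z hz, mul_div_cancel_left₀ _ hc.ne', ← Real.exp_mul, hGn, ← Real.exp_nat_mul]
      congr 1
      push_cast
      field_simp
    have e2 : ‖deriv G z‖ = ‖G z‖ * (1 / (2 * q) * (‖deriv F z‖ / ‖F z‖)) := by
      rw [(hGd z hz).deriv, norm_mul, ← hG, norm_mul, norm_div, Complex.norm_real,
        Real.norm_of_nonneg (by positivity)]
    rw [wt, e1, e2]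
    field_simp
    ring
  have hS : ∫⁻ z in ball (0 : ℂ) 1,
      ENNReal.ofReal (‖deriv G z‖ ^ 2 / (1 + ‖G z‖ ^ 2) ^ 2) ≤ ENNReal.ofReal (Real.pi / 2) := by
    rw [setLIntegral_congr_fun measurableSet_ball hpt]
    refine (harea _ (wt_meas _ _)).trans ?_
    rw [wt_int hc hq, ← ENNReal.ofReal_mul (by positivity)]
    refine ENNReal.ofReal_le_ofReal (le_of_eq ?_)
    field_simp
    ring
  have hfin := dufresnoy hGdiff hS
  have hG0 : ‖G 0‖ = 1 := by
    rw [hGn, hh0]
    simp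
  rw [hG0, (hGd 0 h0mem).deriv, hh0, mul_zero, Complex.exp_zero, one_mul, norm_mul, norm_div,
    Complex.norm_real, Real.norm_of_nonneg (by positivity)] at hfin
  have h2 : ‖deriv F 0‖ / ‖F 0‖ ≤ 4 * q := by
    have h3 : 1 / (2 * q) * (‖deriv F 0‖ / ‖F 0‖) ≤ 2 := by linarith
    rw [one_div, inv_mul_le_iff₀ (by positivity)] at h3
    linarith
  rwa [div_le_iff₀ hc] at h2

end Pool.Agent.Helper854_CM
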