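import Mathlib
import Pool.Agent.Helper156.Ess.Area
import Pool.Agent.Helper203.NSBase
import Pool.Agent.Helper854_CM.One

/-!
From the hypothesis on the circular means of the valence to the area inequality, also after
composition with self-maps of the disc.
-/

set_option autoImplicit false

open MeasureTheory Filter Topology Complex Set Metric
open scoped ENNReal

noncomputable section

namespace Pool.Agent.Helper854_CM

/-- the valence function -/
def val (F : ℂ → ℂ) (w : ℂ) : ℝ≥0∞ :=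
  ENat.toENNReal (Set.encard {z : ℂ | z ∈ ball (0 : ℂ) 1 ∧ F z = w})

/-- Area inequality in terms of the valence. -/
theorem area_val {F : ℂ → ℂ} (hF : DifferentiableOn ℂ F (ball 0 1)) {w : ℝ → ℝ}
    (hw : Measurable w) :
    ∫⁻ z in ball (0 : ℂ) 1, ENNReal.ofReal (w ‖F z‖) * ENNReal.ofReal (‖deriv F z‖ ^ 2) ≤
      ∫⁻ ζ, ENNReal.ofReal (w ‖ζ‖) * val F ζ := by
  have h := Pool.Agent.Helper156.Ess.area_le hF (G := fun ζ => ENNReal.ofReal (w ‖ζ‖))
    (ω := fun _ => 1) (by fun_prop) measurable_const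
  simp only [mul_one] at h
  refine h.trans (le_of_eq (lintegral_congr fun ζ => ?_))
  congr 1
  exact ENNReal.tsum_set_one {z : ℂ | z ∈ ball (0 : ℂ) 1 ∧ F z = ζ}

/-- Integration in polar coordinates for a function with bounded circular means. -/
theorem polar_le {N : ℂ → ℝ≥0∞} {c : ℝ≥0∞}
    (hN : ∀ R : ℝ, 0 < R →
      ∫⁻ φ in Ioc (0 : ℝ) (2 * Real.pi), N ((R : ℂ) * cexp ((φ : ℂ) * I)) ≤ c) {w : ℝ → ℝ}
    (hw : Measurable w) :
    ∫⁻ ζ, ENNReal.ofReal (w ‖ζ‖) * N ζ ≤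
      c * ∫⁻ R in Ioi (0 : ℝ), ENNReal.ofReal (w R) * ENNReal.ofReal R := by
  have hpi := Real.pi_pos
  rw [← Complex.lintegral_comp_polarCoord_symm, polarCoord_target, Measure.volume_eq_prod,
    ← Measure.prod_restrict]
  refine (lintegral_prod_le _).trans ?_
  calc ∫⁻ R in Ioi (0 : ℝ), ∫⁻ φ in Ioo (-Real.pi) Real.pi, ENNReal.ofReal (R, φ).1 •
        (ENNReal.ofReal (w ‖Complex.polarCoord.symm (R, φ)‖) *
          N (Complex.polarCoord.symm (R, φ)))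
      ≤ ∫⁻ R in Ioi (0 : ℝ), c * (ENNReal.ofReal (w R) * ENNReal.ofReal R) := by
        refine setLIntegral_mono' measurableSet_Ioi fun R hR => ?_
        have hR0 : (0 : ℝ) < R := hR
        have e1 : ∀ φ : ℝ, ENNReal.ofReal (R, φ).1 •
            (ENNReal.ofReal (w ‖Complex.polarCoord.symm (R, φ)‖) *
              N (Complex.polarCoord.symm (R, φ))) =
            (ENNReal.ofReal (w R) * ENNReal.ofReal R) * N ((R : ℂ) * cexp ((φ : ℂ) * I)) := by
          intro φ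
          rw [Complex.norm_polarCoord_symm, symm_eq_zz, zz, smul_eq_mul, abs_of_pos hR0]
          ring
        simp only [e1]
        rw [lintegral_const_mul' _ _ (ENNReal.mul_ne_top ENNReal.ofReal_ne_top
          ENNReal.ofReal_ne_top), mul_comm]
        refine mul_le_mul' ?_ le_rfl
        refine le_trans ?_ (hN R hR0)
        have hper : ∀ (g : AddSubgroup.zmultiples (2 * Real.pi)) (x : ℝ),
            N ((R : ℂ) * cexp (((g +ᵥ x : ℝ) : ℂ) * I)) = N ((R : ℂ) * cexp ((x : ℂ) * I)) := by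
          rintro ⟨g, hg⟩ x
          obtain ⟨k, rfl⟩ := AddSubgroup.mem_zmultiples_iff.1 hg
          congr 2
          have : (((⟨k • (2 * Real.pi), hg⟩ : AddSubgroup.zmultiples (2 * Real.pi)) +ᵥ x : ℝ) : ℂ) *
              I = (x : ℂ) * I + k * (2 * Real.pi * I) := by
            rw [AddSubgroup.vadd_def, vadd_eq_add]
            push_cast
            rw [zsmul_eq_mul]
            push_cast
            ring
          rw [this]
          exact Complex.exp_periodic.int_mul k _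
        have h2 := (isAddFundamentalDomain_Ioc (by positivity : (0 : ℝ) < 2 * Real.pi)
          (-Real.pi) volume).setLIntegral_eq (isAddFundamentalDomain_Ioc
            (by positivity : (0 : ℝ) < 2 * Real.pi) (0 : ℝ) volume)
          (fun x : ℝ => N ((R : ℂ) * cexp ((x : ℂ) * I))) hper
        rw [zero_add, show -Real.pi + 2 * Real.pi = Real.pi by ring] at h2
        rw [← h2]
        exact lintegral_mono_set Ioo_subset_Ioc_self
    _ = c * ∫⁻ R in Ioi (0 : ℝ), ENNReal.ofReal (w R) * ENNReal.ofReal R := by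
        exact lintegral_const_mul _ (by fun_prop)

/-- Composition with an injective self-map does not increase the valence. -/
theorem val_comp_inj {F φ : ℂ → ℂ} (hm : MapsTo φ (ball (0 : ℂ) 1) (ball (0 : ℂ) 1))
    (hi : InjOn φ (ball (0 : ℂ) 1)) (w : ℂ) : val (fun z => F (φ z)) w ≤ val F w := by
  unfold val
  refine ENat.toENNReal_mono ?_
  have hi' : InjOn φ {z : ℂ | z ∈ ball (0 : ℂ) 1 ∧ F (φ z) = w} := hi.mono fun z hz => hz.1
  rw [← hi'.encard_image]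
  refine encard_le_encard ?_
  rintro _ ⟨z, hz, rfl⟩
  exact ⟨hm hz.1, hz.2⟩

/-- A self-map with at least two preimages of almost every point doubles the valence. -/
theorem val_two {F B : ℂ → ℂ} {E : Set ℂ}
    (hB : ∀ ζ ∈ ball (0 : ℂ) 1, ζ ∉ E → ∃ z₁ ∈ ball (0 : ℂ) 1, ∃ z₂ ∈ ball (0 : ℂ) 1,
      z₁ ≠ z₂ ∧ B z₁ = ζ ∧ B z₂ = ζ) {w : ℂ} (hw : w ∉ F '' (ball (0 : ℂ) 1 ∩ E)) :
    2 * val F w ≤ val (fun z => F (B z)) w := by
  classical
  obtain ⟨S, hS⟩ : ∃ S : Set ℂ, S = {z : ℂ | z ∈ ball (0 : ℂ) 1 ∧ F z = w} := ⟨_, rfl⟩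
  have hSE : ∀ ζ ∈ S, ζ ∉ E := by
    intro ζ hζ hE
    rw [hS] at hζ
    exact hw ⟨ζ, ⟨hζ.1, hE⟩, hζ.2⟩
  have hex : ∀ ζ : ℂ, ∃ p : ℂ × ℂ, ζ ∈ S → p.1 ∈ ball (0 : ℂ) 1 ∧ p.2 ∈ ball (0 : ℂ) 1 ∧
      p.1 ≠ p.2 ∧ B p.1 = ζ ∧ B p.2 = ζ := by
    intro ζ
    by_cases h : ζ ∈ S
    · have h1 : ζ ∈ ball (0 : ℂ) 1 := by
        rw [hS] at h
        exact h.1
      obtain ⟨z₁, hz₁, z₂, hz₂, h12, h3, h4⟩ := hB ζ h1 (hSE ζ h)
      exact ⟨(z₁, z₂), fun _ => ⟨hz₁, hz₂, h12, h3, h4⟩⟩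
    · exact ⟨(0, 0), fun h' => absurd h' h⟩
  choose s hs using hex
  have hi1 : InjOn (fun ζ => (s ζ).1) S := by
    intro a ha b hb hab
    have h1 := (hs a ha).2.2.2.1
    have h2 := (hs b hb).2.2.2.1
    simp only at hab
    rw [← h1, ← h2, hab]
  have hi2 : InjOn (fun ζ => (s ζ).2) S := by
    intro a ha b hb hab
    have h1 := (hs a ha).2.2.2.2
    have h2 := (hs b hb).2.2.2.2
    simp only at hab
    rw [← h1, ← h2, hab]
  have hdisj : Disjoint ((fun ζ => (s ζ).1) '' S) ((fun ζ => (s ζ).2) '' S) := by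
    rw [Set.disjoint_left]
    rintro _ ⟨a, ha, rfl⟩ ⟨b, hb, hab⟩
    simp only at hab
    have h1 := (hs a ha).2.2.2.1
    have h2 := (hs b hb).2.2.2.2
    have h3 : a = b := by rw [← h1, ← h2, hab]
    subst h3
    exact (hs a ha).2.2.1 hab.symm
  have hsub : (fun ζ => (s ζ).1) '' S ∪ (fun ζ => (s ζ).2) '' S ⊆
      {z : ℂ | z ∈ ball (0 : ℂ) 1 ∧ F (B z) = w} := by
    rintro z (⟨a, ha, rfl⟩ | ⟨a, ha, rfl⟩)
    · have h1 := hs a ha
      rw [hS] at ha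
      exact ⟨h1.1, by simp only [h1.2.2.2.1]; exact ha.2⟩
    · have h1 := hs a ha
      rw [hS] at ha
      exact ⟨h1.2.1, by simp only [h1.2.2.2.2]; exact ha.2⟩
  have hcard := encard_le_encard hsub
  rw [encard_union_eq hdisj, hi1.encard_image, hi2.encard_image] at hcard
  unfold val
  rw [← hS, two_mul, ← ENat.toENNReal_add]
  exact ENat.toENNReal_mono hcard

/-- The area inequality for `F ∘ φ` when `F ∘ B` has circular means of the valence at most `p`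
and `B` takes almost every value at least twice. -/
theorem area_half {p : ℝ} {F B φ : ℂ → ℂ} {E : Set ℂ}
    (hF : DifferentiableOn ℂ F (ball 0 1)) (hE : volume E = 0)
    (hB : ∀ ζ ∈ ball (0 : ℂ) 1, ζ ∉ E → ∃ z₁ ∈ ball (0 : ℂ) 1, ∃ z₂ ∈ ball (0 : ℂ) 1,
      z₁ ≠ z₂ ∧ B z₁ = ζ ∧ B z₂ = ζ)
    (hN : ∀ R : ℝ, 0 < R →
      ∫⁻ φ in Ioc (0 : ℝ) (2 * Real.pi), val (fun z => F (B z)) ((R : ℂ) * cexp ((φ : ℂ) * I)) ≤
        ENNReal.ofReal (2 * Real.pi * p))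
    (hφ : DifferentiableOn ℂ φ (ball 0 1)) (hm : MapsTo φ (ball (0 : ℂ) 1) (ball (0 : ℂ) 1))
    (hi : InjOn φ (ball (0 : ℂ) 1)) (w : ℝ → ℝ) (hw : Measurable w) :
    ∫⁻ z in ball (0 : ℂ) 1, ENNReal.ofReal (w ‖F (φ z)‖) *
        ENNReal.ofReal (‖deriv (fun z => F (φ z)) z‖ ^ 2) ≤
      ENNReal.ofReal (2 * Real.pi * (p / 2)) *
        ∫⁻ R in Ioi (0 : ℝ), ENNReal.ofReal (w R) * ENNReal.ofReal R := by
  have hpi := Real.pi_pos
  have hd : DifferentiableOn ℂ (fun z => F (φ z)) (ball 0 1) := hF.comp hφ hm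
  refine (area_val hd hw).trans ?_
  have hnull : volume (F '' (ball (0 : ℂ) 1 ∩ E)) = 0 := by
    refine addHaar_image_eq_zero_of_differentiableOn_of_addHaar_eq_zero volume ?_ ?_
    · exact ((hF.mono inter_subset_left).restrictScalars ℝ)
    · exact measure_mono_null inter_subset_right hE
  have hae : ∀ᵐ ζ : ℂ, ENNReal.ofReal (w ‖ζ‖) * val (fun z => F (φ z)) ζ ≤
      ENNReal.ofReal (w ‖ζ‖) * (2⁻¹ * val (fun z => F (B z)) ζ) := by
    filter_upwards [measure_eq_zero_iff_ae_notMem.1 hnull] with ζ hζ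
    refine mul_le_mul' le_rfl ((val_comp_inj hm hi ζ).trans ?_)
    have h2 := val_two hB hζ
    calc val F ζ = 2⁻¹ * (2 * val F ζ) := by
          rw [← mul_assoc, ENNReal.inv_mul_cancel two_ne_zero ENNReal.ofNat_ne_top, one_mul]
      _ ≤ _ := mul_le_mul' le_rfl h2
  refine (lintegral_mono_ae hae).trans ?_
  refine polar_le ?_ hw
  intro R hR
  rw [lintegral_const_mul' _ _ (by simp)]
  calc 2⁻¹ * _ ≤ 2⁻¹ * ENNReal.ofReal (2 * Real.pi * p) := mul_le_mul' le_rfl (hN R hR)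
    _ = ENNReal.ofReal (2 * Real.pi * (p / 2)) := by
        rw [show (2⁻¹ : ℝ≥0∞) = ENNReal.ofReal (2⁻¹) by
          rw [ENNReal.ofReal_inv_of_pos two_pos]; simp, ← ENNReal.ofReal_mul (by positivity)]
        congr 1
        ring

/-- the automorphism of the disc moving `0` to `a` -/
def mob (a z : ℂ) : ℂ := (z - -a) / (1 - (starRingEnd ℂ) (-a) * z)

theorem mob_mem {a : ℂ} (ha : ‖a‖ < 1) : MapsTo (mob a) (ball (0 : ℂ) 1) (ball (0 : ℂ) 1) := by
  intro z hz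
  rw [mem_ball_zero_iff] at hz ⊢
  exact Pool.Agent.Helper203.NS.mob_lt (by rwa [norm_neg]) hz

theorem mob_diff {a : ℂ} (ha : ‖a‖ < 1) : DifferentiableOn ℂ (mob a) (ball (0 : ℂ) 1) := by
  intro z hz
  rw [mem_ball_zero_iff] at hz
  apply DifferentiableAt.differentiableWithinAt
  exact DifferentiableAt.div (by fun_prop) (by fun_prop)
    (Pool.Agent.Helper203.NS.one_sub_ne (by rwa [norm_neg]) hz)

theorem mob_inj {a : ℂ} (ha : ‖a‖ < 1) : InjOn (mob a) (ball (0 : ℂ) 1) := by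
  intro z hz w hw hzw
  rw [mem_ball_zero_iff] at hz hw
  have h1 := Pool.Agent.Helper203.NS.one_sub_ne (a := -a) (b := z) (by rwa [norm_neg]) hz
  have h2 := Pool.Agent.Helper203.NS.one_sub_ne (a := -a) (b := w) (by rwa [norm_neg]) hw
  have h3 := Pool.Agent.Helper203.NS.one_sub_ne ha ha
  unfold mob at hzw
  rw [div_eq_div_iff h1 h2] at hzw
  rw [map_neg] at hzw
  have h4 : (z - w) * (1 - (starRingEnd ℂ) a * a) = 0 := by linear_combination hzw
  rcases mul_eq_zero.1 h4 with h5 | h5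
  · exact sub_eq_zero.1 h5
  · exact absurd h5 h3

theorem mob_zero (a : ℂ) : mob a 0 = a := by simp [mob]

theorem mob_deriv (a : ℂ) : HasDerivAt (mob a) ((1 - ‖a‖ ^ 2 : ℝ) : ℂ) 0 := by
  have h1 : HasDerivAt (fun z : ℂ => z - -a) 1 0 := (hasDerivAt_id 0).sub_const _
  have h2 : HasDerivAt (fun z : ℂ => 1 - (starRingEnd ℂ) (-a) * z)
      (-((starRingEnd ℂ) (-a) * 1)) 0 :=
    ((hasDerivAt_id (0 : ℂ)).const_mul _).const_sub 1
  have h3 := h1.div h2 (by simp)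
  refine h3.congr_deriv ?_
  have h4 : ((1 - ‖a‖ ^ 2 : ℝ) : ℂ) = 1 - (starRingEnd ℂ) a * a := by
    rw [mul_comm, Complex.mul_conj, Complex.normSq_eq_norm_sq]
    push_cast
    ring
  rw [h4]
  simp
  ring

/-- The Bloch type bound for the logarithmic derivative of the outer function. -/
theorem bloch_F {p : ℝ} (hp : 0 < p) {F B : ℂ → ℂ} {E : Set ℂ}
    (hF : DifferentiableOn ℂ F (ball 0 1)) (hne : ∀ z ∈ ball (0 : ℂ) 1, F z ≠ 0)
    (hE : volume E = 0)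
    (hB : ∀ ζ ∈ ball (0 : ℂ) 1, ζ ∉ E → ∃ z₁ ∈ ball (0 : ℂ) 1, ∃ z₂ ∈ ball (0 : ℂ) 1,
      z₁ ≠ z₂ ∧ B z₁ = ζ ∧ B z₂ = ζ)
    (hN : ∀ R : ℝ, 0 < R →
      ∫⁻ φ in Ioc (0 : ℝ) (2 * Real.pi), val (fun z => F (B z)) ((R : ℂ) * cexp ((φ : ℂ) * I)) ≤
        ENNReal.ofReal (2 * Real.pi * p)) {a : ℂ} (ha : ‖a‖ < 1) :
    (1 - ‖a‖ ^ 2) * ‖deriv F a‖ ≤ 2 * p * ‖F a‖ := by
  have hd : DifferentiableOn ℂ (fun z => F (mob a z)) (ball 0 1) :=
    hF.comp (mob_diff ha) (mob_mem ha)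
  have h := one_bound (q := p / 2) (by positivity) hd (fun z hz => hne _ (mob_mem ha hz))
    (fun w hw => area_half hF hE hB hN (mob_diff ha) (mob_mem ha) (mob_inj ha) w hw)
  simp only [mob_zero] at h
  have haF : HasDerivAt F (deriv F a) (mob a 0) := by
    rw [mob_zero]
    exact (hF.differentiableAt (isOpen_ball.mem_nhds (by simpa using ha))).hasDerivAt
  have hc : HasDerivAt (fun z => F (mob a z)) (deriv F a * ((1 - ‖a‖ ^ 2 : ℝ) : ℂ)) 0 :=
    haF.comp 0 (mob_deriv a)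
  rw [hc.deriv, norm_mul, Complex.norm_real, Real.norm_of_nonneg
    (by have := norm_nonneg a; nlinarith)] at h
  linarith

/-- The Bloch type bound for `F ∘ B`. -/
theorem bloch_f {p : ℝ} (hp : 0 < p) {F B : ℂ → ℂ} {E : Set ℂ}
    (hF : DifferentiableOn ℂ F (ball 0 1)) (hne : ∀ z ∈ ball (0 : ℂ) 1, F z ≠ 0)
    (hBd : DifferentiableOn ℂ B (ball 0 1)) (hBm : MapsTo B (ball (0 : ℂ) 1) (ball (0 : ℂ) 1))
    (hE : volume E = 0)
    (hB : ∀ ζ ∈ ball (0 : ℂ) 1, ζ ∉ E → ∃ z₁ ∈ ball (0 : ℂ) 1, ∃ z₂ ∈ ball (0 : ℂ) 1,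
      z₁ ≠ z₂ ∧ B z₁ = ζ ∧ B z₂ = ζ)
    (hN : ∀ R : ℝ, 0 < R →
      ∫⁻ φ in Ioc (0 : ℝ) (2 * Real.pi), val (fun z => F (B z)) ((R : ℂ) * cexp ((φ : ℂ) * I)) ≤
        ENNReal.ofReal (2 * Real.pi * p)) {a : ℂ} (ha : ‖a‖ < 1) :
    (1 - ‖a‖ ^ 2) * ‖deriv (fun z => F (B z)) a‖ ≤ 2 * p * ‖F (B a)‖ := by
  have ham : a ∈ ball (0 : ℂ) 1 := by simpa using ha
  have hBa : ‖B a‖ < 1 := by simpa using hBm ham
  have h1 := bloch_F hp hF hne hE hB hN hBa
  have h2 := Pool.Agent.Helper203.NS.schwarz_pick_deriv hBd hBm ha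
  have haF : HasDerivAt F (deriv F (B a)) (B a) :=
    (hF.differentiableAt (isOpen_ball.mem_nhds (hBm ham))).hasDerivAt
  have haB : HasDerivAt B (deriv B a) a :=
    (hBd.differentiableAt (isOpen_ball.mem_nhds ham)).hasDerivAt
  have hc : HasDerivAt (fun z => F (B z)) (deriv F (B a) * deriv B a) a := haF.comp a haB
  rw [hc.deriv, norm_mul]
  have h3 : 0 ≤ ‖deriv F (B a)‖ := norm_nonneg _
  calc (1 - ‖a‖ ^ 2) * (‖deriv F (B a)‖ * ‖deriv B a‖)
      = (‖deriv B a‖ * (1 - ‖a‖ ^ 2)) * ‖deriv F (B a)‖ := by ring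
    _ ≤ (1 - ‖B a‖ ^ 2) * ‖deriv F (B a)‖ := by gcongr
    _ ≤ _ := h1

end Pool.Agent.Helper854_CM
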