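import Mathlib
import Pool.Agent.Helper854_CM.Duf

/-!
A general form of the passage from circle integrals to area integrals.
-/

set_option autoImplicit false

open MeasureTheory Filter Topology Complex Set Metric

noncomputable section

namespace Pool.Agent.Helper854_CM

/-- data for the passage from circle integrals to area integrals -/
structure SD (A AR B BT : ℝ → ℝ → ℝ) (Q : ℂ → ℝ) : Prop where
  hA : ∀ r ∈ Ioo (-1 : ℝ) 1, ∀ θ, HasDerivAt (fun r => A r θ) (AR r θ) r
  hAc : ContinuousOn (fun p : ℝ × ℝ => A p.1 p.2) (Ioo (-1 : ℝ) 1 ×ˢ univ)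
  hARc : ContinuousOn (fun p : ℝ × ℝ => AR p.1 p.2) (Ioo (-1 : ℝ) 1 ×ˢ univ)
  hB : ∀ r ∈ Ioo (-1 : ℝ) 1, ∀ θ, HasDerivAt (fun θ => B r θ) (BT r θ) θ
  hBc : ∀ r ∈ Ioo (-1 : ℝ) 1, Continuous (BT r)
  hBp : ∀ r, B r (2 * Real.pi) = B r 0
  hQc : ContinuousOn Q (ball 0 1)
  hQ0 : ∀ z ∈ ball (0 : ℂ) 1, 0 ≤ Q z
  hid : ∀ r ∈ Ioo (0 : ℝ) 1, ∀ θ, r * AR r θ = BT r θ + r ^ 2 * Q (zz r θ)
  h0 : ∀ θ, A 0 θ = 0

variable {A AR B BT : ℝ → ℝ → ℝ} {Q : ℂ → ℝ}

/-- circle integral of `A` -/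
def WI (A : ℝ → ℝ → ℝ) (r : ℝ) : ℝ := ∫ θ in (0 : ℝ)..(2 * Real.pi), A r θ

/-- circle integral of `Q` -/
def JQ (Q : ℂ → ℝ) (r : ℝ) : ℝ := ∫ θ in (0 : ℝ)..(2 * Real.pi), Q (zz r θ)

theorem SD.Q_strip (D : SD A AR B BT Q) :
    ContinuousOn (fun p : ℝ × ℝ => Q (zz p.1 p.2)) (Ioo (-1 : ℝ) 1 ×ˢ univ) :=
  D.hQc.comp zz_cont.continuousOn fun p hp => zz_mem hp.1 p.2

theorem SD.JQ_nonneg (D : SD A AR B BT Q) {r : ℝ} (hr : r ∈ Ioo (-1 : ℝ) 1) : 0 ≤ JQ Q r := by
  have hpi := Real.pi_pos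
  exact intervalIntegral.integral_nonneg (by positivity) fun x _ => D.hQ0 _ (zz_mem hr x)

theorem SD.WI_deriv (D : SD A AR B BT Q) {r : ℝ} (hr : r ∈ Ioo (-1 : ℝ) 1) :
    HasDerivAt (WI A) (∫ θ in (0 : ℝ)..(2 * Real.pi), AR r θ) r := by
  have hpi := Real.pi_pos
  unfold WI
  obtain ⟨ε, hε, hball⟩ := Metric.isOpen_iff.1 (isOpen_Ioo (a := (-1 : ℝ)) (b := 1)) r hr
  have hsub : Icc (r - ε / 2) (r + ε / 2) ⊆ Ioo (-1 : ℝ) 1 := by
    intro x hx
    apply hball
    rw [Metric.mem_ball, Real.dist_eq, abs_lt]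
    constructor <;> linarith [hx.1, hx.2]
  have hK : IsCompact (Icc (r - ε / 2) (r + ε / 2) ×ˢ Icc (0 : ℝ) (2 * Real.pi)) :=
    isCompact_Icc.prod isCompact_Icc
  obtain ⟨C, hC⟩ := hK.exists_bound_of_continuousOn
    (D.hARc.mono (prod_mono hsub (subset_univ _)))
  have hs : Icc (r - ε / 2) (r + ε / 2) ∈ 𝓝 r := Icc_mem_nhds (by linarith) (by linarith)
  have hcA : ∀ x ∈ Ioo (-1 : ℝ) 1, Continuous (AR x) := fun x hx => strip_slice D.hARc hx
  have hcN : ∀ x ∈ Ioo (-1 : ℝ) 1, Continuous (A x) := fun x hx => strip_slice D.hAc hx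
  refine (intervalIntegral.hasDerivAt_integral_of_dominated_loc_of_deriv_le
    (bound := fun _ => C) hs ?_ ((hcN r hr).intervalIntegrable _ _)
    (hcA r hr).aestronglyMeasurable ?_ (continuous_const.intervalIntegrable _ _) ?_).2
  · filter_upwards [isOpen_Ioo.mem_nhds hr] with x hx
    exact (hcN x hx).aestronglyMeasurable
  · refine Eventually.of_forall fun t ht x hx => ?_
    rw [uIoc_of_le (by positivity)] at ht
    exact hC (x, t) ⟨hx, ⟨ht.1.le, ht.2⟩⟩
  · exact Eventually.of_forall fun t _ x hx => D.hA x (hsub hx) t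

theorem SD.AR_int (D : SD A AR B BT Q) {r : ℝ} (hr : r ∈ Ioo (0 : ℝ) 1) :
    ∫ θ in (0 : ℝ)..(2 * Real.pi), AR r θ = r * JQ Q r := by
  have hr' : r ∈ Ioo (-1 : ℝ) 1 := ⟨by linarith [hr.1], hr.2⟩
  have hr0 : r ≠ 0 := hr.1.ne'
  have hB : ∫ θ in (0 : ℝ)..(2 * Real.pi), BT r θ = 0 := by
    rw [intervalIntegral.integral_eq_sub_of_hasDerivAt (fun θ _ => D.hB r hr' θ)
      ((D.hBc r hr').intervalIntegrable _ _), D.hBp, sub_self]
  have hQs : Continuous fun θ => Q (zz r θ) := strip_slice D.Q_strip hr'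
  have hAR : ∀ θ, AR r θ = r⁻¹ * BT r θ + r * Q (zz r θ) := by
    intro θ
    have h := D.hid r hr θ
    field_simp
    linarith
  rw [intervalIntegral.integral_congr (fun θ _ => hAR θ), intervalIntegral.integral_add,
    intervalIntegral.integral_const_mul, intervalIntegral.integral_const_mul, hB, mul_zero,
    zero_add]
  · rfl
  · exact ((D.hBc r hr').intervalIntegrable _ _).const_mul _
  · exact (hQs.intervalIntegrable _ _).const_mul _

theorem SD.WI_deriv' (D : SD A AR B BT Q) {r : ℝ} (hr : r ∈ Ioo (0 : ℝ) 1) :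
    HasDerivAt (WI A) (r * JQ Q r) r := by
  have h := D.WI_deriv (r := r) ⟨by linarith [hr.1], hr.2⟩
  rwa [D.AR_int hr] at h

theorem SD.WI_zero (D : SD A AR B BT Q) : WI A 0 = 0 := by
  unfold WI
  rw [intervalIntegral.integral_congr (fun θ _ => D.h0 θ)]
  simp

theorem SD.WI_cont (D : SD A AR B BT Q) : ContinuousOn (WI A) (Ioo (-1 : ℝ) 1) :=
  fun _ hr => (D.WI_deriv hr).continuousAt.continuousWithinAt

theorem SD.WI_eq_int (D : SD A AR B BT Q) {r : ℝ} (hr : r ∈ Ioo (0 : ℝ) 1) :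
    WI A r = ∫ x in (0 : ℝ)..r, x * JQ Q x ∧
      IntervalIntegrable (fun x => x * JQ Q x) volume 0 r := by
  have hc : ContinuousOn (WI A) (Icc 0 r) :=
    D.WI_cont.mono fun x hx => ⟨by linarith [hx.1], by linarith [hx.2, hr.2]⟩
  have hd : ∀ x ∈ Ioo 0 r, HasDerivAt (WI A) (x * JQ Q x) x :=
    fun x hx => D.WI_deriv' ⟨hx.1, by linarith [hx.2, hr.2]⟩
  have hi : IntervalIntegrable (fun x => x * JQ Q x) volume 0 r := by
    refine intervalIntegral.intervalIntegrable_deriv_of_nonneg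
      (by rwa [uIcc_of_le hr.1.le]) (fun x hx => ?_) (fun x hx => ?_)
    · rw [min_eq_left hr.1.le, max_eq_right hr.1.le] at hx
      exact hd x hx
    · rw [min_eq_left hr.1.le, max_eq_right hr.1.le] at hx
      have := D.JQ_nonneg (r := x) ⟨by linarith [hx.1], by linarith [hx.2, hr.2]⟩
      have := hx.1
      positivity
  refine ⟨?_, hi⟩
  rw [intervalIntegral.integral_eq_sub_of_hasDerivAt_of_le hr.1.le hc hd hi, D.WI_zero, sub_zero]

theorem SD.area_lower (D : SD A AR B BT Q) {r : ℝ} (hr : r ∈ Ioo (0 : ℝ) 1) :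
    ENNReal.ofReal (WI A r) ≤ ∫⁻ z in ball (0 : ℂ) 1, ENNReal.ofReal (Q z) := by
  have hpi := Real.pi_pos
  have hsub : Ioo 0 r ⊆ Ioo (-1 : ℝ) 1 := fun x hx => ⟨by linarith [hx.1], by linarith [hx.2, hr.2]⟩
  obtain ⟨q, hq⟩ : ∃ q : ℝ × ℝ → ℝ, ∀ p, q p = Q (zz p.1 p.2) := ⟨_, fun p => rfl⟩
  have hqc : ContinuousOn q (Ioo (-1 : ℝ) 1 ×ˢ univ) := by
    rw [funext hq]
    exact D.Q_strip
  have hqs : ∀ x ∈ Ioo (0 : ℝ) r, Continuous fun θ => q (x, θ) :=
    fun x hx => strip_slice hqc (hsub hx)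
  have hinner : ∀ x ∈ Ioo (0 : ℝ) r, ∫⁻ θ in Ioo (-Real.pi) Real.pi, ENNReal.ofReal (x * q (x, θ)) =
      ENNReal.ofReal (x * JQ Q x) := by
    intro x hx
    have e1 : ∫ θ in Ioo (-Real.pi) Real.pi, x * q (x, θ) = x * JQ Q x := by
      rw [← integral_Ioc_eq_integral_Ioo, ← intervalIntegral.integral_of_le (by linarith),
        intervalIntegral.integral_const_mul]
      congr 1
      have hp : Function.Periodic (fun θ => q (x, θ)) (2 * Real.pi) := by
        intro θ
        simp only [hq, zz_per]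
      have h2 := hp.intervalIntegral_add_eq (-Real.pi) 0
      have h3 : -Real.pi + 2 * Real.pi = Real.pi := by ring
      rw [h3, zero_add] at h2
      rw [h2, JQ]
      exact intervalIntegral.integral_congr fun θ _ => hq (x, θ)
    rw [← e1, ofReal_integral_eq_lintegral_ofReal]
    · have hcc : Continuous fun θ => x * q (x, θ) := continuous_const.mul (hqs x hx)
      exact (hcc.continuousOn.integrableOn_Icc (a := -Real.pi) (b := Real.pi)).mono_set
        Ioo_subset_Icc_self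
    · refine Eventually.of_forall fun θ => mul_nonneg hx.1.le ?_
      rw [hq]
      exact D.hQ0 _ (zz_mem (hsub hx) θ)
  have houter : ∫⁻ x in Ioo (0 : ℝ) r, ENNReal.ofReal (x * JQ Q x) = ENNReal.ofReal (WI A r) := by
    obtain ⟨h1, h2⟩ := D.WI_eq_int hr
    have e2 : WI A r = ∫ x in Ioo (0 : ℝ) r, x * JQ Q x := by
      rw [h1, intervalIntegral.integral_of_le hr.1.le, integral_Ioc_eq_integral_Ioo]
    rw [e2, ofReal_integral_eq_lintegral_ofReal]
    · rwa [intervalIntegrable_iff_integrableOn_Ioo_of_le hr.1.le] at h2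
    · refine (ae_restrict_iff' measurableSet_Ioo).2 (Eventually.of_forall fun x hx => ?_)
      exact mul_nonneg hx.1.le (D.JQ_nonneg (hsub hx))
  rw [← houter, ← setLIntegral_congr_fun measurableSet_Ioo hinner]
  have hmeas : AEMeasurable (fun p : ℝ × ℝ => ENNReal.ofReal (p.1 * q p))
      ((volume.prod volume).restrict (Ioo (0 : ℝ) r ×ˢ Ioo (-Real.pi) Real.pi)) := by
    refine ENNReal.measurable_ofReal.comp_aemeasurable ?_
    refine ContinuousOn.aemeasurable ?_ (measurableSet_Ioo.prod measurableSet_Ioo)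
    exact (continuous_fst.continuousOn).mul (hqc.mono (prod_mono hsub (subset_univ _)))
  have hton := setLIntegral_prod (μ := (volume : Measure ℝ)) (ν := (volume : Measure ℝ))
    (fun p : ℝ × ℝ => ENNReal.ofReal (p.1 * q p)) hmeas
  rw [← hton, ← lintegral_indicator measurableSet_ball,
    ← Complex.lintegral_comp_polarCoord_symm, polarCoord_target]
  rw [← Measure.volume_eq_prod]
  refine le_trans ?_ (lintegral_mono_set (s := Ioo (0 : ℝ) r ×ˢ Ioo (-Real.pi) Real.pi)
    (prod_mono (fun x hx => hx.1) subset_rfl))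
  refine setLIntegral_mono' (measurableSet_Ioo.prod measurableSet_Ioo) fun p hp => ?_
  have hmem : Complex.polarCoord.symm p ∈ ball (0 : ℂ) 1 := by
    rw [symm_eq_zz]
    exact zz_mem (hsub hp.1) _
  rw [indicator_of_mem hmem, symm_eq_zz, ENNReal.ofReal_mul hp.1.1.le, hq, smul_eq_mul]

/-- The area condition satisfied by `h = (1/p) log (f / f(0))`, `f` circumferentially mean
`p`-valent. -/
def CI (h : ℂ → ℂ) : Prop := ∀ ψ : ℝ → ℝ, Measurable ψ → (∀ x, 0 ≤ ψ x) →
  ∫⁻ z in ball (0 : ℂ) 1, ENNReal.ofReal (ψ (h z).re) * ENNReal.ofReal (‖deriv h z‖ ^ 2) ≤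
    ENNReal.ofReal (2 * Real.pi) * ∫⁻ x, ENNReal.ofReal (ψ x)

theorem integrable_aux {Psi psi : ℝ → ℝ} (hP : ∀ x, HasDerivAt Psi (psi x) x)
    (hp0 : ∀ x, 0 ≤ psi x) {a b : ℝ} (ha : Tendsto Psi atBot (𝓝 a))
    (hb : Tendsto Psi atTop (𝓝 b)) : Integrable psi := by
  have h1 : IntegrableOn psi (Ioi 0) :=
    integrableOn_Ioi_deriv_of_nonneg' (fun x _ => hP x) (fun x _ => hp0 x) hb
  have h2 : IntegrableOn (fun x => psi (-x)) (Ioi 0) := by
    refine integrableOn_Ioi_deriv_of_nonneg' (g := fun x => -Psi (-x)) (l := -a)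
      (fun x _ => ?_) (fun x _ => hp0 _) ?_
    · have h3 : HasDerivAt (fun x : ℝ => Psi (-x)) (psi (-x) * (-1)) x :=
        (hP (-x)).comp x (hasDerivAt_neg x)
      refine h3.neg.congr_deriv ?_
      ring
    · exact (ha.comp tendsto_neg_atTop_atBot).neg
  have h3 : IntegrableOn psi (Iio 0) := by
    have h4 := ((Measure.measurePreserving_neg (volume : Measure ℝ)).integrableOn_comp_preimage
      (Homeomorph.neg ℝ).measurableEmbedding (f := psi) (s := Iio 0)).1
    apply h4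
    have h5 : (Neg.neg : ℝ → ℝ) ⁻¹' (Iio 0) = Ioi 0 := by
      ext x
      simp
    rw [h5]
    exact h2
  have h6 : IntegrableOn psi (Iic 0) := by
    rw [integrableOn_Iic_iff_integrableOn_Iio]
    exact h3
  rw [← integrableOn_univ, ← Iic_union_Ioi (a := (0 : ℝ))]
  exact h6.union h1

/-- The level inequality for a smooth nondecreasing function. -/
theorem lev_smooth {h : ℂ → ℂ} (hh : DifferentiableOn ℂ h (ball 0 1)) (hCI : CI h)
    {Psi psi : ℝ → ℝ} (hP : ∀ x, HasDerivAt Psi (psi x) x) (hpc : Continuous psi)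
    (hp0 : ∀ x, 0 ≤ psi x) {a b : ℝ} (ha : Tendsto Psi atBot (𝓝 a)) (hb : Tendsto Psi atTop (𝓝 b))
    {r : ℝ} (hr : r ∈ Ioo (0 : ℝ) 1) :
    ∫ θ in (0 : ℝ)..(2 * Real.pi), Psi (h (zz r θ)).re * (zz r θ * deriv h (zz r θ)).re ≤
      2 * Real.pi * (b - a) := by
  have hpi := Real.pi_pos
  have hh' : DifferentiableOn ℂ (deriv h) (ball 0 1) := hh.deriv isOpen_ball
  have hh'' : DifferentiableOn ℂ (deriv (deriv h)) (ball 0 1) := hh'.deriv isOpen_ball
  have hPc : Continuous Psi := continuous_iff_continuousAt.2 fun x => (hP x).continuousAt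
  have hz0 : ContinuousOn (fun p : ℝ × ℝ => zz p.1 p.2) (Ioo (-1 : ℝ) 1 ×ˢ univ) :=
    zz_cont.continuousOn
  have he : ContinuousOn (fun p : ℝ × ℝ => cexp (p.2 * I)) (Ioo (-1 : ℝ) 1 ×ˢ univ) := by
    fun_prop
  have hc0 := G_cont hh
  have hc1 := G_cont hh'
  have hc2 := G_cont hh''
  have hcr := Complex.continuous_re.comp_continuousOn hc0
  have D : SD (fun r θ => Psi (h (zz r θ)).re * (zz r θ * deriv h (zz r θ)).re)
      (fun r θ => psi (h (zz r θ)).re * (deriv h (zz r θ) * cexp (θ * I)).re *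
        (zz r θ * deriv h (zz r θ)).re + Psi (h (zz r θ)).re *
        (cexp (θ * I) * deriv h (zz r θ) +
          zz r θ * (deriv (deriv h) (zz r θ) * cexp (θ * I))).re)
      (fun r θ => Psi (h (zz r θ)).re * (zz r θ * deriv h (zz r θ)).im)
      (fun r θ => psi (h (zz r θ)).re * (deriv h (zz r θ) * (I * zz r θ)).re *
        (zz r θ * deriv h (zz r θ)).im + Psi (h (zz r θ)).re *
        (I * zz r θ * deriv h (zz r θ) +
          zz r θ * (deriv (deriv h) (zz r θ) * (I * zz r θ))).im)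
      (fun z => psi (h z).re * ‖deriv h z‖ ^ 2) := by
    constructor
    · intro r hr θ
      have h1 := G_dr hh hr θ
      have h2 := G_dr hh' hr θ
      exact ((hP _).comp r (re_deriv h1)).mul (re_deriv ((zz_dr r θ).mul h2))
    · exact (hPc.comp_continuousOn hcr).mul (Complex.continuous_re.comp_continuousOn (hz0.mul hc1))
    · refine ContinuousOn.add (ContinuousOn.mul (ContinuousOn.mul (hpc.comp_continuousOn hcr) ?_) ?_)
        (ContinuousOn.mul (hPc.comp_continuousOn hcr) ?_)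
      · exact Complex.continuous_re.comp_continuousOn (hc1.mul he)
      · exact Complex.continuous_re.comp_continuousOn (hz0.mul hc1)
      · exact Complex.continuous_re.comp_continuousOn ((he.mul hc1).add (hz0.mul (hc2.mul he)))
    · intro r hr θ
      have h1 := G_dt hh hr θ
      have h2 := G_dt hh' hr θ
      exact ((hP _).comp θ (re_deriv h1)).mul (im_deriv ((zz_dt r θ).mul h2))
    · intro r hr
      have hz : Continuous fun θ : ℝ => zz r θ :=
        zz_cont.comp (by fun_prop : Continuous fun θ : ℝ => (r, θ))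
      have e : ∀ F : ℂ → ℂ, DifferentiableOn ℂ F (ball 0 1) →
          Continuous fun θ : ℝ => F (zz r θ) := by
        intro F hF
        exact continuous_iff_continuousAt.2 fun θ => (G_dt hF hr θ).continuousAt
      have s0 := e _ hh
      have s1 := e _ hh'
      have s2 := e _ hh''
      have hi : Continuous fun θ : ℝ => I * zz r θ := continuous_const.mul hz
      refine Continuous.add (Continuous.mul (Continuous.mul
        (hpc.comp (Complex.continuous_re.comp s0)) ?_) ?_)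
        (Continuous.mul (hPc.comp (Complex.continuous_re.comp s0)) ?_)
      · exact Complex.continuous_re.comp (s1.mul hi)
      · exact Complex.continuous_im.comp (hz.mul s1)
      · exact Complex.continuous_im.comp ((hi.mul s1).add (hz.mul (s2.mul hi)))
    · intro r
      have h1 := zz_per r 0
      rw [zero_add] at h1
      simp only [h1]
    · exact (hpc.comp_continuousOn (Complex.continuous_re.comp_continuousOn hh.continuousOn)).mul
        (hh'.continuousOn.norm.pow 2)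
    · exact fun z _ => mul_nonneg (hp0 _) (by positivity)
    · intro r _ θ
      have hz : zz r θ = (r : ℂ) * cexp (θ * I) := rfl
      have h1 : r ^ 2 * (psi (h (zz r θ)).re * ‖deriv h (zz r θ)‖ ^ 2) =
          psi (h (zz r θ)).re * ‖zz r θ * deriv h (zz r θ)‖ ^ 2 := by
        rw [norm_mul, norm_zz, mul_pow, sq_abs]
        ring
      rw [h1, nsq]
      generalize psi (h (zz r θ)).re = a1
      generalize Psi (h (zz r θ)).re = a2
      generalize deriv h (zz r θ) = g1
      generalize deriv (deriv h) (zz r θ) = g2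
      rw [hz]
      generalize cexp (θ * I) = e
      obtain ⟨c1, d1⟩ := g1
      obtain ⟨c2, d2⟩ := g2
      obtain ⟨c, d⟩ := e
      simp
      ring
    · intro θ
      simp [zz]
  have h1 := D.area_lower hr
  have h2 : ∫⁻ z in ball (0 : ℂ) 1, ENNReal.ofReal (psi (h z).re * ‖deriv h z‖ ^ 2) ≤
      ENNReal.ofReal (2 * Real.pi * (b - a)) := by
    have h3 := hCI psi hpc.measurable hp0
    have h4 : ∫⁻ x, ENNReal.ofReal (psi x) = ENNReal.ofReal (b - a) := by
      have hint : Integrable psi := integrable_aux hP hp0 ha hb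
      rw [← ofReal_integral_eq_lintegral_ofReal hint (Eventually.of_forall hp0),
        integral_of_hasDerivAt_of_tendsto hP hint ha hb]
    rw [h4, ← ENNReal.ofReal_mul (by positivity)] at h3
    refine le_trans (le_of_eq ?_) h3
    refine lintegral_congr fun z => ?_
    rw [ENNReal.ofReal_mul (hp0 _)]
  have h5 := h1.trans h2
  have hab : a ≤ b := by
    have hmono : Monotone Psi := monotone_of_hasDerivAt_nonneg hP hp0
    exact (hmono.le_of_tendsto ha 0).trans (hmono.ge_of_tendsto hb 0)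
  rwa [ENNReal.ofReal_le_ofReal_iff (mul_nonneg (by positivity) (by linarith))] at h5

end Pool.Agent.Helper854_CM
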