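import Mathlib
import Pool.Agent.Helper854_CM.Strip

/-!
The level inequality for continuous nondecreasing functions.
-/

set_option autoImplicit false

open MeasureTheory Filter Topology Complex Set Metric

noncomputable section

namespace Pool.Agent.Helper854_CM

/-- The level inequality for a continuous nondecreasing function. -/
theorem lev_cont {h : ℂ → ℂ} (hh : DifferentiableOn ℂ h (ball 0 1)) (hCI : CI h)
    {Psi : ℝ → ℝ} (hPc : Continuous Psi) (hPm : Monotone Psi) {a b : ℝ}
    (ha : Tendsto Psi atBot (𝓝 a)) (hb : Tendsto Psi atTop (𝓝 b))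
    {r : ℝ} (hr : r ∈ Ioo (0 : ℝ) 1) :
    ∫ θ in (0 : ℝ)..(2 * Real.pi), Psi (h (zz r θ)).re * (zz r θ * deriv h (zz r θ)).re ≤
      2 * Real.pi * (b - a) := by
  have hpi := Real.pi_pos
  have hr' : r ∈ Ioo (-1 : ℝ) 1 := ⟨by linarith [hr.1], hr.2⟩
  have haP : ∀ x, a ≤ Psi x := fun x => hPm.le_of_tendsto ha x
  have hPb : ∀ x, Psi x ≤ b := fun x => hPm.ge_of_tendsto hb x
  -- mollification
  obtain ⟨P, hP⟩ : ∃ P : ℕ → ℝ → ℝ, ∀ j x, P j x =
      ((j : ℝ) + 1) * ∫ t in x..(x + 1 / ((j : ℝ) + 1)), Psi t := ⟨_, fun j x => rfl⟩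
  have hj : ∀ j : ℕ, (0 : ℝ) < (j : ℝ) + 1 := fun j => by positivity
  have hPlow : ∀ j x, Psi x ≤ P j x := by
    intro j x
    have h1 : ∫ t in x..(x + 1 / ((j : ℝ) + 1)), Psi x ≤ ∫ t in x..(x + 1 / ((j : ℝ) + 1)), Psi t := by
      refine intervalIntegral.integral_mono_on (by have := hj j; linarith [one_div_pos.2 this])
        (continuous_const.intervalIntegrable _ _) (hPc.intervalIntegrable _ _) fun t ht => ?_
      exact hPm ht.1
    rw [intervalIntegral.integral_const, smul_eq_mul, add_sub_cancel_left] at h1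
    rw [hP]
    have h2 := mul_le_mul_of_nonneg_left h1 (hj j).le
    have h3 : ((j : ℝ) + 1) * (1 / ((j : ℝ) + 1) * Psi x) = Psi x := by
      have := (hj j).ne'
      field_simp
    linarith
  have hPupp : ∀ j x, P j x ≤ Psi (x + 1 / ((j : ℝ) + 1)) := by
    intro j x
    have h1 : ∫ t in x..(x + 1 / ((j : ℝ) + 1)), Psi t ≤
        ∫ t in x..(x + 1 / ((j : ℝ) + 1)), Psi (x + 1 / ((j : ℝ) + 1)) := by
      refine intervalIntegral.integral_mono_on (by have := hj j; linarith [one_div_pos.2 this])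
        (hPc.intervalIntegrable _ _) (continuous_const.intervalIntegrable _ _) fun t ht => ?_
      exact hPm ht.2
    rw [intervalIntegral.integral_const, smul_eq_mul, add_sub_cancel_left] at h1
    rw [hP]
    have h2 := mul_le_mul_of_nonneg_left h1 (hj j).le
    have h3 : ((j : ℝ) + 1) * (1 / ((j : ℝ) + 1) * Psi (x + 1 / ((j : ℝ) + 1))) =
        Psi (x + 1 / ((j : ℝ) + 1)) := by
      have := (hj j).ne'
      field_simp
    linarith
  have hPd : ∀ j x, HasDerivAt (P j) (((j : ℝ) + 1) * (Psi (x + 1 / ((j : ℝ) + 1)) - Psi x)) x := by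
    intro j x
    have e1 : P j = fun x => ((j : ℝ) + 1) * ((∫ t in (0 : ℝ)..(x + 1 / ((j : ℝ) + 1)), Psi t) -
        ∫ t in (0 : ℝ)..x, Psi t) := by
      funext y
      rw [hP, intervalIntegral.integral_interval_sub_left (hPc.intervalIntegrable _ _)
        (hPc.intervalIntegrable _ _)]
    rw [e1]
    refine HasDerivAt.const_mul _ ?_
    have h1 : HasDerivAt (fun y => ∫ t in (0 : ℝ)..y, Psi t) (Psi (x + 1 / ((j : ℝ) + 1)))
        (x + 1 / ((j : ℝ) + 1)) :=
      intervalIntegral.integral_hasDerivAt_right (hPc.intervalIntegrable _ _)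
        (hPc.stronglyMeasurableAtFilter _ _) hPc.continuousAt
    have h2 : HasDerivAt (fun y => ∫ t in (0 : ℝ)..y, Psi t) (Psi x) x :=
      intervalIntegral.integral_hasDerivAt_right (hPc.intervalIntegrable _ _)
        (hPc.stronglyMeasurableAtFilter _ _) hPc.continuousAt
    exact (h1.comp_add_const x (1 / ((j : ℝ) + 1))).sub h2
  have hshift : ∀ j : ℕ, Tendsto (fun x : ℝ => x + 1 / ((j : ℝ) + 1)) atTop atTop :=
    fun j => tendsto_atTop_add_const_right _ _ tendsto_id
  have hshift' : ∀ j : ℕ, Tendsto (fun x : ℝ => x + 1 / ((j : ℝ) + 1)) atBot atBot :=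
    fun j => tendsto_atBot_add_const_right _ _ tendsto_id
  have hPa : ∀ j, Tendsto (P j) atBot (𝓝 a) := fun j =>
    tendsto_of_tendsto_of_tendsto_of_le_of_le ha (ha.comp (hshift' j)) (hPlow j) (hPupp j)
  have hPb' : ∀ j, Tendsto (P j) atTop (𝓝 b) := fun j =>
    tendsto_of_tendsto_of_tendsto_of_le_of_le hb (hb.comp (hshift j)) (hPlow j) (hPupp j)
  have hmain : ∀ j, ∫ θ in (0 : ℝ)..(2 * Real.pi),
      P j (h (zz r θ)).re * (zz r θ * deriv h (zz r θ)).re ≤ 2 * Real.pi * (b - a) := by
    intro j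
    refine lev_smooth hh hCI (hPd j) (by fun_prop) (fun x => ?_) (hPa j) (hPb' j) hr
    have := hPm (by have := hj j; linarith [one_div_pos.2 this] : x ≤ x + 1 / ((j : ℝ) + 1))
    have := hj j
    exact mul_nonneg this.le (by linarith)
  -- passage to the limit
  have hcont : ∀ j, Continuous (P j) := fun j =>
    continuous_iff_continuousAt.2 fun x => (hPd j x).continuousAt
  have hu : Continuous fun θ : ℝ => (h (zz r θ)).re :=
    Complex.continuous_re.comp (slice_cont hh hh hr')
  have hD : Continuous fun θ : ℝ => (zz r θ * deriv h (zz r θ)).re :=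
    Complex.continuous_re.comp ((zz_cont.comp (by fun_prop : Continuous fun θ : ℝ => (r, θ))).mul
      (slice_cont hh (hh.deriv isOpen_ball) hr'))
  have hlim : Tendsto (fun j : ℕ => ∫ θ in (0 : ℝ)..(2 * Real.pi),
      P j (h (zz r θ)).re * (zz r θ * deriv h (zz r θ)).re) atTop
      (𝓝 (∫ θ in (0 : ℝ)..(2 * Real.pi),
        Psi (h (zz r θ)).re * (zz r θ * deriv h (zz r θ)).re)) := by
    refine intervalIntegral.tendsto_integral_filter_of_dominated_convergence
      (fun θ => (|a| + |b|) * |(zz r θ * deriv h (zz r θ)).re|) ?_ ?_ ?_ ?_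
    · exact Eventually.of_forall fun j => (((hcont j).comp hu).mul hD).aestronglyMeasurable
    · refine Eventually.of_forall fun j => Eventually.of_forall fun θ _ => ?_
      rw [norm_mul, Real.norm_eq_abs, Real.norm_eq_abs]
      gcongr
      have h1 := (haP _).trans (hPlow j (h (zz r θ)).re)
      have h2 := (hPupp j (h (zz r θ)).re).trans (hPb _)
      rw [abs_le]
      constructor
      · linarith [neg_abs_le a, abs_nonneg b]
      · linarith [le_abs_self b, abs_nonneg a]
    · exact (continuous_const.mul hD.abs).intervalIntegrable _ _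
    · refine Eventually.of_forall fun θ _ => ?_
      refine Tendsto.mul_const _ ?_
      have h1 : Tendsto (fun j : ℕ => (h (zz r θ)).re + 1 / ((j : ℝ) + 1)) atTop
          (𝓝 ((h (zz r θ)).re)) := by
        have := tendsto_one_div_add_atTop_nhds_zero_nat (𝕜 := ℝ)
        simpa using this.const_add ((h (zz r θ)).re)
      have h2 := (hPc.tendsto _).comp h1
      exact tendsto_of_tendsto_of_tendsto_of_le_of_le tendsto_const_nhds h2
        (fun j => hPlow j _) (fun j => hPupp j _)
  exact le_of_tendsto hlim (Eventually.of_forall hmain)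

end Pool.Agent.Helper854_CM
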