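import Mathlib

/-!
A discrete Riesz rearrangement inequality on the circle, proved by polarization.
The points are `ph x = 2π (x + 1/4) / N`, `x ∈ ZMod N`; the pole is the angle `0`.
-/

set_option autoImplicit false

open Finset

noncomputable section

namespace Pool.Agent.Helper854_CM.DR

variable {N : ℕ} [NeZero N]

/-- the angle of a point -/
def ph (x : ZMod N) : ℝ := 2 * Real.pi * ((x.val : ℝ) + 1 / 4) / N

theorem Npos : (0 : ℝ) < N := by
  have := NeZero.pos N
  exact_mod_cast this

/-- angle of an integer representative -/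
theorem ph_int (x : ZMod N) (a : ℤ) (ha : (a : ZMod N) = x) :
    ∃ k : ℤ, 2 * Real.pi * ((a : ℝ) + 1 / 4) / N = ph x + k * (2 * Real.pi) := by
  have h1 : ((x.val : ℤ) : ZMod N) = (a : ZMod N) := by
    rw [ha]
    simp
  have h2 := (ZMod.intCast_eq_intCast_iff_dvd_sub _ _ _).1 h1
  obtain ⟨k, hk⟩ := h2
  refine ⟨k, ?_⟩
  have hN := (Npos (N := N)).ne'
  have h3 : (a : ℝ) = x.val + N * k := by
    have : a = x.val + N * k := by linarith
    rw [this]
    push_cast
    ring
  rw [h3, ph]
  field_simp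
  ring

/-- the reflection `y ↦ c - y` -/
def rf (c x : ZMod N) : ZMod N := c - x

theorem rf_rf (c x : ZMod N) : rf c (rf c x) = x := by simp [rf]

/-- the reflection as a permutation -/
def rfE (c : ZMod N) : ZMod N ≃ ZMod N where
  toFun := rf c
  invFun := rf c
  left_inv := rf_rf c
  right_inv := rf_rf c

/-- half of the angle of the axis -/
def al (c : ZMod N) : ℝ := Real.pi * ((c.val : ℝ) + 1 / 2) / N

theorem sin_al_pos (c : ZMod N) : 0 < Real.sin (al c) := by
  have hpi := Real.pi_pos
  have hN := Npos (N := N)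
  refine Real.sin_pos_of_pos_of_lt_pi ?_ ?_
  · unfold al
    positivity
  · unfold al
    rw [div_lt_iff₀ hN]
    have h1 : (c.val : ℝ) + 1 ≤ N := by
      have := ZMod.val_lt c
      exact_mod_cast this
    have : (c.val : ℝ) + 1 / 2 < N := by linarith
    nlinarith

theorem ph_rf (c x : ZMod N) : ∃ k : ℤ, 2 * al c - ph x = ph (rf c x) + k * (2 * Real.pi) := by
  have h : (((c.val : ℤ) - (x.val : ℤ) : ℤ) : ZMod N) = rf c x := by
    push_cast
    simp [rf]
  obtain ⟨k, hk⟩ := ph_int (rf c x) _ h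
  refine ⟨k, ?_⟩
  rw [← hk]
  have hN := (Npos (N := N)).ne'
  unfold al ph
  push_cast
  field_simp
  ring

/-- the cosine of the difference of angles -/
def cd (x y : ZMod N) : ℝ := Real.cos (ph x - ph y)

theorem cos_rf (c x : ZMod N) : Real.cos (ph (rf c x)) = Real.cos (2 * al c - ph x) := by
  obtain ⟨k, hk⟩ := ph_rf c x
  rw [hk, Real.cos_add_int_mul_two_pi]

theorem sin_rf (c x : ZMod N) : Real.sin (ph (rf c x)) = Real.sin (2 * al c - ph x) := by
  obtain ⟨k, hk⟩ := ph_rf c x
  rw [hk, Real.sin_add_int_mul_two_pi]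

theorem cd_rf_rf (c x y : ZMod N) : cd (rf c x) (rf c y) = cd x y := by
  unfold cd
  rw [Real.cos_sub, cos_rf, cos_rf, sin_rf, sin_rf, ← Real.cos_sub, ← Real.cos_neg]
  congr 1
  ring

theorem cd_rf_left (c x y : ZMod N) : cd (rf c x) y = cd x (rf c y) := by
  unfold cd
  rw [Real.cos_sub, cos_rf, sin_rf, Real.cos_sub (ph x), cos_rf, sin_rf, ← Real.cos_sub,
    ← Real.cos_sub, ← Real.cos_neg]
  congr 1
  ring

theorem cd_diff (c x y : ZMod N) : cd x y - cd x (rf c y) =
    2 * Real.sin (ph x - al c) * Real.sin (ph y - al c) := by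
  unfold cd
  rw [Real.cos_sub (ph x) (ph (rf c y)), cos_rf, sin_rf, ← Real.cos_sub, Real.cos_sub_cos]
  have h1 : (ph x - ph y + (ph x - (2 * al c - ph y))) / 2 = ph x - al c := by ring
  have h2 : (ph x - ph y - (ph x - (2 * al c - ph y))) / 2 = -(ph y - al c) := by ring
  rw [h1, h2, Real.sin_neg]
  ring

/-- the height of a point -/
def ht (x : ZMod N) : ℝ := Real.cos (ph x)

theorem ht_diff (c x : ZMod N) : ht x - ht (rf c x) =
    -2 * Real.sin (al c) * Real.sin (ph x - al c) := by
  unfold ht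
  rw [cos_rf, Real.cos_sub_cos]
  have h1 : (ph x + (2 * al c - ph x)) / 2 = al c := by ring
  have h2 : (ph x - (2 * al c - ph x)) / 2 = ph x - al c := by ring
  rw [h1, h2]

theorem cd_le_one (x y : ZMod N) : cd x y ≤ 1 := Real.cos_le_one _

/-- the kernel -/
def K (t : ℝ) (x y : ZMod N) : ℝ := 2 / (1 + t - cd x y)

theorem K_rf_rf (t : ℝ) (c x y : ZMod N) : K t (rf c x) (rf c y) = K t x y := by
  unfold K; rw [cd_rf_rf]

theorem K_rf_left (t : ℝ) (c x y : ZMod N) : K t (rf c x) y = K t x (rf c y) := by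
  unfold K; rw [cd_rf_left]

theorem K_diff {t : ℝ} (ht0 : 0 < t) (c x y : ZMod N) :
    K t x y - K t x (rf c y) =
      2 * (cd x y - cd x (rf c y)) / ((1 + t - cd x y) * (1 + t - cd x (rf c y))) := by
  have h1 : 1 + t - cd x y ≠ 0 := by have := cd_le_one x y; linarith
  have h2 : 1 + t - cd x (rf c y) ≠ 0 := by have := cd_le_one x (rf c y); linarith
  unfold K
  field_simp
  ring

theorem K_sign {t : ℝ} (ht0 : 0 < t) (c x y : ZMod N) :
    0 ≤ (K t x y - K t x (rf c y)) * ((ht x - ht (rf c x)) * (ht y - ht (rf c y))) := by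
  have h1 : 0 < 1 + t - cd x y := by have := cd_le_one x y; linarith
  have h2 : 0 < 1 + t - cd x (rf c y) := by have := cd_le_one x (rf c y); linarith
  rw [K_diff ht0, cd_diff, ht_diff, ht_diff]
  have h3 : 2 * (2 * Real.sin (ph x - al c) * Real.sin (ph y - al c)) /
      ((1 + t - cd x y) * (1 + t - cd x (rf c y))) *
        (-2 * Real.sin (al c) * Real.sin (ph x - al c) *
          (-2 * Real.sin (al c) * Real.sin (ph y - al c))) =
      16 * (Real.sin (al c) * Real.sin (ph x - al c) * Real.sin (ph y - al c)) ^ 2 /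
        ((1 + t - cd x y) * (1 + t - cd x (rf c y))) := by
    field_simp
    ring
  rw [h3]
  positivity

theorem K_zero {t : ℝ} (ht0 : 0 < t) (c x y : ZMod N)
    (h : (ht x - ht (rf c x)) * (ht y - ht (rf c y)) = 0) : K t x y - K t x (rf c y) = 0 := by
  have hs := sin_al_pos c
  rw [K_diff ht0, cd_diff]
  rw [ht_diff, ht_diff] at h
  have h1 : Real.sin (ph x - al c) * Real.sin (ph y - al c) = 0 := by
    have h2 : (4 * Real.sin (al c) ^ 2) * (Real.sin (ph x - al c) * Real.sin (ph y - al c)) = 0 := by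
      linear_combination h
    rcases mul_eq_zero.1 h2 with h3 | h3
    · exact absurd h3 (by positivity)
    · exact h3
  rw [mul_assoc, h1]
  simp

/-- the energy -/
def En (t : ℝ) (f g : ZMod N → ℝ) : ℝ := ∑ x, ∑ y, f x * g y * K t x y

theorem four_En (t : ℝ) (f g : ZMod N → ℝ) (c : ZMod N) :
    4 * En t f g = ∑ x, ∑ y, (((f x + f (rf c x)) * (g y + g (rf c y)) *
      (K t x y + K t x (rf c y)) + (f x - f (rf c x)) * (g y - g (rf c y)) *
      (K t x y - K t x (rf c y))) / 2) := by
  have e1 : En t f g = ∑ x, ∑ y, f (rf c x) * g (rf c y) * K t x y := by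
    unfold En
    rw [← (rfE c).sum_comp]
    refine Finset.sum_congr rfl fun x _ => ?_
    rw [← (rfE c).sum_comp]
    refine Finset.sum_congr rfl fun y _ => ?_
    exact congrArg _ (K_rf_rf t c x y)
  have e2 : En t f g = ∑ x, ∑ y, f x * g (rf c y) * K t x (rf c y) := by
    unfold En
    refine Finset.sum_congr rfl fun x _ => ?_
    rw [← (rfE c).sum_comp]
    rfl
  have e3 : En t f g = ∑ x, ∑ y, f (rf c x) * g y * K t x (rf c y) := by
    unfold En
    rw [← (rfE c).sum_comp]
    refine Finset.sum_congr rfl fun x _ => ?_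
    refine Finset.sum_congr rfl fun y _ => ?_
    exact congrArg _ (K_rf_left t c x y)
  have e4 : 4 * En t f g = En t f g + En t f g + En t f g + En t f g := by ring
  rw [e4]
  nth_rewrite 2 [e1]
  nth_rewrite 2 [e2]
  nth_rewrite 2 [e3]
  unfold En
  rw [← Finset.sum_add_distrib, ← Finset.sum_add_distrib, ← Finset.sum_add_distrib]
  refine Finset.sum_congr rfl fun x _ => ?_
  rw [← Finset.sum_add_distrib, ← Finset.sum_add_distrib, ← Finset.sum_add_distrib]
  refine Finset.sum_congr rfl fun y _ => ?_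
  ring

theorem prod_ineq {p q P Q k dx dy : ℝ} (hp : |P| = |p|) (hq : |Q| = |q|) (h1 : 0 ≤ P * dx)
    (h2 : 0 ≤ Q * dy) (h3 : 0 ≤ k * (dx * dy)) (h4 : dx * dy = 0 → k = 0) :
    p * q * k ≤ P * Q * k := by
  by_cases h : dx * dy = 0
  · rw [h4 h]; simp
  · have h5 : 0 ≤ P * Q * k := by
      have h6 : 0 ≤ (P * Q * k) * (dx * dy) ^ 2 := by
        have := mul_nonneg (mul_nonneg h1 h2) h3
        calc (0 : ℝ) ≤ P * dx * (Q * dy) * (k * (dx * dy)) := this
          _ = _ := by ring
      have h7 : 0 < (dx * dy) ^ 2 := by positivity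
      exact nonneg_of_mul_nonneg_left h6 h7
    calc p * q * k ≤ |p * q * k| := le_abs_self _
      _ = |P * Q * k| := by rw [abs_mul, abs_mul, abs_mul, abs_mul, hp, hq]
      _ = P * Q * k := abs_of_nonneg h5

/-- the points which have to be exchanged with their mirror images -/
def bad (c : ZMod N) (m : ZMod N ≃ Fin N) (x : ZMod N) : Prop :=
  0 < (ht x - ht (rf c x)) * (((m x : ℕ) : ℝ) - ((m (rf c x) : ℕ) : ℝ))

theorem bad_rf (c : ZMod N) (m : ZMod N ≃ Fin N) (x : ZMod N) : bad c m (rf c x) ↔ bad c m x := by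
  unfold bad
  rw [rf_rf]
  constructor <;> intro h <;> linarith

open Classical in
/-- the exchange map -/
def sw (c : ZMod N) (m : ZMod N ≃ Fin N) (x : ZMod N) : ZMod N := if bad c m x then rf c x else x

theorem sw_sw (c : ZMod N) (m : ZMod N ≃ Fin N) (x : ZMod N) : sw c m (sw c m x) = x := by
  classical
  unfold sw
  by_cases h : bad c m x
  · rw [if_pos h, if_pos ((bad_rf c m x).2 h), rf_rf]
  · rw [if_neg h, if_neg h]

/-- the exchange map as a permutation -/
def swE (c : ZMod N) (m : ZMod N ≃ Fin N) : ZMod N ≃ ZMod N where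
  toFun := sw c m
  invFun := sw c m
  left_inv := sw_sw c m
  right_inv := sw_sw c m

theorem sw_rf (c : ZMod N) (m : ZMod N ≃ Fin N) (x : ZMod N) :
    sw c m (rf c x) = rf c (sw c m x) := by
  classical
  unfold sw
  by_cases h : bad c m x
  · rw [if_pos h, if_pos ((bad_rf c m x).2 h)]
  · rw [if_neg h, if_neg (fun h' => h ((bad_rf c m x).1 h'))]

theorem pol_f {F : Fin N → ℝ} (hF : Antitone F) (c : ZMod N) (m : ZMod N ≃ Fin N) (x : ZMod N) :
    (F (m (sw c m x)) + F (m (sw c m (rf c x))) = F (m x) + F (m (rf c x))) ∧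
    |F (m (sw c m x)) - F (m (sw c m (rf c x)))| = |F (m x) - F (m (rf c x))| ∧
    0 ≤ (F (m (sw c m x)) - F (m (sw c m (rf c x)))) * (ht x - ht (rf c x)) := by
  classical
  have hcmp : ∀ a b : ZMod N, ((m a : ℕ) : ℝ) ≤ ((m b : ℕ) : ℝ) → F (m b) ≤ F (m a) := by
    intro a b hab
    apply hF
    have : (m a : ℕ) ≤ (m b : ℕ) := by exact_mod_cast hab
    exact this
  rw [sw_rf]
  unfold sw
  by_cases h : bad c m x
  · rw [if_pos h, rf_rf]
    refine ⟨by ring, by rw [abs_sub_comm], ?_⟩
    unfold bad at h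
    rcases lt_trichotomy (ht x - ht (rf c x)) 0 with h1 | h1 | h1
    · have h2 : ((m x : ℕ) : ℝ) - ((m (rf c x) : ℕ) : ℝ) < 0 := by
        by_contra hcon
        push Not at hcon
        nlinarith
      have h3 := hcmp x (rf c x) (by linarith)
      nlinarith
    · rw [h1] at h
      simp at h
    · have h2 : 0 < ((m x : ℕ) : ℝ) - ((m (rf c x) : ℕ) : ℝ) := by
        by_contra hcon
        push Not at hcon
        nlinarith
      have h3 := hcmp (rf c x) x (by linarith)
      nlinarith
  · rw [if_neg h]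
    refine ⟨rfl, rfl, ?_⟩
    unfold bad at h
    push Not at h
    rcases lt_trichotomy (ht x - ht (rf c x)) 0 with h1 | h1 | h1
    · have h2 : 0 ≤ ((m x : ℕ) : ℝ) - ((m (rf c x) : ℕ) : ℝ) := by
        by_contra hcon
        push Not at hcon
        nlinarith
      have h3 := hcmp (rf c x) x (by linarith)
      nlinarith
    · rw [h1]; simp
    · have h2 : ((m x : ℕ) : ℝ) - ((m (rf c x) : ℕ) : ℝ) ≤ 0 := by
        by_contra hcon
        push Not at hcon
        nlinarith
      have h3 := hcmp x (rf c x) (by linarith)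
      nlinarith

/-- Polarization does not decrease the energy. -/
theorem pol_En {t : ℝ} (ht0 : 0 < t) {F G : Fin N → ℝ} (hF : Antitone F) (hG : Antitone G)
    (c : ZMod N) (m : ZMod N ≃ Fin N) :
    En t (fun x => F (m x)) (fun x => G (m x)) ≤
      En t (fun x => F (m (sw c m x))) (fun x => G (m (sw c m x))) := by
  have h1 := four_En t (fun x => F (m x)) (fun x => G (m x)) c
  have h2 := four_En t (fun x => F (m (sw c m x))) (fun x => G (m (sw c m x))) c
  have h3 : 4 * En t (fun x => F (m x)) (fun x => G (m x)) ≤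
      4 * En t (fun x => F (m (sw c m x))) (fun x => G (m (sw c m x))) := by
    rw [h1, h2]
    refine Finset.sum_le_sum fun x _ => Finset.sum_le_sum fun y _ => ?_
    obtain ⟨f1, f2, f3⟩ := pol_f hF c m x
    obtain ⟨g1, g2, g3⟩ := pol_f hG c m y
    have h4 := prod_ineq f2 g2 f3 g3 (K_sign ht0 c x y) (K_zero ht0 c x y)
    rw [f1, g1]
    linarith
  linarith

/-- the potential that polarization increases -/
def Pot (m : ZMod N ≃ Fin N) : ℝ := -∑ x, ht x * ((m x : ℕ) : ℝ)

theorem pol_Pot (c : ZMod N) (m : ZMod N ≃ Fin N) {x₀ : ZMod N} (hx : bad c m x₀) :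
    Pot m < Pot ((swE c m).trans m) := by
  classical
  have e0 : ∀ x, ((swE c m).trans m) x = m (sw c m x) := fun x => rfl
  have e1 : Pot ((swE c m).trans m) - Pot m =
      ∑ x, ht x * (((m x : ℕ) : ℝ) - ((m (sw c m x) : ℕ) : ℝ)) := by
    unfold Pot
    simp only [e0, mul_sub, Finset.sum_sub_distrib]
    ring
  have e2 : ∑ x, ht x * (((m x : ℕ) : ℝ) - ((m (sw c m x) : ℕ) : ℝ)) =
      ∑ x, ht (rf c x) * (((m (rf c x) : ℕ) : ℝ) - ((m (sw c m (rf c x)) : ℕ) : ℝ)) := by
    rw [← (rfE c).sum_comp]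
    rfl
  have e3 : ∀ x, ht x * (((m x : ℕ) : ℝ) - ((m (sw c m x) : ℕ) : ℝ)) +
      ht (rf c x) * (((m (rf c x) : ℕ) : ℝ) - ((m (sw c m (rf c x)) : ℕ) : ℝ)) =
      if bad c m x then (ht x - ht (rf c x)) * (((m x : ℕ) : ℝ) - ((m (rf c x) : ℕ) : ℝ)) else 0 := by
    intro x
    rw [sw_rf]
    unfold sw
    by_cases h : bad c m x
    · simp only [if_pos h, rf_rf]
      ring
    · simp only [if_neg h]
      ring
  have e4 : 2 * (Pot ((swE c m).trans m) - Pot m) = ∑ x, if bad c m x then
      (ht x - ht (rf c x)) * (((m x : ℕ) : ℝ) - ((m (rf c x) : ℕ) : ℝ)) else 0 := by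
    rw [two_mul]
    nth_rewrite 1 [e1]
    rw [e1, e2, ← Finset.sum_congr rfl (fun x _ => e3 x), Finset.sum_add_distrib, ← e2]
  have e5 : 0 < ∑ x, if bad c m x then
      (ht x - ht (rf c x)) * (((m x : ℕ) : ℝ) - ((m (rf c x) : ℕ) : ℝ)) else 0 := by
    refine Finset.sum_pos' (fun x _ => ?_) ⟨x₀, Finset.mem_univ _, ?_⟩
    · by_cases h : bad c m x
      · rw [if_pos h]
        exact le_of_lt h
      · rw [if_neg h]
    · rw [if_pos hx]
      exact hx
  linarith

/-- the rank of a point: the points are ordered by their distance to the pole -/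
def rkN (x : ZMod N) : ℕ := min (2 * x.val) (2 * N - 1 - 2 * x.val)

theorem rkN_lt (x : ZMod N) : rkN x < N := by
  have := ZMod.val_lt x
  unfold rkN
  omega

theorem ht_rk (x : ZMod N) : ht x = Real.cos (Real.pi / N * ((rkN x : ℝ) + 1 / 2)) := by
  have hx := ZMod.val_lt x
  have hN := (Npos (N := N)).ne'
  unfold ht ph rkN
  rcases le_total (2 * x.val) (2 * N - 1 - 2 * x.val) with h | h
  · rw [min_eq_left h]
    congr 1
    push_cast
    field_simp
    ring
  · rw [min_eq_right h, ← Real.cos_two_pi_sub]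
    congr 1
    have h1 : (2 * x.val + 1 : ℕ) ≤ 2 * N := by omega
    have h2 : ((2 * N - 1 - 2 * x.val : ℕ) : ℝ) = 2 * N - 1 - 2 * x.val := by
      rw [Nat.cast_sub (by omega), Nat.cast_sub (by omega)]
      push_cast
      ring
    rw [h2]
    field_simp
    ring

theorem rkN_inj : Function.Injective (rkN (N := N)) := by
  intro x y h
  have hx := ZMod.val_lt x
  have hy := ZMod.val_lt y
  unfold rkN at h
  apply ZMod.val_injective
  omega

/-- the rank as a bijection -/
def rkE : ZMod N ≃ Fin N :=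
  Equiv.ofBijective (fun x => (⟨rkN x, rkN_lt x⟩ : Fin N)) (by
    rw [Fintype.bijective_iff_injective_and_card]
    refine ⟨fun x y h => rkN_inj (Fin.mk.inj_iff.1 h), ?_⟩
    rw [ZMod.card, Fintype.card_fin])

theorem rkE_val (x : ZMod N) : ((rkE x : Fin N) : ℕ) = rkN x := rfl

theorem ht_lt_iff (x y : ZMod N) : ht y < ht x ↔ rkE x < rkE y := by
  have hpi := Real.pi_pos
  have hN := Npos (N := N)
  have hanti : ∀ a b : ZMod N, rkN a < rkN b → ht b < ht a := by
    intro a b hab
    rw [ht_rk, ht_rk]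
    have hb : (rkN b : ℝ) + 1 ≤ N := by exact_mod_cast rkN_lt b
    have hab' : (rkN a : ℝ) < rkN b := by exact_mod_cast hab
    refine Real.cos_lt_cos_of_nonneg_of_le_pi (by positivity) ?_ ?_
    · rw [div_mul_eq_mul_div, div_le_iff₀ hN]
      nlinarith
    · have : 0 < Real.pi / N := by positivity
      nlinarith
  constructor
  · intro h
    by_contra hcon
    push Not at hcon
    have h1 : rkN y ≤ rkN x := hcon
    rcases Nat.lt_or_ge (rkN y) (rkN x) with h2 | h2
    · have := hanti y x h2
      linarith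
    · have h3 : y = x := rkN_inj (le_antisymm h1 h2)
      rw [h3] at h
      exact lt_irrefl _ h
  · intro h
    exact hanti x y h

/-- **Discrete Riesz inequality.** -/
theorem riesz {t : ℝ} (ht0 : 0 < t) {F G : Fin N → ℝ} (hF : Antitone F) (hG : Antitone G)
    (m : ZMod N ≃ Fin N) :
    En t (fun x => F (m x)) (fun x => G (m x)) ≤
      En t (fun x => F (rkE x)) (fun x => G (rkE x)) := by
  classical
  obtain ⟨m', hm', hmax⟩ := Finset.exists_max_image
    (Finset.univ.filter fun m' : ZMod N ≃ Fin N =>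
      En t (fun x => F (m x)) (fun x => G (m x)) ≤ En t (fun x => F (m' x)) (fun x => G (m' x)))
    Pot ⟨m, by simp⟩
  rw [Finset.mem_filter] at hm'
  have hord : ∀ x y : ZMod N, ht y < ht x → m' x < m' y := by
    intro x y hxy
    by_contra hcon
    push Not at hcon
    have hne : x ≠ y := fun h => by rw [h] at hxy; exact lt_irrefl _ hxy
    have hlt : m' y < m' x := lt_of_le_of_ne hcon (fun h => hne (m'.injective h).symm)
    have hrf : rf (x + y) x = y := by simp [rf]
    have hbad : bad (x + y) m' x := by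
      unfold bad
      rw [hrf]
      have h1 : 0 < ht x - ht y := by linarith
      have h2 : (0 : ℝ) < ((m' x : ℕ) : ℝ) - ((m' y : ℕ) : ℝ) := by
        have : ((m' y : ℕ) : ℝ) < ((m' x : ℕ) : ℝ) := by exact_mod_cast hlt
        linarith
      positivity
    have h1 := pol_Pot (x + y) m' hbad
    have h2 := pol_En ht0 hF hG (x + y) m'
    have h3 := hmax ((swE (x + y) m').trans m') (by
      rw [Finset.mem_filter]
      exact ⟨Finset.mem_univ _, hm'.2.trans h2⟩)
    linarith
  -- uniqueness of the ordered bijection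
  have hmono : StrictMono (fun i : Fin N => m' (rkE.symm i)) := by
    intro i j hij
    apply hord
    rw [ht_lt_iff]
    simpa using hij
  have hid : ∀ i : Fin N, m' (rkE.symm i) = i := by
    have h1 : StrictMono (fun i : Fin N => i) := strictMono_id
    have h2 : Set.range (fun i : Fin N => m' (rkE.symm i)) = Set.range (fun i : Fin N => i) := by
      rw [Set.range_id']
      exact (rkE.symm.trans m').surjective.range_eq
    have h3 := hmono.range_inj h1
    have h4 := h3.1 h2
    intro i
    exact congrFun h4 i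
  have heq : ∀ x, m' x = rkE x := by
    intro x
    have := hid (rkE x)
    simpa using this
  have h5 := hm'.2
  simp only [heq] at h5
  exact h5

end Pool.Agent.Helper854_CM.DR
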