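import Mathlib
import Pool.Agent.Helper854_CM.DR

/-!
The discrete kernel: eigenvalues, and the Riesz inequality in difference form.
-/

set_option autoImplicit false

open Finset Filter Topology

noncomputable section

namespace Pool.Agent.Helper854_CM.DR

variable {N : ℕ} [NeZero N]

/-- the angle of a difference -/
def td (d : ZMod N) : ℝ := 2 * Real.pi * (d.val : ℝ) / N

/-- the kernel as a function of the difference -/
def kd (d : ZMod N) : ℝ := 2 / (1 - Real.cos (td d))

/-- the eigenvalues -/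
def SS (N : ℕ) [NeZero N] (m : ℕ) : ℝ := ∑ d : ZMod N, (1 - Real.cos (m * td d)) * kd d

theorem ph_add (x d : ZMod N) : ∃ k : ℤ, ph x + td d = ph (x + d) + k * (2 * Real.pi) := by
  have h : (((x.val : ℤ) + (d.val : ℤ) : ℤ) : ZMod N) = x + d := by
    push_cast
    simp
  obtain ⟨k, hk⟩ := ph_int (x + d) _ h
  refine ⟨k, ?_⟩
  rw [← hk]
  have hN := (Npos (N := N)).ne'
  unfold ph td
  push_cast
  field_simp
  ring

theorem td_neg (d : ZMod N) : ∃ k : ℤ, td (-d) = -td d + k * (2 * Real.pi) := by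
  obtain ⟨k1, h1⟩ := ph_add 0 (-d)
  obtain ⟨k2, h2⟩ := ph_add (-d) d
  rw [zero_add] at h1
  rw [neg_add_cancel] at h2
  refine ⟨k1 + k2, ?_⟩
  push_cast
  linarith

theorem cd_add (x d : ZMod N) : cd x (x + d) = Real.cos (td d) := by
  obtain ⟨k, hk⟩ := ph_add x d
  unfold cd
  have : ph x - ph (x + d) = -td d + k * (2 * Real.pi) := by linarith
  rw [this, Real.cos_add_int_mul_two_pi, Real.cos_neg]

theorem kd_neg (d : ZMod N) : kd (-d) = kd d := by
  obtain ⟨k, hk⟩ := td_neg d
  unfold kd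
  rw [hk, Real.cos_add_int_mul_two_pi, Real.cos_neg]

/-- the unbounded kernel -/
def K0 (x y : ZMod N) : ℝ := 2 / (1 - cd x y)

theorem K0_add (x d : ZMod N) : K0 x (x + d) = kd d := by
  unfold K0 kd; rw [cd_add]

theorem K0_symm (x y : ZMod N) : K0 x y = K0 y x := by
  unfold K0 cd
  rw [← Real.cos_neg, neg_sub]

theorem kd_nonneg (d : ZMod N) : 0 ≤ kd d := by
  unfold kd
  have := Real.cos_le_one (td d)
  exact div_nonneg (by norm_num) (by linarith)

theorem td_zero : td (0 : ZMod N) = 0 := by simp [td]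

theorem cos_td_lt {d : ZMod N} (hd : d ≠ 0) : Real.cos (td d) < 1 := by
  have hpi := Real.pi_pos
  have hN := Npos (N := N)
  have h1 : (0 : ℝ) < d.val := by
    have : d.val ≠ 0 := fun h => hd ((ZMod.val_eq_zero d).1 h)
    have : 0 < d.val := Nat.pos_of_ne_zero this
    exact_mod_cast this
  have h2 : (d.val : ℝ) < N := by exact_mod_cast ZMod.val_lt d
  refine lt_of_le_of_ne (Real.cos_le_one _) fun h => ?_
  have h3 := (Real.cos_eq_one_iff_of_lt_of_lt (x := td d - 0) ?_ ?_).1 (by rwa [sub_zero])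
  · have : 0 < td d := by unfold td; positivity
    linarith
  · have : 0 < td d := by unfold td; positivity
    linarith
  · unfold td
    rw [sub_zero, div_lt_iff₀ hN]
    nlinarith

/-- a sum over differences -/
theorem sum_diff {M : Type*} [AddCommMonoid M] (F : ZMod N → M) (x : ZMod N) :
    ∑ y, F y = ∑ d, F (x + d) := (Equiv.sum_comp (Equiv.addLeft x) F).symm

/-- the action of the kernel on exponentials -/
theorem eig (m : ℕ) (x : ZMod N) :
    ∑ y, (Complex.exp (((m * ph x : ℝ) : ℂ) * Complex.I) -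
      Complex.exp (((m * ph y : ℝ) : ℂ) * Complex.I)) * (K0 x y : ℂ) =
      (SS N m : ℂ) * Complex.exp (((m * ph x : ℝ) : ℂ) * Complex.I) := by
  rw [sum_diff _ x]
  have h1 : ∀ d : ZMod N, (Complex.exp (((m * ph x : ℝ) : ℂ) * Complex.I) -
      Complex.exp (((m * ph (x + d) : ℝ) : ℂ) * Complex.I)) * (K0 x (x + d) : ℂ) =
      (((1 - Real.cos (m * td d)) * kd d : ℝ) : ℂ) * Complex.exp (((m * ph x : ℝ) : ℂ) * Complex.I) -
        ((Real.sin (m * td d) * kd d : ℝ) : ℂ) *
          (Complex.I * Complex.exp (((m * ph x : ℝ) : ℂ) * Complex.I)) := by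
    intro d
    obtain ⟨k, hk⟩ := ph_add x d
    have h2 : ((m * ph (x + d) : ℝ) : ℂ) * Complex.I =
        ((m * ph x : ℝ) : ℂ) * Complex.I + ((m * td d : ℝ) : ℂ) * Complex.I +
          ((-(m * k) : ℤ) : ℂ) * (2 * Real.pi * Complex.I) := by
      have h3 : ph (x + d) = ph x + td d - k * (2 * Real.pi) := by linarith
      rw [h3]
      push_cast
      ring
    rw [h2, Complex.exp_add, Complex.exp_add, Complex.exp_int_mul_two_pi_mul_I, mul_one, K0_add,
      Complex.exp_ofReal_mul_I (m * td d)]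
    push_cast
    ring
  rw [Finset.sum_congr rfl fun d _ => h1 d, Finset.sum_sub_distrib, ← Finset.sum_mul,
    ← Finset.sum_mul]
  have h4 : ∑ d : ZMod N, Real.sin (m * td d) * kd d = 0 := by
    have h5 : ∑ d : ZMod N, Real.sin (m * td d) * kd d =
        ∑ d : ZMod N, -(Real.sin (m * td d) * kd d) := by
      rw [← Equiv.sum_comp (Equiv.neg (ZMod N))]
      refine Finset.sum_congr rfl fun d _ => ?_
      simp only [Equiv.neg_apply]
      rw [kd_neg]
      obtain ⟨k, hk⟩ := td_neg d
      have h6 : (m : ℝ) * td (-d) = -(m * td d) + ((m * k : ℤ) : ℝ) * (2 * Real.pi) := by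
        rw [hk]
        push_cast
        ring
      rw [h6, Real.sin_add_int_mul_two_pi, Real.sin_neg]
      ring
    rw [Finset.sum_neg_distrib] at h5
    linarith
  have h7 : ∑ d : ZMod N, (((Real.sin (m * td d) * kd d : ℝ)) : ℂ) = 0 := by
    rw [← Complex.ofReal_sum, h4]
    simp
  rw [h7, zero_mul, sub_zero]
  unfold SS
  rw [Complex.ofReal_sum]

theorem cos_sum {k : ℕ} (hk1 : 1 ≤ k) (hkN : k < N) : ∑ d : ZMod N, Real.cos (k * td d) = 0 := by
  have hN := Npos (N := N)
  have h1 : ∑ d : ZMod N, Real.cos (k * td d) =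
      (∑ d : ZMod N, Complex.exp (((k * td d : ℝ) : ℂ) * Complex.I)).re := by
    rw [Complex.re_sum]
    refine Finset.sum_congr rfl fun d _ => ?_
    rw [Complex.exp_ofReal_mul_I_re]
  rw [h1]
  obtain ⟨ζ, hζ⟩ : ∃ ζ : ℂ, ζ = Complex.exp (((k * (2 * Real.pi) / N : ℝ) : ℂ) * Complex.I) :=
    ⟨_, rfl⟩
  have h2 : ∑ d : ZMod N, Complex.exp (((k * td d : ℝ) : ℂ) * Complex.I) =
      ∑ j ∈ Finset.range N, ζ ^ j := by
    have h3 : ∑ d : ZMod N, Complex.exp (((k * td d : ℝ) : ℂ) * Complex.I) =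
        ∑ d : ZMod N, ζ ^ d.val := by
      refine Finset.sum_congr rfl fun d _ => ?_
      rw [hζ, ← Complex.exp_nat_mul]
      congr 1
      unfold td
      push_cast
      field_simp
    rw [h3]
    refine Finset.sum_nbij' (fun d => d.val) (fun j => (j : ZMod N)) ?_ ?_ ?_ ?_ ?_
    · intro d _
      exact Finset.mem_range.2 (ZMod.val_lt d)
    · intro j _
      exact Finset.mem_univ _
    · intro d _
      simp
    · intro j hj
      exact ZMod.val_cast_of_lt (Finset.mem_range.1 hj)
    · intro d _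
      rfl
  have h4 : ζ ≠ 1 := by
    intro h
    rw [hζ, Complex.exp_eq_one_iff] at h
    obtain ⟨n, hn⟩ := h
    have h5 : (k : ℝ) = n * N := by
      have h6 : ((k * (2 * Real.pi) / N : ℝ) : ℂ) = ((n * (2 * Real.pi) : ℝ) : ℂ) := by
        have h7 : ((k * (2 * Real.pi) / N : ℝ) : ℂ) * Complex.I =
            ((n * (2 * Real.pi) : ℝ) : ℂ) * Complex.I := by
          rw [hn]
          push_cast
          ring
        exact mul_right_cancel₀ Complex.I_ne_zero h7
      have h8 : (k * (2 * Real.pi) / N : ℝ) = n * (2 * Real.pi) := by exact_mod_cast h6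
      have hpi := Real.pi_pos
      field_simp at h8
      linarith
    have h9 : (k : ℤ) = n * N := by exact_mod_cast h5
    have h10 : (N : ℤ) ∣ k := ⟨n, by rw [h9]; ring⟩
    have h11 : N ∣ k := by exact_mod_cast h10
    have := Nat.le_of_dvd (by omega) h11
    omega
  rw [h2, geom_sum_eq h4]
  have h5 : ζ ^ N = 1 := by
    rw [hζ, ← Complex.exp_nat_mul]
    have hNc : ((N : ℕ) : ℂ) ≠ 0 := by exact_mod_cast hN.ne'
    have : ((N : ℕ) : ℂ) * (((k * (2 * Real.pi) / N : ℝ) : ℂ) * Complex.I) =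
        ((k : ℤ) : ℂ) * (2 * Real.pi * Complex.I) := by
      push_cast
      field_simp
    rw [this, Complex.exp_int_mul_two_pi_mul_I]
  rw [h5]
  simp

theorem SS_zero : SS N 0 = 0 := by simp [SS]

theorem kd_mul {d : ZMod N} (hd : d ≠ 0) : (1 - Real.cos (td d)) * kd d = 2 := by
  have h := cos_td_lt hd
  unfold kd
  have : 1 - Real.cos (td d) ≠ 0 := by linarith
  field_simp

theorem SS_one : SS N 1 = 2 * (N - 1) := by
  unfold SS
  rw [← Finset.add_sum_erase _ _ (Finset.mem_univ (0 : ZMod N))]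
  have h1 : ∑ d ∈ Finset.univ.erase (0 : ZMod N), (1 - Real.cos (((1 : ℕ) : ℝ) * td d)) * kd d =
      ∑ d ∈ Finset.univ.erase (0 : ZMod N), (2 : ℝ) := by
    refine Finset.sum_congr rfl fun d hd => ?_
    rw [Nat.cast_one, one_mul]
    exact kd_mul (Finset.ne_of_mem_erase hd)
  rw [h1, Finset.sum_const, Finset.card_erase_of_mem (Finset.mem_univ _), Finset.card_univ,
    ZMod.card, td_zero]
  have : 1 ≤ N := NeZero.one_le
  simp [Nat.cast_sub this]
  ring

theorem SS_rec {k : ℕ} (hk1 : 1 ≤ k) (hkN : k < N) :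
    SS N (k + 1) = 2 * SS N k - SS N (k - 1) - 4 := by
  have h0 := cos_sum (N := N) hk1 hkN
  obtain ⟨j, rfl⟩ : ∃ j, k = j + 1 := ⟨k - 1, by omega⟩
  rw [Nat.add_sub_cancel]
  have h1 : SS N (j + 1 + 1) + SS N j - 2 * SS N (j + 1) =
      ∑ d : ZMod N, (4 * Real.cos (((j + 1 : ℕ) : ℝ) * td d) - if d = 0 then 4 else 0) := by
    unfold SS
    rw [Finset.mul_sum, ← Finset.sum_add_distrib, ← Finset.sum_sub_distrib]
    refine Finset.sum_congr rfl fun d _ => ?_
    by_cases hd : d = 0
    · subst hd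
      rw [if_pos rfl, td_zero]
      simp
    · rw [if_neg hd, sub_zero]
      have h2 := kd_mul hd
      have h3 : Real.cos (((j + 1 + 1 : ℕ) : ℝ) * td d) + Real.cos ((j : ℝ) * td d) =
          2 * Real.cos (((j + 1 : ℕ) : ℝ) * td d) * Real.cos (td d) := by
        rw [Real.cos_add_cos]
        congr 2
        · push_cast; ring_nf
        · push_cast; ring_nf
      linear_combination (-(kd d)) * h3 + (2 * Real.cos (((j + 1 : ℕ) : ℝ) * td d)) * h2
  rw [Finset.sum_sub_distrib, ← Finset.mul_sum, h0] at h1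
  simp at h1
  linarith

/-- the eigenvalues of the kernel -/
theorem SS_eq : ∀ k : ℕ, k ≤ N → SS N k = 2 * k * (N - k) := by
  intro k
  induction k using Nat.strong_induction_on with
  | _ k ih =>
    intro hk
    match k with
    | 0 => rw [SS_zero]; simp
    | 1 => rw [SS_one]; simp
    | (j + 2) =>
      rw [SS_rec (by omega) (by omega), ih (j + 1) (by omega) (by omega), Nat.add_sub_cancel,
        ih j (by omega) (by omega)]
      push_cast
      ring

theorem abs_sin_mul (m : ℕ) (x : ℝ) : |Real.sin (m * x)| ≤ m * |Real.sin x| := by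
  induction m with
  | zero => simp
  | succ j ih =>
    have h1 : ((j + 1 : ℕ) : ℝ) * x = j * x + x := by push_cast; ring
    rw [h1, Real.sin_add]
    calc |Real.sin (j * x) * Real.cos x + Real.cos (j * x) * Real.sin x|
        ≤ |Real.sin (j * x) * Real.cos x| + |Real.cos (j * x) * Real.sin x| := abs_add_le _ _
      _ = |Real.sin (j * x)| * |Real.cos x| + |Real.cos (j * x)| * |Real.sin x| := by
          rw [abs_mul, abs_mul]
      _ ≤ |Real.sin (j * x)| * 1 + 1 * |Real.sin x| := by
          have := Real.abs_cos_le_one x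
          have := Real.abs_cos_le_one (j * x)
          gcongr
      _ ≤ ((j + 1 : ℕ) : ℝ) * |Real.sin x| := by push_cast; linarith

theorem one_sub_cos_mul (m : ℕ) (t : ℝ) : 1 - Real.cos (m * t) ≤ m ^ 2 * (1 - Real.cos t) := by
  have h1 : ∀ s : ℝ, 1 - Real.cos s = 2 * Real.sin (s / 2) ^ 2 := by
    intro s
    have h2 := Real.cos_two_mul (s / 2)
    have h3 := Real.sin_sq_add_cos_sq (s / 2)
    have h4 : 2 * (s / 2) = s := by ring
    rw [h4] at h2
    linarith
  rw [h1, h1]
  have h4 : (m : ℝ) * t / 2 = m * (t / 2) := by ring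
  have h5 := abs_sin_mul m (t / 2)
  rw [h4]
  have h6 : Real.sin (m * (t / 2)) ^ 2 ≤ (m * |Real.sin (t / 2)|) ^ 2 := by
    rw [← sq_abs]
    gcongr
  rw [mul_pow, sq_abs] at h6
  linarith

theorem SS_nonneg (m : ℕ) : 0 ≤ SS N m :=
  Finset.sum_nonneg fun d _ => mul_nonneg (by linarith [Real.cos_le_one (m * td d)]) (kd_nonneg d)

theorem SS_le (m : ℕ) : SS N m ≤ 2 * m ^ 2 * N := by
  unfold SS
  have h1 : ∀ d : ZMod N, (1 - Real.cos (m * td d)) * kd d ≤ 2 * m ^ 2 := by
    intro d
    by_cases hd : d = 0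
    · subst hd
      rw [td_zero]
      simp
    · have h2 := kd_mul hd
      have h3 := one_sub_cos_mul m (td d)
      have h4 := kd_nonneg d
      calc (1 - Real.cos (m * td d)) * kd d ≤ (m ^ 2 * (1 - Real.cos (td d))) * kd d := by gcongr
        _ = 2 * m ^ 2 := by rw [mul_assoc, h2]; ring
  calc ∑ d : ZMod N, (1 - Real.cos (m * td d)) * kd d ≤ ∑ _d : ZMod N, (2 * (m : ℝ) ^ 2) :=
        Finset.sum_le_sum fun d _ => h1 d
    _ = 2 * m ^ 2 * N := by
        rw [Finset.sum_const, Finset.card_univ, ZMod.card, nsmul_eq_mul]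
        ring

theorem SS_err (m : ℕ) : |SS N m / (2 * N) - m| ≤ m ^ 3 / N := by
  have hN := Npos (N := N)
  rcases Nat.eq_zero_or_pos m with rfl | hm
  · rw [SS_zero]
    simp
  have hm1 : (1 : ℝ) ≤ m := by exact_mod_cast hm
  rcases le_total m N with h | h
  · rw [SS_eq m h]
    have h1 : 2 * (m : ℝ) * (N - m) / (2 * N) - m = -(m ^ 2 / N) := by
      field_simp
      ring
    rw [h1, abs_neg, abs_of_nonneg (by positivity)]
    rw [div_le_div_iff_of_pos_right hN]
    nlinarith
  · have hNm : (N : ℝ) ≤ m := by exact_mod_cast h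
    have h1 := SS_le (N := N) m
    have h2 := SS_nonneg (N := N) m
    have h3 : SS N m / (2 * N) ≤ m ^ 2 := by
      rw [div_le_iff₀ (by positivity)]
      linarith
    have h4 : 0 ≤ SS N m / (2 * N) := by positivity
    have h5 : (m : ℝ) ^ 2 ≤ m ^ 3 / N := by
      rw [le_div_iff₀ hN]
      nlinarith
    rw [abs_le]
    constructor
    · nlinarith
    · linarith

/-- the energy in difference form -/
def DE (f g : ZMod N → ℝ) : ℝ := ∑ x, ∑ y, (f x - f y) * (g x - g y) * K0 x y

theorem K_symm (t : ℝ) (x y : ZMod N) : K t x y = K t y x := by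
  unfold K cd
  rw [← Real.cos_neg, neg_sub]

theorem K_row (t : ℝ) (x : ZMod N) : ∑ y, K t x y = ∑ d : ZMod N, 2 / (1 + t - Real.cos (td d)) := by
  rw [sum_diff _ x]
  refine Finset.sum_congr rfl fun d _ => ?_
  unfold K
  rw [cd_add]

theorem DE_t (t : ℝ) (f g : ZMod N → ℝ) :
    ∑ x, ∑ y, (f x - f y) * (g x - g y) * K t x y =
      2 * (∑ d : ZMod N, 2 / (1 + t - Real.cos (td d))) * (∑ x, f x * g x) - 2 * En t f g := by
  have h1 : ∑ x, ∑ y, (f x - f y) * (g x - g y) * K t x y =
      (∑ x, ∑ y, f x * g x * K t x y) + (∑ x, ∑ y, f y * g y * K t x y) -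
        (∑ x, ∑ y, f x * g y * K t x y) - ∑ x, ∑ y, f y * g x * K t x y := by
    rw [← Finset.sum_add_distrib, ← Finset.sum_sub_distrib, ← Finset.sum_sub_distrib]
    refine Finset.sum_congr rfl fun x _ => ?_
    rw [← Finset.sum_add_distrib, ← Finset.sum_sub_distrib, ← Finset.sum_sub_distrib]
    refine Finset.sum_congr rfl fun y _ => ?_
    ring
  have h2 : ∑ x, ∑ y, f x * g x * K t x y =
      (∑ d : ZMod N, 2 / (1 + t - Real.cos (td d))) * ∑ x, f x * g x := by
    rw [Finset.mul_sum]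
    refine Finset.sum_congr rfl fun x _ => ?_
    rw [← Finset.mul_sum, K_row]
    ring
  have h3 : ∑ x, ∑ y, f y * g y * K t x y = ∑ x, ∑ y, f x * g x * K t x y := by
    rw [Finset.sum_comm]
    refine Finset.sum_congr rfl fun x _ => Finset.sum_congr rfl fun y _ => ?_
    rw [K_symm]
  have h4 : ∑ x, ∑ y, f y * g x * K t x y = ∑ x, ∑ y, f x * g y * K t x y := by
    rw [Finset.sum_comm]
    refine Finset.sum_congr rfl fun x _ => Finset.sum_congr rfl fun y _ => ?_
    rw [K_symm]
  rw [h1, h3, h4, h2]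
  unfold En
  ring

/-- **Discrete Riesz inequality, difference form.** -/
theorem riesz_diff {F G : Fin N → ℝ} (hF : Antitone F) (hG : Antitone G) (m : ZMod N ≃ Fin N) :
    DE (fun x => F (rkE x)) (fun x => G (rkE x)) ≤ DE (fun x => F (m x)) (fun x => G (m x)) := by
  have hlim : ∀ f g : ZMod N → ℝ, Tendsto
      (fun t : ℝ => ∑ x, ∑ y, (f x - f y) * (g x - g y) * K t x y) (𝓝[>] 0) (𝓝 (DE f g)) := by
    intro f g
    unfold DE
    refine tendsto_finsetSum _ fun x _ => tendsto_finsetSum _ fun y _ => ?_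
    by_cases hxy : x = y
    · subst hxy
      simp
    · have hlt : cd x y < 1 := by
        have h1 : y = x + (y - x) := by ring
        rw [h1, cd_add]
        exact cos_td_lt (fun h => hxy (sub_eq_zero.1 h).symm)
      have hc : ContinuousAt (fun t : ℝ => (f x - f y) * (g x - g y) * K t x y) 0 := by
        unfold K
        refine ContinuousAt.mul continuousAt_const ?_
        refine ContinuousAt.div continuousAt_const (by fun_prop) ?_
        rw [add_zero]
        linarith
      have h2 := hc.tendsto.mono_left (nhdsWithin_le_nhds (s := Set.Ioi (0 : ℝ)))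
      have h3 : (f x - f y) * (g x - g y) * K 0 x y = (f x - f y) * (g x - g y) * K0 x y := by
        unfold K K0
        rw [add_zero]
      rwa [h3] at h2
  refine le_of_tendsto_of_tendsto (hlim _ _) (hlim _ _) ?_
  filter_upwards [self_mem_nhdsWithin] with t ht0
  rw [DE_t, DE_t]
  have h1 := riesz ht0 hF hG m
  have h2 : ∑ x, F (m x) * G (m x) = ∑ i, F i * G i := m.sum_comp (fun i => F i * G i)
  have h3 : ∑ x : ZMod N, F (rkE x) * G (rkE x) = ∑ i, F i * G i :=
    rkE.sum_comp (fun i => F i * G i)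
  rw [h2, h3]
  linarith

end Pool.Agent.Helper854_CM.DR
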