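import Mathlib
import Pool.Agent.Helper854_CM.DK

/-!
The discrete inequality for the kernels `cos θ + λ cos kθ`.
-/

set_option autoImplicit false

open Finset Filter Topology

noncomputable section

namespace Pool.Agent.Helper854_CM.DR

variable {N : ℕ} [NeZero N]

theorem anti_comb {a b : ℝ} (k : ℕ) (h : |b| * (k : ℝ) ^ 2 ≤ a) :
    AntitoneOn (fun θ : ℝ => a * Real.cos θ + b * Real.cos (k * θ)) (Set.Icc 0 Real.pi) := by
  have hd : ∀ θ : ℝ, HasDerivAt (fun θ : ℝ => a * Real.cos θ + b * Real.cos (k * θ))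
      (a * (-Real.sin θ) + b * (-Real.sin (k * θ) * k)) θ := by
    intro θ
    have h1 : HasDerivAt (fun θ : ℝ => (k : ℝ) * θ) (k : ℝ) θ := by
      simpa using (hasDerivAt_id θ).const_mul (k : ℝ)
    exact ((Real.hasDerivAt_cos θ).const_mul a).add ((h1.cos).const_mul b)
  refine antitoneOn_of_deriv_nonpos (convex_Icc _ _)
    (fun θ _ => (hd θ).continuousAt.continuousWithinAt)
    (fun θ _ => (hd θ).differentiableAt.differentiableWithinAt) ?_
  intro θ hθ
  rw [interior_Icc] at hθ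
  rw [(hd θ).deriv]
  have hs : 0 ≤ Real.sin θ := Real.sin_nonneg_of_mem_Icc ⟨hθ.1.le, hθ.2.le⟩
  have h1 := abs_sin_mul k θ
  rw [abs_of_nonneg hs] at h1
  have h2 : -(b * Real.sin (k * θ) * k) ≤ |b| * (k : ℝ) ^ 2 * Real.sin θ := by
    calc -(b * Real.sin (k * θ) * k) ≤ |b * Real.sin (k * θ) * k| := neg_le_abs _
      _ = |b| * |Real.sin (k * θ)| * k := by
          rw [abs_mul, abs_mul, Nat.abs_cast]
      _ ≤ |b| * (k * Real.sin θ) * k := by gcongr
      _ = _ := by ring
  have h3 : |b| * (k : ℝ) ^ 2 * Real.sin θ ≤ a * Real.sin θ := by gcongr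
  linarith

theorem cos_mul_rk (k : ℕ) (x : ZMod N) :
    Real.cos (k * ph x) = Real.cos (k * (Real.pi / N * ((rkN x : ℝ) + 1 / 2))) := by
  have hx := ZMod.val_lt x
  have hN := (Npos (N := N)).ne'
  unfold ph rkN
  rcases le_total (2 * x.val) (2 * N - 1 - 2 * x.val) with h | h
  · rw [min_eq_left h]
    congr 1
    push_cast
    field_simp
    ring
  · rw [min_eq_right h]
    have h2 : ((2 * N - 1 - 2 * x.val : ℕ) : ℝ) = 2 * N - 1 - 2 * x.val := by
      rw [Nat.cast_sub (by omega), Nat.cast_sub (by omega)]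
      push_cast
      ring
    rw [h2]
    have h3 : (k : ℝ) * (Real.pi / N * (2 * N - 1 - 2 * (x.val : ℝ) + 1 / 2)) =
        -((k : ℝ) * (2 * Real.pi * ((x.val : ℝ) + 1 / 4) / N)) + ((k : ℤ) : ℝ) * (2 * Real.pi) := by
      push_cast
      field_simp
      ring
    rw [h3, Real.cos_add_int_mul_two_pi, Real.cos_neg]

/-- the point of `[0, π]` with a given rank -/
def pt (N : ℕ) (j : Fin N) : ℝ := Real.pi / N * (((j : ℕ) : ℝ) + 1 / 2)

theorem pt_mem (j : Fin N) : pt N j ∈ Set.Icc 0 Real.pi := by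
  have hpi := Real.pi_pos
  have hN := Npos (N := N)
  have h1 : ((j : ℕ) : ℝ) + 1 ≤ N := by exact_mod_cast j.2
  unfold pt
  constructor
  · positivity
  · rw [div_mul_eq_mul_div, div_le_iff₀ hN]
    nlinarith

theorem pt_mono : Monotone (pt N) := by
  intro i j hij
  have hpi := Real.pi_pos
  have h1 : ((i : ℕ) : ℝ) ≤ ((j : ℕ) : ℝ) := by exact_mod_cast hij
  have hN := Npos (N := N)
  unfold pt
  gcongr

theorem DE_eq (f g : ZMod N → ℝ) : DE f g = 2 * ∑ x, f x * ∑ y, (g x - g y) * K0 x y := by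
  have h1 : DE f g = (∑ x, ∑ y, f x * ((g x - g y) * K0 x y)) +
      ∑ x, ∑ y, f y * ((g y - g x) * K0 x y) := by
    unfold DE
    rw [← Finset.sum_add_distrib]
    refine Finset.sum_congr rfl fun x _ => ?_
    rw [← Finset.sum_add_distrib]
    refine Finset.sum_congr rfl fun y _ => ?_
    ring
  have h2 : ∑ x, ∑ y, f y * ((g y - g x) * K0 x y) = ∑ x, ∑ y, f x * ((g x - g y) * K0 x y) := by
    rw [Finset.sum_comm]
    refine Finset.sum_congr rfl fun x _ => Finset.sum_congr rfl fun y _ => ?_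
    rw [K0_symm]
  rw [h1, h2, ← two_mul]
  congr 1
  refine Finset.sum_congr rfl fun x _ => ?_
  rw [Finset.mul_sum]

theorem eig_cos (k : ℕ) (x : ZMod N) :
    ∑ y, (Real.cos (k * ph x) - Real.cos (k * ph y)) * K0 x y = SS N k * Real.cos (k * ph x) := by
  have h := congrArg Complex.re (eig k x)
  rw [Complex.re_sum, Complex.re_ofReal_mul, Complex.exp_ofReal_mul_I_re] at h
  rw [← h]
  refine Finset.sum_congr rfl fun y _ => ?_
  rw [Complex.re_mul_ofReal, Complex.sub_re, Complex.exp_ofReal_mul_I_re,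
    Complex.exp_ofReal_mul_I_re]

/-- the function `R` -/
def RR (l : ℝ) (k : ℕ) (θ : ℝ) : ℝ := 1 * Real.cos θ + l / k * Real.cos (k * θ)

/-- the kernel `K_N` -/
def KN (N : ℕ) (l : ℝ) (k : ℕ) (θ : ℝ) : ℝ :=
  ((N : ℝ) - 1) * Real.cos θ + l * ((N : ℝ) - k) * Real.cos (k * θ)

theorem disc_main {l : ℝ} {k : ℕ} (hk1 : 1 ≤ k) (hkN : k ≤ N) (hl : |l| * (k : ℝ) ^ 2 ≤ 1)
    (f : ZMod N → ℝ) (m : ZMod N ≃ Fin N) (hm : ∀ x y, m x ≤ m y → f y ≤ f x) :
    ∑ x, f x * KN N l k (ph x) ≤
      1 / 2 * ∑ x, RR l k (pt N (m x)) * ∑ y, (f x - f y) * K0 x y := by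
  have hk0 : (0 : ℝ) < k := by exact_mod_cast hk1
  have hk1' : (1 : ℝ) ≤ k := by exact_mod_cast hk1
  have hkN' : (k : ℝ) ≤ N := by exact_mod_cast hkN
  obtain ⟨F, hF⟩ : ∃ F : Fin N → ℝ, ∀ i, F i = f (m.symm i) := ⟨_, fun i => rfl⟩
  have hFa : Antitone F := by
    intro i j hij
    rw [hF, hF]
    apply hm
    simpa using hij
  have hFf : ∀ x, F (m x) = f x := fun x => by rw [hF]; simp
  obtain ⟨G, hG⟩ : ∃ G : Fin N → ℝ, ∀ i, G i = RR l k (pt N i) := ⟨_, fun i => rfl⟩
  have hRanti : AntitoneOn (RR l k) (Set.Icc 0 Real.pi) := by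
    refine anti_comb k ?_
    rw [abs_div, abs_of_pos hk0, div_mul_eq_mul_div, div_le_iff₀ hk0]
    nlinarith [abs_nonneg l]
  have hGa : Antitone G := by
    intro i j hij
    rw [hG, hG]
    exact hRanti (pt_mem i) (pt_mem j) (pt_mono hij)
  have hKanti : AntitoneOn (KN N l k) (Set.Icc 0 Real.pi) := by
    refine anti_comb k ?_
    rw [abs_mul, abs_of_nonneg (by linarith : 0 ≤ (N : ℝ) - k)]
    nlinarith [abs_nonneg l]
  have hGrk : ∀ x : ZMod N, G (rkE x) = RR l k (ph x) := by
    intro x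
    rw [hG]
    unfold RR pt
    rw [rkE_val, ← cos_mul_rk k x]
    have := cos_mul_rk 1 x
    simp only [Nat.cast_one, one_mul] at this
    rw [this]
  have hKrk : ∀ x : ZMod N, KN N l k (pt N (rkE x)) = KN N l k (ph x) := by
    intro x
    unfold KN pt
    rw [rkE_val, ← cos_mul_rk k x]
    have := cos_mul_rk 1 x
    simp only [Nat.cast_one, one_mul] at this
    rw [this]
  -- the right side of the Riesz inequality
  have h1 : DE (fun x => F (rkE x)) (fun x => G (rkE x)) =
      4 * ∑ x, F (rkE x) * KN N l k (ph x) := by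
    rw [DE_eq, Finset.mul_sum, Finset.mul_sum]
    refine Finset.sum_congr rfl fun x _ => ?_
    have h2 : ∑ y, (G (rkE x) - G (rkE y)) * K0 x y = 2 * KN N l k (ph x) := by
      simp only [hGrk]
      have h3 := eig_cos 1 x
      have h4 := eig_cos k x
      rw [SS_eq 1 (hk1.trans hkN)] at h3
      rw [SS_eq k hkN] at h4
      simp only [Nat.cast_one, one_mul, mul_one] at h3
      have h5 : ∑ y, (RR l k (ph x) - RR l k (ph y)) * K0 x y =
          (∑ y, (Real.cos (ph x) - Real.cos (ph y)) * K0 x y) +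
            l / k * ∑ y, (Real.cos (k * ph x) - Real.cos (k * ph y)) * K0 x y := by
        rw [Finset.mul_sum, ← Finset.sum_add_distrib]
        refine Finset.sum_congr rfl fun y _ => ?_
        unfold RR
        ring
      rw [h5, h3, h4]
      unfold KN
      field_simp
    rw [h2]
    ring
  have h2 : DE (fun x => F (m x)) (fun x => G (m x)) =
      2 * ∑ x, G (m x) * ∑ y, (f x - f y) * K0 x y := by
    have h3 : DE (fun x => F (m x)) (fun x => G (m x)) =
        DE (fun x => G (m x)) (fun x => F (m x)) := by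
      unfold DE
      refine Finset.sum_congr rfl fun x _ => Finset.sum_congr rfl fun y _ => ?_
      ring
    rw [h3, DE_eq]
    simp only [hFf]
  have h3 := riesz_diff hFa hGa m
  rw [h1, h2] at h3
  -- rearrangement of the linear functional
  have h4 : ∑ x, f x * KN N l k (ph x) ≤ ∑ x : ZMod N, F (rkE x) * KN N l k (ph x) := by
    have hmv : Monovary F (fun i : Fin N => KN N l k (pt N i)) := by
      refine Antitone.monovary hFa ?_
      intro i j hij
      exact hKanti (pt_mem i) (pt_mem j) (pt_mono hij)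
    have h5 := hmv.sum_comp_perm_mul_le_sum_mul (σ := rkE.symm.trans m)
    have h6 : ∑ i, F ((rkE.symm.trans m) i) * KN N l k (pt N i) =
        ∑ x, f x * KN N l k (ph x) := by
      rw [← Equiv.sum_comp (rkE (N := N))]
      refine Finset.sum_congr rfl fun x _ => ?_
      rw [hKrk]
      simp [hFf]
    have h7 : ∑ i, F i * KN N l k (pt N i) = ∑ x : ZMod N, F (rkE x) * KN N l k (ph x) := by
      rw [← Equiv.sum_comp (rkE (N := N))]
      refine Finset.sum_congr rfl fun x _ => ?_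
      rw [hKrk]
    rw [h6, h7] at h5
    exact h5
  simp only [hG] at h3
  linarith

end Pool.Agent.Helper854_CM.DR
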