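import Mathlib
import Pool.Agent.Helper854_CM.Disc

/-!
Riemann sums on the circle and convergence of the empirical ranks.
-/

set_option autoImplicit false

open MeasureTheory Filter Topology Set

noncomputable section

namespace Pool.Agent.Helper854_CM.DR

variable {N : ℕ} [NeZero N]

/-- sums over the grid as sums over a range -/
theorem sum_ph (F : ℝ → ℝ) : ∑ x : ZMod N, F (ph x) =
    ∑ j ∈ Finset.range N, F (2 * Real.pi * ((j : ℝ) + 1 / 4) / N) := by
  refine Finset.sum_nbij' (fun d => d.val) (fun j => (j : ZMod N)) ?_ ?_ ?_ ?_ ?_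
  · intro d _
    exact Finset.mem_range.2 (ZMod.val_lt d)
  · intro j _
    exact Finset.mem_univ _
  · intro d _
    simp
  · intro j hj
    exact ZMod.val_cast_of_lt (Finset.mem_range.1 hj)
  · intro d _
    rfl

theorem riemann {F : ℝ → ℝ} (hF : Continuous F) {w : ℝ}
    (hw : ∀ s t : ℝ, |s - t| ≤ 2 * Real.pi / N → |F s - F t| ≤ w) :
    |1 / (N : ℝ) * ∑ x : ZMod N, F (ph x) - 1 / (2 * Real.pi) * ∫ θ in (0 : ℝ)..(2 * Real.pi), F θ|
      ≤ w := by
  have hpi := Real.pi_pos
  have hN := Npos (N := N)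
  have hN1 : 1 ≤ N := NeZero.one_le
  obtain ⟨a, ha⟩ : ∃ a : ℕ → ℝ, ∀ j, a j = 2 * Real.pi * j / N := ⟨_, fun j => rfl⟩
  have h0 : a 0 = 0 := by rw [ha]; simp
  have hNN : a N = 2 * Real.pi := by rw [ha]; field_simp
  have h1 : ∫ θ in (0 : ℝ)..(2 * Real.pi), F θ =
      ∑ j ∈ Finset.range N, ∫ θ in (a j)..(a (j + 1)), F θ := by
    rw [intervalIntegral.sum_integral_adjacent_intervals
      (fun j _ => hF.intervalIntegrable _ _), h0, hNN]
  have hstep : ∀ j, a (j + 1) - a j = 2 * Real.pi / N := by
    intro j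
    rw [ha, ha]
    push_cast
    field_simp
    ring
  rw [sum_ph, h1, Finset.mul_sum, Finset.mul_sum, ← Finset.sum_sub_distrib]
  have h2 : ∀ j ∈ Finset.range N, |1 / (N : ℝ) * F (2 * Real.pi * ((j : ℝ) + 1 / 4) / N) -
      1 / (2 * Real.pi) * ∫ θ in (a j)..(a (j + 1)), F θ| ≤ w / N := by
    intro j _
    obtain ⟨c, hc⟩ : ∃ c : ℝ, c = 2 * Real.pi * ((j : ℝ) + 1 / 4) / N := ⟨_, rfl⟩
    rw [← hc]
    have h3 : 1 / (N : ℝ) * F c = 1 / (2 * Real.pi) * ∫ θ in (a j)..(a (j + 1)), F c := by
      rw [intervalIntegral.integral_const, hstep, smul_eq_mul]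
      field_simp
    rw [h3, ← mul_sub, ← intervalIntegral.integral_sub (continuous_const.intervalIntegrable _ _)
      (hF.intervalIntegrable _ _), abs_mul, abs_of_pos (by positivity)]
    have h4 : ‖∫ θ in (a j)..(a (j + 1)), (F c - F θ)‖ ≤ w * |a (j + 1) - a j| := by
      refine intervalIntegral.norm_integral_le_of_norm_le_const fun θ hθ => ?_
      rw [uIoc_of_le (by have := hstep j; have : 0 < 2 * Real.pi / N := by positivity
                         linarith)] at hθ
      refine hw _ _ ?_
      have h5 : a j ≤ c ∧ c ≤ a (j + 1) := by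
        rw [ha, ha, hc]
        push_cast
        constructor
        · gcongr; linarith
        · gcongr; norm_num
      rw [abs_le, ← hstep j]
      constructor <;> linarith [hθ.1, hθ.2, h5.1, h5.2]
    rw [hstep, Real.norm_eq_abs, abs_of_pos (by positivity : 0 < 2 * Real.pi / (N : ℝ))] at h4
    calc 1 / (2 * Real.pi) * |∫ θ in (a j)..(a (j + 1)), (F c - F θ)|
        ≤ 1 / (2 * Real.pi) * (w * (2 * Real.pi / N)) := by gcongr
      _ = w / N := by field_simp
  calc |∑ j ∈ Finset.range N, (1 / (N : ℝ) * F (2 * Real.pi * ((j : ℝ) + 1 / 4) / N) -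
      1 / (2 * Real.pi) * ∫ θ in (a j)..(a (j + 1)), F θ)|
      ≤ ∑ j ∈ Finset.range N, |1 / (N : ℝ) * F (2 * Real.pi * ((j : ℝ) + 1 / 4) / N) -
      1 / (2 * Real.pi) * ∫ θ in (a j)..(a (j + 1)), F θ| := Finset.abs_sum_le_sum_abs _ _
    _ ≤ ∑ j ∈ Finset.range N, w / N := Finset.sum_le_sum h2
    _ = w := by
      rw [Finset.sum_const, Finset.card_range, nsmul_eq_mul]
      field_simp

/-- the ramp -/
def ramp (t e y : ℝ) : ℝ := min 1 (max 0 ((y - t) / e))

theorem ramp_cont (t e : ℝ) : Continuous (ramp t e) := by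
  unfold ramp
  fun_prop

theorem ramp_lip {t e : ℝ} (he : 0 < e) (x y : ℝ) : |ramp t e x - ramp t e y| ≤ |x - y| / e := by
  unfold ramp
  have h1 : |min 1 (max 0 ((x - t) / e)) - min 1 (max 0 ((y - t) / e))| ≤
      |max 0 ((x - t) / e) - max 0 ((y - t) / e)| := by
    have := abs_min_sub_min_le_max 1 (max 0 ((x - t) / e)) 1 (max 0 ((y - t) / e))
    simpa using this
  have h2 : |max 0 ((x - t) / e) - max 0 ((y - t) / e)| ≤ |(x - t) / e - (y - t) / e| := by
    have := abs_max_sub_max_le_max 0 ((x - t) / e) 0 ((y - t) / e)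
    simpa using this
  have h3 : (x - t) / e - (y - t) / e = (x - y) / e := by ring
  rw [h3, abs_div, abs_of_pos he] at h2
  exact h1.trans h2

/-- the normalised distribution function -/
def SF (u : ℝ → ℝ) (t : ℝ) : ℝ :=
  1 / (2 * Real.pi) * ∫ θ in (0 : ℝ)..(2 * Real.pi), (if t < u θ then (1 : ℝ) else 0)

theorem ind_int {u : ℝ → ℝ} (hu : Continuous u) (t : ℝ) :
    IntervalIntegrable (fun θ => if t < u θ then (1 : ℝ) else 0) volume 0 (2 * Real.pi) := by
  have hm : Measurable fun θ => if t < u θ then (1 : ℝ) else 0 :=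
    Measurable.ite (measurableSet_lt measurable_const hu.measurable) measurable_const
      measurable_const
  have hpi := Real.pi_pos
  rw [intervalIntegrable_iff, uIoc_of_le (by positivity)]
  refine Measure.integrableOn_of_bounded (M := 1) measure_Ioc_lt_top.ne hm.aestronglyMeasurable ?_
  refine Eventually.of_forall fun θ => ?_
  split_ifs <;> simp

theorem SF_le_ramp {u : ℝ → ℝ} (hu : Continuous u) {t e : ℝ} (he : 0 < e) :
    SF u (t + e) ≤ 1 / (2 * Real.pi) * ∫ θ in (0 : ℝ)..(2 * Real.pi), ramp t e (u θ) := by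
  have hpi := Real.pi_pos
  unfold SF
  refine mul_le_mul_of_nonneg_left ?_ (by positivity)
  refine intervalIntegral.integral_mono_on (by positivity) (ind_int hu _)
    (((ramp_cont t e).comp hu).intervalIntegrable _ _) fun θ _ => ?_
  split_ifs with h
  · unfold ramp
    refine le_min le_rfl (le_max_of_le_right ?_)
    rw [le_div_iff₀ he]
    linarith
  · unfold ramp
    exact le_min zero_le_one (le_max_left _ _)

theorem ramp_le_SF {u : ℝ → ℝ} (hu : Continuous u) {t e : ℝ} (he : 0 < e) :
    1 / (2 * Real.pi) * ∫ θ in (0 : ℝ)..(2 * Real.pi), ramp t e (u θ) ≤ SF u t := by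
  have hpi := Real.pi_pos
  unfold SF
  refine mul_le_mul_of_nonneg_left ?_ (by positivity)
  refine intervalIntegral.integral_mono_on (by positivity)
    (((ramp_cont t e).comp hu).intervalIntegrable _ _) (ind_int hu _) fun θ _ => ?_
  split_ifs with h
  · exact min_le_left _ _
  · unfold ramp
    refine (min_le_right _ _).trans (max_le le_rfl ?_)
    exact div_nonpos_of_nonpos_of_nonneg (by linarith) he.le

/-- empirical counts -/
theorem count_low {u : ℝ → ℝ} (hu : Continuous u) {w : ℝ}
    (hw : ∀ s t : ℝ, |s - t| ≤ 2 * Real.pi / N → |u s - u t| ≤ w) {t e : ℝ} (he : 0 < e) :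
    SF u (t + e) - w / e ≤
      1 / (N : ℝ) * ((Finset.univ.filter fun x : ZMod N => t < u (ph x)).card : ℝ) := by
  have hN := Npos (N := N)
  have h1 := SF_le_ramp hu he (t := t)
  have h2 := riemann (N := N) ((ramp_cont t e).comp hu) (w := w / e) (fun s s' hs => by
    refine (ramp_lip he _ _).trans ?_
    have := hw s s' hs
    gcongr)
  have h3 := (abs_le.1 h2).1
  have h4 : ∑ x : ZMod N, (ramp t e ∘ u) (ph x) ≤
      ((Finset.univ.filter fun x : ZMod N => t < u (ph x)).card : ℝ) := by
    rw [Finset.card_eq_sum_ones, Finset.sum_filter, Nat.cast_sum]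
    refine Finset.sum_le_sum fun x _ => ?_
    simp only [Function.comp]
    split_ifs with h
    · rw [Nat.cast_one]
      exact min_le_left _ _
    · rw [Nat.cast_zero]
      unfold ramp
      refine (min_le_right _ _).trans (max_le le_rfl ?_)
      exact div_nonpos_of_nonpos_of_nonneg (by linarith) he.le
  have h5 : 1 / (N : ℝ) * ∑ x : ZMod N, (ramp t e ∘ u) (ph x) ≤
      1 / (N : ℝ) * ((Finset.univ.filter fun x : ZMod N => t < u (ph x)).card : ℝ) := by gcongr
  simp only [Function.comp] at h3 h5
  linarith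

theorem count_upp {u : ℝ → ℝ} (hu : Continuous u) {w : ℝ}
    (hw : ∀ s t : ℝ, |s - t| ≤ 2 * Real.pi / N → |u s - u t| ≤ w) {t e : ℝ} (he : 0 < e) :
    1 / (N : ℝ) * ((Finset.univ.filter fun x : ZMod N => t ≤ u (ph x)).card : ℝ) ≤
      SF u (t - e) + w / e := by
  have hN := Npos (N := N)
  have h1 := ramp_le_SF hu he (t := t - e)
  have h2 := riemann (N := N) ((ramp_cont (t - e) e).comp hu) (w := w / e) (fun s s' hs => by
    refine (ramp_lip he _ _).trans ?_
    have := hw s s' hs
    gcongr)
  have h3 := (abs_le.1 h2).2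
  have h4 : ((Finset.univ.filter fun x : ZMod N => t ≤ u (ph x)).card : ℝ) ≤
      ∑ x : ZMod N, (ramp (t - e) e ∘ u) (ph x) := by
    rw [Finset.card_eq_sum_ones, Finset.sum_filter, Nat.cast_sum]
    refine Finset.sum_le_sum fun x _ => ?_
    simp only [Function.comp]
    split_ifs with h
    · rw [Nat.cast_one]
      unfold ramp
      refine le_min le_rfl (le_max_of_le_right ?_)
      rw [le_div_iff₀ he]
      linarith
    · rw [Nat.cast_zero]
      unfold ramp
      exact le_min zero_le_one (le_max_left _ _)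
  have h5 : 1 / (N : ℝ) * ((Finset.univ.filter fun x : ZMod N => t ≤ u (ph x)).card : ℝ) ≤
      1 / (N : ℝ) * ∑ x : ZMod N, (ramp (t - e) e ∘ u) (ph x) := by gcongr
  simp only [Function.comp] at h3 h5
  linarith

/-- the ranks approximate the distribution function -/
theorem rank_bound {u : ℝ → ℝ} (hu : Continuous u) {w : ℝ}
    (hw : ∀ s t : ℝ, |s - t| ≤ 2 * Real.pi / N → |u s - u t| ≤ w) {e : ℝ} (he : 0 < e)
    (m : ZMod N ≃ Fin N) (hm : ∀ x y, m x ≤ m y → u (ph y) ≤ u (ph x)) (x : ZMod N) :
    SF u (u (ph x) + e) - w / e ≤ pt N (m x) / Real.pi ∧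
      pt N (m x) / Real.pi ≤ SF u (u (ph x) - e) + w / e := by
  classical
  have hpi := Real.pi_pos
  have hN := Npos (N := N)
  have h0 : pt N (m x) / Real.pi = 1 / (N : ℝ) * (((m x : ℕ) : ℝ) + 1 / 2) := by
    unfold pt
    field_simp
  rw [h0]
  constructor
  · refine (count_low hu hw he).trans ?_
    have h1 : (Finset.univ.filter fun y : ZMod N => u (ph x) < u (ph y)).card ≤ (m x : ℕ) := by
      have h2 : (Finset.univ.filter fun y : ZMod N => u (ph x) < u (ph y)) ⊆
          (Finset.univ.filter fun i : Fin N => i < m x).map m.symm.toEmbedding := by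
        intro y hy
        rw [Finset.mem_filter] at hy
        rw [Finset.mem_map]
        refine ⟨m y, ?_, by simp⟩
        rw [Finset.mem_filter]
        refine ⟨Finset.mem_univ _, ?_⟩
        by_contra hcon
        push Not at hcon
        have := hm x y hcon
        linarith [hy.2]
      refine (Finset.card_le_card h2).trans ?_
      rw [Finset.card_map]
      have h3 : (Finset.univ.filter fun i : Fin N => i < m x) = Finset.Iio (m x) := by
        ext i
        simp
      rw [h3, Fin.card_Iio]
    have h2 : ((Finset.univ.filter fun y : ZMod N => u (ph x) < u (ph y)).card : ℝ) ≤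
        ((m x : ℕ) : ℝ) := by exact_mod_cast h1
    gcongr
    linarith
  · refine le_trans ?_ (count_upp hu hw he)
    have h1 : (m x : ℕ) + 1 ≤ (Finset.univ.filter fun y : ZMod N => u (ph x) ≤ u (ph y)).card := by
      have h2 : (Finset.univ.filter fun i : Fin N => i ≤ m x).map m.symm.toEmbedding ⊆
          (Finset.univ.filter fun y : ZMod N => u (ph x) ≤ u (ph y)) := by
        intro y hy
        rw [Finset.mem_map] at hy
        obtain ⟨i, hi, rfl⟩ := hy
        rw [Finset.mem_filter] at hi ⊢
        refine ⟨Finset.mem_univ _, ?_⟩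
        apply hm
        simpa using hi.2
      refine le_trans ?_ (Finset.card_le_card h2)
      rw [Finset.card_map]
      have h3 : (Finset.univ.filter fun i : Fin N => i ≤ m x) = Finset.Iic (m x) := by
        ext i
        simp
      rw [h3, Fin.card_Iic]
    have h2 : ((m x : ℕ) : ℝ) + 1 ≤
        ((Finset.univ.filter fun y : ZMod N => u (ph x) ≤ u (ph y)).card : ℝ) := by
      exact_mod_cast h1
    gcongr
    linarith

/-- the distribution function is antitone -/
theorem SF_anti {u : ℝ → ℝ} (hu : Continuous u) : Antitone (SF u) := by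
  intro s t hst
  have hpi := Real.pi_pos
  unfold SF
  refine mul_le_mul_of_nonneg_left ?_ (by positivity)
  refine intervalIntegral.integral_mono_on (by positivity) (ind_int hu _) (ind_int hu _)
    fun θ _ => ?_
  split_ifs with h1 h2
  · exact le_rfl
  · exact absurd (lt_of_le_of_lt hst h1) h2
  · exact zero_le_one
  · exact le_rfl

theorem SF_nonneg (u : ℝ → ℝ) (t : ℝ) : 0 ≤ SF u t := by
  have hpi := Real.pi_pos
  unfold SF
  refine mul_nonneg (by positivity) (intervalIntegral.integral_nonneg (by positivity) fun θ _ => ?_)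
  split_ifs <;> norm_num

theorem SF_le_one {u : ℝ → ℝ} (hu : Continuous u) (t : ℝ) : SF u t ≤ 1 := by
  have hpi := Real.pi_pos
  unfold SF
  have h1 : ∫ θ in (0 : ℝ)..(2 * Real.pi), (if t < u θ then (1 : ℝ) else 0) ≤
      ∫ θ in (0 : ℝ)..(2 * Real.pi), (1 : ℝ) := by
    refine intervalIntegral.integral_mono_on (by positivity) (ind_int hu _)
      (continuous_const.intervalIntegrable _ _) fun θ _ => ?_
    split_ifs <;> norm_num
  rw [intervalIntegral.integral_const, sub_zero, smul_eq_mul, mul_one] at h1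
  rw [one_div, inv_mul_le_iff₀ (by positivity)]
  linarith

/-- continuity of the distribution function when no value is taken on a set of positive measure -/
theorem SF_cont {u : ℝ → ℝ} (hu : Continuous u)
    (hflat : ∀ t, volume {θ | θ ∈ Ioc (0 : ℝ) (2 * Real.pi) ∧ u θ = t} = 0) :
    Continuous (SF u) := by
  have hpi := Real.pi_pos
  rw [continuous_iff_continuousAt]
  intro t
  unfold SF
  refine ContinuousAt.mul continuousAt_const ?_
  refine intervalIntegral.tendsto_integral_filter_of_dominated_convergence (fun _ => 1) ?_ ?_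
    (continuous_const.intervalIntegrable _ _) ?_
  · refine Eventually.of_forall fun s => ?_
    exact (Measurable.ite (measurableSet_lt measurable_const hu.measurable) measurable_const
      measurable_const).aestronglyMeasurable
  · refine Eventually.of_forall fun s => Eventually.of_forall fun θ _ => ?_
    split_ifs <;> simp
  · have h1 : ∀ᵐ θ : ℝ, ¬ (θ ∈ Ioc (0 : ℝ) (2 * Real.pi) ∧ u θ = t) :=
      measure_eq_zero_iff_ae_notMem.1 (hflat t)
    filter_upwards [h1] with θ hθ hmem
    rw [uIoc_of_le (by positivity)] at hmem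
    have hne : u θ ≠ t := fun h => hθ ⟨hmem, h⟩
    rcases lt_or_gt_of_ne hne with h | h
    · have h2 : (fun s : ℝ => if s < u θ then (1 : ℝ) else 0) =ᶠ[𝓝 t] fun _ => 0 := by
        filter_upwards [lt_mem_nhds h] with s hs
        rw [if_neg (not_lt.2 (le_of_lt hs))]
      rw [if_neg (not_lt.2 h.le)]
      exact tendsto_const_nhds.congr' h2.symm
    · have h2 : (fun s : ℝ => if s < u θ then (1 : ℝ) else 0) =ᶠ[𝓝 t] fun _ => 1 := by
        filter_upwards [gt_mem_nhds h] with s hs
        rw [if_pos hs]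
      rw [if_pos h]
      exact tendsto_const_nhds.congr' h2.symm

end Pool.Agent.Helper854_CM.DR
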