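import Mathlib
import Pool.Agent.Helper854_CM.Disc
import Pool.Agent.Helper854_CM.Sph

/-!
The discrete operator applied to the real part of a holomorphic function on a circle.
-/

set_option autoImplicit false

open Filter Topology Metric Set
open scoped Nat

noncomputable section

namespace Pool.Agent.Helper854_CM.DR

open Pool.Agent.Helper854_CM

theorem hs_congr {f g : ℕ → ℂ} {a : ℂ} (h : ∀ m, g m = f m) (hf : HasSum f a) : HasSum g a := by
  have h1 : g = f := funext h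
  rw [h1]
  exact hf

/-- Taylor coefficients -/
def tc (h : ℂ → ℂ) (m : ℕ) : ℂ := ((m ! : ℕ) : ℂ)⁻¹ * iteratedDeriv m h 0

theorem taylor {h : ℂ → ℂ} (hh : DifferentiableOn ℂ h (ball 0 1)) {z : ℂ} (hz : ‖z‖ < 1) :
    HasSum (fun m => tc h m * z ^ m) (h z) := by
  have h1 := Complex.hasSum_taylorSeries_on_ball (f := h) (c := 0) (r := 1) hh
    (z := z) (by simpa using hz)
  refine hs_congr (fun m => ?_) h1
  rw [sub_zero, smul_eq_mul, smul_eq_mul, tc]
  ring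

theorem tc_deriv (h : ℂ → ℂ) (m : ℕ) : tc (deriv h) m = ((m : ℂ) + 1) * tc h (m + 1) := by
  unfold tc
  rw [← iteratedDeriv_succ', Nat.factorial_succ]
  push_cast
  have h1 : ((m : ℂ) + 1) ≠ 0 := Nat.cast_add_one_ne_zero m
  field_simp

theorem taylor_deriv {h : ℂ → ℂ} (hh : DifferentiableOn ℂ h (ball 0 1)) {z : ℂ} (hz : ‖z‖ < 1) :
    HasSum (fun m : ℕ => (m : ℂ) * tc h m * z ^ m) (z * deriv h z) := by
  have h1 := (taylor (hh.deriv isOpen_ball) hz).mul_left z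
  have h2 : HasSum (fun m : ℕ => ((m + 1 : ℕ) : ℂ) * tc h (m + 1) * z ^ (m + 1))
      (z * deriv h z) := by
    refine hs_congr (fun m => ?_) h1
    rw [tc_deriv]
    push_cast
    ring
  have h3 := (hasSum_nat_add_iff (f := fun m : ℕ => (m : ℂ) * tc h m * z ^ m) 1).1 h2
  simpa using h3

theorem summ {h : ℂ → ℂ} (hh : DifferentiableOn ℂ h (ball 0 1)) {r : ℝ} (hr0 : 0 ≤ r)
    (hr1 : r < 1) : Summable fun m : ℕ => (m : ℝ) ^ 3 * (‖tc h m‖ * r ^ m) := by
  obtain ⟨s, hs⟩ : ∃ s : ℝ, s = (r + 1) / 2 := ⟨_, rfl⟩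
  have hs0 : 0 < s := by rw [hs]; positivity
  have hs1 : s < 1 := by rw [hs]; linarith
  have hrs : r < s := by rw [hs]; linarith
  have h1 := (taylor hh (z := (s : ℂ)) (by
    rw [Complex.norm_real, Real.norm_of_nonneg hs0.le]; exact hs1)).summable
  obtain ⟨M, hM⟩ := h1.tendsto_atTop_zero.norm.bddAbove_range
  have hM' : ∀ m, ‖tc h m‖ * s ^ m ≤ M := by
    intro m
    have := hM ⟨m, rfl⟩
    simpa [norm_mul, norm_pow, Real.norm_of_nonneg hs0.le] using this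
  have h2 : Summable fun m : ℕ => (m : ℝ) ^ 3 * (r / s) ^ m := by
    apply summable_pow_mul_geometric_of_norm_lt_one
    rw [Real.norm_of_nonneg (by positivity), div_lt_one hs0]
    exact hrs
  refine Summable.of_nonneg_of_le (fun m => by positivity) (fun m => ?_) (h2.mul_left M)
  have h3 : r ^ m = (r / s) ^ m * s ^ m := by
    rw [div_pow]
    field_simp
  rw [h3]
  calc (m : ℝ) ^ 3 * (‖tc h m‖ * ((r / s) ^ m * s ^ m))
      = (m : ℝ) ^ 3 * (r / s) ^ m * (‖tc h m‖ * s ^ m) := by ring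
    _ ≤ (m : ℝ) ^ 3 * (r / s) ^ m * M := by
        have := hM' m
        gcongr
    _ = M * ((m : ℝ) ^ 3 * (r / s) ^ m) := by ring

theorem zz_pow (r θ : ℝ) (m : ℕ) :
    zz r θ ^ m = (r : ℂ) ^ m * Complex.exp (((m * θ : ℝ) : ℂ) * Complex.I) := by
  unfold zz
  rw [mul_pow, ← Complex.exp_nat_mul]
  congr 2
  push_cast
  ring

theorem ser_err {h : ℂ → ℂ} (hh : DifferentiableOn ℂ h (ball 0 1)) {r : ℝ} (hr0 : 0 ≤ r)
    (hr1 : r < 1) : ∃ C : ℝ, 0 ≤ C ∧ ∀ (N : ℕ) [NeZero N] (x : ZMod N),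
      |1 / (2 * (N : ℝ)) * (∑ y, ((h (zz r (ph x))).re - (h (zz r (ph y))).re) * K0 x y) -
        (zz r (ph x) * deriv h (zz r (ph x))).re| ≤ C / N := by
  have hs := summ hh hr0 hr1
  refine ⟨∑' m : ℕ, (m : ℝ) ^ 3 * (‖tc h m‖ * r ^ m), tsum_nonneg fun m => by positivity, ?_⟩
  intro N _ x
  have hN := Npos (N := N)
  have hz : ∀ θ : ℝ, ‖zz r θ‖ < 1 := fun θ => by rw [norm_zz, abs_of_nonneg hr0]; exact hr1
  have h1 : ∀ y : ZMod N, HasSum (fun m => tc h m * (r : ℂ) ^ m *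
      ((Complex.exp (((m * ph x : ℝ) : ℂ) * Complex.I) -
      Complex.exp (((m * ph y : ℝ) : ℂ) * Complex.I)) * (K0 x y : ℂ)))
      ((h (zz r (ph x)) - h (zz r (ph y))) * (K0 x y : ℂ)) := by
    intro y
    have h2 := ((taylor hh (hz (ph x))).sub (taylor hh (hz (ph y)))).mul_right (K0 x y : ℂ)
    refine hs_congr (fun m => ?_) h2
    rw [zz_pow, zz_pow]
    ring
  have h2 := hasSum_sum (s := Finset.univ) fun (y : ZMod N) _ => h1 y
  have h3 : HasSum (fun m => tc h m * zz r (ph x) ^ m * (SS N m : ℂ))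
      (∑ y, (h (zz r (ph x)) - h (zz r (ph y))) * (K0 x y : ℂ)) := by
    refine hs_congr (fun m => ?_) h2
    rw [← Finset.mul_sum, eig, zz_pow]
    ring
  have h4 := h3.mul_left (1 / (2 * (N : ℂ)))
  have h5 := h4.sub (taylor_deriv hh (hz (ph x)))
  have h6 : ∀ m : ℕ, ‖1 / (2 * (N : ℂ)) * (tc h m * zz r (ph x) ^ m * (SS N m : ℂ)) -
      (m : ℂ) * tc h m * zz r (ph x) ^ m‖ ≤ (m : ℝ) ^ 3 * (‖tc h m‖ * r ^ m) / N := by
    intro m
    have e1 : 1 / (2 * (N : ℂ)) * (tc h m * zz r (ph x) ^ m * (SS N m : ℂ)) -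
      (m : ℂ) * tc h m * zz r (ph x) ^ m =
        (tc h m * zz r (ph x) ^ m) * ((SS N m / (2 * N) - m : ℝ) : ℂ) := by
      push_cast
      have : (N : ℂ) ≠ 0 := by exact_mod_cast hN.ne'
      field_simp
    rw [e1, norm_mul, norm_mul, norm_pow, norm_zz, abs_of_nonneg hr0, Complex.norm_real,
      Real.norm_eq_abs]
    have := SS_err (N := N) m
    calc ‖tc h m‖ * r ^ m * |SS N m / (2 * N) - m| ≤ ‖tc h m‖ * r ^ m * (m ^ 3 / N) := by gcongr
      _ = _ := by ring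
  have h7 : ‖1 / (2 * (N : ℂ)) * (∑ y, (h (zz r (ph x)) - h (zz r (ph y))) * (K0 x y : ℂ)) -
      zz r (ph x) * deriv h (zz r (ph x))‖ ≤ (∑' m : ℕ, (m : ℝ) ^ 3 * (‖tc h m‖ * r ^ m)) / N := by
    rw [← h5.tsum_eq]
    have h8 := hs.div_const (N : ℝ)
    refine (tsum_of_norm_bounded (h8.hasSum) h6).trans (le_of_eq ?_)
    rw [tsum_div_const]
  have h8 : 1 / (2 * (N : ℝ)) * (∑ y, ((h (zz r (ph x))).re - (h (zz r (ph y))).re) * K0 x y) -
        (zz r (ph x) * deriv h (zz r (ph x))).re =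
      (1 / (2 * (N : ℂ)) * (∑ y, (h (zz r (ph x)) - h (zz r (ph y))) * (K0 x y : ℂ)) -
      zz r (ph x) * deriv h (zz r (ph x))).re := by
    rw [Complex.sub_re]
    congr 1
    have e2 : (1 / (2 * (N : ℂ))) = ((1 / (2 * (N : ℝ)) : ℝ) : ℂ) := by push_cast; ring
    rw [e2, Complex.re_ofReal_mul, Complex.re_sum]
    congr 1
    refine Finset.sum_congr rfl fun y _ => ?_
    rw [Complex.re_mul_ofReal, Complex.sub_re]
  rw [h8]
  exact (Complex.abs_re_le_norm _).trans h7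

end Pool.Agent.Helper854_CM.DR
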