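import Mathlib
import Pool.Agent.Helper854_CM.Lev2
import Pool.Agent.Helper854_CM.Ser
import Pool.Agent.Helper854_CM.Rank

/-!
The linear inequality `Re (h_1 + λ h_k) ≤ 4 + λ (2/k) (1 - (-1)^k)` for functions satisfying the
area condition `CI`.
-/

set_option autoImplicit false

open MeasureTheory Filter Topology Complex Set Metric

noncomputable section

namespace Pool.Agent.Helper854_CM.DR

open Pool.Agent.Helper854_CM

theorem exp_int {n : ℤ} (hn : n ≠ 0) :
    ∫ θ in (0 : ℝ)..(2 * Real.pi), cexp (((n * θ : ℝ) : ℂ) * I) = 0 := by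
  have hc : ((n : ℂ) * I) ≠ 0 := mul_ne_zero (by exact_mod_cast hn) I_ne_zero
  have h1 : ∀ θ : ℝ, cexp (((n * θ : ℝ) : ℂ) * I) = cexp (((n : ℂ) * I) * θ) := by
    intro θ
    congr 1
    push_cast
    ring
  rw [intervalIntegral.integral_congr (fun θ _ => h1 θ), integral_exp_mul_complex hc]
  have h2 : (n : ℂ) * I * ((2 * Real.pi : ℝ) : ℂ) = n * (2 * Real.pi * I) := by push_cast; ring
  rw [h2, Complex.exp_int_mul_two_pi_mul_I]
  simp

theorem four {h : ℂ → ℂ} (hh : DifferentiableOn ℂ h (ball 0 1)) {r : ℝ} (hr : r ∈ Ioo (0 : ℝ) 1)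
    {k : ℕ} (hk : 1 ≤ k) :
    ∫ θ in (0 : ℝ)..(2 * Real.pi), h (zz r θ) * ((Real.cos (k * θ) : ℝ) : ℂ) =
      Real.pi * tc h k * (r : ℂ) ^ k := by
  have hpi := Real.pi_pos
  have hsum : Summable fun m : ℕ => ‖tc h m‖ * r ^ m := by
    have := (taylor hh (z := (r : ℂ)) (by
      rw [Complex.norm_real, Real.norm_of_nonneg hr.1.le]; exact hr.2)).summable.norm
    simpa [norm_mul, norm_pow, Real.norm_of_nonneg hr.1.le] using this
  have hz : ∀ θ : ℝ, ‖zz r θ‖ < 1 := fun θ => by rw [norm_zz, abs_of_nonneg hr.1.le]; exact hr.2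
  have hzc : Continuous fun θ : ℝ => zz r θ :=
    zz_cont.comp (by fun_prop : Continuous fun θ : ℝ => (r, θ))
  have h1 := intervalIntegral.hasSum_integral_of_dominated_convergence
    (μ := volume) (a := 0) (b := 2 * Real.pi)
    (F := fun (m : ℕ) (θ : ℝ) => tc h m * zz r θ ^ m * ((Real.cos (k * θ) : ℝ) : ℂ))
    (f := fun θ : ℝ => h (zz r θ) * ((Real.cos (k * θ) : ℝ) : ℂ))
    (fun m _ => ‖tc h m‖ * r ^ m)
    (fun m => by
      refine Continuous.aestronglyMeasurable ?_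
      exact (continuous_const.mul (hzc.pow m)).mul
        (Complex.continuous_ofReal.comp (by fun_prop : Continuous fun θ : ℝ => Real.cos (k * θ))))
    (fun m => Eventually.of_forall fun θ _ => by
      rw [norm_mul, norm_mul, norm_pow, norm_zz, abs_of_nonneg hr.1.le, Complex.norm_real,
        Real.norm_eq_abs]
      have h2 := Real.abs_cos_le_one (k * θ)
      have h3 : 0 ≤ ‖tc h m‖ * r ^ m := mul_nonneg (norm_nonneg _) (pow_nonneg hr.1.le m)
      calc ‖tc h m‖ * r ^ m * |Real.cos (k * θ)| ≤ ‖tc h m‖ * r ^ m * 1 := by gcongr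
        _ = _ := mul_one _)
    (Eventually.of_forall fun θ _ => hsum)
    (continuous_const.intervalIntegrable _ _)
    (Eventually.of_forall fun θ _ => (taylor hh (hz θ)).mul_right _)
  have h2 : ∀ m : ℕ, ∫ θ in (0 : ℝ)..(2 * Real.pi),
      tc h m * zz r θ ^ m * ((Real.cos (k * θ) : ℝ) : ℂ) =
      if m = k then Real.pi * tc h k * (r : ℂ) ^ k else 0 := by
    intro m
    have e1 : ∀ θ : ℝ, tc h m * zz r θ ^ m * ((Real.cos (k * θ) : ℝ) : ℂ) =
        tc h m * (r : ℂ) ^ m / 2 * cexp ((((m + k : ℤ) * θ : ℝ) : ℂ) * I) +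
        tc h m * (r : ℂ) ^ m / 2 * cexp ((((m - k : ℤ) * θ : ℝ) : ℂ) * I) := by
      intro θ
      rw [zz_pow]
      have e2 : ((Real.cos (k * θ) : ℝ) : ℂ) =
          (cexp (((k * θ : ℝ) : ℂ) * I) + cexp (-(((k * θ : ℝ) : ℂ)) * I)) / 2 := by
        rw [Complex.ofReal_cos, Complex.cos]
      have e3 : cexp ((((m + k : ℤ) * θ : ℝ) : ℂ) * I) =
          cexp (((m * θ : ℝ) : ℂ) * I) * cexp (((k * θ : ℝ) : ℂ) * I) := by
        rw [← Complex.exp_add]
        congr 1
        push_cast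
        ring
      have e4 : cexp ((((m - k : ℤ) * θ : ℝ) : ℂ) * I) =
          cexp (((m * θ : ℝ) : ℂ) * I) * cexp (-(((k * θ : ℝ) : ℂ)) * I) := by
        rw [← Complex.exp_add]
        congr 1
        push_cast
        ring
      rw [e2, e3, e4]
      ring
    rw [intervalIntegral.integral_congr (fun θ _ => e1 θ), intervalIntegral.integral_add,
      intervalIntegral.integral_const_mul, intervalIntegral.integral_const_mul,
      exp_int (by omega : ((m : ℤ) + k) ≠ 0), mul_zero, zero_add]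
    · by_cases hmk : m = k
      · subst hmk
        rw [if_pos rfl]
        simp
        ring
      · rw [if_neg hmk, exp_int (by omega : ((m : ℤ) - k) ≠ 0), mul_zero]
    · exact (by fun_prop : Continuous fun θ : ℝ =>
        tc h m * (r : ℂ) ^ m / 2 * cexp ((((m + k : ℤ) * θ : ℝ) : ℂ) * I)).intervalIntegrable _ _
    · exact (by fun_prop : Continuous fun θ : ℝ =>
        tc h m * (r : ℂ) ^ m / 2 * cexp ((((m - k : ℤ) * θ : ℝ) : ℂ) * I)).intervalIntegrable _ _
  simp only [h2] at h1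
  have h3 := hasSum_ite_eq k ((Real.pi : ℂ) * tc h k * (r : ℂ) ^ k)
  exact h1.unique h3

theorem four_re {h : ℂ → ℂ} (hh : DifferentiableOn ℂ h (ball 0 1)) {r : ℝ}
    (hr : r ∈ Ioo (0 : ℝ) 1) {k : ℕ} (hk : 1 ≤ k) :
    ∫ θ in (0 : ℝ)..(2 * Real.pi), (h (zz r θ)).re * Real.cos (k * θ) =
      Real.pi * (tc h k).re * r ^ k := by
  have hr' : r ∈ Ioo (-1 : ℝ) 1 := ⟨by linarith [hr.1], hr.2⟩
  have h1 := congrArg Complex.re (four hh hr hk)
  have h2 : (∫ θ in (0 : ℝ)..(2 * Real.pi), h (zz r θ) * ((Real.cos (k * θ) : ℝ) : ℂ)).re =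
      ∫ θ in (0 : ℝ)..(2 * Real.pi), (h (zz r θ) * ((Real.cos (k * θ) : ℝ) : ℂ)).re := by
    have hc : Continuous fun θ : ℝ => h (zz r θ) * ((Real.cos (k * θ) : ℝ) : ℂ) :=
      (slice_cont hh hh hr').mul
        (Complex.continuous_ofReal.comp (by fun_prop : Continuous fun θ : ℝ => Real.cos (k * θ)))
    have := Complex.reCLM.intervalIntegral_comp_comm (hc.intervalIntegrable (μ := volume) 0
      (2 * Real.pi))
    exact this.symm
  rw [h2] at h1
  have h3 : ((Real.pi : ℂ) * tc h k * (r : ℂ) ^ k).re = Real.pi * (tc h k).re * r ^ k := by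
    have : (Real.pi : ℂ) * tc h k * (r : ℂ) ^ k = ((Real.pi * r ^ k : ℝ) : ℂ) * tc h k := by
      push_cast
      ring
    rw [this, Complex.re_ofReal_mul]
    ring
  rw [h3] at h1
  rw [← h1]
  refine intervalIntegral.integral_congr fun θ _ => ?_
  exact (Complex.re_mul_ofReal _ _).symm

theorem flat {h : ℂ → ℂ} (hh : DifferentiableOn ℂ h (ball 0 1)) {r : ℝ} (hr : r ∈ Ioo (0 : ℝ) 1) :
    (∃ c : ℝ, ∀ θ, (h (zz r θ)).re = c) ∨
      ∀ t, volume {θ | θ ∈ Ioc (0 : ℝ) (2 * Real.pi) ∧ (h (zz r θ)).re = t} = 0 := by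
  by_cases hc : ∃ c : ℝ, ∀ θ, (h (zz r θ)).re = c
  · exact Or.inl hc
  · right
    intro t
    have hr' : r ∈ Ioo (-1 : ℝ) 1 := ⟨by linarith [hr.1], hr.2⟩
    have han : AnalyticOnNhd ℝ (fun θ : ℝ => (h (zz r θ)).re - t) univ := by
      intro θ _
      have h1 : AnalyticAt ℝ (fun θ : ℝ => zz r θ) θ := by
        unfold zz
        refine analyticAt_const.mul ?_
        have h2 : AnalyticAt ℝ (fun θ : ℝ => (θ : ℂ) * I) θ :=
          (Complex.ofRealCLM.analyticAt θ).mul analyticAt_const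
        exact AnalyticAt.fun_comp (analyticAt_cexp.restrictScalars) h2
      have h2 : AnalyticAt ℝ h (zz r θ) :=
        (hh.analyticAt (isOpen_ball.mem_nhds (zz_mem hr' θ))).restrictScalars
      have h3 : AnalyticAt ℝ (fun θ : ℝ => h (zz r θ)) θ := AnalyticAt.fun_comp h2 h1
      have h4 : AnalyticAt ℝ (fun θ : ℝ => (h (zz r θ)).re) θ :=
        AnalyticAt.fun_comp (Complex.reCLM.analyticAt _) h3
      exact h4.sub analyticAt_const
    have hne : ∃ θ₀ : ℝ, (h (zz r θ₀)).re - t ≠ 0 := by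
      by_contra hcon
      push Not at hcon
      exact hc ⟨t, fun θ => by have := hcon θ; linarith⟩
    obtain ⟨θ₀, hθ₀⟩ := hne
    have h1 := han.preimage_zero_mem_codiscrete hθ₀
    have h2 := ae_restrict_le_codiscreteWithin (μ := (volume : Measure ℝ)) MeasurableSet.univ h1
    rw [Measure.restrict_univ] at h2
    have h3 : ∀ᵐ θ : ℝ, (h (zz r θ)).re - t ≠ 0 := h2
    rw [measure_eq_zero_iff_ae_notMem]
    filter_upwards [h3] with θ hθ hmem
    exact hθ (by rw [hmem.2, sub_self])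

end Pool.Agent.Helper854_CM.DR
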