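import Mathlib
import Pool.Agent.Helper854_CM.Mlin

/-!
The linear inequality `Re (h_1 + λ h_k) ≤ 4 + λ (2/k) (1 - (-1)^k)`: final assembly.
-/

set_option autoImplicit false

open MeasureTheory Filter Topology Complex Set Metric

noncomputable section

namespace Pool.Agent.Helper854_CM.DR

open Pool.Agent.Helper854_CM

theorem per_unif {F : ℝ → ℝ} (hF : Continuous F) (hp : ∀ x, F (x + 2 * Real.pi) = F x) {ε : ℝ}
    (hε : 0 < ε) : ∃ δ > 0, ∀ s t : ℝ, |s - t| ≤ δ → |F s - F t| ≤ ε := by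
  have hpi := Real.pi_pos
  have hper : Function.Periodic F (2 * Real.pi) := hp
  have hc : IsCompact (Icc (-(2 * Real.pi)) (4 * Real.pi)) := isCompact_Icc
  have hu := hc.uniformContinuousOn_of_continuous hF.continuousOn
  rw [Metric.uniformContinuousOn_iff] at hu
  obtain ⟨δ, hδ, hδ'⟩ := hu ε hε
  refine ⟨min (δ / 2) (2 * Real.pi), by positivity, fun s t hst => ?_⟩
  have h1 : |s - t| ≤ δ / 2 := hst.trans (min_le_left _ _)
  have h2 : |s - t| ≤ 2 * Real.pi := hst.trans (min_le_right _ _)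
  obtain ⟨k, hk⟩ : ∃ k : ℤ, k = ⌊s / (2 * Real.pi)⌋ := ⟨_, rfl⟩
  have h3 : (k : ℝ) * (2 * Real.pi) ≤ s := by
    have := Int.floor_le (s / (2 * Real.pi))
    rw [← hk, le_div_iff₀ (by positivity)] at this
    exact this
  have h4 : s < ((k : ℝ) + 1) * (2 * Real.pi) := by
    have := Int.lt_floor_add_one (s / (2 * Real.pi))
    rw [← hk, div_lt_iff₀ (by positivity)] at this
    exact this
  have h5 := abs_le.1 h2
  have hs : F s = F (s - k * (2 * Real.pi)) := (hper.sub_int_mul_eq k).symm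
  have ht : F t = F (t - k * (2 * Real.pi)) := (hper.sub_int_mul_eq k).symm
  rw [hs, ht, ← Real.dist_eq]
  refine (hδ' _ ⟨by linarith, by linarith⟩ _ ⟨by linarith, by linarith⟩ ?_).le
  rw [Real.dist_eq]
  have h6 : s - k * (2 * Real.pi) - (t - k * (2 * Real.pi)) = s - t := by ring
  rw [h6]
  linarith

/-- rankings exist -/
theorem exists_rank {N : ℕ} [NeZero N] (f : ZMod N → ℝ) :
    ∃ m : ZMod N ≃ Fin N, ∀ x y, m x ≤ m y → f y ≤ f x := by
  obtain ⟨e⟩ : Nonempty (ZMod N ≃ Fin N) := ⟨Fintype.equivFinOfCardEq (ZMod.card N)⟩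
  obtain ⟨g, hg⟩ : ∃ g : Fin N → ℝ, ∀ i, g i = -f (e.symm i) := ⟨_, fun i => rfl⟩
  refine ⟨e.trans (Tuple.sort g).symm, fun x y hxy => ?_⟩
  have h1 := Tuple.monotone_sort g hxy
  simp only [Function.comp, Equiv.trans_apply, Equiv.apply_symm_apply] at h1
  rw [hg, hg] at h1
  simp only [Equiv.symm_apply_apply] at h1
  linarith

theorem RR_anti {l : ℝ} {k : ℕ} (hk1 : 1 ≤ k) (hl : |l| * (k : ℝ) ^ 2 ≤ 1) :
    AntitoneOn (RR l k) (Set.Icc 0 Real.pi) := by
  have hk0 : (0 : ℝ) < k := by exact_mod_cast hk1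
  have hk1' : (1 : ℝ) ≤ k := by exact_mod_cast hk1
  refine anti_comb k ?_
  rw [abs_div, abs_of_pos hk0, div_mul_eq_mul_div, div_le_iff₀ hk0]
  nlinarith [abs_nonneg l]

theorem RR_lip {l : ℝ} {k : ℕ} (hk1 : 1 ≤ k) (s t : ℝ) :
    |RR l k s - RR l k t| ≤ (1 + |l|) * |s - t| := by
  have hk0 : (0 : ℝ) < k := by exact_mod_cast hk1
  unfold RR
  have h1 := Real.abs_cos_sub_cos_le s t
  have h2 := Real.abs_cos_sub_cos_le (k * s) (k * t)
  rw [← mul_sub, abs_mul, Nat.abs_cast] at h2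
  have h3 : 1 * Real.cos s + l / k * Real.cos (k * s) - (1 * Real.cos t + l / k * Real.cos (k * t))
      = (Real.cos s - Real.cos t) + l / k * (Real.cos (k * s) - Real.cos (k * t)) := by ring
  rw [h3]
  calc |(Real.cos s - Real.cos t) + l / k * (Real.cos (k * s) - Real.cos (k * t))|
      ≤ |Real.cos s - Real.cos t| + |l / k * (Real.cos (k * s) - Real.cos (k * t))| :=
        abs_add_le _ _
    _ ≤ |s - t| + |l| / k * (k * |s - t|) := by
        rw [abs_mul, abs_div, abs_of_pos hk0]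
        gcongr
    _ = (1 + |l|) * |s - t| := by
        field_simp

theorem RR_cont (l : ℝ) (k : ℕ) : Continuous (RR l k) := by
  unfold RR
  fun_prop

theorem RR_abs {l : ℝ} {k : ℕ} (hk1 : 1 ≤ k) (s : ℝ) : |RR l k s| ≤ 1 + |l| := by
  have hk0 : (0 : ℝ) < k := by exact_mod_cast hk1
  have hk1' : (1 : ℝ) ≤ k := by exact_mod_cast hk1
  unfold RR
  have h1 := Real.abs_cos_le_one s
  have h2 := Real.abs_cos_le_one (k * s)
  calc |1 * Real.cos s + l / k * Real.cos (k * s)|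
      ≤ |1 * Real.cos s| + |l / k * Real.cos (k * s)| := abs_add_le _ _
    _ ≤ 1 + |l| := by
        rw [one_mul, abs_mul, abs_div, abs_of_pos hk0]
        have h3 : |l| / k * |Real.cos (k * s)| ≤ |l| / 1 * 1 := by gcongr
        linarith

theorem KN_err {N : ℕ} [NeZero N] {l : ℝ} {k : ℕ} (θ : ℝ) :
    |1 / (N : ℝ) * KN N l k θ - (Real.cos θ + l * Real.cos (k * θ))| ≤ (1 + |l| * k) / N := by
  have hN := Npos (N := N)
  unfold KN
  have h1 := Real.abs_cos_le_one θ
  have h2 := Real.abs_cos_le_one (k * θ)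
  have h3 : 1 / (N : ℝ) * (((N : ℝ) - 1) * Real.cos θ + l * ((N : ℝ) - k) * Real.cos (k * θ)) -
      (Real.cos θ + l * Real.cos (k * θ)) = -(Real.cos θ + l * k * Real.cos (k * θ)) / N := by
    field_simp
    ring
  rw [h3, abs_div, abs_neg, abs_of_pos hN]
  gcongr
  calc |Real.cos θ + l * k * Real.cos (k * θ)| ≤ |Real.cos θ| + |l * k * Real.cos (k * θ)| :=
        abs_add_le _ _
    _ ≤ 1 + |l| * k := by
        rw [abs_mul, abs_mul, Nat.abs_cast]
        have : |l| * k * |Real.cos (k * θ)| ≤ |l| * k * 1 := by gcongr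
        linarith

/-- the inequality in integrated form on one circle, non-constant case -/
theorem core {h : ℂ → ℂ} (hh : DifferentiableOn ℂ h (ball 0 1)) (hCI : CI h) {l : ℝ} {k : ℕ}
    (hk1 : 1 ≤ k) (hl : |l| * (k : ℝ) ^ 2 ≤ 1) {r : ℝ} (hr : r ∈ Ioo (0 : ℝ) 1)
    (hflat : ∀ t, volume {θ | θ ∈ Ioc (0 : ℝ) (2 * Real.pi) ∧ (h (zz r θ)).re = t} = 0) :
    1 / (2 * Real.pi) * ∫ θ in (0 : ℝ)..(2 * Real.pi),
      (h (zz r θ)).re * (Real.cos θ + l * Real.cos (k * θ)) ≤ RR l k 0 - RR l k Real.pi := by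
  classical
  have hpi := Real.pi_pos
  have hr' : r ∈ Ioo (-1 : ℝ) 1 := ⟨by linarith [hr.1], hr.2⟩
  have hk0 : (0 : ℝ) < k := by exact_mod_cast hk1
  obtain ⟨u, hu⟩ : ∃ u : ℝ → ℝ, ∀ θ, u θ = (h (zz r θ)).re := ⟨_, fun θ => rfl⟩
  obtain ⟨D, hD⟩ : ∃ D : ℝ → ℝ, ∀ θ, D θ = (zz r θ * deriv h (zz r θ)).re := ⟨_, fun θ => rfl⟩
  have huf : u = fun θ => (h (zz r θ)).re := funext hu
  have hDf : D = fun θ => (zz r θ * deriv h (zz r θ)).re := funext hD
  have hzc : Continuous fun θ : ℝ => zz r θ :=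
    zz_cont.comp (by fun_prop : Continuous fun θ : ℝ => (r, θ))
  have huc : Continuous u := by
    rw [huf]; exact Complex.continuous_re.comp (slice_cont hh hh hr')
  have hDc : Continuous D := by
    rw [hDf]
    exact Complex.continuous_re.comp (hzc.mul (slice_cont hh (hh.deriv isOpen_ball) hr'))
  have hup : ∀ θ, u (θ + 2 * Real.pi) = u θ := fun θ => by rw [hu, hu, zz_per]
  have hDp : ∀ θ, D (θ + 2 * Real.pi) = D θ := fun θ => by rw [hD, hD, zz_per]
  have hfl : ∀ t, volume {θ | θ ∈ Ioc (0 : ℝ) (2 * Real.pi) ∧ u θ = t} = 0 := by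
    intro t
    have := hflat t
    simpa only [hu] using this
  have hSc := SF_cont huc hfl
  have hSa := SF_anti huc
  -- bounds
  obtain ⟨M, hM0, hM⟩ : ∃ M > 0, ∀ θ, |u θ| ≤ M := by
    obtain ⟨x, -, hx⟩ := (isCompact_Icc (a := (0 : ℝ)) (b := 2 * Real.pi)).exists_isMaxOn
      ⟨0, by constructor <;> linarith⟩ huc.abs.continuousOn
    refine ⟨|u x| + 1, by positivity, fun θ => ?_⟩
    have hper : Function.Periodic u (2 * Real.pi) := hup
    obtain ⟨y, hy, hxy⟩ := hper.exists_mem_Ico₀ (by positivity) θ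
    rw [hxy]
    have := hx (⟨hy.1, hy.2.le⟩ : y ∈ Icc (0 : ℝ) (2 * Real.pi))
    simp only [mem_ofPred_eq] at this
    linarith
  obtain ⟨M', hM0', hM'⟩ : ∃ M' > 0, ∀ θ, |D θ| ≤ M' := by
    obtain ⟨x, -, hx⟩ := (isCompact_Icc (a := (0 : ℝ)) (b := 2 * Real.pi)).exists_isMaxOn
      ⟨0, by constructor <;> linarith⟩ hDc.abs.continuousOn
    refine ⟨|D x| + 1, by positivity, fun θ => ?_⟩
    have hper : Function.Periodic D (2 * Real.pi) := hDp
    obtain ⟨y, hy, hxy⟩ := hper.exists_mem_Ico₀ (by positivity) θ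
    rw [hxy]
    have := hx (⟨hy.1, hy.2.le⟩ : y ∈ Icc (0 : ℝ) (2 * Real.pi))
    simp only [mem_ofPred_eq] at this
    linarith
  -- the level function
  obtain ⟨Ψ, hΨ⟩ : ∃ Ψ : ℝ → ℝ, ∀ t, Ψ t = RR l k (Real.pi * SF u t) := ⟨_, fun t => rfl⟩
  have hΨf : Ψ = fun t => RR l k (Real.pi * SF u t) := funext hΨ
  have hΨc : Continuous Ψ := by
    rw [hΨf]; exact (RR_cont l k).comp (continuous_const.mul hSc)
  have hmem : ∀ t, Real.pi * SF u t ∈ Icc 0 Real.pi := by
    intro t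
    have h1 := SF_nonneg u t
    have h2 := SF_le_one huc t
    constructor
    · positivity
    · calc Real.pi * SF u t ≤ Real.pi * 1 := by gcongr
        _ = _ := mul_one _
  have hΨm : Monotone Ψ := by
    intro s t hst
    rw [hΨ, hΨ]
    refine RR_anti hk1 hl (hmem t) (hmem s) ?_
    have := hSa hst
    gcongr
  have hlow : ∀ t, t < -M → SF u t = 1 := by
    intro t ht
    unfold SF
    have : ∀ θ : ℝ, (if t < u θ then (1 : ℝ) else 0) = 1 := fun θ => by
      rw [if_pos]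
      linarith [(abs_le.1 (hM θ)).1]
    simp only [this]
    rw [intervalIntegral.integral_const, smul_eq_mul]
    field_simp
    ring
  have hupp : ∀ t, M < t → SF u t = 0 := by
    intro t ht
    unfold SF
    have : ∀ θ : ℝ, (if t < u θ then (1 : ℝ) else 0) = 0 := fun θ => by
      rw [if_neg]
      linarith [(abs_le.1 (hM θ)).2]
    simp only [this]
    simp
  have hΨa : Tendsto Ψ atBot (𝓝 (RR l k Real.pi)) := by
    refine tendsto_const_nhds.congr' ?_
    filter_upwards [eventually_lt_atBot (-M)] with t ht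
    rw [hΨ, hlow t ht, mul_one]
  have hΨb : Tendsto Ψ atTop (𝓝 (RR l k 0)) := by
    refine tendsto_const_nhds.congr' ?_
    filter_upwards [eventually_gt_atTop M] with t ht
    rw [hΨ, hupp t ht, mul_zero]
  have hlev := lev_cont hh hCI hΨc hΨm hΨa hΨb hr
  simp only [← hu, ← hD] at hlev ⊢
  have hlev' : 1 / (2 * Real.pi) * ∫ θ in (0 : ℝ)..(2 * Real.pi), Ψ (u θ) * D θ ≤
      RR l k 0 - RR l k Real.pi := by
    rw [one_div, inv_mul_le_iff₀ (by positivity)]
    exact hlev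
  refine le_trans ?_ hlev'
  -- constants
  obtain ⟨C, hC0, hC⟩ := ser_err hh hr.1.le hr.2
  obtain ⟨F1, hF1⟩ : ∃ F1 : ℝ → ℝ, ∀ θ, F1 θ = u θ * (Real.cos θ + l * Real.cos (k * θ)) :=
    ⟨_, fun θ => rfl⟩
  obtain ⟨F2, hF2⟩ : ∃ F2 : ℝ → ℝ, ∀ θ, F2 θ = Ψ (u θ) * D θ := ⟨_, fun θ => rfl⟩
  have hF1c : Continuous F1 := by
    have : F1 = fun θ => u θ * (Real.cos θ + l * Real.cos (k * θ)) := funext hF1
    rw [this]; fun_prop
  have hF2c : Continuous F2 := by
    have : F2 = fun θ => Ψ (u θ) * D θ := funext hF2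
    rw [this]; exact (hΨc.comp huc).mul hDc
  have hF1p : ∀ θ, F1 (θ + 2 * Real.pi) = F1 θ := by
    intro θ
    rw [hF1, hF1, hup, Real.cos_add_two_pi]
    have : (k : ℝ) * (θ + 2 * Real.pi) = k * θ + k * (2 * Real.pi) := by ring
    rw [this, Real.cos_add_nat_mul_two_pi]
  have hF2p : ∀ θ, F2 (θ + 2 * Real.pi) = F2 θ := by
    intro θ
    rw [hF2, hF2, hup, hDp]
  simp only [← hF1, ← hF2]
  refine le_of_forall_pos_le_add fun ε' hε' => ?_
  obtain ⟨Q, hQ⟩ : ∃ Q : ℝ, Q = 3 + (1 + |l|) + 2 * ((1 + |l|) * Real.pi) * M' + 1 := ⟨_, rfl⟩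
  have hQ0 : 0 < Q := by rw [hQ]; positivity
  obtain ⟨ε, hε⟩ : ∃ ε : ℝ, ε = ε' / Q := ⟨_, rfl⟩
  have hε0 : 0 < ε := by rw [hε]; positivity
  have hQε : Q * ε = ε' := by rw [hε]; field_simp
  rw [← hQε]
  -- uniform continuity of SF
  obtain ⟨e, he0, he1, heS⟩ : ∃ e > 0, e ≤ 1 ∧ ∀ s t : ℝ, s ∈ Icc (-M - 1) (M + 1) →
      t ∈ Icc (-M - 1) (M + 1) → |s - t| ≤ e → |SF u s - SF u t| ≤ ε := by
    have hc : IsCompact (Icc (-M - 1) (M + 1)) := isCompact_Icc
    have hu := hc.uniformContinuousOn_of_continuous hSc.continuousOn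
    rw [Metric.uniformContinuousOn_iff] at hu
    obtain ⟨δ, hδ, hδ'⟩ := hu ε hε0
    refine ⟨min (δ / 2) 1, by positivity, min_le_right _ _, fun s t hs ht hst => ?_⟩
    rw [← Real.dist_eq]
    refine (hδ' s hs t ht ?_).le
    rw [Real.dist_eq]
    linarith [hst.trans (min_le_left _ _)]
  obtain ⟨d0, hd0, hd0'⟩ := per_unif huc hup (ε := ε * e) (by positivity)
  obtain ⟨d1, hd1, hd1'⟩ := per_unif hF1c hF1p hε0
  obtain ⟨d2, hd2, hd2'⟩ := per_unif hF2c hF2p hε0
  -- choice of N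
  have hlim : ∀ c : ℝ, Tendsto (fun n : ℕ => c / ((n + 1 : ℕ) : ℝ)) atTop (𝓝 0) := fun c =>
    (tendsto_const_div_atTop_nhds_zero_nat c).comp (tendsto_add_atTop_nat 1)
  have hev : ∀ c δ : ℝ, 0 < δ → ∀ᶠ n : ℕ in atTop, c / ((n + 1 : ℕ) : ℝ) ≤ δ := fun c δ hδ =>
    ((hlim c).eventually (gt_mem_nhds hδ)).mono fun n hn => hn.le
  obtain ⟨n, hn0, hn1, hn2, hn3, hn4, hn5⟩ := ((hev (2 * Real.pi) d0 hd0).and
    ((hev (2 * Real.pi) d1 hd1).and ((hev (2 * Real.pi) d2 hd2).and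
    ((hev C ε hε0).and ((hev (M * (1 + |l| * k)) ε hε0).and (eventually_ge_atTop k)))))).exists
  obtain ⟨N, hN⟩ : ∃ N : ℕ, N = n + 1 := ⟨_, rfl⟩
  rw [← hN] at hn0 hn1 hn2 hn3 hn4
  have : NeZero N := ⟨by omega⟩
  have hkN : k ≤ N := by omega
  have hNp := Npos (N := N)
  have r1 := riemann (N := N) hF1c (w := ε) fun s t hst => hd1' s t (hst.trans hn1)
  have r2 := riemann (N := N) hF2c (w := ε) fun s t hst => hd2' s t (hst.trans hn2)
  obtain ⟨m, hm⟩ := exists_rank (N := N) fun x => u (ph x)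
  have hdm := disc_main hk1 hkN hl (fun x => u (ph x)) m hm
  have hrk := rank_bound (N := N) huc (w := ε * e) (fun s t hst => hd0' s t (hst.trans hn0)) he0 m hm
  -- step A
  have sA : 1 / (N : ℝ) * ∑ x : ZMod N, F1 (ph x) ≤
      1 / (N : ℝ) ^ 2 * (∑ x : ZMod N, u (ph x) * KN N l k (ph x)) + ε := by
    have h1 : ∀ x : ZMod N, 1 / (N : ℝ) * F1 (ph x) ≤
        1 / (N : ℝ) ^ 2 * (u (ph x) * KN N l k (ph x)) + ε / N := by
      intro x
      rw [hF1]
      have h2 := KN_err (N := N) (l := l) (k := k) (ph x)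
      have h3 : |u (ph x) * (1 / (N : ℝ) * KN N l k (ph x) -
          (Real.cos (ph x) + l * Real.cos (k * ph x)))| ≤ M * ((1 + |l| * k) / N) := by
        rw [abs_mul]
        have := hM (ph x)
        gcongr
      have h4 := (abs_le.1 h3).1
      have h5 : M * ((1 + |l| * k) / N) = M * (1 + |l| * k) / N := by ring
      rw [h5] at h4
      have h6 : u (ph x) * (Real.cos (ph x) + l * Real.cos (k * ph x)) ≤
          u (ph x) * (1 / (N : ℝ) * KN N l k (ph x)) + ε := by linarith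
      have h7 := mul_le_mul_of_nonneg_left h6 (by positivity : 0 ≤ 1 / (N : ℝ))
      calc 1 / (N : ℝ) * (u (ph x) * (Real.cos (ph x) + l * Real.cos (k * ph x)))
          ≤ 1 / (N : ℝ) * (u (ph x) * (1 / (N : ℝ) * KN N l k (ph x)) + ε) := h7
        _ = _ := by
          field_simp
    rw [Finset.mul_sum, Finset.mul_sum]
    refine (Finset.sum_le_sum fun x _ => h1 x).trans ?_
    rw [Finset.sum_add_distrib, Finset.sum_const, Finset.card_univ, ZMod.card, nsmul_eq_mul]
    have : (N : ℝ) * (ε / N) = ε := by field_simp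
    rw [this]
  -- step B
  have sB : 1 / (N : ℝ) ^ 2 * (∑ x : ZMod N, u (ph x) * KN N l k (ph x)) ≤
      1 / (N : ℝ) * ∑ x : ZMod N, RR l k (pt N (m x)) *
        (1 / (2 * (N : ℝ)) * ∑ y, (u (ph x) - u (ph y)) * K0 x y) := by
    have h1 := mul_le_mul_of_nonneg_left hdm (by positivity : 0 ≤ 1 / (N : ℝ) ^ 2)
    refine h1.trans (le_of_eq ?_)
    rw [Finset.mul_sum, Finset.mul_sum, Finset.mul_sum]
    refine Finset.sum_congr rfl fun x _ => ?_
    field_simp
  -- step C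
  have sC : 1 / (N : ℝ) * (∑ x : ZMod N, RR l k (pt N (m x)) *
        (1 / (2 * (N : ℝ)) * ∑ y, (u (ph x) - u (ph y)) * K0 x y)) ≤
      1 / (N : ℝ) * (∑ x : ZMod N, F2 (ph x)) +
        ((1 + |l|) + 2 * ((1 + |l|) * Real.pi) * M') * ε := by
    have h1 : ∀ x : ZMod N, RR l k (pt N (m x)) *
        (1 / (2 * (N : ℝ)) * ∑ y, (u (ph x) - u (ph y)) * K0 x y) ≤
        F2 (ph x) + ((1 + |l|) + 2 * ((1 + |l|) * Real.pi) * M') * ε := by
      intro x
      have h2 := hC N x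
      simp only [← hu, ← hD] at h2
      have h3 : |RR l k (pt N (m x)) * (1 / (2 * (N : ℝ)) *
          (∑ y, (u (ph x) - u (ph y)) * K0 x y) - D (ph x))| ≤ (1 + |l|) * ε := by
        rw [abs_mul]
        have h4 := RR_abs (l := l) hk1 (pt N (m x))
        have h5 := h2.trans hn3
        gcongr
      have h4 : |pt N (m x) / Real.pi - SF u (u (ph x))| ≤ 2 * ε := by
        obtain ⟨h5, h6⟩ := hrk x
        have h7 : ε * e / e = ε := by field_simp
        rw [h7] at h5 h6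
        have h8 := hM (ph x)
        rw [abs_le] at h8
        have h9 := heS (u (ph x) + e) (u (ph x)) ⟨by linarith, by linarith⟩
          ⟨by linarith, by linarith⟩ (by rw [add_sub_cancel_left, abs_of_pos he0])
        have h10 := heS (u (ph x) - e) (u (ph x)) ⟨by linarith, by linarith⟩
          ⟨by linarith, by linarith⟩ (by
            have : u (ph x) - e - u (ph x) = -e := by ring
            rw [this, abs_neg, abs_of_pos he0])
        rw [abs_le] at h9 h10 ⊢
        constructor <;> linarith [h9.1, h9.2, h10.1, h10.2]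
      have h5 : |RR l k (pt N (m x)) - Ψ (u (ph x))| ≤ 2 * ((1 + |l|) * Real.pi) * ε := by
        rw [hΨ]
        refine (RR_lip hk1 _ _).trans ?_
        have h6 : pt N (m x) - Real.pi * SF u (u (ph x)) =
            Real.pi * (pt N (m x) / Real.pi - SF u (u (ph x))) := by
          field_simp
        rw [h6, abs_mul, abs_of_pos hpi]
        calc (1 + |l|) * (Real.pi * |pt N (m x) / Real.pi - SF u (u (ph x))|)
            ≤ (1 + |l|) * (Real.pi * (2 * ε)) := by gcongr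
          _ = _ := by ring
      have h6 : |(RR l k (pt N (m x)) - Ψ (u (ph x))) * D (ph x)| ≤
          2 * ((1 + |l|) * Real.pi) * ε * M' := by
        rw [abs_mul]
        have := hM' (ph x)
        gcongr
      have h7 := (abs_le.1 h3).2
      have h8 := (abs_le.1 h6).2
      rw [hF2]
      calc RR l k (pt N (m x)) * (1 / (2 * (N : ℝ)) * ∑ y, (u (ph x) - u (ph y)) * K0 x y)
          = RR l k (pt N (m x)) * (1 / (2 * (N : ℝ)) *
            (∑ y, (u (ph x) - u (ph y)) * K0 x y) - D (ph x)) +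
            (RR l k (pt N (m x)) - Ψ (u (ph x))) * D (ph x) + Ψ (u (ph x)) * D (ph x) := by ring
        _ ≤ (1 + |l|) * ε + 2 * ((1 + |l|) * Real.pi) * ε * M' + Ψ (u (ph x)) * D (ph x) := by
            linarith
        _ = _ := by ring
    have h2 := mul_le_mul_of_nonneg_left (Finset.sum_le_sum fun x (_ : x ∈ Finset.univ) => h1 x)
      (by positivity : 0 ≤ 1 / (N : ℝ))
    refine h2.trans (le_of_eq ?_)
    rw [Finset.sum_add_distrib, Finset.sum_const, Finset.card_univ, ZMod.card, nsmul_eq_mul, mul_add]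
    congr 1
    field_simp
  have t1 := (abs_le.1 r1).1
  have t2 := (abs_le.1 r2).2
  have t3 : Q * ε = 3 * ε + ((1 + |l|) + 2 * ((1 + |l|) * Real.pi) * M') * ε + ε := by
    rw [hQ]; ring
  rw [t3]
  linarith

theorem mlin_r {h : ℂ → ℂ} (hh : DifferentiableOn ℂ h (ball 0 1)) (hCI : CI h) {l : ℝ} {k : ℕ}
    (hk1 : 1 ≤ k) (hl : |l| * (k : ℝ) ^ 2 ≤ 1) {r : ℝ} (hr : r ∈ Ioo (0 : ℝ) 1) :
    (tc h 1).re * r + l * ((tc h k).re * r ^ k) ≤ 2 * (RR l k 0 - RR l k Real.pi) := by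
  have hpi := Real.pi_pos
  have hr' : r ∈ Ioo (-1 : ℝ) 1 := ⟨by linarith [hr.1], hr.2⟩
  have e1 := four_re hh hr le_rfl
  have ek := four_re hh hr hk1
  simp only [Nat.cast_one, one_mul, pow_one] at e1
  rcases flat hh hr with ⟨c, hc⟩ | hflat
  · have h0 : ∀ j : ℕ, 1 ≤ j → (tc h j).re * r ^ j = 0 := by
      intro j hj
      have h1 := four_re hh hr hj
      simp only [hc] at h1
      rw [intervalIntegral.integral_const_mul] at h1
      have h2 : ∫ θ in (0 : ℝ)..(2 * Real.pi), Real.cos (j * θ) = 0 := by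
        have hj0 : (j : ℝ) ≠ 0 := by
          have : (0 : ℝ) < j := by exact_mod_cast hj
          exact this.ne'
        have h3 : ∀ θ ∈ uIcc (0 : ℝ) (2 * Real.pi),
            HasDerivAt (fun θ : ℝ => Real.sin (j * θ) / j) (Real.cos (j * θ)) θ := by
          intro θ _
          have h4 : HasDerivAt (fun θ : ℝ => (j : ℝ) * θ) (j : ℝ) θ := by
            simpa using (hasDerivAt_id θ).const_mul (j : ℝ)
          refine ((h4.sin).div_const (j : ℝ)).congr_deriv ?_
          field_simp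
        rw [intervalIntegral.integral_eq_sub_of_hasDerivAt h3
          ((by fun_prop : Continuous fun θ : ℝ => Real.cos (j * θ)).intervalIntegrable _ _)]
        have h5 : (j : ℝ) * (2 * Real.pi) = ((2 * j : ℕ) : ℝ) * Real.pi := by push_cast; ring
        rw [h5, Real.sin_nat_mul_pi]
        simp
      rw [h2, mul_zero] at h1
      have h3 : Real.pi * ((tc h j).re * r ^ j) = 0 := by linarith
      exact (mul_eq_zero.1 h3).resolve_left hpi.ne'
    have h1 := h0 1 le_rfl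
    have h2 := h0 k hk1
    rw [pow_one] at h1
    rw [h1, h2, mul_zero, add_zero]
    have h3 := RR_anti hk1 hl ⟨le_rfl, hpi.le⟩ ⟨hpi.le, le_rfl⟩ hpi.le
    linarith
  · have h1 := core hh hCI hk1 hl hr hflat
    have h2 : ∫ θ in (0 : ℝ)..(2 * Real.pi),
        (h (zz r θ)).re * (Real.cos θ + l * Real.cos (k * θ)) =
        (∫ θ in (0 : ℝ)..(2 * Real.pi), (h (zz r θ)).re * Real.cos θ) +
        l * ∫ θ in (0 : ℝ)..(2 * Real.pi), (h (zz r θ)).re * Real.cos (k * θ) := by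
      have hu : Continuous fun θ : ℝ => (h (zz r θ)).re :=
        Complex.continuous_re.comp (slice_cont hh hh hr')
      rw [← intervalIntegral.integral_const_mul, ← intervalIntegral.integral_add]
      · refine intervalIntegral.integral_congr fun θ _ => ?_
        ring
      · exact (hu.mul Real.continuous_cos).intervalIntegrable _ _
      · exact (continuous_const.mul (hu.mul (by fun_prop :
          Continuous fun θ : ℝ => Real.cos (k * θ)))).intervalIntegrable _ _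
    rw [h2, e1, ek, one_div, inv_mul_le_iff₀ (by positivity)] at h1
    have h3 : Real.pi * ((tc h 1).re * r + l * ((tc h k).re * r ^ k)) ≤
        Real.pi * (2 * (RR l k 0 - RR l k Real.pi)) := by
      calc Real.pi * ((tc h 1).re * r + l * ((tc h k).re * r ^ k))
          = Real.pi * (tc h 1).re * r + l * (Real.pi * (tc h k).re * r ^ k) := by ring
        _ ≤ 2 * Real.pi * (RR l k 0 - RR l k Real.pi) := h1
        _ = _ := by ring
    exact le_of_mul_le_mul_left h3 hpi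

theorem mlin {h : ℂ → ℂ} (hh : DifferentiableOn ℂ h (ball 0 1)) (hCI : CI h) {l : ℝ} {k : ℕ}
    (hk1 : 1 ≤ k) (hl : |l| * (k : ℝ) ^ 2 ≤ 1) :
    (tc h 1).re + l * (tc h k).re ≤ 4 + 2 * l / k * (1 - (-1) ^ k) := by
  have hk0 : (0 : ℝ) < k := by exact_mod_cast hk1
  have h1 : Tendsto (fun r : ℝ => (tc h 1).re * r + l * ((tc h k).re * r ^ k)) (𝓝[<] 1)
      (𝓝 ((tc h 1).re * 1 + l * ((tc h k).re * 1 ^ k))) := by
    have : Continuous fun r : ℝ => (tc h 1).re * r + l * ((tc h k).re * r ^ k) := by fun_prop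
    exact (this.tendsto 1).mono_left nhdsWithin_le_nhds
  have h2 : ∀ᶠ r : ℝ in 𝓝[<] 1, (tc h 1).re * r + l * ((tc h k).re * r ^ k) ≤
      2 * (RR l k 0 - RR l k Real.pi) := by
    filter_upwards [Ioo_mem_nhdsLT (show (0 : ℝ) < 1 by norm_num)] with r hr
    exact mlin_r hh hCI hk1 hl hr
  have h3 := le_of_tendsto h1 h2
  have h4 : 2 * (RR l k 0 - RR l k Real.pi) = 4 + 2 * l / k * (1 - (-1) ^ k) := by
    unfold RR
    rw [Real.cos_zero, Real.cos_pi, mul_zero, Real.cos_zero, Real.cos_nat_mul_pi]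
    ring
  rw [h4] at h3
  simpa using h3

end Pool.Agent.Helper854_CM.DR
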