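import Mathlib
import Pool.Agent.Helper854_CM.Mlin2
import Pool.Agent.Helper854_CM.Cm

/-!
From circumferentially mean `p`-valent functions to the class `CI`; rotations.
-/

set_option autoImplicit false

open MeasureTheory Filter Topology Complex Set Metric
open scoped ENNReal

noncomputable section

namespace Pool.Agent.Helper854_CM

open DR

/-- the area condition of circumferentially mean `p`-valent functions -/
def AC (p : ℝ) (F : ℂ → ℂ) : Prop := ∀ w : ℝ → ℝ, Measurable w →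
  ∫⁻ z in ball (0 : ℂ) 1, ENNReal.ofReal (w ‖F z‖) * ENNReal.ofReal (‖deriv F z‖ ^ 2) ≤
    ENNReal.ofReal (2 * Real.pi * p) * ∫⁻ R in Ioi (0 : ℝ), ENNReal.ofReal (w R) * ENNReal.ofReal R

theorem ac_comp {p : ℝ} {F φ : ℂ → ℂ} (hF : DifferentiableOn ℂ F (ball 0 1))
    (hN : ∀ R : ℝ, 0 < R →
      ∫⁻ φ in Ioc (0 : ℝ) (2 * Real.pi), val F ((R : ℂ) * cexp ((φ : ℂ) * I)) ≤
        ENNReal.ofReal (2 * Real.pi * p)) (hφ : DifferentiableOn ℂ φ (ball 0 1))
    (hm : MapsTo φ (ball (0 : ℂ) 1) (ball (0 : ℂ) 1)) (hi : InjOn φ (ball (0 : ℂ) 1)) :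
    AC p (fun z => F (φ z)) := by
  intro w hw
  refine (area_val (F := fun z => F (φ z)) (hF.comp hφ hm) hw).trans ?_
  refine le_trans (lintegral_mono fun ζ => ?_) (polar_le hN hw)
  exact mul_le_mul' le_rfl (val_comp_inj hm hi ζ)

theorem ac_self {p : ℝ} {F : ℂ → ℂ} (hF : DifferentiableOn ℂ F (ball 0 1))
    (hN : ∀ R : ℝ, 0 < R →
      ∫⁻ φ in Ioc (0 : ℝ) (2 * Real.pi), val F ((R : ℂ) * cexp ((φ : ℂ) * I)) ≤
        ENNReal.ofReal (2 * Real.pi * p)) : AC p F :=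
  ac_comp (φ := fun z => z) hF hN differentiableOn_id (fun z hz => hz) (fun x _ y _ h => h)

/-- the Bloch type bound for circumferentially mean `p`-valent nonvanishing functions -/
theorem bloch_cm {p : ℝ} (hp : 0 < p) {F : ℂ → ℂ} (hF : DifferentiableOn ℂ F (ball 0 1))
    (hne : ∀ z ∈ ball (0 : ℂ) 1, F z ≠ 0)
    (hN : ∀ R : ℝ, 0 < R →
      ∫⁻ φ in Ioc (0 : ℝ) (2 * Real.pi), val F ((R : ℂ) * cexp ((φ : ℂ) * I)) ≤
        ENNReal.ofReal (2 * Real.pi * p)) {a : ℂ} (ha : ‖a‖ < 1) :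
    (1 - ‖a‖ ^ 2) * ‖deriv F a‖ ≤ 4 * p * ‖F a‖ := by
  have hd : DifferentiableOn ℂ (fun z => F (mob a z)) (ball 0 1) :=
    hF.comp (mob_diff ha) (mob_mem ha)
  have h := one_bound hp hd (fun z hz => hne _ (mob_mem ha hz))
    (ac_comp hF hN (mob_diff ha) (mob_mem ha) (mob_inj ha))
  simp only [mob_zero] at h
  have haF : HasDerivAt F (deriv F a) (mob a 0) := by
    rw [mob_zero]
    exact (hF.differentiableAt (isOpen_ball.mem_nhds (by simpa using ha))).hasDerivAt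
  have hc : HasDerivAt (fun z => F (mob a z)) (deriv F a * ((1 - ‖a‖ ^ 2 : ℝ) : ℂ)) 0 :=
    haF.comp 0 (mob_deriv a)
  rw [hc.deriv, norm_mul, Complex.norm_real, Real.norm_of_nonneg
    (by have := norm_nonneg a; nlinarith)] at h
  linarith

theorem CI_of_AC {p : ℝ} (hp : 0 < p) {f h : ℂ → ℂ}
    (hne : ∀ z ∈ ball (0 : ℂ) 1, f z ≠ 0)
    (hd : ∀ z ∈ ball (0 : ℂ) 1, HasDerivAt h (((1 / p : ℝ) : ℂ) * (deriv f z / f z)) z)
    (hh : ∀ z ∈ ball (0 : ℂ) 1, f z = f 0 * cexp ((p : ℂ) * h z)) (hA : AC p f) : CI h := by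
  intro ψ hψ hψ0
  have hpi := Real.pi_pos
  have h0mem : (0 : ℂ) ∈ ball (0 : ℂ) 1 := mem_ball_self one_pos
  have hc : 0 < ‖f 0‖ := norm_pos_iff.2 (hne 0 h0mem)
  obtain ⟨w, hw⟩ : ∃ w : ℝ → ℝ, ∀ R, w R = ψ (Real.log (R / ‖f 0‖) / p) / (p ^ 2 * R ^ 2) :=
    ⟨_, fun R => rfl⟩
  have hwm : Measurable w := by
    have : w = fun R => ψ (Real.log (R / ‖f 0‖) / p) / (p ^ 2 * R ^ 2) := funext hw
    rw [this]
    fun_prop
  have hfn : ∀ z ∈ ball (0 : ℂ) 1, ‖f z‖ = ‖f 0‖ * Real.exp (p * (h z).re) := by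
    intro z hz
    rw [hh z hz, norm_mul, Complex.norm_exp, Complex.re_ofReal_mul]
  have hpt : ∀ z ∈ ball (0 : ℂ) 1, ENNReal.ofReal (ψ (h z).re) * ENNReal.ofReal (‖deriv h z‖ ^ 2) =
      ENNReal.ofReal (w ‖f z‖) * ENNReal.ofReal (‖deriv f z‖ ^ 2) := by
    intro z hz
    rw [← ENNReal.ofReal_mul' (by positivity), ← ENNReal.ofReal_mul' (by positivity)]
    congr 1
    have hfz : 0 < ‖f z‖ := norm_pos_iff.2 (hne z hz)
    have e1 : Real.log (‖f z‖ / ‖f 0‖) / p = (h z).re := by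
      rw [hfn z hz, mul_div_cancel_left₀ _ hc.ne', Real.log_exp]
      field_simp
    rw [hw, e1, (hd z hz).deriv, norm_mul, norm_div, Complex.norm_real,
      Real.norm_of_nonneg (by positivity)]
    field_simp
  rw [setLIntegral_congr_fun measurableSet_ball hpt]
  refine (hA w hwm).trans (le_of_eq ?_)
  -- change of variables
  obtain ⟨g, hg⟩ : ∃ g : ℝ → ℝ, ∀ x, g x = ‖f 0‖ * Real.exp (p * x) := ⟨_, fun x => rfl⟩
  have hgd : ∀ x ∈ (univ : Set ℝ), HasDerivWithinAt g (p * g x) univ x := by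
    intro x _
    have h1 : HasDerivAt (fun x : ℝ => p * x) p x := by
      simpa using (hasDerivAt_id x).const_mul p
    have h2 := (h1.exp).const_mul ‖f 0‖
    rw [funext hg]
    refine (h2.congr_deriv ?_).hasDerivWithinAt
    simp only
    ring
  have hginj : InjOn g univ := by
    intro x _ y _ hxy
    rw [hg, hg] at hxy
    have h1 := mul_left_cancel₀ hc.ne' hxy
    have h2 := Real.exp_injective h1
    exact mul_left_cancel₀ hp.ne' h2
  have hgi : g '' univ = Ioi 0 := by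
    ext R
    constructor
    · rintro ⟨x, -, rfl⟩
      rw [hg]
      exact mul_pos hc (Real.exp_pos _)
    · intro hR
      have hR0 : 0 < R := hR
      refine ⟨Real.log (R / ‖f 0‖) / p, mem_univ _, ?_⟩
      rw [hg, mul_div_cancel₀ _ hp.ne', Real.exp_log (div_pos hR0 hc)]
      field_simp
  have hcv := lintegral_image_eq_lintegral_abs_deriv_mul MeasurableSet.univ hgd hginj
    (fun R => ENNReal.ofReal (w R) * ENNReal.ofReal R)
  rw [hgi] at hcv
  rw [hcv, Measure.restrict_univ]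
  have hpt2 : ∀ x : ℝ, ENNReal.ofReal |p * g x| * (ENNReal.ofReal (w (g x)) * ENNReal.ofReal (g x)) =
      ENNReal.ofReal (1 / p) * ENNReal.ofReal (ψ x) := by
    intro x
    have hgx : 0 < g x := by rw [hg]; exact mul_pos hc (Real.exp_pos _)
    have hwx : w (g x) = ψ x / (p ^ 2 * g x ^ 2) := by
      rw [hw]
      congr 2
      rw [hg, mul_div_cancel_left₀ _ hc.ne', Real.log_exp]
      field_simp
    rw [abs_of_pos (by positivity), hwx, ← ENNReal.ofReal_mul' hgx.le,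
      ← ENNReal.ofReal_mul (by positivity), ← ENNReal.ofReal_mul (by positivity)]
    congr 1
    field_simp
  simp only [hpt2]
  rw [lintegral_const_mul _ (by fun_prop), ← mul_assoc, ← ENNReal.ofReal_mul (by positivity)]
  congr 2
  field_simp

theorem tc_rot (c : ℂ) (h : ℂ → ℂ) (m : ℕ) : tc (fun z => h (c * z)) m = c ^ m * tc h m := by
  have h1 : ∀ (m : ℕ) (g : ℂ → ℂ), iteratedDeriv m (fun z => g (c * z)) 0 =
      c ^ m * iteratedDeriv m g 0 := by
    intro m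
    induction m with
    | zero => intro g; simp
    | succ m ih =>
      intro g
      rw [iteratedDeriv_succ', iteratedDeriv_succ']
      have h2 : deriv (fun z => g (c * z)) = fun z => c * deriv g (c * z) := by
        funext z
        rw [deriv_comp_mul_left, smul_eq_mul]
      rw [h2, iteratedDeriv_const_mul_field, ih (deriv g)]
      ring
  unfold tc
  rw [h1]
  ring

theorem diff_rot {c : ℂ} (hc : ‖c‖ = 1) {h : ℂ → ℂ} (hh : DifferentiableOn ℂ h (ball 0 1)) :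
    DifferentiableOn ℂ (fun z => h (c * z)) (ball 0 1) := by
  refine hh.comp (by fun_prop) fun z hz => ?_
  simpa [norm_mul, hc] using hz

theorem CI_rot {c : ℂ} (hc : ‖c‖ = 1) {h : ℂ → ℂ} (hCI : CI h) : CI (fun z => h (c * z)) := by
  intro ψ hψ hψ0
  refine le_trans (le_of_eq ?_) (hCI ψ hψ hψ0)
  have hcm : c ∈ Submonoid.unitSphere ℂ := by
    rw [← SetLike.mem_coe, Submonoid.coe_unitSphere]
    simpa using hc
  obtain ⟨v, hv⟩ : ∃ v : Circle, (v : ℂ) = c := ⟨⟨c, hcm⟩, rfl⟩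
  obtain ⟨e, he⟩ : ∃ e : ℂ ≃ₗᵢ[ℝ] ℂ, ∀ z, e z = c * z :=
    ⟨rotation v, fun z => by rw [rotation_apply, hv]⟩
  have hmp := e.measurePreserving
  have hme : MeasurableEmbedding e := e.toHomeomorph.measurableEmbedding
  have hpre : e ⁻¹' (ball (0 : ℂ) 1) = ball 0 1 := by
    ext z
    simp [he, hc]
  have h1 := hmp.setLIntegral_comp_preimage_emb hme
    (fun z => ENNReal.ofReal (ψ (h z).re) * ENNReal.ofReal (‖deriv h z‖ ^ 2)) (ball 0 1)
  rw [hpre] at h1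
  rw [← h1]
  refine lintegral_congr fun z => ?_
  rw [deriv_comp_mul_left, smul_eq_mul, norm_mul, hc, one_mul, he]

/-- the rotated linear inequality -/
theorem lin_rot {h : ℂ → ℂ} (hh : DifferentiableOn ℂ h (ball 0 1)) (hCI : CI h) {l : ℝ} {k : ℕ}
    (hk1 : 1 ≤ k) (hl : |l| * (k : ℝ) ^ 2 ≤ 1) {c : ℂ} (hc : ‖c‖ = 1) :
    (c * tc h 1).re + l * (c ^ k * tc h k).re ≤ 4 + 2 * l / k * (1 - (-1) ^ k) := by
  have := mlin (diff_rot hc hh) (CI_rot hc hCI) hk1 hl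
  rwa [tc_rot, tc_rot, pow_one] at this

theorem boundX {h : ℂ → ℂ} (hh : DifferentiableOn ℂ h (ball 0 1)) (hCI : CI h) {δ : ℝ}
    (h1 : tc h 1 = ((4 - δ : ℝ) : ℂ)) {k : ℕ} (hk1 : 1 ≤ k) :
    |(tc h k).re - 2 / k * (1 - (-1) ^ k)| ≤ (k : ℝ) ^ 2 * δ := by
  have hk0 : (0 : ℝ) < k := by exact_mod_cast hk1
  have a1 := lin_rot hh hCI (l := 1 / (k : ℝ) ^ 2) hk1 (by
    rw [abs_of_pos (by positivity)]
    have : (k : ℝ) ^ 2 ≠ 0 := by positivity
    field_simp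
    exact le_rfl) (c := 1) (by simp)
  have a2 := lin_rot hh hCI (l := -(1 / (k : ℝ) ^ 2)) hk1 (by
    rw [abs_neg, abs_of_pos (by positivity)]
    have : (k : ℝ) ^ 2 ≠ 0 := by positivity
    field_simp
    exact le_rfl) (c := 1) (by simp)
  rw [h1, one_mul, one_pow, one_mul, Complex.ofReal_re] at a1 a2
  have b1 : 1 / (k : ℝ) ^ 2 * ((tc h k).re - 2 / k * (1 - (-1) ^ k)) ≤ δ := by
    have : 1 / (k : ℝ) ^ 2 * ((tc h k).re - 2 / k * (1 - (-1) ^ k)) =
      1 / (k : ℝ) ^ 2 * (tc h k).re - 2 * (1 / (k : ℝ) ^ 2) / k * (1 - (-1) ^ k) := by ring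
    linarith
  have b2 : 1 / (k : ℝ) ^ 2 * -((tc h k).re - 2 / k * (1 - (-1) ^ k)) ≤ δ := by
    have : 1 / (k : ℝ) ^ 2 * -((tc h k).re - 2 / k * (1 - (-1) ^ k)) =
      -(1 / (k : ℝ) ^ 2) * (tc h k).re - 2 * (-(1 / (k : ℝ) ^ 2)) / k * (1 - (-1) ^ k) := by ring
    linarith
  have hk2 : (0 : ℝ) < (k : ℝ) ^ 2 := by positivity
  rw [one_div, inv_mul_le_iff₀ hk2] at b1 b2
  rw [abs_le]
  constructor <;> linarith

theorem boundY {h : ℂ → ℂ} (hh : DifferentiableOn ℂ h (ball 0 1)) (hCI : CI h) {δ : ℝ}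
    (hδ0 : 0 ≤ δ) (h1 : tc h 1 = ((4 - δ : ℝ) : ℂ)) {k : ℕ} (hk1 : 1 ≤ k) (s : ℝ) :
    |(tc h k).im * Real.sin s| ≤ 2 * s ^ 2 + (k : ℝ) ^ 2 * δ := by
  have hk0 : (0 : ℝ) < k := by exact_mod_cast hk1
  have hk2 : (0 : ℝ) < (k : ℝ) ^ 2 := by positivity
  obtain ⟨X, hX⟩ : ∃ X : ℝ, X = 2 / k * (1 - (-1) ^ k) := ⟨_, rfl⟩
  -- the general rotated inequality
  have gen : ∀ σ t : ℝ, |σ| = 1 → σ * ((tc h k).re * Real.cos (k * t) -
      (tc h k).im * Real.sin (k * t)) ≤ 2 * (k * t) ^ 2 + (k : ℝ) ^ 2 * δ + σ * X := by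
    intro σ t hσ
    have a1 := lin_rot hh hCI (l := σ / (k : ℝ) ^ 2) hk1 (by
      rw [abs_div, hσ, abs_of_pos hk2]
      field_simp
      exact le_rfl) (c := cexp ((t : ℂ) * I)) (Complex.norm_exp_ofReal_mul_I t)
    have e1 : (cexp ((t : ℂ) * I) * tc h 1).re = (4 - δ) * Real.cos t := by
      rw [h1, mul_comm, Complex.re_ofReal_mul, Complex.exp_ofReal_mul_I_re]
    have e2 : (cexp ((t : ℂ) * I) ^ k * tc h k).re =
        (tc h k).re * Real.cos (k * t) - (tc h k).im * Real.sin (k * t) := by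
      rw [← Complex.exp_nat_mul]
      have : (k : ℂ) * ((t : ℂ) * I) = ((k * t : ℝ) : ℂ) * I := by push_cast; ring
      rw [this, Complex.mul_re, Complex.exp_ofReal_mul_I_re, Complex.exp_ofReal_mul_I_im]
      ring
    rw [e1, e2] at a1
    have hcos := Real.one_sub_sq_div_two_le_cos (x := t)
    have hcos1 := Real.cos_le_one t
    have e3 : 2 * (σ / (k : ℝ) ^ 2) / k * (1 - (-1) ^ k) = σ / (k : ℝ) ^ 2 * X := by
      rw [hX]; ring
    rw [e3] at a1
    have e4 : 4 - (4 - δ) * Real.cos t ≤ 2 * t ^ 2 + δ := by nlinarith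
    have e5 : σ / (k : ℝ) ^ 2 * ((tc h k).re * Real.cos (k * t) -
      (tc h k).im * Real.sin (k * t)) ≤ 2 * t ^ 2 + δ + σ / (k : ℝ) ^ 2 * X := by linarith
    have e6 := mul_le_mul_of_nonneg_left e5 hk2.le
    calc σ * ((tc h k).re * Real.cos (k * t) - (tc h k).im * Real.sin (k * t))
        = (k : ℝ) ^ 2 * (σ / (k : ℝ) ^ 2 * ((tc h k).re * Real.cos (k * t) -
          (tc h k).im * Real.sin (k * t))) := by field_simp
      _ ≤ (k : ℝ) ^ 2 * (2 * t ^ 2 + δ + σ / (k : ℝ) ^ 2 * X) := e6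
      _ = _ := by field_simp
  have hks : (k : ℝ) * (s / k) = s := by field_simp
  have hks' : (k : ℝ) * (-(s / k)) = -s := by field_simp
  have g1 := gen 1 (s / k) (by simp)
  have g2 := gen (-1) (s / k) (by simp)
  have g3 := gen 1 (-(s / k)) (by simp)
  have g4 := gen (-1) (-(s / k)) (by simp)
  rw [hks] at g1 g2
  rw [hks', Real.sin_neg, Real.cos_neg] at g3 g4
  rw [abs_le]
  constructor <;> nlinarith

end Pool.Agent.Helper854_CM
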