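import Mathlib
import Pool.Agent.Helper854_CM.Lin
import Pool.Agent.Helper854_CM.FD2
import Pool.Agent.Helper854_CM.Crit

/-!
The coefficient inequality for `p ≥ 8 n`.
-/

set_option autoImplicit false

open MeasureTheory Filter Topology Complex Set Metric
open scoped ENNReal

noncomputable section

namespace Pool.Agent.Helper854_CM

open DR

theorem tc_mul {u v : ℂ → ℂ} (hu : AnalyticAt ℂ u 0) (hv : AnalyticAt ℂ v 0) (j : ℕ) :
    tc (u * v) j = ∑ m ∈ Finset.range (j + 1), tc u m * tc v (j - m) := by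
  unfold tc
  rw [iteratedDeriv_mul hu.contDiffAt hv.contDiffAt, Finset.mul_sum]
  refine Finset.sum_congr rfl fun m hm => ?_
  rw [Finset.mem_range] at hm
  have h1 : ((j.choose m : ℕ) : ℂ) * ((m.factorial : ℕ) : ℂ) * (((j - m).factorial : ℕ) : ℂ) =
      ((j.factorial : ℕ) : ℂ) := by
    exact_mod_cast Nat.choose_mul_factorial_mul_factorial (by omega : m ≤ j)
  have h2 : ((m.factorial : ℕ) : ℂ) ≠ 0 := by exact_mod_cast m.factorial_ne_zero
  have h3 : (((j - m).factorial : ℕ) : ℂ) ≠ 0 := by exact_mod_cast (j - m).factorial_ne_zero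
  have h4 : ((j.factorial : ℕ) : ℂ) ≠ 0 := by exact_mod_cast j.factorial_ne_zero
  field_simp
  rw [← h1]
  ring

theorem tc_congr {u v : ℂ → ℂ} (h : u =ᶠ[𝓝 0] v) (j : ℕ) : tc u j = tc v j := by
  unfold tc
  rw [h.iteratedDeriv_eq]

theorem tc_const_mul (c : ℂ) (u : ℂ → ℂ) (j : ℕ) : tc (fun z => c * u z) j = c * tc u j := by
  unfold tc
  rw [iteratedDeriv_const_mul_field]
  ring

/-- the full recursion for the extremal coefficients -/
theorem cc_rec (p : ℝ) (j : ℕ) : ((j : ℝ) + 1) * cc p (j + 1) =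
    p * ∑ m ∈ Finset.range (j + 1), (2 * (1 + (-1) ^ m)) * cc p (j - m) := by
  induction j using Nat.strong_induction_on with
  | _ j ih =>
    match j with
    | 0 => simp [cc]; ring
    | 1 =>
      rw [Finset.sum_range_succ, Finset.sum_range_succ, Finset.sum_range_zero]
      simp [cc]
      ring
    | (k + 2) =>
      rw [Finset.sum_range_succ', Finset.sum_range_succ']
      have h1 := ih k (by omega)
      have h2 : ∑ m ∈ Finset.range (k + 1), (2 * (1 + (-1 : ℝ) ^ (m + 1 + 1))) *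
          cc p (k + 2 - (m + 1 + 1)) =
          ∑ m ∈ Finset.range (k + 1), (2 * (1 + (-1 : ℝ) ^ m)) * cc p (k - m) := by
        refine Finset.sum_congr rfl fun m _ => ?_
        have e1 : k + 2 - (m + 1 + 1) = k - m := by omega
        have e2 : (-1 : ℝ) ^ (m + 1 + 1) = (-1) ^ m := by rw [pow_succ, pow_succ]; ring
        rw [e1, e2]
      rw [h2]
      have h3 : cc p (k + 3) = (4 * p * cc p (k + 2) + ((k + 1 : ℕ) : ℝ) * cc p (k + 1)) /
          (((k + 1 : ℕ) : ℝ) + 2) := by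
        rw [cc]
      have h4 : (((k + 2 : ℕ) : ℝ) + 1) * cc p (k + 2 + 1) =
          4 * p * cc p (k + 2) + ((k : ℝ) + 1) * cc p (k + 1) := by
        rw [show k + 2 + 1 = k + 3 from rfl, h3]
        push_cast
        have : (k : ℝ) + 1 + 2 ≠ 0 := by positivity
        field_simp
        ring
      rw [h4, h1]
      simp
      ring

theorem pow_bd (m : ℕ) (hm : 1 ≤ m) : ((m : ℝ) + 1) ≤ 5 / 4 * (7 / 4) ^ m := by
  induction m, hm using Nat.le_induction with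
  | base => norm_num
  | succ m hm ih =>
    have h1 : (1 : ℝ) ≤ m := by exact_mod_cast hm
    push_cast
    rw [pow_succ]
    nlinarith

/-- the bound for the imaginary parts -/
theorem im_bd {y δ τ : ℝ} (hτ : 0 ≤ τ) (hδ : δ = τ ^ 2) {m : ℕ} (hm : 1 ≤ m)
    (hs : ∀ s : ℝ, |y * Real.sin s| ≤ 2 * s ^ 2 + ((m : ℝ) + 1) ^ 2 * δ)
    (hb : ((m : ℝ) + 1) * |y| ≤ 6 * (7 / 4) ^ m) :
    ((m : ℝ) + 1) * |y| ≤ 17 / 4 * ((m : ℝ) + 1) * (7 / 4) ^ m * τ := by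
  have hm1 : (0 : ℝ) < (m : ℝ) + 1 := by positivity
  have hsin : ∀ s : ℝ, 0 ≤ s → s ≤ 1 → 5 / 6 * s ≤ Real.sin s := by
    intro s h0 h1
    have h2 := Real.sin_ge_sub_cube h0
    have h3 : s ^ 3 ≤ s := by
      have : s * (1 - s ^ 2) ≥ 0 := mul_nonneg h0 (by nlinarith)
      nlinarith
    linarith
  rcases hτ.eq_or_lt with h0 | h0
  · -- `τ = 0`
    have hδ0 : δ = 0 := by rw [hδ, ← h0]; ring
    have hy : y = 0 := by
      by_contra hne
      have hy0 : 0 < |y| := abs_pos.2 hne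
      obtain ⟨s, hs'⟩ : ∃ s : ℝ, s = min 1 (|y| / 3) := ⟨_, rfl⟩
      have s0 : 0 < s := by rw [hs']; positivity
      have s1 : s ≤ 1 := by rw [hs']; exact min_le_left _ _
      have s2 : s ≤ |y| / 3 := by rw [hs']; exact min_le_right _ _
      have h1 := hs s
      have h2 := hsin s s0.le s1
      rw [hδ0, mul_zero, add_zero, abs_mul, abs_of_nonneg (by linarith : 0 ≤ Real.sin s)] at h1
      have h3 : |y| * (5 / 6 * s) ≤ 2 * s ^ 2 := le_trans (by gcongr) h1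
      have h4 : s * (|y| * (5 / 6)) ≤ s * (2 * s) := by linarith
      have h5 := le_of_mul_le_mul_left h4 s0
      linarith
    rw [hy, ← h0]
    simp
  · obtain ⟨s, hs'⟩ : ∃ s : ℝ, s = 7 / 10 * (((m : ℝ) + 1) * τ) := ⟨_, rfl⟩
    have s0 : 0 < s := by rw [hs']; positivity
    have hpow : (0 : ℝ) < (7 / 4) ^ m := by positivity
    rcases le_or_gt s 1 with s1 | s1
    · have h1 := hs s
      have h2 := hsin s s0.le s1
      rw [abs_mul, abs_of_nonneg (by linarith : 0 ≤ Real.sin s)] at h1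
      have h3 : |y| * (5 / 6 * s) ≤ 2 * s ^ 2 + ((m : ℝ) + 1) ^ 2 * δ := le_trans (by gcongr) h1
      have h4 : (((m : ℝ) + 1) * τ) * (|y| * (7 / 12)) ≤
          (((m : ℝ) + 1) * τ) * (99 / 50 * (((m : ℝ) + 1) * τ)) := by
        rw [hs', hδ] at h3
        nlinarith
      have h5 := le_of_mul_le_mul_left h4 (by positivity)
      have h6 := pow_bd m hm
      have h7 : |y| ≤ 1188 / 350 * (((m : ℝ) + 1) * τ) := by linarith
      have h8 : ((m : ℝ) + 1) * τ ≤ 5 / 4 * (7 / 4) ^ m * τ := by gcongr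
      have h9 : |y| ≤ 17 / 4 * (7 / 4) ^ m * τ := by nlinarith
      calc ((m : ℝ) + 1) * |y| ≤ ((m : ℝ) + 1) * (17 / 4 * (7 / 4) ^ m * τ) := by gcongr
        _ = _ := by ring
    · have h1 : 1 < 7 / 10 * (((m : ℝ) + 1) * τ) := by rw [← hs']; exact s1
      have h2 : (6 * (7 / 4 : ℝ) ^ m) * 1 ≤ (6 * (7 / 4) ^ m) * (7 / 10 * (((m : ℝ) + 1) * τ)) := by
        gcongr
      have h3 : 0 ≤ (7 / 4 : ℝ) ^ m * (((m : ℝ) + 1) * τ) := by positivity
      calc ((m : ℝ) + 1) * |y| ≤ 6 * (7 / 4) ^ m := hb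
        _ = (6 * (7 / 4 : ℝ) ^ m) * 1 := by ring
        _ ≤ (6 * (7 / 4) ^ m) * (7 / 10 * (((m : ℝ) + 1) * τ)) := h2
        _ ≤ 17 / 4 * ((m : ℝ) + 1) * (7 / 4) ^ m * τ := by nlinarith

/-- the main theorem for functions in exponential form -/
theorem main_h {p : ℝ} (hp : 0 < p) {h : ℂ → ℂ} (hh : DifferentiableOn ℂ h (ball 0 1))
    (hh0 : h 0 = 0) (hCI : CI h) (hbl : ∀ z ∈ ball (0 : ℂ) 1, (1 - ‖z‖ ^ 2) * ‖deriv h z‖ ≤ 4)
    {n : ℕ} (hn : 8 * (n : ℝ) ≤ p) :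
    ‖tc (fun z => cexp ((p : ℂ) * h z)) n‖ ≤ cc p n := by
  have h0mem : (0 : ℂ) ∈ ball (0 : ℂ) 1 := mem_ball_self one_pos
  -- bounds for the coefficients
  have hcoef : ∀ m : ℕ, ‖((m : ℂ) + 1) * tc h (m + 1)‖ ≤ 6 * (7 / 4) ^ m := by
    intro m
    rw [← tc_deriv]
    have hd : DifferentiableOn ℂ (deriv h) (ball 0 1) := hh.deriv isOpen_ball
    have hsub : closedBall (0 : ℂ) (4 / 7) ⊆ ball 0 1 := closedBall_subset_ball (by norm_num)
    have hdc : DiffContOnCl ℂ (deriv h) (ball (0 : ℂ) (4 / 7)) :=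
      (hd.mono hsub).diffContOnCl_ball subset_rfl
    have hbd : ∀ z ∈ sphere (0 : ℂ) (4 / 7), ‖deriv h z‖ ≤ 6 := by
      intro z hz
      have hz1 : ‖z‖ = 4 / 7 := by simpa using hz
      have := hbl z (by simp [hz1]; norm_num)
      rw [hz1] at this
      linarith
    have hC := Complex.norm_iteratedDeriv_le_of_forall_mem_sphere_norm_le m (by norm_num) hdc hbd
    unfold tc
    rw [norm_mul, norm_inv, Complex.norm_natCast]
    have hf : (0 : ℝ) < (m.factorial : ℝ) := by positivity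
    rw [inv_mul_le_iff₀ hf]
    refine hC.trans (le_of_eq ?_)
    have : ((4 / 7 : ℝ) ^ m) * (7 / 4) ^ m = 1 := by rw [← mul_pow]; norm_num
    have h47 : ((4 / 7 : ℝ) ^ m) ≠ 0 := by positivity
    rw [div_eq_iff h47]
    linear_combination (-(m.factorial : ℝ) * 6) * this
  have hone : ‖tc h 1‖ ≤ 4 := by
    have h1 := hbl 0 h0mem
    have h2 : tc h 1 = deriv h 0 := by simp [tc]
    rw [h2]
    simpa using h1
  -- rotation
  obtain ⟨c, hc, hcr⟩ : ∃ c : ℂ, ‖c‖ = 1 ∧ c * tc h 1 = (‖tc h 1‖ : ℂ) := by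
    rcases eq_or_ne (tc h 1) 0 with h0 | h0
    · exact ⟨1, by simp, by simp [h0]⟩
    · have hn0 : (‖tc h 1‖ : ℂ) ≠ 0 := by
        rw [Complex.ofReal_ne_zero]
        exact norm_ne_zero_iff.2 h0
      refine ⟨(‖tc h 1‖ : ℂ) / tc h 1, ?_, ?_⟩
      · rw [norm_div, Complex.norm_real, norm_norm, div_self (norm_ne_zero_iff.2 h0)]
      · field_simp
  obtain ⟨g, hg⟩ : ∃ g : ℂ → ℂ, g = fun z => h (c * z) := ⟨_, rfl⟩
  have hgd : DifferentiableOn ℂ g (ball 0 1) := by rw [hg]; exact diff_rot hc hh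
  have hgCI : CI g := by rw [hg]; exact CI_rot hc hCI
  have hgt : ∀ m, tc g m = c ^ m * tc h m := fun m => by rw [hg]; exact tc_rot c h m
  obtain ⟨δ, hδ⟩ : ∃ δ : ℝ, δ = 4 - ‖tc h 1‖ := ⟨_, rfl⟩
  have hδ0 : 0 ≤ δ := by rw [hδ]; linarith
  have hδ4 : δ ≤ 4 := by rw [hδ]; linarith [norm_nonneg (tc h 1)]
  have hg1 : tc g 1 = ((4 - δ : ℝ) : ℂ) := by
    rw [hgt, pow_one, hcr, hδ]
    push_cast
    ring
  -- the sequences
  obtain ⟨H, hH⟩ : ∃ H : ℕ → ℂ, ∀ m : ℕ, H m = ((m : ℂ) + 1) * tc g (m + 1) := ⟨_, fun m => rfl⟩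
  obtain ⟨H0, hH0⟩ : ∃ H0 : ℕ → ℝ, ∀ m : ℕ, H0 m = 2 * (1 + (-1) ^ m) := ⟨_, fun m => rfl⟩
  obtain ⟨a, ha⟩ : ∃ a : ℕ → ℂ, ∀ j, a j = tc (fun z => cexp ((p : ℂ) * g z)) j :=
    ⟨_, fun m => rfl⟩
  have hg0 : g 0 = 0 := by rw [hg]; simp [hh0]
  have ha0 : a 0 = 1 := by rw [ha]; simp [tc, hg0]
  have hHH0 : H 0 = ((4 - δ : ℝ) : ℂ) := by
    rw [hH, Nat.cast_zero, zero_add, zero_add, one_mul, hg1]
  have hH00 : H0 0 = 4 := by rw [hH0]; norm_num
  have hH0m : ∀ m, 0 ≤ H0 m ∧ H0 m ≤ 4 := by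
    intro m
    rw [hH0]
    rcases neg_one_pow_eq_or ℝ m with h | h <;> rw [h] <;> norm_num
  have hB : ∀ m, 1 ≤ m → ‖H m‖ ≤ 6 * (7 / 4) ^ m := by
    intro m _
    rw [hH, hgt]
    have : ((m : ℂ) + 1) * (c ^ (m + 1) * tc h (m + 1)) =
        c ^ (m + 1) * (((m : ℂ) + 1) * tc h (m + 1)) := by ring
    rw [this, norm_mul, norm_pow, hc, one_pow, one_mul]
    exact hcoef m
  have hreal : ∀ m : ℕ, ((m : ℂ) + 1) = (((m : ℝ) + 1 : ℝ) : ℂ) := fun m => by push_cast; ring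
  have hX : ∀ m : ℕ, 1 ≤ m → |(H m).re - H0 m| ≤ ((m : ℝ) + 1) ^ 3 * δ := by
    intro m _
    have h1 := boundX hgd hgCI hg1 (k := m + 1) (by omega)
    have hm1 : (0 : ℝ) < (m : ℝ) + 1 := by positivity
    rw [hH, hreal, Complex.re_ofReal_mul, hH0]
    have h2 : ((m : ℝ) + 1) * (tc g (m + 1)).re - 2 * (1 + (-1) ^ m) =
        ((m : ℝ) + 1) * ((tc g (m + 1)).re - 2 / ((m + 1 : ℕ) : ℝ) * (1 - (-1) ^ (m + 1))) := by
      push_cast
      rw [pow_succ]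
      field_simp
      ring
    rw [h2, abs_mul, abs_of_pos hm1]
    calc ((m : ℝ) + 1) * |(tc g (m + 1)).re - 2 / ((m + 1 : ℕ) : ℝ) * (1 - (-1) ^ (m + 1))|
        ≤ ((m : ℝ) + 1) * (((m + 1 : ℕ) : ℝ) ^ 2 * δ) := by gcongr
      _ = _ := by push_cast; ring
  obtain ⟨τ, hτ⟩ : ∃ τ : ℝ, τ = Real.sqrt δ := ⟨_, rfl⟩
  have hτ0 : 0 ≤ τ := by rw [hτ]; exact Real.sqrt_nonneg _
  have hδτ : δ = τ ^ 2 := by rw [hτ, Real.sq_sqrt hδ0]
  have hY : ∀ m : ℕ, 1 ≤ m → |(H m).im| ≤ 17 / 4 * ((m : ℝ) + 1) * (7 / 4) ^ m * τ := by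
    intro m hm
    have hm1 : (0 : ℝ) < (m : ℝ) + 1 := by positivity
    have h1 : |(H m).im| = ((m : ℝ) + 1) * |(tc g (m + 1)).im| := by
      rw [hH, hreal, Complex.im_ofReal_mul, abs_mul, abs_of_pos hm1]
    have h2 := (Complex.abs_im_le_norm (H m)).trans (hB m hm)
    rw [h1] at h2 ⊢
    refine im_bd hτ0 hδτ hm (fun s => ?_) h2
    have h3 := boundY hgd hgCI hδ0 hg1 (k := m + 1) (by omega) s
    push_cast at h3
    exact h3
  have hgan : AnalyticAt ℂ g 0 := hgd.analyticAt (isOpen_ball.mem_nhds h0mem)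
  have hrec : ∀ j : ℕ, ((j : ℂ) + 1) * a (j + 1) =
      p * ∑ m ∈ Finset.range (j + 1), H m * a (j - m) := by
    intro j
    obtain ⟨F, hF⟩ : ∃ F : ℂ → ℂ, F = fun z => cexp ((p : ℂ) * g z) := ⟨_, rfl⟩
    have haF : ∀ i, a i = tc F i := fun i => by rw [ha, hF]
    have hFan : AnalyticAt ℂ F 0 := by
      rw [hF]
      exact (analyticAt_const.mul hgan).cexp
    have h1 : deriv F =ᶠ[𝓝 0] fun z => (p : ℂ) * (deriv g * F) z := by
      filter_upwards [isOpen_ball.mem_nhds h0mem] with z hz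
      have hgz : HasDerivAt g (deriv g z) z :=
        (hgd.differentiableAt (isOpen_ball.mem_nhds hz)).hasDerivAt
      have h2 := (hgz.const_mul (p : ℂ)).cexp
      rw [Pi.mul_apply, hF]
      rw [h2.deriv]
      ring
    rw [haF (j + 1), ← tc_deriv, tc_congr h1, tc_const_mul, tc_mul hgan.deriv hFan]
    congr 1
    refine Finset.sum_congr rfl fun m _ => ?_
    rw [tc_deriv, ← hH, haF]
  have hcrec : ∀ j : ℕ, ((j : ℝ) + 1) * cc p (j + 1) =
      p * ∑ m ∈ Finset.range (j + 1), H0 m * cc p (j - m) := by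
    intro j
    simp only [hH0]
    exact cc_rec p j
  have hfin : ‖a n‖ ≤ cc p n := by
    rcases le_or_gt δ (42 / 121) with hd | hd
    · exact FD.small hτ0 hδτ hd hHH0 hH00 hH0m hB hX hY hp ha0 (by simp [cc]) hrec hcrec hn
    · exact FD.large hd.le hδ4 hHH0 hH00 hH0m hB hp ha0 (by simp [cc]) hrec hcrec hn
  have hrot : a n = c ^ n * tc (fun z => cexp ((p : ℂ) * h z)) n := by
    rw [ha, hg]
    exact tc_rot c (fun z => cexp ((p : ℂ) * h z)) n
  rw [hrot, norm_mul, norm_pow, hc, one_pow, one_mul] at hfin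
  exact hfin

/-- the coefficient inequality for `p ≥ 8 n` -/
theorem large_p {p : ℝ} (hp : 0 < p) {f : ℂ → ℂ} (hf : DifferentiableOn ℂ f (ball 0 1))
    (hne : ∀ z ∈ ball (0 : ℂ) 1, f z ≠ 0)
    (hN : ∀ R : ℝ, 0 < R →
      ∫⁻ φ in Ioc (0 : ℝ) (2 * Real.pi), val f ((R : ℂ) * cexp ((φ : ℂ) * I)) ≤
        ENNReal.ofReal (2 * Real.pi * p)) {n : ℕ} (hn : 8 * (n : ℝ) ≤ p) :
    ‖iteratedDeriv n f 0‖ ≤ ‖f 0‖ * ‖iteratedDeriv n (TT (2 * p)) 0‖ := by
  have h0mem : (0 : ℂ) ∈ ball (0 : ℂ) 1 := mem_ball_self one_pos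
  have hpC : (p : ℂ) ≠ 0 := by exact_mod_cast hp.ne'
  obtain ⟨h0, hh0, hhd, hhF⟩ := Pool.Agent.H296R2.LE.exists_log one_pos hf hne
  obtain ⟨h, hh⟩ : ∃ h : ℂ → ℂ, ∀ z, h z = ((1 / p : ℝ) : ℂ) * h0 z := ⟨_, fun z => rfl⟩
  have hd : ∀ z ∈ ball (0 : ℂ) 1, HasDerivAt h (((1 / p : ℝ) : ℂ) * (deriv f z / f z)) z := by
    intro z hz
    rw [funext hh]
    exact (hhd z hz).const_mul _
  have hph : ∀ z, (p : ℂ) * h z = h0 z := by
    intro z
    rw [hh]
    push_cast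
    field_simp
  have hexp : ∀ z ∈ ball (0 : ℂ) 1, f z = f 0 * cexp ((p : ℂ) * h z) := by
    intro z hz
    rw [hph]
    exact hhF z hz
  have hdiff : DifferentiableOn ℂ h (ball 0 1) :=
    fun z hz => (hd z hz).differentiableAt.differentiableWithinAt
  have hCI : CI h := CI_of_AC hp hne hd hexp (ac_self hf hN)
  have hbl : ∀ z ∈ ball (0 : ℂ) 1, (1 - ‖z‖ ^ 2) * ‖deriv h z‖ ≤ 4 := by
    intro z hz
    have h1 := bloch_cm hp hf hne hN (a := z) (by simpa using hz)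
    have h2 : 0 < ‖f z‖ := norm_pos_iff.2 (hne z hz)
    rw [(hd z hz).deriv, norm_mul, norm_div, Complex.norm_real, Real.norm_of_nonneg (by positivity)]
    have h3 : (1 - ‖z‖ ^ 2) * (1 / p * (‖deriv f z‖ / ‖f z‖)) =
        ((1 - ‖z‖ ^ 2) * ‖deriv f z‖) / (p * ‖f z‖) := by
      field_simp
    rw [h3, div_le_iff₀ (by positivity)]
    linarith
  have hmain := main_h hp hdiff (by rw [hh, hh0, mul_zero]) hCI hbl hn
  have hev : f =ᶠ[𝓝 0] fun z => f 0 * cexp ((p : ℂ) * h z) := by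
    filter_upwards [isOpen_ball.mem_nhds h0mem] with z hz
    exact hexp z hz
  have h1 : iteratedDeriv n f 0 = (n.factorial : ℂ) * (f 0 *
      tc (fun z => cexp ((p : ℂ) * h z)) n) := by
    rw [← tc_const_mul, ← tc_congr hev]
    unfold tc
    have : (n.factorial : ℂ) ≠ 0 := by exact_mod_cast n.factorial_ne_zero
    field_simp
  rw [h1, TT_coeff, Complex.norm_real, norm_mul, norm_mul, Complex.norm_natCast,
    Real.norm_of_nonneg (mul_nonneg (by positivity) (cc_nonneg hp.le n))]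
  have h2 : 0 ≤ (n.factorial : ℝ) * ‖f 0‖ := by positivity
  calc (n.factorial : ℝ) * (‖f 0‖ * ‖tc (fun z => cexp ((p : ℂ) * h z)) n‖)
      = ((n.factorial : ℝ) * ‖f 0‖) * ‖tc (fun z => cexp ((p : ℂ) * h z)) n‖ := by ring
    _ ≤ ((n.factorial : ℝ) * ‖f 0‖) * cc p n := by gcongr
    _ = _ := by ring

end Pool.Agent.Helper854_CM
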