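import Mathlib
import Pool.Agent.Helper854_CM.Lin

/-!
The class of logarithms of circumferentially mean `p`-valent nonvanishing functions.
-/

set_option autoImplicit false

open MeasureTheory Filter Topology Complex Set Metric
open scoped ENNReal

noncomputable section

namespace Pool.Agent.Helper854_CM

/-- injective analytic self-maps of the disc -/
structure IM (φ : ℂ → ℂ) : Prop where
  diff : DifferentiableOn ℂ φ (ball (0 : ℂ) 1)
  maps : MapsTo φ (ball (0 : ℂ) 1) (ball (0 : ℂ) 1)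
  inj : InjOn φ (ball (0 : ℂ) 1)

theorem IM.comp {φ χ : ℂ → ℂ} (h1 : IM φ) (h2 : IM χ) : IM (fun z => φ (χ z)) :=
  ⟨h1.diff.comp h2.diff h2.maps, fun _ hz => h1.maps (h2.maps hz), h1.inj.comp h2.inj h2.maps⟩

theorem IM_mob {a : ℂ} (ha : ‖a‖ < 1) : IM (mob a) := ⟨mob_diff ha, mob_mem ha, mob_inj ha⟩

theorem IM_rot {c : ℂ} (hc : ‖c‖ = 1) : IM (fun z => c * z) := by
  refine ⟨by fun_prop, fun z hz => ?_, fun x _ y _ h => ?_⟩
  · simpa [norm_mul, hc] using hz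
  · have : c ≠ 0 := by rintro rfl; simp at hc
    exact mul_left_cancel₀ this h

theorem IM_scale {s : ℝ} (h0 : 0 < s) (h1 : s ≤ 1) : IM (fun z => (s : ℂ) * z) := by
  refine ⟨by fun_prop, fun z hz => ?_, fun x _ y _ h => ?_⟩
  · have hz' : ‖z‖ < 1 := by simpa using hz
    rw [mem_ball_zero_iff, norm_mul, Complex.norm_real, Real.norm_of_nonneg h0.le]
    nlinarith [norm_nonneg z]
  · have : (s : ℂ) ≠ 0 := by exact_mod_cast h0.ne'
    exact mul_left_cancel₀ this h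

/-- strip area integral -/
def SA (ψ : ℝ → ℝ) (h : ℂ → ℂ) : ℝ≥0∞ :=
  ∫⁻ z in ball (0 : ℂ) 1, ENNReal.ofReal (ψ (h z).re) * ENNReal.ofReal (‖deriv h z‖ ^ 2)

/-- the class -/
structure CC (h : ℂ → ℂ) : Prop where
  diff : DifferentiableOn ℂ h (ball (0 : ℂ) 1)
  one : ∀ φ, IM φ → CI (fun z => h (φ z))
  two : ∀ φ₁ φ₂, IM φ₁ → IM φ₂ →
    (∀ z ∈ ball (0 : ℂ) 1, ∀ w ∈ ball (0 : ℂ) 1, φ₁ z ≠ φ₂ w) →
    ∀ ψ : ℝ → ℝ, Measurable ψ → (∀ x, 0 ≤ ψ x) →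
      SA ψ (fun z => h (φ₁ z)) + SA ψ (fun z => h (φ₂ z)) ≤
        ENNReal.ofReal (2 * Real.pi) * ∫⁻ x, ENNReal.ofReal (ψ x)

theorem CC.comp {h φ : ℂ → ℂ} (hC : CC h) (hφ : IM φ) : CC (fun z => h (φ z)) :=
  ⟨hC.diff.comp hφ.diff hφ.maps, fun _ hχ => hC.one _ (hφ.comp hχ),
    fun _ _ h1 h2 hd => hC.two _ _ (hφ.comp h1) (hφ.comp h2) fun z hz w hw he =>
      hd z hz w hw (hφ.inj (h1.maps hz) (h2.maps hw) he)⟩

theorem CC.ci {h : ℂ → ℂ} (hC : CC h) : CI h := by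
  have := hC.one (fun z => z) ⟨differentiableOn_id, fun z hz => hz, fun x _ y _ h => h⟩
  exact this

/-- the weight -/
def wp (p : ℝ) (c : ℂ) (ψ : ℝ → ℝ) (R : ℝ) : ℝ := ψ (Real.log (R / ‖c‖) / p) / (p ^ 2 * R ^ 2)

theorem wp_meas (p : ℝ) (c : ℂ) {ψ : ℝ → ℝ} (hψ : Measurable ψ) : Measurable (wp p c ψ) := by
  unfold wp
  fun_prop

theorem wp_int {p : ℝ} (hp : 0 < p) {c : ℂ} (hc : c ≠ 0) {ψ : ℝ → ℝ} (hψ : Measurable ψ) :
    ENNReal.ofReal (2 * Real.pi * p) *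
      ∫⁻ R in Ioi (0 : ℝ), ENNReal.ofReal (wp p c ψ R) * ENNReal.ofReal R =
    ENNReal.ofReal (2 * Real.pi) * ∫⁻ x, ENNReal.ofReal (ψ x) := by
  have hpi := Real.pi_pos
  have hc : 0 < ‖c‖ := norm_pos_iff.2 hc
  obtain ⟨g, hg⟩ : ∃ g : ℝ → ℝ, ∀ x, g x = ‖c‖ * Real.exp (p * x) := ⟨_, fun x => rfl⟩
  have hgd : ∀ x ∈ (univ : Set ℝ), HasDerivWithinAt g (p * g x) univ x := by
    intro x _
    have h1 : HasDerivAt (fun x : ℝ => p * x) p x := by
      simpa using (hasDerivAt_id x).const_mul p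
    have h2 := (h1.exp).const_mul ‖c‖
    rw [funext hg]
    refine (h2.congr_deriv ?_).hasDerivWithinAt
    simp only
    ring
  have hginj : InjOn g univ := by
    intro x _ y _ hxy
    rw [hg, hg] at hxy
    have h1 := mul_left_cancel₀ hc.ne' hxy
    have h2 := Real.exp_injective h1
    exact mul_left_cancel₀ hp.ne' h2
  have hgi : g '' univ = Ioi 0 := by
    ext R
    constructor
    · rintro ⟨x, -, rfl⟩
      rw [hg]
      exact mul_pos hc (Real.exp_pos _)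
    · intro hR
      have hR0 : 0 < R := hR
      refine ⟨Real.log (R / ‖c‖) / p, mem_univ _, ?_⟩
      rw [hg, mul_div_cancel₀ _ hp.ne', Real.exp_log (div_pos hR0 hc)]
      field_simp
  have hcv := lintegral_image_eq_lintegral_abs_deriv_mul MeasurableSet.univ hgd hginj
    (fun R => ENNReal.ofReal (wp p c ψ R) * ENNReal.ofReal R)
  rw [hgi] at hcv
  rw [hcv, Measure.restrict_univ]
  have hpt2 : ∀ x : ℝ, ENNReal.ofReal |p * g x| *
      (ENNReal.ofReal (wp p c ψ (g x)) * ENNReal.ofReal (g x)) =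
      ENNReal.ofReal (1 / p) * ENNReal.ofReal (ψ x) := by
    intro x
    have hgx : 0 < g x := by rw [hg]; exact mul_pos hc (Real.exp_pos _)
    have hwx : wp p c ψ (g x) = ψ x / (p ^ 2 * g x ^ 2) := by
      rw [wp]
      congr 2
      rw [hg, mul_div_cancel_left₀ _ hc.ne', Real.log_exp]
      field_simp
    rw [abs_of_pos (by positivity), hwx, ← ENNReal.ofReal_mul' hgx.le,
      ← ENNReal.ofReal_mul (by positivity), ← ENNReal.ofReal_mul (by positivity)]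
    congr 1
    field_simp
  simp only [hpt2]
  rw [lintegral_const_mul _ (by fun_prop), ← mul_assoc, ← ENNReal.ofReal_mul (by positivity)]
  congr 2
  field_simp

theorem SA_eq {p : ℝ} (hp : 0 < p) {c : ℂ} (hc : c ≠ 0) {F g : ℂ → ℂ} {ψ : ℝ → ℝ}
    (hd : ∀ z ∈ ball (0 : ℂ) 1, HasDerivAt g (((1 / p : ℝ) : ℂ) * (deriv F z / F z)) z)
    (hF : ∀ z ∈ ball (0 : ℂ) 1, F z = c * cexp ((p : ℂ) * g z)) :
    SA ψ g = ∫⁻ z in ball (0 : ℂ) 1, ENNReal.ofReal (wp p c ψ ‖F z‖) *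
      ENNReal.ofReal (‖deriv F z‖ ^ 2) := by
  have hc : 0 < ‖c‖ := norm_pos_iff.2 hc
  have hfn : ∀ z ∈ ball (0 : ℂ) 1, ‖F z‖ = ‖c‖ * Real.exp (p * (g z).re) := by
    intro z hz
    rw [hF z hz, norm_mul, Complex.norm_exp, Complex.re_ofReal_mul]
  refine setLIntegral_congr_fun measurableSet_ball ?_
  intro z hz
  simp only
  rw [← ENNReal.ofReal_mul' (by positivity), ← ENNReal.ofReal_mul' (by positivity)]
  congr 1
  have hfz : 0 < ‖F z‖ := by rw [hfn z hz]; positivity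
  have e1 : Real.log (‖F z‖ / ‖c‖) / p = (g z).re := by
    rw [hfn z hz, mul_div_cancel_left₀ _ hc.ne', Real.log_exp]
    field_simp
  rw [wp, e1, (hd z hz).deriv, norm_mul, norm_div, Complex.norm_real,
    Real.norm_of_nonneg (by positivity)]
  field_simp

theorem CC_of_cm {p : ℝ} (hp : 0 < p) {f h : ℂ → ℂ} (hf : DifferentiableOn ℂ f (ball 0 1))
    (hne : ∀ z ∈ ball (0 : ℂ) 1, f z ≠ 0)
    (hN : ∀ R : ℝ, 0 < R →
      ∫⁻ φ in Ioc (0 : ℝ) (2 * Real.pi), val f ((R : ℂ) * cexp ((φ : ℂ) * I)) ≤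
        ENNReal.ofReal (2 * Real.pi * p))
    (hd : ∀ z ∈ ball (0 : ℂ) 1, HasDerivAt h (((1 / p : ℝ) : ℂ) * (deriv f z / f z)) z)
    (hh : ∀ z ∈ ball (0 : ℂ) 1, f z = f 0 * cexp ((p : ℂ) * h z)) : CC h := by
  have hf0 : f 0 ≠ 0 := hne 0 (mem_ball_self one_pos)
  have hdc : ∀ φ, IM φ → ∀ z ∈ ball (0 : ℂ) 1, HasDerivAt (fun z => h (φ z))
      (((1 / p : ℝ) : ℂ) * (deriv (fun z => f (φ z)) z / f (φ z))) z := by
    intro φ hφ z hz
    have h1 : HasDerivAt φ (deriv φ z) z :=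
      (hφ.diff.differentiableAt (isOpen_ball.mem_nhds hz)).hasDerivAt
    have h2 := (hd (φ z) (hφ.maps hz)).comp z h1
    have h3 : HasDerivAt f (deriv f (φ z)) (φ z) :=
      (hf.differentiableAt (isOpen_ball.mem_nhds (hφ.maps hz))).hasDerivAt
    have h4 : HasDerivAt (fun z => f (φ z)) (deriv f (φ z) * deriv φ z) z := h3.comp z h1
    rw [h4.deriv]
    refine h2.congr_deriv ?_
    ring
  have hsa : ∀ φ, IM φ → ∀ ψ : ℝ → ℝ, Measurable ψ → SA ψ (fun z => h (φ z)) ≤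
      ∫⁻ ζ, ENNReal.ofReal (wp p (f 0) ψ ‖ζ‖) * val (fun z => f (φ z)) ζ := by
    intro φ hφ ψ hψ
    rw [SA_eq hp hf0 (F := fun z => f (φ z)) (hdc φ hφ) (fun z hz => hh _ (hφ.maps hz))]
    exact area_val (F := fun z => f (φ z)) (hf.comp hφ.diff hφ.maps) (wp_meas p (f 0) hψ)
  refine ⟨fun z hz => (hd z hz).differentiableAt.differentiableWithinAt, ?_, ?_⟩
  · intro φ hφ ψ hψ _
    refine (hsa φ hφ ψ hψ).trans ?_
    rw [← wp_int hp hf0 hψ]
    refine le_trans (lintegral_mono fun ζ => ?_) (polar_le hN (wp_meas p (f 0) hψ))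
    exact mul_le_mul' le_rfl (val_comp_inj hφ.maps hφ.inj ζ)
  · intro φ₁ φ₂ h1 h2 hdis ψ hψ _
    refine (add_le_add (hsa φ₁ h1 ψ hψ) (hsa φ₂ h2 ψ hψ)).trans ?_
    rw [← wp_int hp hf0 hψ]
    refine (le_lintegral_add _ _).trans ?_
    refine le_trans (lintegral_mono fun ζ => ?_) (polar_le hN (wp_meas p (f 0) hψ))
    simp only
    rw [← mul_add]
    refine mul_le_mul' le_rfl ?_
    unfold val
    rw [← ENat.toENNReal_add]
    refine ENat.toENNReal_mono ?_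
    obtain ⟨A, hA⟩ : ∃ A : Set ℂ, A = {z : ℂ | z ∈ ball (0 : ℂ) 1 ∧ f (φ₁ z) = ζ} := ⟨_, rfl⟩
    obtain ⟨B, hB⟩ : ∃ B : Set ℂ, B = {z : ℂ | z ∈ ball (0 : ℂ) 1 ∧ f (φ₂ z) = ζ} := ⟨_, rfl⟩
    rw [← hA, ← hB]
    have iA : InjOn φ₁ A := h1.inj.mono fun z hz => by rw [hA] at hz; exact hz.1
    have iB : InjOn φ₂ B := h2.inj.mono fun z hz => by rw [hB] at hz; exact hz.1
    rw [← iA.encard_image, ← iB.encard_image, ← encard_union_eq]
    · refine encard_le_encard ?_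
      rintro _ (⟨z, hz, rfl⟩ | ⟨z, hz, rfl⟩)
      · rw [hA] at hz
        exact ⟨h1.maps hz.1, hz.2⟩
      · rw [hB] at hz
        exact ⟨h2.maps hz.1, hz.2⟩
    · rw [Set.disjoint_left]
      rintro _ ⟨z, hz, rfl⟩ ⟨w, hw, hwz⟩
      rw [hA] at hz
      rw [hB] at hw
      exact hdis z hz.1 w hw.1 hwz.symm

end Pool.Agent.Helper854_CM
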