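import Mathlib
import Pool.Agent.Helper854_CM.Duf

/-!
Dufresnoy's inequality for a general fraction of the sphere.
-/

set_option autoImplicit false

open MeasureTheory Filter Topology Complex Set Metric

noncomputable section

namespace Pool.Agent.Helper854_CM

section
variable {G : ℂ → ℂ} (hG : DifferentiableOn ℂ G (ball 0 1))
include hG

/-- Dufresnoy's inequality for a fraction `σ` of the sphere. -/
theorem dufresnoy_gen {σ : ℝ} (hσ0 : 0 ≤ σ) (hσ1 : σ < 1) (hS : ∫⁻ z in ball (0 : ℂ) 1,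
      ENNReal.ofReal (‖deriv G z‖ ^ 2 / (1 + ‖G z‖ ^ 2) ^ 2) ≤ ENNReal.ofReal (Real.pi * σ)) :
    ‖deriv G 0‖ ^ 2 / (1 + ‖G 0‖ ^ 2) ^ 2 ≤ σ / (1 - σ) := by
  have hpi := Real.pi_pos
  have hle : ∀ r ∈ Ioo (0 : ℝ) 1, lam G r ≤ σ := by
    intro r hr
    have h1 := (area_lower hG hr).trans hS
    rw [ENNReal.ofReal_le_ofReal_iff (by positivity)] at h1
    exact le_of_mul_le_mul_left h1 hpi
  have hq0 : 0 ≤ σ / (1 - σ) := div_nonneg hσ0 (by linarith)
  have hmem : ∀ r ∈ Ioo (0 : ℝ) 1, r ∈ Ico (0 : ℝ) 1 := fun r hr => ⟨hr.1.le, hr.2⟩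
  -- the monotone quantity
  have hder : ∀ r ∈ Ioo (0 : ℝ) 1, HasDerivAt (fun r => lam G r / (1 - lam G r) / r ^ 2)
      (((r / Real.pi * JJ G r * (1 - lam G r) - lam G r * (-(r / Real.pi * JJ G r))) /
        (1 - lam G r) ^ 2 * r ^ 2 - lam G r / (1 - lam G r) * (2 * r)) / (r ^ 2) ^ 2) r := by
    intro r hr
    have h1 := lam_deriv' hG hr
    have h2 : HasDerivAt (fun r => 1 - lam G r) (-(r / Real.pi * JJ G r)) r := h1.const_sub 1
    have h3 := h1.div h2 (by have := hle r hr; linarith)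
    have h4 : HasDerivAt (fun r : ℝ => r ^ 2) (2 * r) r := by
      have := hasDerivAt_pow 2 r
      simpa using this
    exact h3.div h4 (pow_ne_zero 2 hr.1.ne')
  have hmono : MonotoneOn (fun r => lam G r / (1 - lam G r) / r ^ 2) (Ioo (0 : ℝ) 1) := by
    refine monotoneOn_of_deriv_nonneg (convex_Ioo _ _) ?_ ?_ ?_
    · exact fun r hr => (hder r hr).continuousAt.continuousWithinAt
    · rw [interior_Ioo]
      exact fun r hr => (hder r hr).differentiableAt.differentiableWithinAt
    · rw [interior_Ioo]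
      intro r hr
      rw [(hder r hr).deriv]
      have h1 := lam_ode hG hr
      have h2 := hle r hr
      have h3 : 0 < 1 - lam G r := by linarith
      have h4 := hr.1
      have h5 : ((r / Real.pi * JJ G r * (1 - lam G r) - lam G r * (-(r / Real.pi * JJ G r))) /
        (1 - lam G r) ^ 2 * r ^ 2 - lam G r / (1 - lam G r) * (2 * r)) =
          r / (1 - lam G r) ^ 2 * (r * (r / Real.pi * JJ G r) - 2 * (lam G r * (1 - lam G r))) := by
        field_simp
        ring
      rw [h5]
      have h6 : 0 ≤ r * (r / Real.pi * JJ G r) - 2 * (lam G r * (1 - lam G r)) := by linarith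
      positivity
  have hbd : ∀ r ∈ Ioo (0 : ℝ) 1, lam G r ≤ σ / (1 - σ) * r ^ 2 := by
    intro r hr
    have h1 : ∀ s ∈ Ioo r 1, lam G r / (1 - lam G r) * s ^ 2 ≤ σ / (1 - σ) * r ^ 2 := by
      intro s hs
      have hs' : s ∈ Ioo (0 : ℝ) 1 := ⟨hr.1.trans hs.1, hs.2⟩
      have h2 := hmono hr hs' hs.1.le
      simp only at h2
      have h3 : lam G s / (1 - lam G s) ≤ σ / (1 - σ) := by
        have h31 := hle s hs'
        have h32 := lam_nonneg hG (hmem s hs')
        rw [div_le_div_iff₀ (by linarith) (by linarith)]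
        nlinarith
      have h4 : lam G s / (1 - lam G s) / s ^ 2 ≤ σ / (1 - σ) / s ^ 2 := by
        have := hs'.1
        gcongr
      have h5 := h2.trans h4
      rw [div_le_div_iff₀ (by have := hr.1; positivity) (by have := hs'.1; positivity)] at h5
      linarith
    have h2 : lam G r / (1 - lam G r) * 1 ^ 2 ≤ σ / (1 - σ) * r ^ 2 := by
      have hc : ContinuousWithinAt (fun s : ℝ => lam G r / (1 - lam G r) * s ^ 2) (Ioo r 1) 1 := by
        fun_prop
      have hcl : (1 : ℝ) ∈ closure (Ioo r 1) := by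
        rw [closure_Ioo hr.2.ne]
        exact right_mem_Icc.2 hr.2.le
      have := hc.mem_closure hcl (t := Iic (σ / (1 - σ) * r ^ 2)) (fun s hs => h1 s hs)
      rw [closure_Iic] at this
      exact this
    have h3 := hle r hr
    have h4 := lam_nonneg hG (hmem r hr)
    have h5 : lam G r ≤ lam G r / (1 - lam G r) := by
      rw [le_div_iff₀ (by linarith)]
      nlinarith
    linarith
  -- behaviour near the centre
  by_contra hcon
  push Not at hcon
  obtain ⟨κ, hκ1, hκ2⟩ := exists_between hcon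
  have h0mem : (0 : ℂ) ∈ ball (0 : ℂ) 1 := mem_ball_self one_pos
  have hcont : ContinuousAt (fun z => ‖deriv G z‖ ^ 2 / (1 + ‖G z‖ ^ 2) ^ 2) 0 := by
    have c1 : ContinuousAt G 0 := (hG.differentiableAt (isOpen_ball.mem_nhds h0mem)).continuousAt
    have c2 : ContinuousAt (deriv G) 0 :=
      ((hG.deriv isOpen_ball).differentiableAt (isOpen_ball.mem_nhds h0mem)).continuousAt
    refine (c2.norm.pow 2).div ((continuousAt_const.add (c1.norm.pow 2)).pow 2) (by positivity)
  have hev : ∀ᶠ z in 𝓝 (0 : ℂ), κ < ‖deriv G z‖ ^ 2 / (1 + ‖G z‖ ^ 2) ^ 2 :=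
    hcont.eventually (lt_mem_nhds hκ2)
  obtain ⟨ε, hε, hball⟩ := Metric.eventually_nhds_iff_ball.1 hev
  obtain ⟨δ, hδ0, hδ⟩ : ∃ δ : ℝ, 0 < δ ∧ δ < min ε 1 := exists_between (lt_min hε one_pos)
  have hδε : δ < ε := hδ.trans_le (min_le_left _ _)
  have hδ1 : δ < 1 := hδ.trans_le (min_le_right _ _)
  have hJ : ∀ r ∈ Ioo 0 δ, 2 * Real.pi * κ ≤ JJ G r := by
    intro r hr
    have hr' : r ∈ Ioo (-1 : ℝ) 1 := ⟨by linarith [hr.1], by linarith [hr.2]⟩
    have hc1 : Continuous fun θ => ‖deriv G (zz r θ)‖ ^ 2 / den G r θ ^ 2 :=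
      ((slice_cont hG (hG.deriv isOpen_ball) hr').norm.pow 2).div ((den_slice hG hr').pow 2)
        fun θ => (pow_pos (den_pos G _ _) 2).ne'
    have h1 : ∫ θ in (0 : ℝ)..(2 * Real.pi), κ ≤ JJ G r := by
      refine intervalIntegral.integral_mono_on (by positivity)
        (continuous_const.intervalIntegrable _ _) (hc1.intervalIntegrable _ _) fun θ _ => ?_
      have h2 : zz r θ ∈ ball (0 : ℂ) ε := by
        rw [mem_ball_zero_iff, norm_zz, abs_of_pos hr.1]
        linarith [hr.2]
      exact (hball _ h2).le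
    rw [intervalIntegral.integral_const, smul_eq_mul, sub_zero] at h1
    exact h1
  have hmono2 : MonotoneOn (fun r => lam G r - κ * r ^ 2) (Icc 0 (δ / 2)) := by
    refine monotoneOn_of_deriv_nonneg (convex_Icc _ _) ?_ ?_ ?_
    · refine ContinuousOn.sub ((lam_cont hG).mono fun x hx => ?_) (by fun_prop)
      exact ⟨by linarith [hx.1], by linarith [hx.2]⟩
    · rw [interior_Icc]
      intro x hx
      have := lam_deriv' hG (r := x) ⟨hx.1, by linarith [hx.2]⟩
      exact (this.differentiableAt.sub (by fun_prop)).differentiableWithinAt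
    · rw [interior_Icc]
      intro x hx
      have h1 := lam_deriv' hG (r := x) ⟨hx.1, by linarith [hx.2]⟩
      have h2 : HasDerivAt (fun r : ℝ => κ * r ^ 2) (κ * (2 * x)) x := by
        have := (hasDerivAt_pow 2 x).const_mul κ
        simpa using this
      have h12 : HasDerivAt (fun r => lam G r - κ * r ^ 2) (x / Real.pi * JJ G x - κ * (2 * x)) x :=
        h1.sub h2
      rw [h12.deriv]
      have h3 := hJ x ⟨hx.1, by linarith [hx.2]⟩
      have h4 : x / Real.pi * JJ G x - κ * (2 * x) = x / Real.pi * (JJ G x - 2 * Real.pi * κ) := by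
        field_simp
      rw [h4]
      have := hx.1
      have h5 : 0 ≤ JJ G x - 2 * Real.pi * κ := by linarith
      positivity
  have h1 := hmono2 (left_mem_Icc.2 (by positivity : (0 : ℝ) ≤ δ / 2))
    (right_mem_Icc.2 (by positivity)) (by positivity)
  simp only [lam_zero hG] at h1
  have h2 := hbd (δ / 2) ⟨by positivity, by linarith⟩
  have h3 : (0 : ℝ) < (δ / 2) ^ 2 := by positivity
  nlinarith

end

end Pool.Agent.Helper854_CM
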