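import Mathlib
import Pool.Agent.Helper854_CM.CCl
import Pool.Agent.Helper854_CM.Duf2

/-!
Bloch bound and the exclusion of two peaks.
-/

set_option autoImplicit false

open MeasureTheory Filter Topology Complex Set Metric
open scoped ENNReal

noncomputable section

namespace Pool.Agent.Helper854_CM

/-- the logistic density -/
def lgd (x₀ y : ℝ) : ℝ := Real.exp (-(y - x₀)) / (1 + Real.exp (-(y - x₀))) ^ 2

theorem lgd_meas (x₀ : ℝ) : Measurable (lgd x₀) := by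
  unfold lgd
  fun_prop

theorem lgd_nonneg (x₀ y : ℝ) : 0 ≤ lgd x₀ y := by
  unfold lgd
  positivity

theorem lgd_int (x₀ : ℝ) : ∫⁻ y, ENNReal.ofReal (lgd x₀ y) = 1 := by
  have hd : ∀ y, HasDerivAt (fun y => 1 / (1 + Real.exp (-(y - x₀)))) (lgd x₀ y) y := by
    intro y
    have h1 : HasDerivAt (fun y : ℝ => -(y - x₀)) (-1) y :=
      ((hasDerivAt_id y).sub_const x₀).neg
    have h2 := (h1.exp).const_add 1
    have h3 := h2.inv (by positivity : (1 + Real.exp (-(y - x₀))) ≠ 0)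
    simp only [one_div]
    refine h3.congr_deriv ?_
    unfold lgd
    ring
  have ht : Tendsto (fun y : ℝ => -(y - x₀)) atTop atBot := by
    have : (fun y : ℝ => -(y - x₀)) = fun y => x₀ + -y := by funext y; ring
    rw [this]
    exact tendsto_atBot_add_const_left _ _ tendsto_neg_atTop_atBot
  have hb : Tendsto (fun y : ℝ => -(y - x₀)) atBot atTop := by
    have : (fun y : ℝ => -(y - x₀)) = fun y => x₀ + -y := by funext y; ring
    rw [this]
    exact tendsto_atTop_add_const_left _ _ tendsto_neg_atBot_atTop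
  have htop : Tendsto (fun y => 1 / (1 + Real.exp (-(y - x₀)))) atTop (𝓝 1) := by
    have h1 := (Real.tendsto_exp_atBot.comp ht).const_add 1
    have h2 := h1.inv₀ (by norm_num)
    simpa [one_div] using h2
  have hbot : Tendsto (fun y => 1 / (1 + Real.exp (-(y - x₀)))) atBot (𝓝 0) := by
    have h1 : Tendsto (fun y => 1 + Real.exp (-(y - x₀))) atBot atTop :=
      tendsto_atTop_add_const_left _ _ (Real.tendsto_exp_atTop.comp hb)
    simp only [one_div]
    exact h1.inv_tendsto_atTop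
  have hint := integrable_aux hd (lgd_nonneg x₀) hbot htop
  have h1 := integral_of_hasDerivAt_of_tendsto hd hint hbot htop
  rw [← ofReal_integral_eq_lintegral_ofReal hint (Eventually.of_forall (lgd_nonneg x₀)), h1]
  simp

theorem SA_lgd {g : ℂ → ℂ} (hg : DifferentiableOn ℂ g (ball 0 1)) (x₀ : ℝ) :
    SA (lgd x₀) g = 4 * ∫⁻ z in ball (0 : ℂ) 1,
      ENNReal.ofReal (‖deriv (fun z => cexp ((g z - x₀) / 2)) z‖ ^ 2 /
        (1 + ‖cexp ((g z - x₀) / 2)‖ ^ 2) ^ 2) := by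
  rw [← lintegral_const_mul' _ _ (by norm_num)]
  refine setLIntegral_congr_fun measurableSet_ball ?_
  intro z hz
  simp only
  have h1 : HasDerivAt g (deriv g z) z :=
    (hg.differentiableAt (isOpen_ball.mem_nhds hz)).hasDerivAt
  have h2 : HasDerivAt (fun z => cexp ((g z - x₀) / 2)) (cexp ((g z - x₀) / 2) * (deriv g z / 2)) z :=
    ((h1.sub_const _).div_const 2).cexp
  have h4 : (4 : ℝ≥0∞) = ENNReal.ofReal 4 := by norm_num
  rw [h2.deriv, h4, ← ENNReal.ofReal_mul' (by positivity), ← ENNReal.ofReal_mul' (by positivity)]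
  congr 1
  have e1 : ‖cexp ((g z - x₀) / 2)‖ = Real.exp (((g z).re - x₀) / 2) := by
    rw [Complex.norm_exp]
    congr 1
    have : (g z - x₀) / 2 = ((1 / 2 : ℝ) : ℂ) * (g z - x₀) := by push_cast; ring
    rw [this, Complex.re_ofReal_mul, Complex.sub_re, Complex.ofReal_re]
    ring
  have e2 : Real.exp (((g z).re - x₀) / 2) ^ 2 = Real.exp ((g z).re - x₀) := by
    rw [← Real.exp_nat_mul]
    congr 1
    push_cast
    ring
  rw [norm_mul, norm_div, mul_pow, e1, e2, lgd, Real.exp_neg]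
  have : Real.exp ((g z).re - x₀) ≠ 0 := (Real.exp_pos _).ne'
  have : 1 + (Real.exp ((g z).re - x₀))⁻¹ ≠ 0 := by positivity
  have h22 : ‖(2 : ℂ)‖ = 2 := by norm_num
  rw [h22]
  field_simp
  ring

/-- the spherical derivative at the centre -/
theorem sph_center {g : ℂ → ℂ} (hg : DifferentiableOn ℂ g (ball 0 1)) (x₀ : ℝ) :
    ‖deriv (fun z => cexp ((g z - x₀) / 2)) 0‖ ^ 2 / (1 + ‖cexp ((g 0 - x₀) / 2)‖ ^ 2) ^ 2 =
      ‖deriv g 0‖ ^ 2 / 4 * (Real.exp ((g 0).re - x₀) / (1 + Real.exp ((g 0).re - x₀)) ^ 2) := by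
  have h0mem : (0 : ℂ) ∈ ball (0 : ℂ) 1 := mem_ball_self one_pos
  have h1 : HasDerivAt g (deriv g 0) 0 :=
    (hg.differentiableAt (isOpen_ball.mem_nhds h0mem)).hasDerivAt
  have h2 : HasDerivAt (fun z => cexp ((g z - x₀) / 2)) (cexp ((g 0 - x₀) / 2) * (deriv g 0 / 2)) 0 :=
    ((h1.sub_const _).div_const 2).cexp
  have e1 : ‖cexp ((g 0 - x₀) / 2)‖ = Real.exp (((g 0).re - x₀) / 2) := by
    rw [Complex.norm_exp]
    congr 1
    have : (g 0 - x₀) / 2 = ((1 / 2 : ℝ) : ℂ) * (g 0 - x₀) := by push_cast; ring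
    rw [this, Complex.re_ofReal_mul, Complex.sub_re, Complex.ofReal_re]
    ring
  have e2 : Real.exp (((g 0).re - x₀) / 2) ^ 2 = Real.exp ((g 0).re - x₀) := by
    rw [← Real.exp_nat_mul]
    congr 1
    push_cast
    ring
  have h22 : ‖(2 : ℂ)‖ = 2 := by norm_num
  rw [h2.deriv, norm_mul, norm_div, mul_pow, e1, e2, h22]
  ring

theorem ci_bloch {g : ℂ → ℂ} (hg : DifferentiableOn ℂ g (ball 0 1)) (hCI : CI g) :
    ‖deriv g 0‖ ≤ 4 := by
  have hpi := Real.pi_pos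
  have h1 := hCI (lgd (g 0).re) (lgd_meas _) (lgd_nonneg _)
  have h2 := SA_lgd hg (g 0).re
  rw [SA] at h2
  rw [h2, lgd_int, mul_one] at h1
  have hG : DifferentiableOn ℂ (fun z => cexp ((g z - ((g 0).re : ℝ)) / 2)) (ball 0 1) :=
    ((hg.sub_const _).div_const 2).cexp
  have h3 : ∫⁻ z in ball (0 : ℂ) 1,
      ENNReal.ofReal (‖deriv (fun z => cexp ((g z - ((g 0).re : ℝ)) / 2)) z‖ ^ 2 /
        (1 + ‖cexp ((g z - ((g 0).re : ℝ)) / 2)‖ ^ 2) ^ 2) ≤ ENNReal.ofReal (Real.pi * (1 / 2)) := by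
    have e1 : ENNReal.ofReal (2 * Real.pi) = 4 * ENNReal.ofReal (Real.pi * (1 / 2)) := by
      have h4 : (4 : ℝ≥0∞) = ENNReal.ofReal 4 := by norm_num
      rw [h4, ← ENNReal.ofReal_mul (by norm_num)]
      congr 1
      ring
    rw [e1] at h1
    exact (ENNReal.mul_le_mul_iff_right (by norm_num) (by norm_num)).1 h1
  have h5 := dufresnoy_gen hG (by norm_num) (by norm_num) h3
  rw [sph_center hg, sub_self, Real.exp_zero] at h5
  have h6 : ‖deriv g 0‖ ^ 2 ≤ 4 ^ 2 := by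
    norm_num at h5 ⊢
    linarith
  exact le_of_sq_le_sq h6 (by norm_num)

/-- derivative at the centre after a change of the base point and a scaling -/
theorem base_deriv {h : ℂ → ℂ} (hh : DifferentiableOn ℂ h (ball 0 1)) {a : ℂ} (ha : ‖a‖ < 1)
    (s : ℝ) : deriv (fun z => h (mob a ((s : ℂ) * z))) 0 =
      deriv h a * ((1 - ‖a‖ ^ 2 : ℝ) : ℂ) * s := by
  have h1 : HasDerivAt h (deriv h a) (mob a 0) := by
    rw [mob_zero]
    exact (hh.differentiableAt (isOpen_ball.mem_nhds (by simpa using ha))).hasDerivAt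
  have h2 : HasDerivAt (fun z => h (mob a z)) (deriv h a * ((1 - ‖a‖ ^ 2 : ℝ) : ℂ)) ((s : ℂ) * 0) := by
    rw [mul_zero]
    exact h1.comp 0 (mob_deriv a)
  have h3 : HasDerivAt (fun z : ℂ => (s : ℂ) * z) (s : ℂ) 0 := by
    simpa using (hasDerivAt_id (0 : ℂ)).const_mul (s : ℂ)
  have h4 : HasDerivAt (fun z => h (mob a ((s : ℂ) * z)))
      (deriv h a * ((1 - ‖a‖ ^ 2 : ℝ) : ℂ) * s) 0 :=
    HasDerivAt.comp (h₂ := fun z => h (mob a z)) 0 h2 h3
  exact h4.deriv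

theorem CC.bloch {h : ℂ → ℂ} (hC : CC h) {a : ℂ} (ha : ‖a‖ < 1) :
    (1 - ‖a‖ ^ 2) * ‖deriv h a‖ ≤ 4 := by
  have h1 := ci_bloch (g := fun z => h (mob a ((1 : ℝ) * z)))
    (hC.diff.comp ((IM_mob ha).comp (IM_scale one_pos le_rfl)).diff
      ((IM_mob ha).comp (IM_scale one_pos le_rfl)).maps)
    (hC.one _ ((IM_mob ha).comp (IM_scale one_pos le_rfl)))
  rw [base_deriv hC.diff ha, norm_mul, norm_mul, Complex.norm_real, Complex.norm_real,
    Real.norm_of_nonneg (by have := norm_nonneg a; nlinarith)] at h1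
  simp at h1
  linarith

/-- two peaks at the same level are impossible -/
theorem CC.excl {h : ℂ → ℂ} (hC : CC h) {a z : ℂ} (ha : ‖a‖ < 1) (hz : ‖z‖ < 1)
    (hdis : ∀ ζ₁ ζ₂ : ℂ, ‖ζ₁‖ < 3 / 4 → ‖ζ₂‖ < 3 / 4 → mob a ζ₁ ≠ mob z ζ₂)
    (h1 : 3.9 ≤ (1 - ‖a‖ ^ 2) * ‖deriv h a‖) (h2 : |(h a).re - (h z).re| ≤ 1 / 10) :
    (1 - ‖z‖ ^ 2) * ‖deriv h z‖ ≤ 3.1 := by
  have hpi := Real.pi_pos
  have i1 : IM (fun w => mob a (((3 / 4 : ℝ) : ℂ) * w)) :=
    (IM_mob ha).comp (IM_scale (by norm_num) (by norm_num))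
  have i2 : IM (fun w => mob z (((3 / 4 : ℝ) : ℂ) * w)) :=
    (IM_mob hz).comp (IM_scale (by norm_num) (by norm_num))
  have hsc : ∀ w ∈ ball (0 : ℂ) 1, ‖((3 / 4 : ℝ) : ℂ) * w‖ < 3 / 4 := by
    intro w hw
    have hw' : ‖w‖ < 1 := by simpa using hw
    rw [norm_mul, Complex.norm_real, Real.norm_of_nonneg (by norm_num)]
    linarith
  have ht := hC.two _ _ i1 i2 (fun w hw w' hw' => hdis _ _ (hsc w hw) (hsc w' hw'))
    (lgd (h z).re) (lgd_meas _) (lgd_nonneg _)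
  have d1 : DifferentiableOn ℂ (fun w => h (mob a (((3 / 4 : ℝ) : ℂ) * w))) (ball 0 1) :=
    hC.diff.comp i1.diff i1.maps
  have d2 : DifferentiableOn ℂ (fun w => h (mob z (((3 / 4 : ℝ) : ℂ) * w))) (ball 0 1) :=
    hC.diff.comp i2.diff i2.maps
  rw [SA_lgd d1, SA_lgd d2, lgd_int, mul_one, ← mul_add] at ht
  have e1 : ENNReal.ofReal (2 * Real.pi) = 4 * (ENNReal.ofReal (Real.pi * (1 / 4)) +
      ENNReal.ofReal (Real.pi * (1 / 4))) := by
    have h4 : (4 : ℝ≥0∞) = ENNReal.ofReal 4 := by norm_num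
    rw [h4, ← ENNReal.ofReal_add (by positivity) (by positivity),
      ← ENNReal.ofReal_mul (by norm_num)]
    congr 1
    ring
  rw [e1] at ht
  have ht2 := (ENNReal.mul_le_mul_iff_right (by norm_num) (by norm_num)).1 ht
  have c1 : DifferentiableOn ℂ (fun w => cexp ((h (mob a (((3 / 4 : ℝ) : ℂ) * w)) -
      ((h z).re : ℝ)) / 2)) (ball 0 1) := ((d1.sub_const _).div_const 2).cexp
  have c2 : DifferentiableOn ℂ (fun w => cexp ((h (mob z (((3 / 4 : ℝ) : ℂ) * w)) -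
      ((h z).re : ℝ)) / 2)) (ball 0 1) := ((d2.sub_const _).div_const 2).cexp
  -- the second area is at most a quarter
  have hS2 : ∫⁻ w in ball (0 : ℂ) 1,
      ENNReal.ofReal (‖deriv (fun w => cexp ((h (mob z (((3 / 4 : ℝ) : ℂ) * w)) -
        ((h z).re : ℝ)) / 2)) w‖ ^ 2 /
        (1 + ‖cexp ((h (mob z (((3 / 4 : ℝ) : ℂ) * w)) - ((h z).re : ℝ)) / 2)‖ ^ 2) ^ 2) ≤
        ENNReal.ofReal (Real.pi * (1 / 4)) := by
    by_contra hcon
    push Not at hcon
    have hS1 : ∫⁻ w in ball (0 : ℂ) 1,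
      ENNReal.ofReal (‖deriv (fun w => cexp ((h (mob a (((3 / 4 : ℝ) : ℂ) * w)) -
        ((h z).re : ℝ)) / 2)) w‖ ^ 2 /
        (1 + ‖cexp ((h (mob a (((3 / 4 : ℝ) : ℂ) * w)) - ((h z).re : ℝ)) / 2)‖ ^ 2) ^ 2) ≤
        ENNReal.ofReal (Real.pi * (1 / 4)) := by
      by_contra hcon2
      push Not at hcon2
      exact absurd ht2 (not_le.2 (ENNReal.add_lt_add hcon2 hcon))
    have h5 := dufresnoy_gen c1 (by norm_num) (by norm_num) hS1
    have h6 := sph_center d1 (h z).re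
    simp only [mul_zero, mob_zero] at h5 h6
    rw [h6, base_deriv hC.diff ha, norm_mul, norm_mul, Complex.norm_real, Complex.norm_real,
      Real.norm_of_nonneg (by have := norm_nonneg a; nlinarith), Real.norm_of_nonneg (by norm_num)]
      at h5
    obtain ⟨t, ht⟩ : ∃ t : ℝ, t = (h a).re - (h z).re := ⟨_, rfl⟩
    rw [← ht] at h5 h2
    obtain ⟨x, hx⟩ : ∃ x : ℝ, x = (1 - ‖a‖ ^ 2) * ‖deriv h a‖ := ⟨_, rfl⟩
    have h7 : ‖deriv h a‖ * (1 - ‖a‖ ^ 2) * (3 / 4) = x * (3 / 4) := by rw [hx]; ring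
    rw [h7] at h5
    rw [← hx] at h1
    obtain ⟨y, hy⟩ : ∃ y : ℝ, y = Real.exp t := ⟨_, rfl⟩
    rw [← hy] at h5
    have hy1 : y ≤ 10 / 9 := by
      have h8 : Real.exp t ≤ Real.exp (1 / 10) := Real.exp_le_exp.2 (abs_le.1 h2).2
      have h9 : Real.exp (-(1 / 10)) ≥ 9 / 10 := by
        have := Real.add_one_le_exp (-(1 / 10) : ℝ)
        linarith
      rw [Real.exp_neg] at h9
      have h10 : Real.exp (1 / 10) ≤ 10 / 9 := by
        have h11 := inv_anti₀ (by norm_num : (0 : ℝ) < 9 / 10) h9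
        rw [inv_inv] at h11
        norm_num at h11
        linarith
      rw [hy]
      linarith
    have hy2 : 9 / 10 ≤ y := by
      have h8 := Real.add_one_le_exp t
      rw [← hy] at h8
      linarith [(abs_le.1 h2).1]
    have h8 : 0.248 ≤ y / (1 + y) ^ 2 := by
      rw [le_div_iff₀ (by positivity)]
      nlinarith [sq_nonneg (y - 1)]
    have h9 : (3.9 * (3 / 4)) ^ 2 / 4 * 0.248 ≤ (x * (3 / 4)) ^ 2 / 4 * (y / (1 + y) ^ 2) := by
      gcongr
    norm_num at h5 h9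
    linarith
  have h5 := dufresnoy_gen c2 (by norm_num) (by norm_num) hS2
  have h6 := sph_center d2 (h z).re
  simp only [mul_zero, mob_zero] at h5 h6
  rw [h6, base_deriv hC.diff hz, norm_mul, norm_mul, Complex.norm_real, Complex.norm_real,
    Real.norm_of_nonneg (by have := norm_nonneg z; nlinarith), Real.norm_of_nonneg (by norm_num),
    sub_self, Real.exp_zero] at h5
  have h7 : ‖deriv h z‖ * (1 - ‖z‖ ^ 2) * (3 / 4) = (1 - ‖z‖ ^ 2) * ‖deriv h z‖ * (3 / 4) := by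
    ring
  rw [h7] at h5
  generalize (1 - ‖z‖ ^ 2) * ‖deriv h z‖ = x at h5 ⊢
  have h8 : x ^ 2 ≤ 3.1 ^ 2 := by
    norm_num at h5 ⊢
    nlinarith
  exact le_of_sq_le_sq h8 (by norm_num)

end Pool.Agent.Helper854_CM
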