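import Mathlib
import Pool.Agent.Helper854_CM.Two
import Pool.Agent.Helper854_CM.LP

/-!
Quantitative stability at a base point.
-/

set_option autoImplicit false

open MeasureTheory Filter Topology Complex Set Metric
open scoped ENNReal

noncomputable section

namespace Pool.Agent.Helper854_CM

open DR

/-- the extremal logarithm -/
def kk (z : ℂ) : ℂ := 2 * Complex.log ((1 + z) / (1 - z))

theorem one_sub_sq_ne {z : ℂ} (hz : ‖z‖ < 1) : (1 : ℂ) - z ^ 2 ≠ 0 := by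
  intro h
  have h1 : z ^ 2 = 1 := by linear_combination -h
  have h2 := congrArg norm h1
  rw [norm_pow, norm_one] at h2
  have := norm_nonneg z
  nlinarith

theorem kk_deriv {z : ℂ} (hz : ‖z‖ < 1) : HasDerivAt kk (4 / (1 - z ^ 2)) z := by
  have h1 : (1 : ℂ) - z ≠ 0 := one_sub_ne' hz
  have h2 : (1 : ℂ) + z ≠ 0 := one_add_ne' hz
  have hd : HasDerivAt (fun z : ℂ => (1 + z) / (1 - z)) ((1 * (1 - z) - (1 + z) * (-1)) / (1 - z) ^ 2)
      z := ((hasDerivAt_id z).const_add 1).div ((hasDerivAt_id z).const_sub 1) h1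
  have h3 := (hd.clog (cay_mem hz)).const_mul 2
  refine h3.congr_deriv ?_
  have h4 := one_sub_sq_ne hz
  have h5 : (1 : ℂ) - z ^ 2 = (1 - z) * (1 + z) := by ring
  rw [h5] at h4 ⊢
  field_simp
  ring

theorem kk_zero : kk 0 = 0 := by simp [kk]

theorem kk_diff : DifferentiableOn ℂ kk (ball 0 1) := fun z hz =>
  (kk_deriv (by simpa using hz)).differentiableAt.differentiableWithinAt

theorem tc_inv (j : ℕ) : tc (fun z : ℂ => 4 / (1 - z ^ 2)) j = 2 * (1 + (-1) ^ j) := by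
  have h0mem : (0 : ℂ) ∈ ball (0 : ℂ) 1 := mem_ball_self one_pos
  have hP : AnalyticAt ℂ (fun z : ℂ => (1 : ℂ) - z ^ 2) 0 := by fun_prop
  have hU : AnalyticAt ℂ (fun z : ℂ => 4 / (1 - z ^ 2)) 0 := by
    refine analyticAt_const.div hP ?_
    norm_num
  have hprod : ((fun z : ℂ => (1 : ℂ) - z ^ 2) * fun z : ℂ => 4 / (1 - z ^ 2)) =ᶠ[𝓝 0]
      fun _ => 4 := by
    filter_upwards [isOpen_ball.mem_nhds h0mem] with z hz
    have := one_sub_sq_ne (z := z) (by simpa using hz)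
    rw [Pi.mul_apply]
    field_simp
  have hrec : ∀ i, ∑ m ∈ Finset.range (i + 1), tc (fun z : ℂ => (1 : ℂ) - z ^ 2) m *
      tc (fun z : ℂ => 4 / (1 - z ^ 2)) (i - m) = tc (fun _ => (4 : ℂ)) i := by
    intro i
    rw [← tc_mul hP hU, tc_congr hprod]
  have t0 : tc (fun z : ℂ => (1 : ℂ) - z ^ 2) 0 = 1 := by simp [tc]
  have t1 : tc (fun z : ℂ => (1 : ℂ) - z ^ 2) 1 = 0 := by
    unfold tc
    rw [iter_P]
    simp
  have t2 : tc (fun z : ℂ => (1 : ℂ) - z ^ 2) 2 = -1 := by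
    unfold tc
    rw [iter_P]
    norm_num [Nat.factorial]
  have t3 : ∀ m, tc (fun z : ℂ => (1 : ℂ) - z ^ 2) (m + 3) = 0 := by
    intro m
    unfold tc
    rw [iter_P, if_neg (by omega), if_neg (by omega)]
    simp
  have tconst : ∀ i, tc (fun _ => (4 : ℂ)) (i + 1) = 0 := by
    intro i
    unfold tc
    rw [iteratedDeriv_const]
    simp
  induction j using Nat.strong_induction_on with
  | _ j ih =>
    match j with
    | 0 =>
      have := hrec 0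
      rw [Finset.sum_range_one, t0] at this
      simp [tc] at this ⊢
      norm_num
    | 1 =>
      have := hrec 1
      rw [Finset.sum_range_succ, Finset.sum_range_one, t0, t1, tconst] at this
      simp at this ⊢
      rw [this]
    | (k + 2) =>
      have := hrec (k + 2)
      rw [Finset.sum_range_succ', Finset.sum_range_succ', Finset.sum_range_succ', tconst] at this
      have hz : ∑ m ∈ Finset.range k, tc (fun z : ℂ => (1 : ℂ) - z ^ 2) (m + 1 + 1 + 1) *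
          tc (fun z : ℂ => 4 / (1 - z ^ 2)) (k + 2 - (m + 1 + 1 + 1)) = 0 :=
        Finset.sum_eq_zero fun m _ => by rw [t3, zero_mul]
      rw [hz, t0, t1, t2] at this
      have e1 : k + 2 - (0 + 1 + 1) = k := by omega
      rw [e1, ih k (by omega)] at this
      simp only [Nat.sub_zero] at this
      have e2 : (-1 : ℂ) ^ (k + 2) = (-1) ^ k := by rw [pow_add]; norm_num
      rw [e2]
      linear_combination this

theorem tc_kk (m : ℕ) : tc kk (m + 1) = (((2 : ℝ) / ((m + 1 : ℕ) : ℝ) * (1 - (-1) ^ (m + 1)) : ℝ) : ℂ) := by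
  have h0mem : (0 : ℂ) ∈ ball (0 : ℂ) 1 := mem_ball_self one_pos
  have h1 := tc_deriv kk m
  have h2 : deriv kk =ᶠ[𝓝 0] fun z : ℂ => 4 / (1 - z ^ 2) := by
    filter_upwards [isOpen_ball.mem_nhds h0mem] with z hz
    exact (kk_deriv (by simpa using hz)).deriv
  rw [tc_congr h2, tc_inv] at h1
  have h3 : ((m : ℂ) + 1) ≠ 0 := Nat.cast_add_one_ne_zero m
  have h4 : tc kk (m + 1) = 2 * (1 + (-1) ^ m) / ((m : ℂ) + 1) := by
    rw [h1]
    field_simp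
  rw [h4]
  push_cast
  rw [pow_succ]
  field_simp
  ring

/-- uniform coefficient bound -/
theorem coef_bd {g : ℂ → ℂ} (hg : DifferentiableOn ℂ g (ball 0 1))
    (hbl : ∀ z ∈ ball (0 : ℂ) 1, (1 - ‖z‖ ^ 2) * ‖deriv g z‖ ≤ 4) (m : ℕ) :
    ‖tc g (m + 1)‖ ≤ 15 := by
  obtain ⟨r, hr⟩ : ∃ r : ℝ, r = ((m : ℝ) + 1) / (m + 2) := ⟨_, rfl⟩
  have hr0 : 0 < r := by rw [hr]; positivity
  have hr1 : r < 1 := by
    rw [hr, div_lt_one (by positivity)]
    linarith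
  have e1 : 1 - r ^ 2 = (2 * m + 3) / (m + 2) ^ 2 := by
    rw [hr]
    field_simp
    ring
  have hd : DifferentiableOn ℂ (deriv g) (ball 0 1) := hg.deriv isOpen_ball
  have hsub : closedBall (0 : ℂ) r ⊆ ball 0 1 := closedBall_subset_ball hr1
  have hdc : DiffContOnCl ℂ (deriv g) (ball (0 : ℂ) r) :=
    (hd.mono hsub).diffContOnCl_ball subset_rfl
  have hbd : ∀ z ∈ sphere (0 : ℂ) r, ‖deriv g z‖ ≤ 4 * (m + 2) ^ 2 / (2 * m + 3) := by
    intro z hz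
    have hz1 : ‖z‖ = r := by simpa using hz
    have h1 := hbl z (by rw [mem_ball_zero_iff, hz1]; exact hr1)
    rw [hz1, e1, div_mul_eq_mul_div, div_le_iff₀ (by positivity)] at h1
    rw [le_div_iff₀ (by positivity)]
    linarith
  have hC := Complex.norm_iteratedDeriv_le_of_forall_mem_sphere_norm_le m hr0 hdc hbd
  have h1 : ‖tc (deriv g) m‖ ≤ 4 * (m + 2) ^ 2 / (2 * m + 3) / r ^ m := by
    unfold tc
    rw [norm_mul, norm_inv, Complex.norm_natCast]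
    have hf : (0 : ℝ) < (m.factorial : ℝ) := by positivity
    rw [inv_mul_le_iff₀ hf]
    refine hC.trans (le_of_eq ?_)
    field_simp
  rw [tc_deriv, norm_mul] at h1
  have h2 : ‖((m : ℂ) + 1)‖ = (m : ℝ) + 1 := by
    have : ((m : ℂ) + 1) = (((m : ℝ) + 1 : ℝ) : ℂ) := by push_cast; ring
    rw [this, Complex.norm_real, Real.norm_of_nonneg (by positivity)]
  rw [h2] at h1
  have h3 : (1 / r) ^ m ≤ 2.72 := by
    have h4 : 1 / r ≤ Real.exp (1 / (m + 1)) := by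
      have h5 := Real.add_one_le_exp (1 / ((m : ℝ) + 1))
      have h6 : 1 / r = 1 / ((m : ℝ) + 1) + 1 := by
        rw [hr]
        field_simp
        ring
      rw [h6]
      exact h5
    calc (1 / r) ^ m ≤ (Real.exp (1 / (m + 1))) ^ m := by gcongr
      _ = Real.exp (m / (m + 1)) := by
        rw [← Real.exp_nat_mul]
        congr 1
        field_simp
      _ ≤ Real.exp 1 := by
        refine Real.exp_le_exp.2 ?_
        rw [div_le_one (by positivity)]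
        linarith
      _ ≤ 2.72 := by
        have := Real.exp_one_lt_d9
        linarith
  have h4 : 4 * ((m : ℝ) + 2) ^ 2 / (2 * m + 3) ≤ 16 / 3 * (m + 1) := by
    rw [div_le_iff₀ (by positivity)]
    have : (0 : ℝ) ≤ m := Nat.cast_nonneg m
    nlinarith
  have h5 : ((m : ℝ) + 1) * ‖tc g (m + 1)‖ ≤ ((m : ℝ) + 1) * 15 := by
    calc ((m : ℝ) + 1) * ‖tc g (m + 1)‖ ≤ 4 * (m + 2) ^ 2 / (2 * m + 3) / r ^ m := h1
      _ = 4 * (m + 2) ^ 2 / (2 * m + 3) * (1 / r) ^ m := by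
        rw [one_div, inv_pow]
        rfl
      _ ≤ (16 / 3 * (m + 1)) * 2.72 := by gcongr
      _ ≤ _ := by
        have : (0 : ℝ) ≤ m := Nat.cast_nonneg m
        nlinarith
  exact le_of_mul_le_mul_left h5 (by positivity)

theorem im_bd2 {y δ τ k : ℝ} (hτ : 0 ≤ τ) (hδ : δ = τ ^ 2) (hk : 1 ≤ k)
    (hs : ∀ s : ℝ, |y * Real.sin s| ≤ 2 * s ^ 2 + k ^ 2 * δ)
    (hb : |y| ≤ 15) : |y| ≤ 15 * (k * τ) := by
  have hsin : ∀ s : ℝ, 0 ≤ s → s ≤ 1 → 5 / 6 * s ≤ Real.sin s := by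
    intro s h0 h1
    have h2 := Real.sin_ge_sub_cube h0
    have h3 : s ^ 3 ≤ s := by
      have : s * (1 - s ^ 2) ≥ 0 := mul_nonneg h0 (by nlinarith)
      nlinarith
    linarith
  rcases hτ.eq_or_lt with h0 | h0
  · have hδ0 : δ = 0 := by rw [hδ, ← h0]; ring
    have hy : y = 0 := by
      by_contra hne
      have hy0 : 0 < |y| := abs_pos.2 hne
      obtain ⟨s, hs'⟩ : ∃ s : ℝ, s = min 1 (|y| / 3) := ⟨_, rfl⟩
      have s0 : 0 < s := by rw [hs']; positivity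
      have s1 : s ≤ 1 := by rw [hs']; exact min_le_left _ _
      have s2 : s ≤ |y| / 3 := by rw [hs']; exact min_le_right _ _
      have h1 := hs s
      have h2 := hsin s s0.le s1
      rw [hδ0, mul_zero, add_zero, abs_mul, abs_of_nonneg (by linarith : 0 ≤ Real.sin s)] at h1
      have h3 : |y| * (5 / 6 * s) ≤ 2 * s ^ 2 := le_trans (by gcongr) h1
      have h4 : s * (|y| * (5 / 6)) ≤ s * (2 * s) := by linarith
      have h5 := le_of_mul_le_mul_left h4 s0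
      linarith
    rw [hy, ← h0]
    simp
  · obtain ⟨s, hs'⟩ : ∃ s : ℝ, s = k * τ := ⟨_, rfl⟩
    have s0 : 0 < s := by rw [hs']; positivity
    rcases le_or_gt s 1 with s1 | s1
    · have h1 := hs s
      have h2 := hsin s s0.le s1
      rw [abs_mul, abs_of_nonneg (by linarith : 0 ≤ Real.sin s)] at h1
      have h3 : |y| * (5 / 6 * s) ≤ 2 * s ^ 2 + k ^ 2 * δ := le_trans (by gcongr) h1
      have h4 : s * (|y| * (5 / 6)) ≤ s * (3 * s) := by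
        have : k ^ 2 * δ = s ^ 2 := by rw [hδ, hs']; ring
        rw [this] at h3
        nlinarith
      have h5 := le_of_mul_le_mul_left h4 s0
      rw [← hs']
      linarith
    · rw [← hs']
      linarith

theorem ser_bd {c : ℕ → ℂ} {x : ℝ} (hx0 : 0 ≤ x) (hx1 : x < 1) {S : ℂ} (hS : HasSum c S) {A B : ℝ}
    (h0 : ‖c 0‖ ≤ A) (h : ∀ m : ℕ, ‖c (m + 1)‖ ≤ B * ((((m + 2).choose 2 : ℕ) : ℝ) * x ^ m)) :
    ‖S‖ ≤ A + B / (1 - x) ^ 3 := by
  have h1 := (hasSum_choose_mul_geometric_of_norm_lt_one 2 (r := x)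
    (by rwa [Real.norm_of_nonneg hx0])).mul_left B
  have h2 : HasSum (fun m => c (m + 1)) (S - c 0) := by
    have := (hasSum_nat_add_iff' 1).2 hS
    simpa using this
  have h4 : ‖S - c 0‖ ≤ B * (1 / (1 - x) ^ (2 + 1)) := by
    rw [← h2.tsum_eq]
    exact tsum_of_norm_bounded h1 h
  calc ‖S‖ = ‖c 0 + (S - c 0)‖ := by congr 1; ring
    _ ≤ ‖c 0‖ + ‖S - c 0‖ := norm_add_le _ _
    _ ≤ A + B * (1 / (1 - x) ^ (2 + 1)) := add_le_add h0 h4
    _ = _ := by ring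

theorem choose_two (m : ℕ) : (((m + 2).choose 2 : ℕ) : ℝ) = (m + 2) * (m + 1) / 2 := by
  rw [Nat.cast_choose_two]
  push_cast
  ring

/-- the deviation -/
def Hg (g : ℂ → ℂ) (ζ : ℂ) : ℂ := g ζ - g 0 - kk ζ

/-- the stability data at a base point -/
structure SDa (g : ℂ → ℂ) (δ τ : ℝ) : Prop where
  diff : DifferentiableOn ℂ g (ball (0 : ℂ) 1)
  τ0 : 0 ≤ τ
  τ1 : τ ≤ 1
  hδ : δ = τ ^ 2
  X : ∀ m : ℕ, |(tc g (m + 1) - tc kk (m + 1)).re| ≤ ((m : ℝ) + 1) ^ 2 * δ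
  Y : ∀ m : ℕ, |(tc g (m + 1) - tc kk (m + 1)).im| ≤ 15 * (((m : ℝ) + 1) * τ)
  one : tc g 1 - tc kk 1 = ((-δ : ℝ) : ℂ)

theorem SDa_of {g : ℂ → ℂ} (hC : CC g) {δ τ : ℝ} (hτ0 : 0 ≤ τ) (hτ1 : τ ≤ 1) (hδ : δ = τ ^ 2)
    (h1 : deriv g 0 = ((4 - δ : ℝ) : ℂ)) : SDa g δ τ := by
  have ht1 : tc g 1 = ((4 - δ : ℝ) : ℂ) := by simp [tc, h1]
  have hδ0 : 0 ≤ δ := by rw [hδ]; positivity
  have hbl : ∀ z ∈ ball (0 : ℂ) 1, (1 - ‖z‖ ^ 2) * ‖deriv g z‖ ≤ 4 := fun z hz =>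
    hC.bloch (by simpa using hz)
  refine ⟨hC.diff, hτ0, hτ1, hδ, fun m => ?_, fun m => ?_, ?_⟩
  · have h2 := boundX hC.diff hC.ci ht1 (k := m + 1) (by omega)
    rw [tc_kk, Complex.sub_re, Complex.ofReal_re]
    push_cast at h2 ⊢
    exact h2
  · rw [tc_kk, Complex.sub_im, Complex.ofReal_im, sub_zero]
    refine im_bd2 hτ0 hδ (by have : (0 : ℝ) ≤ m := Nat.cast_nonneg m
                             linarith) (fun s => ?_)
      ((Complex.abs_im_le_norm _).trans (coef_bd hC.diff hbl m))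
    have h3 := boundY hC.diff hC.ci hδ0 ht1 (k := m + 1) (by omega) s
    push_cast at h3
    exact h3
  · have h4 : tc kk (0 + 1) = 4 := by
      rw [tc_kk]
      norm_num
    rw [zero_add] at h4
    rw [ht1, h4]
    push_cast
    ring

theorem SDa.sum {g : ℂ → ℂ} {δ τ : ℝ} (D : SDa g δ τ) {ζ : ℂ} (hζ : ‖ζ‖ < 1) :
    HasSum (fun m : ℕ => (tc g (m + 1) - tc kk (m + 1)) * ζ ^ (m + 1)) (Hg g ζ) := by
  have h1 := (taylor D.diff hζ).sub (taylor kk_diff hζ)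
  have h2 := (hasSum_nat_add_iff' 1).2 h1
  have e1 : g ζ - kk ζ - ∑ i ∈ Finset.range 1, (tc g i * ζ ^ i - tc kk i * ζ ^ i) = Hg g ζ := by
    simp [Hg, tc, kk_zero]
    ring
  rw [e1] at h2
  refine hs_congr (fun m => ?_) h2
  ring

theorem SDa.δ0 {g : ℂ → ℂ} {δ τ : ℝ} (D : SDa g δ τ) : 0 ≤ δ := by rw [D.hδ]; positivity

theorem SDa.H_bd {g : ℂ → ℂ} {δ τ : ℝ} (D : SDa g δ τ) {ζ : ℂ} (hζ : ‖ζ‖ < 1) :
    ‖Hg g ζ‖ ≤ δ * ‖ζ‖ + 64 * τ * ‖ζ‖ ^ 2 / (1 - ‖ζ‖) ^ 3 := by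
  have hδ0 := D.δ0
  have hτ0 := D.τ0
  have hδτ : δ ≤ τ := by rw [D.hδ]; nlinarith [D.τ1, D.τ0]
  refine ser_bd (norm_nonneg ζ) hζ (D.sum hζ) ?_ ?_
  · rw [zero_add, D.one, norm_mul, Complex.norm_real, norm_neg, Real.norm_of_nonneg hδ0, pow_one]
  · intro m
    rw [norm_mul, norm_pow]
    have h1 := Complex.norm_le_abs_re_add_abs_im (tc g (m + 1 + 1) - tc kk (m + 1 + 1))
    have h2 := D.X (m + 1)
    have h3 := D.Y (m + 1)
    push_cast at h2 h3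
    have hm : (0 : ℝ) ≤ m := Nat.cast_nonneg m
    have h4 : ‖tc g (m + 1 + 1) - tc kk (m + 1 + 1)‖ ≤ 64 * τ * (((m + 2).choose 2 : ℕ) : ℝ) := by
      rw [choose_two]
      have h5 : ((m : ℝ) + 1 + 1) ^ 2 * δ ≤ ((m : ℝ) + 1 + 1) ^ 2 * τ := by gcongr
      have h6 : 15 * (((m : ℝ) + 1 + 1) * τ) ≤ 15 * (((m : ℝ) + 1 + 1) ^ 2 * τ) := by
        have : ((m : ℝ) + 1 + 1) ≤ ((m : ℝ) + 1 + 1) ^ 2 := by nlinarith
        gcongr
      have h7 : 16 * (((m : ℝ) + 1 + 1) ^ 2 * τ) ≤ 64 * τ * ((m + 2) * (m + 1) / 2) := by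
        have : ((m : ℝ) + 1 + 1) ^ 2 ≤ 2 * ((m + 2) * (m + 1)) := by nlinarith
        nlinarith
      linarith
    calc ‖tc g (m + 1 + 1) - tc kk (m + 1 + 1)‖ * ‖ζ‖ ^ (m + 1 + 1)
        ≤ (64 * τ * (((m + 2).choose 2 : ℕ) : ℝ)) * ‖ζ‖ ^ (m + 1 + 1) := by gcongr
      _ = _ := by ring

/-- the real (symmetric) part of the deviation -/
def Hs (g : ℂ → ℂ) (ζ : ℂ) : ℂ :=
  (Hg g ζ + (starRingEnd ℂ) (Hg g ((starRingEnd ℂ) ζ))) / 2

theorem SDa.Hs_sum {g : ℂ → ℂ} {δ τ : ℝ} (D : SDa g δ τ) {ζ : ℂ} (hζ : ‖ζ‖ < 1) :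
    HasSum (fun m : ℕ => (((tc g (m + 1) - tc kk (m + 1)).re : ℝ) : ℂ) * ζ ^ (m + 1)) (Hs g ζ) := by
  have h1 := D.sum hζ
  have h2 := D.sum (ζ := (starRingEnd ℂ) ζ) (by rwa [RCLike.norm_conj])
  have h3 : HasSum (fun m : ℕ => (starRingEnd ℂ) ((tc g (m + 1) - tc kk (m + 1)) *
      ((starRingEnd ℂ) ζ) ^ (m + 1))) ((starRingEnd ℂ) (Hg g ((starRingEnd ℂ) ζ))) :=
    h2.map (starRingEnd ℂ) Complex.continuous_conj
  have h4 := (h1.add h3).div_const 2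
  refine hs_congr (fun m => ?_) h4
  rw [map_mul, map_pow, Complex.conj_conj, Complex.re_eq_add_conj]
  ring

theorem SDa.Hs_bd {g : ℂ → ℂ} {δ τ : ℝ} (D : SDa g δ τ) {ζ : ℂ} (hζ : ‖ζ‖ < 1) :
    ‖Hs g ζ‖ ≤ δ * ‖ζ‖ + 4 * δ * ‖ζ‖ ^ 2 / (1 - ‖ζ‖) ^ 3 := by
  have hδ0 := D.δ0
  refine ser_bd (norm_nonneg ζ) hζ (D.Hs_sum hζ) ?_ ?_
  · have h1 := D.X 0
    rw [norm_mul, Complex.norm_real, Real.norm_eq_abs, zero_add, pow_one]
    simp only [zero_add, Nat.cast_zero, one_pow, one_mul] at h1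
    gcongr
  · intro m
    rw [norm_mul, norm_pow, Complex.norm_real, Real.norm_eq_abs]
    have h2 := D.X (m + 1)
    push_cast at h2
    have hm : (0 : ℝ) ≤ m := Nat.cast_nonneg m
    have h4 : |(tc g (m + 1 + 1) - tc kk (m + 1 + 1)).re| ≤
        4 * δ * (((m + 2).choose 2 : ℕ) : ℝ) := by
      rw [choose_two]
      have h7 : ((m : ℝ) + 1 + 1) ^ 2 * δ ≤ 4 * δ * ((m + 2) * (m + 1) / 2) := by
        have : ((m : ℝ) + 1 + 1) ^ 2 ≤ 2 * ((m + 2) * (m + 1)) := by nlinarith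
        nlinarith
      linarith
    calc |(tc g (m + 1 + 1) - tc kk (m + 1 + 1)).re| * ‖ζ‖ ^ (m + 1 + 1)
        ≤ (4 * δ * (((m + 2).choose 2 : ℕ) : ℝ)) * ‖ζ‖ ^ (m + 1 + 1) := by gcongr
      _ = _ := by ring

/-- the deviation on the real axis -/
theorem SDa.real_bd {g : ℂ → ℂ} {δ τ : ℝ} (D : SDa g δ τ) {x : ℝ} (hx : |x| < 1) :
    |(Hg g (x : ℂ)).re + δ * x| ≤ 4 * δ * x ^ 2 / (1 - |x|) ^ 3 := by
  have hδ0 := D.δ0
  have hζ : ‖(x : ℂ)‖ < 1 := by rwa [Complex.norm_real, Real.norm_eq_abs]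
  have h1 : Hs g (x : ℂ) = (((Hg g (x : ℂ)).re : ℝ) : ℂ) := by
    rw [Hs, Complex.conj_ofReal, Complex.re_eq_add_conj]
  have h2 := D.Hs_sum hζ
  have h3 : HasSum (fun m : ℕ => if m = 0 then (0 : ℂ) else
      (((tc g (m + 1) - tc kk (m + 1)).re : ℝ) : ℂ) * (x : ℂ) ^ (m + 1))
      (Hs g (x : ℂ) - (((tc g (0 + 1) - tc kk (0 + 1)).re : ℝ) : ℂ) * (x : ℂ) ^ (0 + 1)) := by
    have h4 := h2.sub (hasSum_ite_eq (0 : ℕ) ((((tc g (0 + 1) - tc kk (0 + 1)).re : ℝ) : ℂ) *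
      (x : ℂ) ^ (0 + 1)))
    refine hs_congr (fun m => ?_) h4
    by_cases hm : m = 0
    · subst hm
      simp
    · simp [hm]
  have h5 := ser_bd (abs_nonneg x) hx h3 (A := 0) (B := 4 * δ * x ^ 2) (by simp) (fun m => by
    rw [if_neg (by omega), norm_mul, norm_pow, Complex.norm_real, Real.norm_eq_abs,
      Complex.norm_real, Real.norm_eq_abs]
    have h2 := D.X (m + 1)
    push_cast at h2
    have hm : (0 : ℝ) ≤ m := Nat.cast_nonneg m
    have h4 : |(tc g (m + 1 + 1) - tc kk (m + 1 + 1)).re| ≤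
        4 * δ * (((m + 2).choose 2 : ℕ) : ℝ) := by
      rw [choose_two]
      have h7 : ((m : ℝ) + 1 + 1) ^ 2 * δ ≤ 4 * δ * ((m + 2) * (m + 1) / 2) := by
        have : ((m : ℝ) + 1 + 1) ^ 2 ≤ 2 * ((m + 2) * (m + 1)) := by nlinarith
        nlinarith
      linarith
    calc |(tc g (m + 1 + 1) - tc kk (m + 1 + 1)).re| * |x| ^ (m + 1 + 1)
        ≤ (4 * δ * (((m + 2).choose 2 : ℕ) : ℝ)) * |x| ^ (m + 1 + 1) := by gcongr
      _ = 4 * δ * x ^ 2 * ((((m + 2).choose 2 : ℕ) : ℝ) * |x| ^ m) := by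
        rw [← sq_abs x]
        ring)
  rw [zero_add, h1, zero_add, D.one] at h5
  have h6 : (((Hg g (x : ℂ)).re : ℝ) : ℂ) - ((((-δ : ℝ) : ℂ).re : ℝ) : ℂ) * (x : ℂ) ^ 1 =
      (((Hg g (x : ℂ)).re + δ * x : ℝ) : ℂ) := by
    rw [Complex.ofReal_re]
    push_cast
    ring
  rw [h6, Complex.norm_real, Real.norm_eq_abs] at h5
  exact h5

end Pool.Agent.Helper854_CM
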