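import Mathlib
import Pool.Agent.Helper854_CM.HB

/-!
Geometry of the circle `|z| = r` seen from the point `r`.
-/

set_option autoImplicit false

open MeasureTheory Filter Topology Complex Set Metric
open scoped ENNReal

noncomputable section

namespace Pool.Agent.Helper854_CM

/-- hyperbolic coordinate centred at `r` -/
def ze (r θ : ℝ) : ℂ := (zz r θ - r) / (1 - r * zz r θ)

/-- the scale -/
def bb (r : ℝ) : ℝ := 2 * r / (1 - r ^ 2)

variable {r : ℝ}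

theorem bb_pos (h0 : 0 < r) (h1 : r < 1) : 0 < bb r := by
  unfold bb
  have : 0 < 1 - r ^ 2 := by nlinarith
  positivity

theorem den_ne (h0 : 0 < r) (h1 : r < 1) (θ : ℝ) : (1 : ℂ) - r * zz r θ ≠ 0 := by
  intro h
  have h2 : (r : ℂ) * zz r θ = 1 := by linear_combination -h
  have h3 := congrArg norm h2
  rw [norm_mul, Complex.norm_real, norm_zz, norm_one, Real.norm_of_nonneg h0.le,
    abs_of_pos h0] at h3
  nlinarith

theorem zz_re (r θ : ℝ) : (zz r θ).re = r * Real.cos θ := by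
  unfold zz
  rw [Complex.re_ofReal_mul, Complex.exp_ofReal_mul_I_re]

theorem zz_im (r θ : ℝ) : (zz r θ).im = r * Real.sin θ := by
  unfold zz
  rw [Complex.im_ofReal_mul, Complex.exp_ofReal_mul_I_im]

theorem cos_half (θ : ℝ) : Real.cos θ = 1 - 2 * Real.sin (θ / 2) ^ 2 := by
  have h := Real.cos_sq' (θ / 2)
  have h2 := Real.cos_sq (θ / 2)
  have h3 : 2 * (θ / 2) = θ := by ring
  rw [h3] at h2
  linarith

theorem nsq_sub (r θ : ℝ) : ‖zz r θ - r‖ ^ 2 = 4 * r ^ 2 * Real.sin (θ / 2) ^ 2 := by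
  rw [nsq, Complex.sub_re, Complex.sub_im, zz_re, zz_im, Complex.ofReal_re, Complex.ofReal_im,
    sub_zero]
  have h1 := Real.sin_sq_add_cos_sq θ
  have h2 := cos_half θ
  have h3 : (r * Real.cos θ - r) ^ 2 + (r * Real.sin θ) ^ 2 =
      r ^ 2 * ((Real.sin θ ^ 2 + Real.cos θ ^ 2) + 1 - 2 * Real.cos θ) := by ring
  rw [h3, h1, h2]
  ring

theorem nsq_den (r θ : ℝ) : ‖1 - r * zz r θ‖ ^ 2 =
    (1 - r ^ 2) ^ 2 + 4 * r ^ 2 * Real.sin (θ / 2) ^ 2 := by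
  rw [nsq, Complex.sub_re, Complex.sub_im, Complex.re_ofReal_mul, Complex.im_ofReal_mul, zz_re,
    zz_im, Complex.one_re, Complex.one_im]
  have h1 := Real.sin_sq_add_cos_sq θ
  have h2 := cos_half θ
  have h3 : (1 - r * (r * Real.cos θ)) ^ 2 + (0 - r * (r * Real.sin θ)) ^ 2 =
      1 - 2 * r ^ 2 * Real.cos θ + r ^ 4 * (Real.sin θ ^ 2 + Real.cos θ ^ 2) := by ring
  rw [h3, h1, h2]
  ring

/-- `Y` -/
def YY (r θ : ℝ) : ℝ := bb r * |Real.sin (θ / 2)|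

theorem YY_nonneg (h0 : 0 < r) (h1 : r < 1) (θ : ℝ) : 0 ≤ YY r θ :=
  mul_nonneg (bb_pos h0 h1).le (abs_nonneg _)

theorem ze_norm (h0 : 0 < r) (h1 : r < 1) (θ : ℝ) :
    ‖ze r θ‖ ^ 2 = YY r θ ^ 2 / (1 + YY r θ ^ 2) := by
  have h2 : 0 < 1 - r ^ 2 := by nlinarith
  unfold ze YY bb
  rw [norm_div, div_pow, nsq_sub, nsq_den, mul_pow, sq_abs]
  have h3 : 0 < (1 - r ^ 2) ^ 2 + 4 * r ^ 2 * Real.sin (θ / 2) ^ 2 := by positivity
  field_simp
  ring

theorem ze_lt (h0 : 0 < r) (h1 : r < 1) (θ : ℝ) : ‖ze r θ‖ < 1 := by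
  have h2 := ze_norm h0 h1 θ
  have h3 : YY r θ ^ 2 / (1 + YY r θ ^ 2) < 1 := by
    rw [div_lt_one (by positivity)]
    linarith
  rw [← h2] at h3
  have := norm_nonneg (ze r θ)
  nlinarith

theorem ze_le_YY (h0 : 0 < r) (h1 : r < 1) (θ : ℝ) : ‖ze r θ‖ ≤ YY r θ := by
  have h2 := ze_norm h0 h1 θ
  have hY := YY_nonneg h0 h1 θ
  have h3 : ‖ze r θ‖ ^ 2 ≤ YY r θ ^ 2 := by
    rw [h2]
    exact div_le_self (by positivity) (by nlinarith [sq_nonneg (YY r θ)])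
  exact le_of_sq_le_sq h3 hY

theorem ze_inv (h0 : 0 < r) (h1 : r < 1) (θ : ℝ) :
    1 / (1 - ‖ze r θ‖) ^ 3 ≤ 8 * (1 + YY r θ ^ 2) ^ 3 := by
  have h2 := ze_norm h0 h1 θ
  have h3 := ze_lt h0 h1 θ
  have h4 := norm_nonneg (ze r θ)
  have h5 : 1 / (1 + YY r θ ^ 2) = 1 - ‖ze r θ‖ ^ 2 := by
    rw [h2]
    field_simp
    ring
  have h6 : 1 / (1 + YY r θ ^ 2) / 2 ≤ 1 - ‖ze r θ‖ := by
    rw [h5]
    nlinarith
  have h7 : 0 < 1 / (1 + YY r θ ^ 2) / 2 := by positivity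
  calc 1 / (1 - ‖ze r θ‖) ^ 3 ≤ 1 / (1 / (1 + YY r θ ^ 2) / 2) ^ 3 := by gcongr
    _ = _ := by
      field_simp
      norm_num

theorem YY_le (h0 : 0 < r) (h1 : r < 1) (θ : ℝ) : YY r θ ≤ bb r * |θ| / 2 := by
  unfold YY
  have := bb_pos h0 h1
  have h2 : |Real.sin (θ / 2)| ≤ |θ / 2| := Real.abs_sin_le_abs
  rw [abs_div, abs_two] at h2
  calc bb r * |Real.sin (θ / 2)| ≤ bb r * (|θ| / 2) := by gcongr
    _ = _ := by ring

theorem YY_ge (h0 : 0 < r) (h1 : r < 1) {θ : ℝ} (hθ : |θ| ≤ Real.pi) :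
    0.4 * (bb r * θ) ^ 2 ≤ 4 * YY r θ ^ 2 := by
  have hb := bb_pos h0 h1
  have hpi := Real.pi_pos
  unfold YY
  have h2 : |θ| / Real.pi ≤ |Real.sin (θ / 2)| := by
    have h3 : 2 / Real.pi * (|θ| / 2) ≤ Real.sin (|θ| / 2) :=
      Real.mul_le_sin (by positivity) (by linarith)
    have h4 : |Real.sin (θ / 2)| = Real.sin (|θ| / 2) := by
      rcases le_total 0 θ with h | h
      · rw [abs_of_nonneg h, abs_of_nonneg]
        rw [abs_of_nonneg h] at hθ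
        exact Real.sin_nonneg_of_mem_Icc ⟨by linarith, by linarith⟩
      · rw [abs_of_nonpos h] at hθ ⊢
        rw [← abs_neg, ← Real.sin_neg, abs_of_nonneg]
        · congr 1
          ring
        · exact Real.sin_nonneg_of_mem_Icc ⟨by linarith, by linarith⟩
    rw [h4]
    refine le_trans (le_of_eq ?_) h3
    field_simp
  have h5 : (|θ| / Real.pi) ^ 2 ≤ |Real.sin (θ / 2)| ^ 2 := by gcongr
  rw [div_pow, sq_abs θ, div_le_iff₀ (by positivity)] at h5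
  have h6 : Real.pi ^ 2 ≤ 10 := by
    have := Real.pi_lt_d2
    nlinarith
  have h7 : θ ^ 2 ≤ |Real.sin (θ / 2)| ^ 2 * 10 := by
    refine h5.trans ?_
    gcongr
  rw [mul_pow, mul_pow]
  nlinarith [sq_nonneg (bb r), mul_le_mul_of_nonneg_left h7 (sq_nonneg (bb r))]

theorem mob_ze (h0 : 0 < r) (h1 : r < 1) (θ : ℝ) : mob (r : ℂ) (ze r θ) = zz r θ := by
  have h2 := den_ne h0 h1 θ
  have h2' : (1 : ℂ) - zz r θ * r ≠ 0 := by rwa [mul_comm]
  have h3 : (1 : ℂ) - r ^ 2 ≠ 0 := by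
    have : ((1 : ℂ) - r ^ 2) = ((1 - r ^ 2 : ℝ) : ℂ) := by push_cast; ring
    rw [this, Complex.ofReal_ne_zero]
    nlinarith
  unfold mob ze
  rw [map_neg, Complex.conj_ofReal, sub_neg_eq_add]
  have h4 : (1 : ℂ) - -(r : ℂ) * ((zz r θ - r) / (1 - r * zz r θ)) =
      (1 - r ^ 2) / (1 - r * zz r θ) := by
    field_simp
    ring
  have h5 : (zz r θ - r) / (1 - r * zz r θ) + (r : ℂ) =
      (zz r θ * (1 - r ^ 2)) / (1 - r * zz r θ) := by
    field_simp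
    ring
  rw [h4, h5, div_div_div_cancel_right₀ h2, mul_div_cancel_right₀ _ h3]

theorem zz_zero (r : ℝ) : zz r 0 = r := by simp [zz]

theorem ze_neg (r θ : ℝ) : ze r (-θ) = (starRingEnd ℂ) (ze r θ) := by
  have h1 : zz r (-θ) = (starRingEnd ℂ) (zz r θ) := by
    apply Complex.ext
    · rw [Complex.conj_re, zz_re, zz_re, Real.cos_neg]
    · rw [Complex.conj_im, zz_im, zz_im, Real.sin_neg]
      ring
  unfold ze
  rw [h1, map_div₀, map_sub, map_sub, map_mul, map_one, Complex.conj_ofReal]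

theorem cay_ze (h0 : 0 < r) (h1 : r < 1) (θ : ℝ) :
    (1 + ze r θ) / (1 - ze r θ) = (((1 - r) / (1 + r) : ℝ) : ℂ) * ((1 + zz r θ) / (1 - zz r θ)) := by
  have h2 := den_ne h0 h1 θ
  have h2' : (1 : ℂ) - zz r θ * r ≠ 0 := by rwa [mul_comm]
  have hz : ‖zz r θ‖ < 1 := by rw [norm_zz, abs_of_pos h0]; exact h1
  have h3 := one_sub_ne' hz
  have h4 := one_sub_ne' (ze_lt h0 h1 θ)
  have h5 : (1 : ℂ) + r ≠ 0 := by
    have : ((1 : ℂ) + r) = ((1 + r : ℝ) : ℂ) := by push_cast; ring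
    rw [this, Complex.ofReal_ne_zero]
    positivity
  have h6 : (1 : ℂ) - ze r θ = (1 + r) * (1 - zz r θ) / (1 - r * zz r θ) := by
    unfold ze
    field_simp
    ring
  have h7 : (1 : ℂ) + ze r θ = (1 - r) * (1 + zz r θ) / (1 - r * zz r θ) := by
    unfold ze
    field_simp
    ring
  rw [h6, h7]
  push_cast
  field_simp

theorem kk_real (x : ℝ) (hx : |x| < 1) : kk (x : ℂ) = ((2 * Real.log ((1 + x) / (1 - x)) : ℝ) : ℂ) := by
  rw [abs_lt] at hx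
  have h1 : 0 < (1 + x) / (1 - x) := div_pos (by linarith) (by linarith)
  unfold kk
  have h2 : ((1 : ℂ) + x) / (1 - x) = (((1 + x) / (1 - x) : ℝ) : ℂ) := by push_cast; ring
  rw [h2, ← Complex.ofReal_log h1.le]
  push_cast
  ring

theorem kk_add (h0 : 0 < r) (h1 : r < 1) (θ : ℝ) : kk (zz r θ) = kk (r : ℂ) + kk (ze r θ) := by
  have hz : ‖zz r θ‖ < 1 := by rw [norm_zz, abs_of_pos h0]; exact h1
  have hw := cay_mem hz
  have hwne : (1 + zz r θ) / (1 - zz r θ) ≠ 0 := Complex.slitPlane_ne_zero hw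
  have hpos : 0 < (1 - r) / (1 + r) := div_pos (by linarith) (by linarith)
  rw [kk_real r (by rw [abs_of_pos h0]; exact h1)]
  unfold kk
  rw [cay_ze h0 h1, Complex.log_ofReal_mul hpos hwne]
  have h2 : Real.log ((1 - r) / (1 + r)) = -Real.log ((1 + r) / (1 - r)) := by
    rw [← Real.log_inv, inv_div]
  rw [h2]
  push_cast
  ring

theorem kk_conj {z : ℂ} (hz : ‖z‖ < 1) : kk ((starRingEnd ℂ) z) = (starRingEnd ℂ) (kk z) := by
  have hw := cay_mem hz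
  unfold kk
  rw [map_mul, Complex.conj_ofNat]
  congr 1
  have h1 : (1 + (starRingEnd ℂ) z) / (1 - (starRingEnd ℂ) z) =
      (starRingEnd ℂ) ((1 + z) / (1 - z)) := by
    rw [map_div₀, map_add, map_sub, map_one]
  rw [h1, Complex.log_conj]
  exact Complex.slitPlane_arg_ne_pi hw

theorem exp_re_kk {z : ℂ} (hz : ‖z‖ < 1) : Real.exp (kk z).re = ‖(1 + z) / (1 - z)‖ ^ 2 := by
  have hw := cay_mem hz
  have hne : (1 + z) / (1 - z) ≠ 0 := Complex.slitPlane_ne_zero hw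
  unfold kk
  have h1 : (2 * Complex.log ((1 + z) / (1 - z))).re = 2 * Real.log ‖(1 + z) / (1 - z)‖ := by
    have : (2 : ℂ) = ((2 : ℝ) : ℂ) := by norm_num
    rw [this, Complex.re_ofReal_mul, Complex.log_re]
  rw [h1, mul_comm, Real.exp_mul, Real.exp_log (norm_pos_iff.2 hne)]
  norm_cast

theorem exp_re_ze (h0 : 0 < r) (h1 : r < 1) (θ : ℝ) : Real.exp (kk (ze r θ)).re =
    ((1 + r) ^ 2 - 4 * r * Real.sin (θ / 2) ^ 2) * (1 - r) ^ 2 /
      (((1 - r) ^ 2 + 4 * r * Real.sin (θ / 2) ^ 2) * (1 + r) ^ 2) := by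
  have hz : ‖zz r θ‖ < 1 := by rw [norm_zz, abs_of_pos h0]; exact h1
  have h2 := cos_half θ
  have h3 := Real.sin_sq_add_cos_sq θ
  have e1 : ‖1 + zz r θ‖ ^ 2 = (1 + r) ^ 2 - 4 * r * Real.sin (θ / 2) ^ 2 := by
    rw [nsq, Complex.add_re, Complex.add_im, zz_re, zz_im, Complex.one_re, Complex.one_im]
    have : (1 + r * Real.cos θ) ^ 2 + (0 + r * Real.sin θ) ^ 2 =
      1 + 2 * r * Real.cos θ + r ^ 2 * (Real.sin θ ^ 2 + Real.cos θ ^ 2) := by ring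
    rw [this, h3, h2]
    ring
  have e2 : ‖1 - zz r θ‖ ^ 2 = (1 - r) ^ 2 + 4 * r * Real.sin (θ / 2) ^ 2 := by
    rw [nsq, Complex.sub_re, Complex.sub_im, zz_re, zz_im, Complex.one_re, Complex.one_im]
    have : (1 - r * Real.cos θ) ^ 2 + (0 - r * Real.sin θ) ^ 2 =
      1 - 2 * r * Real.cos θ + r ^ 2 * (Real.sin θ ^ 2 + Real.cos θ ^ 2) := by ring
    rw [this, h3, h2]
    ring
  rw [exp_re_kk (ze_lt h0 h1 θ), cay_ze h0 h1, norm_mul, Complex.norm_real, mul_pow,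
    Real.norm_eq_abs, sq_abs, norm_div, div_pow, div_pow, e1, e2, div_mul_div_comm]
  congr 1 <;> ring

theorem exp_re_upper (h0 : 0 < r) (h1 : r < 1) (θ : ℝ) :
    Real.exp (kk (ze r θ)).re ≤ 1 / (1 + 4 * YY r θ ^ 2) := by
  rw [exp_re_ze h0 h1]
  unfold YY bb
  rw [mul_pow, sq_abs, div_pow]
  obtain ⟨s, hs⟩ : ∃ s : ℝ, s = Real.sin (θ / 2) ^ 2 := ⟨_, rfl⟩
  have hs0 : 0 ≤ s := by rw [hs]; positivity
  rw [← hs]
  have h2 : 0 < 1 - r := by linarith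
  have h3 : 0 < 1 - r ^ 2 := by nlinarith
  have h4 : 0 < (1 - r) ^ 2 + 4 * r * s := by positivity
  rw [div_le_div_iff₀ (by positivity) (by positivity)]
  have h5 : (1 - r ^ 2) = (1 - r) * (1 + r) := by ring
  have h6 : 1 + 4 * ((2 * r) ^ 2 / (1 - r ^ 2) ^ 2 * s) =
      ((1 - r) ^ 2 * (1 + r) ^ 2 + 16 * r ^ 2 * s) / ((1 - r) ^ 2 * (1 + r) ^ 2) := by
    rw [h5, mul_pow]
    field_simp
    ring
  rw [h6, mul_div_assoc', div_le_iff₀ (by positivity)]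
  have h7 : ((1 + r) ^ 2 - 4 * r * s) * ((1 - r) ^ 2 * (1 + r) ^ 2 + 16 * r ^ 2 * s) ≤
      ((1 - r) ^ 2 + 4 * r * s) * (1 + r) ^ 2 * (1 + r) ^ 2 := by
    have e1 : ((1 - r) ^ 2 + 4 * r * s) * (1 + r) ^ 2 * (1 + r) ^ 2 -
        ((1 + r) ^ 2 - 4 * r * s) * ((1 - r) ^ 2 * (1 + r) ^ 2 + 16 * r ^ 2 * s) =
        4 * r * s * ((1 + r) ^ 2 * (((1 + r) ^ 2 - 4 * r) + (1 - r) ^ 2) + 16 * r ^ 2 * s) := by
      ring
    have e2 : (1 + r) ^ 2 - 4 * r = (1 - r) ^ 2 := by ring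
    rw [e2] at e1
    have : 0 ≤ 4 * r * s * ((1 + r) ^ 2 * ((1 - r) ^ 2 + (1 - r) ^ 2) + 16 * r ^ 2 * s) := by
      positivity
    linarith
  calc ((1 + r) ^ 2 - 4 * r * s) * (1 - r) ^ 2 * ((1 - r) ^ 2 * (1 + r) ^ 2 + 16 * r ^ 2 * s)
      = (((1 + r) ^ 2 - 4 * r * s) * ((1 - r) ^ 2 * (1 + r) ^ 2 + 16 * r ^ 2 * s)) *
        (1 - r) ^ 2 := by ring
    _ ≤ (((1 - r) ^ 2 + 4 * r * s) * (1 + r) ^ 2 * (1 + r) ^ 2) * (1 - r) ^ 2 := by gcongr
    _ = _ := by ring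

theorem exp_re_lower (h0 : 1 / 40 ≤ r) (h1 : r < 1) (θ : ℝ) :
    1 - 40 * (bb r * θ) ^ 2 ≤ Real.exp (kk (ze r θ)).re := by
  have hr0 : 0 < r := by linarith
  rw [exp_re_ze hr0 h1]
  unfold bb
  obtain ⟨s, hs⟩ : ∃ s : ℝ, s = Real.sin (θ / 2) ^ 2 := ⟨_, rfl⟩
  have hs0 : 0 ≤ s := by rw [hs]; positivity
  have hs1 : s ≤ 1 := by rw [hs]; exact Real.sin_sq_le_one _
  have hsθ : 4 * s ≤ θ ^ 2 := by
    have h2 : |Real.sin (θ / 2)| ≤ |θ / 2| := Real.abs_sin_le_abs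
    have h3 : |Real.sin (θ / 2)| ^ 2 ≤ |θ / 2| ^ 2 := by gcongr
    rw [sq_abs, sq_abs] at h3
    rw [hs]
    linarith
  rw [← hs]
  have h2 : 0 < 1 - r := by linarith
  have h3 : 0 < 1 - r ^ 2 := by nlinarith
  have h4 : 0 < (1 - r) ^ 2 + 4 * r * s := by positivity
  have h5 : (1 - r ^ 2) = (1 - r) * (1 + r) := by ring
  have h6 : 40 * (2 * r / (1 - r ^ 2) * θ) ^ 2 ≥ 16 * r * s / (1 - r ^ 2) ^ 2 := by
    rw [ge_iff_le, div_le_iff₀ (by positivity)]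
    have : 40 * (2 * r / (1 - r ^ 2) * θ) ^ 2 * (1 - r ^ 2) ^ 2 = 160 * r ^ 2 * θ ^ 2 := by
      field_simp
      ring
    rw [this]
    have h7 : 4 * r * θ ^ 2 ≤ 160 * r ^ 2 * θ ^ 2 := by
      have : 0 ≤ r * θ ^ 2 := by positivity
      nlinarith
    nlinarith
  refine le_trans (sub_le_sub_left h6 1) ?_
  rw [le_div_iff₀ (by positivity), h5, mul_pow]
  have h7 : 1 - 16 * r * s / ((1 - r) ^ 2 * (1 + r) ^ 2) =
      ((1 - r) ^ 2 * (1 + r) ^ 2 - 16 * r * s) / ((1 - r) ^ 2 * (1 + r) ^ 2) := by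
    field_simp
  rw [h7, div_mul_eq_mul_div, div_le_iff₀ (by positivity)]
  have h8 : ((1 - r) ^ 2 * (1 + r) ^ 2 - 16 * r * s) * ((1 - r) ^ 2 + 4 * r * s) ≤
      ((1 + r) ^ 2 - 4 * r * s) * (1 - r) ^ 2 * (1 - r) ^ 2 := by
    have e1 : ((1 + r) ^ 2 - 4 * r * s) * (1 - r) ^ 2 * (1 - r) ^ 2 -
        ((1 - r) ^ 2 * (1 + r) ^ 2 - 16 * r * s) * ((1 - r) ^ 2 + 4 * r * s) =
        4 * r * s * ((1 - r) ^ 2 * (4 - (1 - r) ^ 2 - (1 + r) ^ 2) + 16 * r * s) := by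
      ring
    have e2 : 4 - (1 - r) ^ 2 - (1 + r) ^ 2 = 2 * (1 - r ^ 2) := by ring
    rw [e2] at e1
    have : 0 ≤ 4 * r * s * ((1 - r) ^ 2 * (2 * (1 - r ^ 2)) + 16 * r * s) := by positivity
    linarith
  calc ((1 - r) ^ 2 * (1 + r) ^ 2 - 16 * r * s) * (((1 - r) ^ 2 + 4 * r * s) * (1 + r) ^ 2)
      = (((1 - r) ^ 2 * (1 + r) ^ 2 - 16 * r * s) * ((1 - r) ^ 2 + 4 * r * s)) *
        (1 + r) ^ 2 := by ring
    _ ≤ (((1 + r) ^ 2 - 4 * r * s) * (1 - r) ^ 2 * (1 - r) ^ 2) * (1 + r) ^ 2 := by gcongr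
    _ = _ := by ring

/-- the phase -/
theorem phase (h0 : 1 / 40 ≤ r) (h1 : r < 1) (θ : ℝ) :
    |(kk (ze r θ)).im - 2 * bb r * θ| ≤ 402 * (bb r * |θ|) ^ 3 := by
  have hr0 : 0 < r := by linarith
  have hb := bb_pos hr0 h1
  have h2 : 0 < 1 - r ^ 2 := by nlinarith
  have hb20 : 1 / 20 ≤ bb r := by
    unfold bb
    rw [le_div_iff₀ h2]
    nlinarith
  have hr' : r ∈ Ioo (-1 : ℝ) 1 := ⟨by linarith, h1⟩
  have hz : ∀ t : ℝ, ‖zz r t‖ < 1 := fun t => by rw [norm_zz, abs_of_pos hr0]; exact h1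
  have hre : ∀ t : ℝ, (kk (ze r t)).im = (kk (zz r t)).im := by
    intro t
    rw [kk_add hr0 h1, kk_real r (by rw [abs_of_pos hr0]; exact h1), Complex.add_im,
      Complex.ofReal_im, zero_add]
  -- the derivative
  have hder : ∀ t : ℝ, HasDerivAt (fun t => (kk (zz r t)).im - 2 * bb r * t)
      (2 * bb r * Real.cos t / (1 + bb r ^ 2 * Real.sin t ^ 2) - 2 * bb r) t := by
    intro t
    have e1 : HasDerivAt (fun t => kk (zz r t)) (4 / (1 - zz r t ^ 2) * (I * zz r t)) t := by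
      have := (kk_deriv (hz t)).scomp t (zz_dt r t)
      change HasDerivAt (kk ∘ zz r) _ t
      refine this.congr_deriv ?_
      rw [smul_eq_mul]
      ring
    have e2 := im_deriv e1
    have e3 : (4 / (1 - zz r t ^ 2) * (I * zz r t)).im =
        2 * bb r * Real.cos t / (1 + bb r ^ 2 * Real.sin t ^ 2) := by
      have f1 : (4 / (1 - zz r t ^ 2) * (I * zz r t)).im = (4 * zz r t / (1 - zz r t ^ 2)).re := by
        have : 4 / (1 - zz r t ^ 2) * (I * zz r t) = I * (4 * zz r t / (1 - zz r t ^ 2)) := by ring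
        rw [this]
        simp
      rw [f1]
      have f2 := one_sub_ne' (hz t)
      have f3 := one_add_ne' (hz t)
      have f4 : 4 * zz r t / (1 - zz r t ^ 2) = 2 * (1 - zz r t)⁻¹ - 2 * (1 + zz r t)⁻¹ := by
        have f5 := one_sub_sq_ne (hz t)
        have f6 : (1 : ℂ) - zz r t ^ 2 = (1 - zz r t) * (1 + zz r t) := by ring
        rw [f6] at f5 ⊢
        field_simp
        ring
      rw [f4]
      have g1 : Complex.normSq (1 - zz r t) = 1 - 2 * (r * Real.cos t) + r ^ 2 := by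
        rw [Complex.normSq_apply, Complex.sub_re, Complex.sub_im, zz_re, zz_im, Complex.one_re,
          Complex.one_im]
        have := Real.sin_sq_add_cos_sq t
        nlinarith
      have g2 : Complex.normSq (1 + zz r t) = 1 + 2 * (r * Real.cos t) + r ^ 2 := by
        rw [Complex.normSq_apply, Complex.add_re, Complex.add_im, zz_re, zz_im, Complex.one_re,
          Complex.one_im]
        have := Real.sin_sq_add_cos_sq t
        nlinarith
      have g3 : (2 * (1 - zz r t)⁻¹ - 2 * (1 + zz r t)⁻¹).re =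
          2 * ((1 - r * Real.cos t) / (1 - 2 * (r * Real.cos t) + r ^ 2)) -
          2 * ((1 + r * Real.cos t) / (1 + 2 * (r * Real.cos t) + r ^ 2)) := by
        rw [Complex.sub_re]
        have t2 : (2 : ℂ) = ((2 : ℝ) : ℂ) := by norm_num
        rw [t2, Complex.re_ofReal_mul, Complex.re_ofReal_mul, Complex.inv_re, Complex.inv_re, g1, g2,
          Complex.sub_re, Complex.add_re, zz_re, Complex.one_re]
      rw [g3]
      have g4 : 0 < 1 - 2 * (r * Real.cos t) + r ^ 2 := by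
        rw [← g1]
        exact Complex.normSq_pos.2 f2
      have g5 : 0 < 1 + 2 * (r * Real.cos t) + r ^ 2 := by
        rw [← g2]
        exact Complex.normSq_pos.2 f3
      have g6 : Real.sin t ^ 2 = 1 - Real.cos t ^ 2 := by
        have := Real.sin_sq_add_cos_sq t
        linarith
      have g7 : 0 < (1 - r ^ 2) ^ 2 + 4 * r ^ 2 * (1 - Real.cos t ^ 2) := by
        rw [← g6]; positivity
      unfold bb
      rw [g6, div_pow]
      have g8 : 1 + (2 * r) ^ 2 / (1 - r ^ 2) ^ 2 * (1 - Real.cos t ^ 2) =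
          ((1 - 2 * (r * Real.cos t) + r ^ 2) * (1 + 2 * (r * Real.cos t) + r ^ 2)) /
            (1 - r ^ 2) ^ 2 := by
        field_simp
        ring
      rw [g8]
      obtain ⟨x, hx⟩ : ∃ x : ℝ, x = r * Real.cos t := ⟨_, rfl⟩
      rw [← hx] at g4 g5 ⊢
      have i1 : 2 * ((1 - x) / (1 - 2 * x + r ^ 2)) - 2 * ((1 + x) / (1 + 2 * x + r ^ 2)) =
          4 * x * (1 - r ^ 2) / ((1 - 2 * x + r ^ 2) * (1 + 2 * x + r ^ 2)) := by
        have g4' := g4.ne'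
        have g5' := g5.ne'
        generalize hA : 1 - 2 * x + r ^ 2 = A at g4' ⊢
        generalize hB : 1 + 2 * x + r ^ 2 = B at g5' ⊢
        field_simp
        rw [← hA, ← hB]
        ring
      have i2 : 2 * (2 * r / (1 - r ^ 2)) * Real.cos t /
          ((1 - 2 * x + r ^ 2) * (1 + 2 * x + r ^ 2) / (1 - r ^ 2) ^ 2) =
          4 * x * (1 - r ^ 2) / ((1 - 2 * x + r ^ 2) * (1 + 2 * x + r ^ 2)) := by
        have g4' := g4.ne'
        have g5' := g5.ne'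
        have h2' := h2.ne'
        rw [hx]
        rw [hx] at g4' g5'
        generalize 1 - 2 * (r * Real.cos t) + r ^ 2 = A at g4' ⊢
        generalize 1 + 2 * (r * Real.cos t) + r ^ 2 = B at g5' ⊢
        field_simp
        ring
      rw [i1, i2]
    rw [e3] at e2
    have e4 : HasDerivAt (fun t : ℝ => 2 * bb r * t) (2 * bb r) t := by
      simpa using (hasDerivAt_id t).const_mul (2 * bb r)
    exact e2.sub e4
  have hbd : ∀ t ∈ Icc (-|θ|) |θ|,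
      ‖2 * bb r * Real.cos t / (1 + bb r ^ 2 * Real.sin t ^ 2) - 2 * bb r‖ ≤
        bb r * (1 + 2 * bb r ^ 2) * θ ^ 2 := by
    intro t ht
    have ht2 : t ^ 2 ≤ θ ^ 2 := by
      have : |t| ≤ |θ| := abs_le.2 ht
      rw [← sq_abs t, ← sq_abs θ]
      gcongr
    have e1 : 2 * bb r * Real.cos t / (1 + bb r ^ 2 * Real.sin t ^ 2) - 2 * bb r =
        -(2 * bb r * ((1 - Real.cos t) + bb r ^ 2 * Real.sin t ^ 2) /
          (1 + bb r ^ 2 * Real.sin t ^ 2)) := by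
      field_simp
      ring
    have e2 : 0 ≤ 1 - Real.cos t := by linarith [Real.cos_le_one t]
    have e3 : 1 - Real.cos t ≤ t ^ 2 / 2 := by
      have := Real.one_sub_sq_div_two_le_cos (x := t)
      linarith
    have e4 : Real.sin t ^ 2 ≤ t ^ 2 := by
      have := Real.abs_sin_le_abs (x := t)
      rw [← sq_abs (Real.sin t), ← sq_abs t]
      gcongr
    rw [e1, norm_neg, Real.norm_eq_abs, abs_of_nonneg (by positivity)]
    calc 2 * bb r * ((1 - Real.cos t) + bb r ^ 2 * Real.sin t ^ 2) /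
          (1 + bb r ^ 2 * Real.sin t ^ 2)
        ≤ 2 * bb r * ((1 - Real.cos t) + bb r ^ 2 * Real.sin t ^ 2) :=
          div_le_self (by positivity) (by
            have : 0 ≤ bb r ^ 2 * Real.sin t ^ 2 := by positivity
            linarith)
      _ ≤ 2 * bb r * (θ ^ 2 / 2 + bb r ^ 2 * θ ^ 2) := by
          have : (1 - Real.cos t) ≤ θ ^ 2 / 2 := by linarith
          have : Real.sin t ^ 2 ≤ θ ^ 2 := by linarith
          gcongr
      _ = _ := by ring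
  have hmv := (convex_Icc (-|θ|) |θ|).norm_image_sub_le_of_norm_hasDerivWithin_le
    (f := fun t => (kk (zz r t)).im - 2 * bb r * t)
    (fun t _ => (hder t).hasDerivWithinAt) hbd
    (x := 0) (y := θ) ⟨by simp, abs_nonneg θ⟩ ⟨neg_abs_le θ, le_abs_self θ⟩
  have h00 : (kk (zz r 0)).im - 2 * bb r * 0 = 0 := by
    rw [zz_zero, kk_real r (by rw [abs_of_pos hr0]; exact h1), Complex.ofReal_im]
    ring
  simp only [h00] at hmv
  rw [sub_zero, sub_zero, Real.norm_eq_abs, Real.norm_eq_abs] at hmv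
  rw [hre]
  refine hmv.trans ?_
  have e1 : bb r * (1 + 2 * bb r ^ 2) * θ ^ 2 * |θ| ≤ 402 * bb r ^ 3 * (θ ^ 2 * |θ|) := by
    have : bb r * (1 + 2 * bb r ^ 2) ≤ 402 * bb r ^ 3 := by
      have : 1 ≤ 400 * bb r ^ 2 := by nlinarith
      nlinarith
    calc bb r * (1 + 2 * bb r ^ 2) * θ ^ 2 * |θ| = (bb r * (1 + 2 * bb r ^ 2)) * (θ ^ 2 * |θ|) := by
          ring
      _ ≤ 402 * bb r ^ 3 * (θ ^ 2 * |θ|) := by gcongr
  refine e1.trans (le_of_eq ?_)
  rw [← sq_abs θ]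
  ring

end Pool.Agent.Helper854_CM
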