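import Mathlib
import Pool.Agent.Helper854_CM.Geo

/-!
Integral bounds on the circle `|z| = r`.
-/

set_option autoImplicit false

open MeasureTheory Filter Topology Complex Set Metric
open scoped ENNReal

noncomputable section

namespace Pool.Agent.Helper854_CM

theorem int_lor {c : ℝ} (hc : 0 < c) :
    ∫ θ in (-Real.pi)..Real.pi, 1 / (1 + (c * θ) ^ 2) ≤ Real.pi / c := by
  have hpi := Real.pi_pos
  have h1 : ∀ θ ∈ uIcc (-Real.pi) Real.pi,
      HasDerivAt (fun θ => Real.arctan (c * θ) / c) (1 / (1 + (c * θ) ^ 2)) θ := by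
    intro θ _
    have h2 : HasDerivAt (fun θ : ℝ => c * θ) c θ := by
      simpa using (hasDerivAt_id θ).const_mul c
    refine ((h2.arctan).div_const c).congr_deriv ?_
    field_simp
  have hcont : Continuous fun θ : ℝ => 1 / (1 + (c * θ) ^ 2) :=
    continuous_const.div (by fun_prop) fun θ => by positivity
  rw [intervalIntegral.integral_eq_sub_of_hasDerivAt h1 (hcont.intervalIntegrable _ _), ← sub_div]
  have h3 := Real.arctan_lt_pi_div_two (c * Real.pi)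
  have h4 := Real.neg_pi_div_two_lt_arctan (c * -Real.pi)
  gcongr
  linarith

/-- the common weight -/
def Gam (W : ℝ) : ℝ := 1 / (1 + W ^ 2 / 50) ^ 10

theorem Gam_pos (W : ℝ) : 0 < Gam W := by unfold Gam; positivity

theorem Gam_le (W : ℝ) : Gam W * (1 + W ^ 2) ^ 8 ≤ 50 ^ 9 * (1 / (1 + W ^ 2)) := by
  unfold Gam
  have h1 : 1 + W ^ 2 ≤ 50 * (1 + W ^ 2 / 50) := by nlinarith [sq_nonneg W]
  have h2 : (1 + W ^ 2) ^ 9 ≤ 50 ^ 9 * (1 + W ^ 2 / 50) ^ 10 := by
    calc (1 + W ^ 2) ^ 9 ≤ (50 * (1 + W ^ 2 / 50)) ^ 9 := by gcongr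
      _ = 50 ^ 9 * (1 + W ^ 2 / 50) ^ 9 := by ring
      _ ≤ 50 ^ 9 * (1 + W ^ 2 / 50) ^ 10 := by
        have : (1 : ℝ) ≤ 1 + W ^ 2 / 50 := by nlinarith [sq_nonneg W]
        have h3 : (1 + W ^ 2 / 50) ^ 9 ≤ (1 + W ^ 2 / 50) ^ 10 := pow_le_pow_right₀ this (by norm_num)
        gcongr
  rw [div_mul_eq_mul_div, one_mul, mul_one_div, div_le_div_iff₀ (by positivity) (by positivity)]
  calc (1 + W ^ 2) ^ 8 * (1 + W ^ 2) = (1 + W ^ 2) ^ 9 := by ring
    _ ≤ _ := h2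

theorem pow_exp {a q : ℝ} (h : Real.exp a ≤ q) (p : ℝ) (hp : 0 ≤ p) : Real.exp (p * a) ≤ q ^ p := by
  rw [mul_comm, Real.exp_mul]
  exact Real.rpow_le_rpow (Real.exp_pos _).le h hp

/-- the basic decay -/
theorem decay {r : ℝ} (h0 : 0 < r) (h1 : r < 1) {p : ℝ} (hp : 20 ≤ p) {θ : ℝ}
    (hθ : |θ| ≤ Real.pi) :
    Real.exp (p / 2 * (kk (ze r θ)).re) ≤ Gam (Real.sqrt p * bb r * θ) := by
  have h2 := exp_re_upper h0 h1 θ
  have h3 := YY_ge h0 h1 hθ
  have h4 : Real.exp (kk (ze r θ)).re ≤ 1 / (1 + 0.4 * (bb r * θ) ^ 2) := by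
    refine h2.trans ?_
    gcongr
  have h5 := pow_exp h4 (p / 2) (by linarith)
  refine h5.trans ?_
  unfold Gam
  have h6 : 1 + p / 20 * (0.4 * (bb r * θ) ^ 2) ≤ (1 + 0.4 * (bb r * θ) ^ 2) ^ (p / 20) :=
    one_add_mul_self_le_rpow_one_add (by nlinarith [sq_nonneg (bb r * θ)]) (by linarith)
  have h7 : (1 / (1 + 0.4 * (bb r * θ) ^ 2)) ^ (p / 2) =
      1 / ((1 + 0.4 * (bb r * θ) ^ 2) ^ (p / 20)) ^ 10 := by
    have hB : 0 ≤ 1 + 0.4 * (bb r * θ) ^ 2 := by positivity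
    generalize 1 + 0.4 * (bb r * θ) ^ 2 = B at hB
    rw [Real.div_rpow (by norm_num) hB, Real.one_rpow, ← Real.rpow_natCast,
      ← Real.rpow_mul hB]
    congr 2
    push_cast
    ring
  rw [h7]
  have h8 : 1 + (Real.sqrt p * bb r * θ) ^ 2 / 50 = 1 + p / 20 * (0.4 * (bb r * θ) ^ 2) := by
    have : (Real.sqrt p * bb r * θ) ^ 2 = p * (bb r * θ) ^ 2 := by
      rw [mul_assoc, mul_pow, Real.sq_sqrt (by linarith)]
    rw [this]
    ring
  rw [h8]
  have h9 : 0 < 1 + p / 20 * (0.4 * (bb r * θ) ^ 2) := by positivity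
  gcongr

theorem re_nonpos {r : ℝ} (h0 : 0 < r) (h1 : r < 1) (θ : ℝ) : (kk (ze r θ)).re ≤ 0 := by
  have h2 := exp_re_upper h0 h1 θ
  have h3 : 1 / (1 + 4 * YY r θ ^ 2) ≤ 1 := by
    rw [div_le_one (by positivity)]
    nlinarith [sq_nonneg (YY r θ)]
  have h4 := h2.trans h3
  rwa [Real.exp_le_one_iff] at h4

theorem decay' {r : ℝ} (h0 : 0 < r) (h1 : r < 1) {p : ℝ} (hp : 20 ≤ p) {θ : ℝ}
    (hθ : |θ| ≤ Real.pi) :
    Real.exp (p * (kk (ze r θ)).re) ≤ Gam (Real.sqrt p * bb r * θ) := by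
  refine le_trans ?_ (decay h0 h1 hp hθ)
  refine Real.exp_le_exp.2 ?_
  have := re_nonpos h0 h1 θ
  nlinarith

theorem ze_cont {r : ℝ} (h0 : 0 < r) (h1 : r < 1) : Continuous (ze r) := by
  have hzc : Continuous fun θ : ℝ => zz r θ :=
    zz_cont.comp (by fun_prop : Continuous fun θ : ℝ => (r, θ))
  unfold ze
  exact (hzc.sub continuous_const).div (continuous_const.sub (continuous_const.mul hzc))
    (den_ne h0 h1)

theorem comp_ze_cont {r : ℝ} (h0 : 0 < r) (h1 : r < 1) {F : ℂ → ℂ}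
    (hF : DifferentiableOn ℂ F (ball 0 1)) : Continuous fun θ => F (ze r θ) := by
  rw [continuous_iff_continuousAt]
  intro θ
  have h2 : ze r θ ∈ ball (0 : ℂ) 1 := by simpa using ze_lt h0 h1 θ
  exact ContinuousAt.comp (g := F)
    (hF.differentiableAt (isOpen_ball.mem_nhds h2)).continuousAt (ze_cont h0 h1).continuousAt

/-- the extremal integral -/
def ITT (p r : ℝ) : ℝ := ∫ θ in (-Real.pi)..Real.pi,
  Real.exp (p * (kk (ze r θ)).re) * Real.cos (p * ((kk (ze r θ)).im - 2 * bb r * θ))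

theorem ITT_lower {p r : ℝ} (hp : 10 ^ 23 ≤ p) (h0 : 1 / 40 ≤ r) (h1 : r < 1) :
    0.04 / (bb r * Real.sqrt p) ≤ ITT p r := by
  have hpi := Real.pi_pos
  have hr0 : 0 < r := by linarith
  have hb := bb_pos hr0 h1
  have hp1 : 1 ≤ p := by linarith [show (1 : ℝ) ≤ 10 ^ 23 by norm_num]
  have hp20 : 20 ≤ p := by linarith [show (20 : ℝ) ≤ 10 ^ 23 by norm_num]
  have hp0 : 0 < p := by linarith
  have hsp : 1 ≤ Real.sqrt p := by rw [Real.one_le_sqrt]; exact hp1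
  have hsp0 : 0 < Real.sqrt p := by linarith
  have hspp : Real.sqrt p ^ 2 = p := Real.sq_sqrt hp0.le
  have hb20 : 1 / 20 ≤ bb r := by
    unfold bb
    rw [le_div_iff₀ (by nlinarith)]
    nlinarith
  obtain ⟨c, hc⟩ : ∃ c : ℝ, c = Real.sqrt p * bb r := ⟨_, rfl⟩
  have hc0 : 0 < c := by rw [hc]; positivity
  obtain ⟨f, hf⟩ : ∃ f : ℝ → ℝ, ∀ θ, f θ = Real.exp (p * (kk (ze r θ)).re) *
      Real.cos (p * ((kk (ze r θ)).im - 2 * bb r * θ)) := ⟨_, fun θ => rfl⟩
  have hkc := comp_ze_cont hr0 h1 kk_diff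
  have hfc : Continuous f := by
    rw [funext hf]
    have h2 : Continuous fun θ => (kk (ze r θ)).re := Complex.continuous_re.comp hkc
    have h3 : Continuous fun θ => (kk (ze r θ)).im := Complex.continuous_im.comp hkc
    fun_prop
  obtain ⟨q, hq⟩ : ∃ q : ℝ → ℝ, ∀ θ, q θ = (80802 * 50 ^ 9 / p) * (1 / (1 + (c * θ) ^ 2)) :=
    ⟨_, fun θ => rfl⟩
  have hqc : Continuous q := by
    rw [funext hq]
    exact continuous_const.mul (continuous_const.div (by fun_prop) fun θ => by positivity)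
  have hq0 : ∀ θ, 0 ≤ q θ := fun θ => by rw [hq]; positivity
  -- the phase in terms of `c θ`
  have hph : ∀ θ, |p * ((kk (ze r θ)).im - 2 * bb r * θ)| ≤ 402 * |c * θ| ^ 3 / Real.sqrt p := by
    intro θ
    rw [abs_mul, abs_of_pos hp0]
    calc p * |(kk (ze r θ)).im - 2 * bb r * θ| ≤ p * (402 * (bb r * |θ|) ^ 3) := by
          have := phase h0 h1 θ
          gcongr
      _ = 402 * |c * θ| ^ 3 / Real.sqrt p := by
          rw [abs_mul, abs_of_pos hc0, hc, eq_div_iff hsp0.ne']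
          have : p = Real.sqrt p ^ 2 := hspp.symm
          calc p * (402 * (bb r * |θ|) ^ 3) * Real.sqrt p
              = Real.sqrt p ^ 2 * (402 * (bb r * |θ|) ^ 3) * Real.sqrt p := by rw [← this]
            _ = _ := by ring
  have hlow : ∀ θ, |θ| ≤ Real.pi → -q θ ≤ f θ := by
    intro θ hθ
    rw [hf, hq]
    have h2 := decay' hr0 h1 hp20 hθ
    rw [← hc] at h2
    have h3 := Real.one_sub_sq_div_two_le_cos (x := p * ((kk (ze r θ)).im - 2 * bb r * θ))
    have h4 : (p * ((kk (ze r θ)).im - 2 * bb r * θ)) ^ 2 ≤ 402 ^ 2 * (1 + (c * θ) ^ 2) ^ 8 / p := by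
      rw [← sq_abs]
      calc |p * ((kk (ze r θ)).im - 2 * bb r * θ)| ^ 2 ≤ (402 * |c * θ| ^ 3 / Real.sqrt p) ^ 2 := by
            have := hph θ
            gcongr
        _ = 402 ^ 2 * ((c * θ) ^ 2) ^ 3 / p := by
            rw [div_pow, hspp, mul_pow, ← pow_mul, ← sq_abs (c * θ)]
            ring
        _ ≤ 402 ^ 2 * (1 + (c * θ) ^ 2) ^ 8 / p := by
            have h5 : ((c * θ) ^ 2) ^ 3 ≤ (1 + (c * θ) ^ 2) ^ 8 := by
              calc ((c * θ) ^ 2) ^ 3 ≤ (1 + (c * θ) ^ 2) ^ 3 := by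
                    gcongr
                    linarith
                _ ≤ (1 + (c * θ) ^ 2) ^ 8 :=
                    pow_le_pow_right₀ (by nlinarith [sq_nonneg (c * θ)]) (by norm_num)
            gcongr
    have h6 : -(402 ^ 2 * (1 + (c * θ) ^ 2) ^ 8 / p / 2) ≤
        Real.cos (p * ((kk (ze r θ)).im - 2 * bb r * θ)) := by linarith
    have hE := Real.exp_pos (p * (kk (ze r θ)).re)
    have hG := Gam_le (c * θ)
    have h7 : -(Gam (c * θ) * (402 ^ 2 * (1 + (c * θ) ^ 2) ^ 8 / p / 2)) ≤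
        Real.exp (p * (kk (ze r θ)).re) * Real.cos (p * ((kk (ze r θ)).im - 2 * bb r * θ)) := by
      have h8 : 0 ≤ 402 ^ 2 * (1 + (c * θ) ^ 2) ^ 8 / p / 2 := by positivity
      calc -(Gam (c * θ) * (402 ^ 2 * (1 + (c * θ) ^ 2) ^ 8 / p / 2))
          ≤ -(Real.exp (p * (kk (ze r θ)).re) * (402 ^ 2 * (1 + (c * θ) ^ 2) ^ 8 / p / 2)) := by
            gcongr
        _ = Real.exp (p * (kk (ze r θ)).re) * -(402 ^ 2 * (1 + (c * θ) ^ 2) ^ 8 / p / 2) := by ring
        _ ≤ _ := by gcongr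
    refine le_trans ?_ h7
    rw [neg_le_neg_iff]
    calc Gam (c * θ) * (402 ^ 2 * (1 + (c * θ) ^ 2) ^ 8 / p / 2)
        = 402 ^ 2 / p / 2 * (Gam (c * θ) * (1 + (c * θ) ^ 2) ^ 8) := by ring
      _ ≤ 402 ^ 2 / p / 2 * (50 ^ 9 * (1 / (1 + (c * θ) ^ 2))) := by gcongr
      _ = _ := by ring
  obtain ⟨a, ha⟩ : ∃ a : ℝ, a = 1 / (20 * c) := ⟨_, rfl⟩
  have ha0 : 0 < a := by rw [ha]; positivity
  have hapi : a ≤ Real.pi := by
    rw [ha, div_le_iff₀ (by positivity)]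
    have h2 : 1 / 20 ≤ c := by
      rw [hc]
      nlinarith
    nlinarith [Real.pi_gt_three]
  have hmid : ∀ θ ∈ Icc (-a) a, 0.89 ≤ f θ := by
    intro θ hθ
    have hθa : |θ| ≤ a := abs_le.2 hθ
    have hct : |c * θ| ≤ 1 / 20 := by
      rw [abs_mul, abs_of_pos hc0]
      calc c * |θ| ≤ c * a := by gcongr
        _ = 1 / 20 := by rw [ha]; field_simp
    rw [hf]
    have h2 := exp_re_lower h0 h1 θ
    have h3 : (bb r * θ) ^ 2 = (c * θ) ^ 2 / p := by
      rw [hc, eq_div_iff hp0.ne']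
      calc (bb r * θ) ^ 2 * p = (bb r * θ) ^ 2 * Real.sqrt p ^ 2 := by rw [hspp]
        _ = _ := by ring
    have h4 : (c * θ) ^ 2 ≤ 1 / 400 := by
      rw [← sq_abs]
      calc |c * θ| ^ 2 ≤ (1 / 20) ^ 2 := by gcongr
        _ = _ := by norm_num
    have h5 : 1 - 0.1 / p ≤ Real.exp (kk (ze r θ)).re := by
      refine le_trans ?_ h2
      rw [h3]
      have : 40 * ((c * θ) ^ 2 / p) ≤ 40 * (1 / 400 / p) := by gcongr
      have e : 40 * (1 / 400 / p) = 0.1 / p := by ring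
      linarith
    have h6 : (0.9 : ℝ) ≤ Real.exp (p * (kk (ze r θ)).re) := by
      have h7 : 1 + p * (-(0.1 / p)) ≤ (1 + -(0.1 / p)) ^ p :=
        one_add_mul_self_le_rpow_one_add (by
          have : 0.1 / p ≤ 1 := by rw [div_le_one hp0]; linarith
          linarith) hp1
      have h8 : (1 + -(0.1 / p)) ^ p ≤ Real.exp (kk (ze r θ)).re ^ p := by
        refine Real.rpow_le_rpow ?_ (by linarith) hp0.le
        have : 0.1 / p ≤ 1 := by rw [div_le_one hp0]; linarith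
        linarith
      rw [← Real.exp_mul, mul_comm _ p] at h8
      have h9 : 1 + p * (-(0.1 / p)) = 0.9 := by
        field_simp
        norm_num
      linarith
    have h7 : (0.99 : ℝ) ≤ Real.cos (p * ((kk (ze r θ)).im - 2 * bb r * θ)) := by
      have h8 := hph θ
      have h9 : 402 * |c * θ| ^ 3 / Real.sqrt p ≤ 0.1 := by
        rw [div_le_iff₀ hsp0]
        have : |c * θ| ^ 3 ≤ (1 / 20) ^ 3 := by gcongr
        nlinarith
      have h10 := Real.one_sub_sq_div_two_le_cos (x := p * ((kk (ze r θ)).im - 2 * bb r * θ))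
      have h11 : (p * ((kk (ze r θ)).im - 2 * bb r * θ)) ^ 2 ≤ 0.1 ^ 2 := by
        rw [← sq_abs]
        have := h8.trans h9
        gcongr
      norm_num at h11 ⊢
      linarith
    calc (0.89 : ℝ) ≤ 0.9 * 0.99 := by norm_num
      _ ≤ _ := by gcongr
  have h2 : ∫ θ in (-a)..a, (f θ + q θ) ≤ ∫ θ in (-Real.pi)..Real.pi, (f θ + q θ) := by
    refine intervalIntegral.integral_mono_interval (by linarith) (by linarith) hapi ?_
      ((hfc.add hqc).intervalIntegrable _ _)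
    refine (ae_restrict_iff' measurableSet_Ioc).2 (Eventually.of_forall fun θ hθ => ?_)
    have := hlow θ (abs_le.2 ⟨hθ.1.le, hθ.2⟩)
    simp only [Pi.zero_apply]
    linarith
  have h3 : ∫ θ in (-a)..a, (0.89 : ℝ) ≤ ∫ θ in (-a)..a, (f θ + q θ) := by
    refine intervalIntegral.integral_mono_on (by linarith) (by simp)
      ((hfc.add hqc).intervalIntegrable _ _) fun θ hθ => ?_
    have := hmid θ hθ
    have := hq0 θ
    linarith
  rw [intervalIntegral.integral_const, smul_eq_mul] at h3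
  have h2b : ∫ θ in (-Real.pi)..Real.pi, (f θ + q θ) = (∫ θ in (-Real.pi)..Real.pi, f θ) +
      ∫ θ in (-Real.pi)..Real.pi, q θ :=
    intervalIntegral.integral_add (hfc.intervalIntegrable _ _) (hqc.intervalIntegrable _ _)
  rw [h2b] at h2
  have h4 : ∫ θ in (-Real.pi)..Real.pi, q θ ≤ (80802 * 50 ^ 9 / p) * (Real.pi / c) := by
    simp only [hq]
    rw [intervalIntegral.integral_const_mul]
    have := int_lor hc0
    gcongr
  have h5 : ITT p r = ∫ θ in (-Real.pi)..Real.pi, f θ := by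
    unfold ITT
    exact intervalIntegral.integral_congr fun θ _ => (hf θ).symm
  rw [h5]
  have h6 : (80802 * 50 ^ 9 / p) * (Real.pi / c) ≤ 0.02 / c := by
    rw [← mul_div_assoc]
    gcongr
    rw [div_mul_eq_mul_div, div_le_iff₀ hp0]
    have := Real.pi_lt_d2
    calc (80802 * 50 ^ 9 : ℝ) * Real.pi ≤ 80802 * 50 ^ 9 * 3.15 := by gcongr
      _ ≤ 0.02 * 10 ^ 23 := by norm_num
      _ ≤ _ := by gcongr
  have h7 : (a - -a) * 0.89 = 0.089 / c := by
    rw [ha]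
    field_simp
    norm_num
  rw [h7] at h3
  have h8 : bb r * Real.sqrt p = c := by rw [hc]; ring
  rw [h8]
  have h9 : 0.04 / c ≤ 0.089 / c - 0.02 / c := by
    rw [← sub_div]
    gcongr
    norm_num
  linarith

end Pool.Agent.Helper854_CM
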