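import Mathlib
import Pool.Agent.Helper854_CM.IT

/-!
The perturbation estimate on the circle `|z| = r`.
-/

set_option autoImplicit false

open MeasureTheory Filter Topology Complex Set Metric
open scoped ENNReal

noncomputable section

namespace Pool.Agent.Helper854_CM

theorem exp_one_bd (w : ℂ) : ‖cexp w - 1‖ ≤ 3 * ‖w‖ * (1 + ‖cexp w‖) := by
  have h0 := norm_nonneg w
  have h1 := norm_nonneg (cexp w)
  rcases le_or_gt ‖w‖ 1 with h | h
  · have := Complex.norm_exp_sub_one_le h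
    nlinarith [mul_nonneg h0 h1]
  · have h2 := norm_sub_le (cexp w) 1
    rw [norm_one] at h2
    nlinarith [mul_nonneg h0 h1]

theorem exp_two_bd (w : ℂ) : ‖cexp w - 1 - w‖ ≤ 3 * ‖w‖ ^ 2 * (1 + ‖cexp w‖) := by
  have h0 := norm_nonneg w
  have h1 := norm_nonneg (cexp w)
  rcases le_or_gt ‖w‖ 1 with h | h
  · have := Complex.norm_exp_sub_one_sub_id_le h
    nlinarith [mul_nonneg (sq_nonneg ‖w‖) h1, sq_nonneg ‖w‖]
  · have h2 := norm_sub_le (cexp w - 1) w
    have h3 := norm_sub_le (cexp w) 1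
    rw [norm_one] at h3
    have h4 : ‖w‖ ≤ ‖w‖ ^ 2 := by nlinarith
    have h5 : 1 ≤ ‖w‖ ^ 2 := by nlinarith
    nlinarith [mul_nonneg (sq_nonneg ‖w‖) h1]

/-- the extremal integrand -/
def GT (p r θ : ℝ) : ℂ := cexp ((p : ℂ) * kk (ze r θ) - ((2 * p * bb r * θ : ℝ) : ℂ) * I)

theorem GT_norm (p r θ : ℝ) : ‖GT p r θ‖ = Real.exp (p * (kk (ze r θ)).re) := by
  unfold GT
  rw [Complex.norm_exp, Complex.sub_re, Complex.re_ofReal_mul, Complex.re_ofReal_mul, Complex.I_re]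
  ring_nf

theorem GT_re (p r θ : ℝ) : (GT p r θ).re = Real.exp (p * (kk (ze r θ)).re) *
    Real.cos (p * ((kk (ze r θ)).im - 2 * bb r * θ)) := by
  unfold GT
  rw [Complex.exp_re, Complex.sub_re, Complex.sub_im, Complex.re_ofReal_mul, Complex.re_ofReal_mul,
    Complex.im_ofReal_mul, Complex.im_ofReal_mul, Complex.I_re, Complex.I_im]
  congr 2 <;> ring

theorem GT_neg {r : ℝ} (h0 : 0 < r) (h1 : r < 1) (p θ : ℝ) :
    GT p r (-θ) = (starRingEnd ℂ) (GT p r θ) := by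
  unfold GT
  rw [← Complex.exp_conj, ze_neg, kk_conj (ze_lt h0 h1 θ), map_sub, map_mul, map_mul,
    Complex.conj_ofReal, Complex.conj_ofReal, Complex.conj_I]
  congr 2
  push_cast
  ring

theorem GT_cont {r : ℝ} (h0 : 0 < r) (h1 : r < 1) (p : ℝ) : Continuous (GT p r) := by
  have h2 := comp_ze_cont h0 h1 kk_diff
  unfold GT
  fun_prop

theorem odd_int {F : ℝ → ℝ} (h : ∀ θ, F (-θ) = -F θ) (a : ℝ) : ∫ θ in (-a)..a, F θ = 0 := by
  have h1 := intervalIntegral.integral_comp_neg (a := -a) (b := a) F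
  rw [neg_neg] at h1
  simp only [h, intervalIntegral.integral_neg] at h1
  linarith

/-- the total estimate -/
theorem CB {g : ℂ → ℂ} {δ τ : ℝ} (D : SDa g δ τ) {p r : ℝ} (hp : 10 ^ 46 ≤ p) (h0 : 1 / 40 ≤ r)
    (h1 : r < 1) (hδ1 : δ ≤ 1 / 10 ^ 40)
    (hG : ∀ θ : ℝ, |θ| ≤ Real.pi → ‖GT p r θ * cexp ((p : ℂ) * Hg g (ze r θ))‖ ≤
      Real.exp (p * δ ^ 2) * Gam (Real.sqrt p * bb r * θ)) :
    ‖∫ θ in (-Real.pi)..Real.pi, GT p r θ * cexp ((p : ℂ) * Hg g (ze r θ))‖ ≤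
      Real.exp (p * δ / 80) * ITT p r := by
  have hpi := Real.pi_pos
  have hr0 : 0 < r := by linarith
  have hb := bb_pos hr0 h1
  have hp1 : 1 ≤ p := by linarith [show (1 : ℝ) ≤ 10 ^ 46 by norm_num]
  have hp20 : 20 ≤ p := by linarith [show (20 : ℝ) ≤ 10 ^ 46 by norm_num]
  have hp0 : 0 < p := by linarith
  have hsp : 1 ≤ Real.sqrt p := by rw [Real.one_le_sqrt]; exact hp1
  have hsp0 : 0 < Real.sqrt p := by linarith
  have hspp : Real.sqrt p ^ 2 = p := Real.sq_sqrt hp0.le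
  have hδ0 := D.δ0
  have hτ0 := D.τ0
  obtain ⟨c, hc⟩ : ∃ c : ℝ, c = Real.sqrt p * bb r := ⟨_, rfl⟩
  have hc0 : 0 < c := by rw [hc]; positivity
  have hIT := ITT_lower (p := p) (r := r)
    (le_trans (by norm_num) hp) h0 h1
  have hIT' : bb r * Real.sqrt p = c := by rw [hc]; ring
  rw [hIT'] at hIT
  have hIT0 : 0 < ITT p r := lt_of_lt_of_le (by positivity) hIT
  -- abbreviations
  obtain ⟨w, hw⟩ : ∃ w : ℝ → ℂ, ∀ θ, w θ = (p : ℂ) * Hg g (ze r θ) := ⟨_, fun θ => rfl⟩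
  obtain ⟨ws, hws⟩ : ∃ ws : ℝ → ℂ, ∀ θ, ws θ = (p : ℂ) * Hs g (ze r θ) := ⟨_, fun θ => rfl⟩
  obtain ⟨U, hU⟩ : ∃ U : ℝ → ℝ, ∀ θ, U θ = 1 + (c * θ) ^ 2 := ⟨_, fun θ => rfl⟩
  have hU1 : ∀ θ, 1 ≤ U θ := fun θ => by rw [hU]; nlinarith [sq_nonneg (c * θ)]
  obtain ⟨q, hq⟩ : ∃ q : ℝ, q = Real.sqrt p * δ + 512 * τ := ⟨_, rfl⟩
  have hq0 : 0 ≤ q := by rw [hq]; positivity
  obtain ⟨E, hE⟩ : ∃ E : ℝ, E = Real.exp (p * δ ^ 2) := ⟨_, rfl⟩
  have hE1 : 1 ≤ E := by rw [hE]; exact Real.one_le_exp (by positivity)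
  -- basic size estimates
  have hY1 : ∀ θ, p * YY r θ ≤ Real.sqrt p * U θ := by
    intro θ
    have e1 := YY_le hr0 h1 θ
    have e2 : bb r * |θ| * Real.sqrt p ≤ U θ := by
      have e3 : bb r * |θ| * Real.sqrt p = |c * θ| := by
        rw [abs_mul, abs_of_pos hc0, hc]; ring
      rw [e3, hU]
      have := sq_abs (c * θ)
      nlinarith [sq_nonneg (|c * θ| - 1)]
    calc p * YY r θ ≤ p * (bb r * |θ| / 2) := by gcongr
      _ = Real.sqrt p * (bb r * |θ| * Real.sqrt p) / 2 := by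
          have : p = Real.sqrt p * Real.sqrt p := by rw [← sq, hspp]
          calc p * (bb r * |θ| / 2) = (Real.sqrt p * Real.sqrt p) * (bb r * |θ| / 2) := by
                rw [← this]
            _ = _ := by ring
      _ ≤ Real.sqrt p * U θ / 2 := by gcongr
      _ ≤ Real.sqrt p * U θ := by
          have : 0 ≤ Real.sqrt p * U θ := by have := hU1 θ; positivity
          linarith
  have hY2 : ∀ θ, p * YY r θ ^ 2 * (1 + YY r θ ^ 2) ^ 3 ≤ U θ ^ 4 := by
    intro θ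
    have e1 := YY_le hr0 h1 θ
    have e0 := YY_nonneg hr0 h1 θ
    have e2 : YY r θ ^ 2 ≤ (bb r * |θ|) ^ 2 := by
      have : YY r θ ≤ bb r * |θ| := by
        have : 0 ≤ bb r * |θ| := by positivity
        linarith
      gcongr
    have e3 : p * (bb r * |θ|) ^ 2 = (c * θ) ^ 2 := by
      rw [← sq_abs (c * θ), abs_mul, abs_of_pos hc0, hc]
      calc p * (bb r * |θ|) ^ 2 = Real.sqrt p ^ 2 * (bb r * |θ|) ^ 2 := by rw [hspp]
        _ = _ := by ring
    have e4 : p * YY r θ ^ 2 ≤ U θ := by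
      calc p * YY r θ ^ 2 ≤ p * (bb r * |θ|) ^ 2 := by gcongr
        _ ≤ U θ := by rw [e3, hU]; linarith
    have e5 : 1 + YY r θ ^ 2 ≤ U θ := by
      have : YY r θ ^ 2 ≤ (c * θ) ^ 2 := by
        rw [← e3]
        nlinarith [sq_nonneg (bb r * |θ|)]
      rw [hU]
      linarith
    have hU0 := hU1 θ
    calc p * YY r θ ^ 2 * (1 + YY r θ ^ 2) ^ 3 ≤ U θ * U θ ^ 3 := by gcongr
      _ = _ := by ring
  have hUp : ∀ θ, U θ ≤ U θ ^ 4 := fun θ => by
    have := pow_le_pow_right₀ (hU1 θ) (show 1 ≤ 4 by norm_num)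
    simpa using this
  have hwb : ∀ θ, ‖w θ‖ ≤ q * U θ ^ 4 := by
    intro θ
    rw [hw, norm_mul, Complex.norm_real, Real.norm_of_nonneg hp0.le]
    have e1 := D.H_bd (ze_lt hr0 h1 θ)
    have e2 := ze_le_YY hr0 h1 θ
    have e3 := ze_inv hr0 h1 θ
    have e0 := YY_nonneg hr0 h1 θ
    have e4 : 64 * τ * ‖ze r θ‖ ^ 2 / (1 - ‖ze r θ‖) ^ 3 ≤
        512 * τ * (YY r θ ^ 2 * (1 + YY r θ ^ 2) ^ 3) := by
      calc 64 * τ * ‖ze r θ‖ ^ 2 / (1 - ‖ze r θ‖) ^ 3
          = 64 * τ * ‖ze r θ‖ ^ 2 * (1 / (1 - ‖ze r θ‖) ^ 3) := by ring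
        _ ≤ 64 * τ * YY r θ ^ 2 * (8 * (1 + YY r θ ^ 2) ^ 3) := by
            have : 0 ≤ 1 / (1 - ‖ze r θ‖) ^ 3 := by
              have := ze_lt hr0 h1 θ
              have : 0 ≤ 1 - ‖ze r θ‖ := by linarith
              positivity
            gcongr
        _ = _ := by ring
    calc p * ‖Hg g (ze r θ)‖
        ≤ p * (δ * YY r θ + 512 * τ * (YY r θ ^ 2 * (1 + YY r θ ^ 2) ^ 3)) := by
          refine mul_le_mul_of_nonneg_left (e1.trans (add_le_add ?_ e4)) hp0.le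
          gcongr
      _ = δ * (p * YY r θ) + 512 * τ * (p * YY r θ ^ 2 * (1 + YY r θ ^ 2) ^ 3) := by ring
      _ ≤ δ * (Real.sqrt p * U θ ^ 4) + 512 * τ * U θ ^ 4 := by
          have f1 := hY1 θ
          have f2 := hY2 θ
          have f3 := hUp θ
          have f4 : p * YY r θ ≤ Real.sqrt p * U θ ^ 4 := by
            refine f1.trans ?_
            gcongr
          gcongr
      _ = q * U θ ^ 4 := by rw [hq]; ring
  have hwsb : ∀ θ, ‖ws θ‖ ≤ 33 * Real.sqrt p * δ * U θ ^ 4 := by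
    intro θ
    rw [hws, norm_mul, Complex.norm_real, Real.norm_of_nonneg hp0.le]
    have e1 := D.Hs_bd (ze_lt hr0 h1 θ)
    have e2 := ze_le_YY hr0 h1 θ
    have e3 := ze_inv hr0 h1 θ
    have e0 := YY_nonneg hr0 h1 θ
    have e4 : 4 * δ * ‖ze r θ‖ ^ 2 / (1 - ‖ze r θ‖) ^ 3 ≤
        32 * δ * (YY r θ ^ 2 * (1 + YY r θ ^ 2) ^ 3) := by
      calc 4 * δ * ‖ze r θ‖ ^ 2 / (1 - ‖ze r θ‖) ^ 3
          = 4 * δ * ‖ze r θ‖ ^ 2 * (1 / (1 - ‖ze r θ‖) ^ 3) := by ring
        _ ≤ 4 * δ * YY r θ ^ 2 * (8 * (1 + YY r θ ^ 2) ^ 3) := by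
            have : 0 ≤ 1 / (1 - ‖ze r θ‖) ^ 3 := by
              have := ze_lt hr0 h1 θ
              have : 0 ≤ 1 - ‖ze r θ‖ := by linarith
              positivity
            gcongr
        _ = _ := by ring
    calc p * ‖Hs g (ze r θ)‖
        ≤ p * (δ * YY r θ + 32 * δ * (YY r θ ^ 2 * (1 + YY r θ ^ 2) ^ 3)) := by
          refine mul_le_mul_of_nonneg_left (e1.trans (add_le_add ?_ e4)) hp0.le
          gcongr
      _ = δ * (p * YY r θ) + 32 * δ * (p * YY r θ ^ 2 * (1 + YY r θ ^ 2) ^ 3) := by ring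
      _ ≤ δ * (Real.sqrt p * U θ ^ 4) + 32 * (Real.sqrt p * δ) * U θ ^ 4 := by
          have f1 := hY1 θ
          have f2 := hY2 θ
          have f3 := hUp θ
          have f4 : p * YY r θ ≤ Real.sqrt p * U θ ^ 4 := by
            refine f1.trans ?_
            gcongr
          have f5 : 32 * δ ≤ 32 * (Real.sqrt p * δ) := by nlinarith
          gcongr
      _ = _ := by ring
  -- bounds for the integrand
  have hGTb : ∀ θ, |θ| ≤ Real.pi → ‖GT p r θ‖ ≤ Gam (c * θ) := by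
    intro θ hθ
    rw [GT_norm, hc]
    exact decay' hr0 h1 hp20 hθ
  have hGTw : ∀ θ, |θ| ≤ Real.pi → ‖GT p r θ‖ * ‖cexp (w θ)‖ ≤ E * Gam (c * θ) := by
    intro θ hθ
    rw [← norm_mul, hw, hE, hc]
    exact hG θ hθ
  have hGam : ∀ θ, Gam (c * θ) * U θ ^ 8 ≤ 50 ^ 9 * (1 / U θ) := by
    intro θ
    rw [hU]
    exact Gam_le (c * θ)
  have hU48 : ∀ θ, U θ ^ 4 ≤ U θ ^ 8 := fun θ => pow_le_pow_right₀ (hU1 θ) (by norm_num)
  have b1 : ∀ θ, |θ| ≤ Real.pi → ‖GT p r θ‖ * ‖cexp (w θ) - 1 - w θ‖ ≤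
      3 * q ^ 2 * (1 + E) * (50 ^ 9 * (1 / U θ)) := by
    intro θ hθ
    have e1 := exp_two_bd (w θ)
    have e2 := hwb θ
    have hU0 := hU1 θ
    have hGp := Gam_pos (c * θ)
    calc ‖GT p r θ‖ * ‖cexp (w θ) - 1 - w θ‖
        ≤ ‖GT p r θ‖ * (3 * ‖w θ‖ ^ 2 * (1 + ‖cexp (w θ)‖)) := by gcongr
      _ = 3 * ‖w θ‖ ^ 2 * (‖GT p r θ‖ + ‖GT p r θ‖ * ‖cexp (w θ)‖) := by ring
      _ ≤ 3 * (q * U θ ^ 4) ^ 2 * (Gam (c * θ) + E * Gam (c * θ)) := by
          have := hGTb θ hθ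
          have := hGTw θ hθ
          gcongr
      _ = 3 * q ^ 2 * (1 + E) * (Gam (c * θ) * U θ ^ 8) := by ring
      _ ≤ 3 * q ^ 2 * (1 + E) * (50 ^ 9 * (1 / U θ)) := by
          have := hGam θ
          gcongr
  have b2 : ∀ θ, |θ| ≤ Real.pi → ‖GT p r θ‖ * ‖cexp (w θ) - 1‖ ≤
      3 * q * (1 + E) * (50 ^ 9 * (1 / U θ)) := by
    intro θ hθ
    have e1 := exp_one_bd (w θ)
    have e2 := hwb θ
    have hU0 := hU1 θ
    have hGp := Gam_pos (c * θ)
    calc ‖GT p r θ‖ * ‖cexp (w θ) - 1‖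
        ≤ ‖GT p r θ‖ * (3 * ‖w θ‖ * (1 + ‖cexp (w θ)‖)) := by gcongr
      _ = 3 * ‖w θ‖ * (‖GT p r θ‖ + ‖GT p r θ‖ * ‖cexp (w θ)‖) := by ring
      _ ≤ 3 * (q * U θ ^ 8) * (Gam (c * θ) + E * Gam (c * θ)) := by
          have := hGTb θ hθ
          have := hGTw θ hθ
          have := hU48 θ
          have : ‖w θ‖ ≤ q * U θ ^ 8 := e2.trans (by gcongr)
          gcongr
      _ = 3 * q * (1 + E) * (Gam (c * θ) * U θ ^ 8) := by ring
      _ ≤ 3 * q * (1 + E) * (50 ^ 9 * (1 / U θ)) := by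
          have := hGam θ
          gcongr
  have b3 : ∀ θ, |θ| ≤ Real.pi → ‖GT p r θ‖ * ‖ws θ‖ ≤
      33 * Real.sqrt p * δ * (50 ^ 9 * (1 / U θ)) := by
    intro θ hθ
    have e2 := hwsb θ
    have hU0 := hU1 θ
    have hGp := Gam_pos (c * θ)
    calc ‖GT p r θ‖ * ‖ws θ‖ ≤ Gam (c * θ) * (33 * Real.sqrt p * δ * U θ ^ 8) := by
          have := hGTb θ hθ
          have := hU48 θ
          have : ‖ws θ‖ ≤ 33 * Real.sqrt p * δ * U θ ^ 8 := e2.trans (by gcongr)
          gcongr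
      _ = 33 * Real.sqrt p * δ * (Gam (c * θ) * U θ ^ 8) := by ring
      _ ≤ 33 * Real.sqrt p * δ * (50 ^ 9 * (1 / U θ)) := by
          have := hGam θ
          gcongr
  -- continuity
  have cGT := GT_cont hr0 h1 p
  have cw : Continuous w := by
    rw [funext hw]
    have h2 := comp_ze_cont hr0 h1 kk_diff
    have h3 := comp_ze_cont hr0 h1 D.diff
    exact continuous_const.mul ((h3.sub continuous_const).sub h2)
  have cws : Continuous ws := by
    rw [funext hws]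
    have h2 := comp_ze_cont hr0 h1 kk_diff
    have h3 := comp_ze_cont hr0 h1 D.diff
    have h4 : Continuous fun θ => Hg g (ze r θ) := (h3.sub continuous_const).sub h2
    have h5 : Continuous fun θ => Hg g ((starRingEnd ℂ) (ze r θ)) := by
      have := h4.comp continuous_neg
      refine this.congr fun θ => ?_
      simp only [Function.comp]
      rw [ze_neg]
    unfold Hs
    exact continuous_const.mul ((h4.add (Complex.continuous_conj.comp h5)).div_const 2)
  have cU : Continuous fun θ => 50 ^ 9 * (1 / U θ) := by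
    have : (fun θ => 50 ^ 9 * (1 / U θ)) = fun θ => 50 ^ 9 * (1 / (1 + (c * θ) ^ 2)) := by
      funext θ; rw [hU]
    rw [this]
    exact continuous_const.mul (continuous_const.div (by fun_prop) fun θ => by positivity)
  have iU : ∫ θ in (-Real.pi)..Real.pi, 50 ^ 9 * (1 / U θ) ≤ 50 ^ 9 * (Real.pi / c) := by
    rw [intervalIntegral.integral_const_mul]
    have := int_lor hc0
    simp only [hU]
    gcongr
  have hmem : ∀ θ ∈ Icc (-Real.pi) Real.pi, |θ| ≤ Real.pi := fun θ hθ => abs_le.2 hθ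
  -- real part
  have hRe : |(∫ θ in (-Real.pi)..Real.pi, (GT p r θ * cexp (w θ)).re) - ITT p r| ≤
      (33 * Real.sqrt p * δ + 3 * q ^ 2 * (1 + E)) * (50 ^ 9 * (Real.pi / c)) := by
    have e1 : ∀ θ, (GT p r θ * cexp (w θ)).re = (GT p r θ).re + (GT p r θ * (w θ - ws θ)).re +
        (GT p r θ * (ws θ + (cexp (w θ) - 1 - w θ))).re := by
      intro θ
      rw [← Complex.add_re, ← Complex.add_re]
      congr 1
      ring
    have e2 : ∫ θ in (-Real.pi)..Real.pi, (GT p r θ * (w θ - ws θ)).re = 0 := by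
      refine odd_int (fun θ => ?_) _
      have f1 : w (-θ) - ws (-θ) = -(starRingEnd ℂ) (w θ - ws θ) := by
        rw [hw, hws, hw, hws, Hs, Hs, ze_neg, Complex.conj_conj, map_sub, map_mul, map_mul,
          map_div₀, map_add, Complex.conj_conj, Complex.conj_ofReal, Complex.conj_ofNat]
        ring
      rw [f1, GT_neg hr0 h1]
      have f2 : (starRingEnd ℂ) (GT p r θ) * -(starRingEnd ℂ) (w θ - ws θ) =
          -(starRingEnd ℂ) (GT p r θ * (w θ - ws θ)) := by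
        rw [map_mul]
        ring
      rw [f2, Complex.neg_re, Complex.conj_re]
    have e3 : ITT p r = ∫ θ in (-Real.pi)..Real.pi, (GT p r θ).re := by
      unfold ITT
      exact intervalIntegral.integral_congr fun θ _ => (GT_re p r θ).symm
    have c1 : Continuous fun θ => (GT p r θ).re := Complex.continuous_re.comp cGT
    have c2 : Continuous fun θ => (GT p r θ * (w θ - ws θ)).re :=
      Complex.continuous_re.comp (cGT.mul (cw.sub cws))
    have c3 : Continuous fun θ => (GT p r θ * (ws θ + (cexp (w θ) - 1 - w θ))).re :=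
      Complex.continuous_re.comp (cGT.mul (cws.add (((cw.cexp).sub continuous_const).sub cw)))
    have e4 : (∫ θ in (-Real.pi)..Real.pi, (GT p r θ * cexp (w θ)).re) - ITT p r =
        ∫ θ in (-Real.pi)..Real.pi, (GT p r θ * (ws θ + (cexp (w θ) - 1 - w θ))).re := by
      have g1 : ∫ θ in (-Real.pi)..Real.pi, ((GT p r θ).re + (GT p r θ * (w θ - ws θ)).re) =
          (∫ θ in (-Real.pi)..Real.pi, (GT p r θ).re) +
            ∫ θ in (-Real.pi)..Real.pi, (GT p r θ * (w θ - ws θ)).re :=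
        intervalIntegral.integral_add (c1.intervalIntegrable _ _) (c2.intervalIntegrable _ _)
      have g2 : ∫ θ in (-Real.pi)..Real.pi, ((GT p r θ).re + (GT p r θ * (w θ - ws θ)).re +
          (GT p r θ * (ws θ + (cexp (w θ) - 1 - w θ))).re) =
          (∫ θ in (-Real.pi)..Real.pi, ((GT p r θ).re + (GT p r θ * (w θ - ws θ)).re)) +
            ∫ θ in (-Real.pi)..Real.pi, (GT p r θ * (ws θ + (cexp (w θ) - 1 - w θ))).re :=
        intervalIntegral.integral_add ((c1.add c2).intervalIntegrable _ _)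
          (c3.intervalIntegrable _ _)
      rw [intervalIntegral.integral_congr (fun θ _ => e1 θ), g2, g1, e2, e3]
      ring
    rw [e4, ← Real.norm_eq_abs]
    have e5 : ‖∫ θ in (-Real.pi)..Real.pi, (GT p r θ * (ws θ + (cexp (w θ) - 1 - w θ))).re‖ ≤
        ∫ θ in (-Real.pi)..Real.pi, (33 * Real.sqrt p * δ + 3 * q ^ 2 * (1 + E)) *
          (50 ^ 9 * (1 / U θ)) := by
      refine intervalIntegral.norm_integral_le_of_norm_le (by linarith)
        (Eventually.of_forall fun θ hθ => ?_) ((continuous_const.mul cU).intervalIntegrable _ _)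
      have hθ' : |θ| ≤ Real.pi := abs_le.2 ⟨hθ.1.le, hθ.2⟩
      rw [Real.norm_eq_abs]
      refine (Complex.abs_re_le_norm _).trans ?_
      rw [norm_mul]
      calc ‖GT p r θ‖ * ‖ws θ + (cexp (w θ) - 1 - w θ)‖
          ≤ ‖GT p r θ‖ * (‖ws θ‖ + ‖cexp (w θ) - 1 - w θ‖) := by
            have := norm_add_le (ws θ) (cexp (w θ) - 1 - w θ)
            gcongr
        _ = ‖GT p r θ‖ * ‖ws θ‖ + ‖GT p r θ‖ * ‖cexp (w θ) - 1 - w θ‖ := by ring
        _ ≤ 33 * Real.sqrt p * δ * (50 ^ 9 * (1 / U θ)) +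
            3 * q ^ 2 * (1 + E) * (50 ^ 9 * (1 / U θ)) := add_le_add (b3 θ hθ') (b1 θ hθ')
        _ = _ := by ring
    refine e5.trans ?_
    rw [intervalIntegral.integral_const_mul]
    gcongr
  -- imaginary part
  have hIm : |∫ θ in (-Real.pi)..Real.pi, (GT p r θ * cexp (w θ)).im| ≤
      (3 * q * (1 + E)) * (50 ^ 9 * (Real.pi / c)) := by
    have e1 : ∀ θ, (GT p r θ * cexp (w θ)).im = (GT p r θ).im +
        (GT p r θ * (cexp (w θ) - 1)).im := by
      intro θ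
      rw [← Complex.add_im]
      congr 1
      ring
    have e2 : ∫ θ in (-Real.pi)..Real.pi, (GT p r θ).im = 0 := by
      refine odd_int (fun θ => ?_) _
      rw [GT_neg hr0 h1, Complex.conj_im]
    have c1 : Continuous fun θ => (GT p r θ).im := Complex.continuous_im.comp cGT
    have c2 : Continuous fun θ => (GT p r θ * (cexp (w θ) - 1)).im :=
      Complex.continuous_im.comp (cGT.mul ((cw.cexp).sub continuous_const))
    rw [intervalIntegral.integral_congr (fun θ _ => e1 θ),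
      intervalIntegral.integral_add (c1.intervalIntegrable _ _) (c2.intervalIntegrable _ _), e2,
      zero_add, ← Real.norm_eq_abs]
    have e5 : ‖∫ θ in (-Real.pi)..Real.pi, (GT p r θ * (cexp (w θ) - 1)).im‖ ≤
        ∫ θ in (-Real.pi)..Real.pi, (3 * q * (1 + E)) * (50 ^ 9 * (1 / U θ)) := by
      refine intervalIntegral.norm_integral_le_of_norm_le (by linarith)
        (Eventually.of_forall fun θ hθ => ?_) ((continuous_const.mul cU).intervalIntegrable _ _)
      have hθ' : |θ| ≤ Real.pi := abs_le.2 ⟨hθ.1.le, hθ.2⟩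
      rw [Real.norm_eq_abs]
      refine (Complex.abs_im_le_norm _).trans ?_
      rw [norm_mul]
      exact b2 θ hθ'
    refine e5.trans ?_
    rw [intervalIntegral.integral_const_mul]
    gcongr
  -- comparison with the extremal integral
  have hK : 50 ^ 9 * (Real.pi / c) ≤ (80 * 50 ^ 9) * ITT p r := by
    calc (50 : ℝ) ^ 9 * (Real.pi / c) ≤ 50 ^ 9 * (3.15 / c) := by
          have := Real.pi_lt_d2
          gcongr
      _ ≤ (80 * 50 ^ 9) * (0.04 / c) := by
          rw [mul_div_assoc', mul_div_assoc']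
          exact div_le_div_of_nonneg_right (by norm_num) hc0.le
      _ ≤ _ := by gcongr
  obtain ⟨α, hα⟩ : ∃ α : ℝ, α = (33 * Real.sqrt p * δ + 3 * q ^ 2 * (1 + E)) * (80 * 50 ^ 9) :=
    ⟨_, rfl⟩
  obtain ⟨β, hβ⟩ : ∃ β : ℝ, β = (3 * q * (1 + E)) * (80 * 50 ^ 9) := ⟨_, rfl⟩
  have hα0 : 0 ≤ α := by rw [hα]; positivity
  have hβ0 : 0 ≤ β := by rw [hβ]; positivity
  have hRe2 : |∫ θ in (-Real.pi)..Real.pi, (GT p r θ * cexp (w θ)).re| ≤ (1 + α) * ITT p r := by
    have e1 : (33 * Real.sqrt p * δ + 3 * q ^ 2 * (1 + E)) * (50 ^ 9 * (Real.pi / c)) ≤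
        α * ITT p r := by
      rw [hα, mul_assoc (33 * Real.sqrt p * δ + 3 * q ^ 2 * (1 + E))]
      gcongr
    have e2 := abs_le.1 (hRe.trans e1)
    rw [abs_le]
    constructor <;> nlinarith
  have hIm2 : |∫ θ in (-Real.pi)..Real.pi, (GT p r θ * cexp (w θ)).im| ≤ β * ITT p r := by
    refine hIm.trans ?_
    rw [hβ, mul_assoc (3 * q * (1 + E))]
    gcongr
  -- numerical estimate
  obtain ⟨x, hx⟩ : ∃ x : ℝ, x = p * δ := ⟨_, rfl⟩
  have hx0 : 0 ≤ x := by rw [hx]; positivity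
  have hq2 : q ^ 2 ≤ x * (2 * δ + 2 ^ 19 / p) := by
    have e1 : q ^ 2 ≤ 2 * (Real.sqrt p * δ) ^ 2 + 2 * (512 * τ) ^ 2 := by
      rw [hq]
      nlinarith [sq_nonneg (Real.sqrt p * δ - 512 * τ)]
    have e2 : 2 * (Real.sqrt p * δ) ^ 2 + 2 * (512 * τ) ^ 2 = x * (2 * δ + 2 ^ 19 / p) := by
      rw [mul_pow, hspp, mul_pow, ← D.hδ, hx]
      field_simp
      ring
    linarith
  have hEx : E ≤ Real.exp (x / 400) := by
    rw [hE]
    refine Real.exp_le_exp.2 ?_
    have : δ ≤ 1 / 400 := hδ1.trans (by norm_num)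
    rw [hx]
    nlinarith [mul_nonneg hp0.le hδ0]
  have hsq : 10 ^ 23 ≤ Real.sqrt p := by
    apply Real.le_sqrt_of_sq_le
    calc ((10 : ℝ) ^ 23) ^ 2 = 10 ^ 46 := by norm_num
      _ ≤ p := hp
  have hεα : α ≤ 1 / 200 * x * E := by
    have e1 : Real.sqrt p * δ ≤ x / 10 ^ 23 := by
      rw [hx, le_div_iff₀ (by norm_num)]
      calc Real.sqrt p * δ * 10 ^ 23 ≤ Real.sqrt p * δ * Real.sqrt p := by gcongr
        _ = p * δ := by
          have : Real.sqrt p * δ * Real.sqrt p = Real.sqrt p ^ 2 * δ := by ring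
          rw [this, hspp]
    have e2 : (2 : ℝ) ^ 19 / p ≤ 2 ^ 19 / 10 ^ 46 := by gcongr
    have e3 : q ^ 2 ≤ x * (2 / 10 ^ 40 + 2 ^ 19 / 10 ^ 46) := by
      refine hq2.trans ?_
      have : 2 * δ ≤ 2 / 10 ^ 40 := by
        have := mul_le_mul_of_nonneg_left hδ1 (show (0 : ℝ) ≤ 2 by norm_num)
        calc 2 * δ ≤ 2 * (1 / 10 ^ 40) := this
          _ = _ := by ring
      gcongr
    have e4 : (1 + E) ≤ 2 * E := by linarith
    rw [hα]
    calc (33 * Real.sqrt p * δ + 3 * q ^ 2 * (1 + E)) * (80 * 50 ^ 9)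
        ≤ (33 * (x / 10 ^ 23) * E + 3 * (x * (2 / 10 ^ 40 + 2 ^ 19 / 10 ^ 46)) * (2 * E)) *
          (80 * 50 ^ 9) := by
          have e5 : 33 * Real.sqrt p * δ ≤ 33 * (x / 10 ^ 23) * E := by
            have : 33 * Real.sqrt p * δ = 33 * (Real.sqrt p * δ) := by ring
            rw [this]
            have h33 : 33 * (Real.sqrt p * δ) ≤ 33 * (x / 10 ^ 23) := by gcongr
            have h34 : 33 * (x / 10 ^ 23) ≤ 33 * (x / 10 ^ 23) * E :=
              le_mul_of_one_le_right (by positivity) hE1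
            linarith
          gcongr
      _ = x * E * ((33 / 10 ^ 23 + 6 * (2 / 10 ^ 40 + 2 ^ 19 / 10 ^ 46)) * (80 * 50 ^ 9)) := by ring
      _ ≤ x * E * (1 / 200) := by
          gcongr
          norm_num
      _ = _ := by ring
  have hεβ : β ^ 2 ≤ 1 / 200 * x * E ^ 2 := by
    have e2 : (2 : ℝ) ^ 19 / p ≤ 2 ^ 19 / 10 ^ 46 := by gcongr
    have e3 : q ^ 2 ≤ x * (2 / 10 ^ 40 + 2 ^ 19 / 10 ^ 46) := by
      refine hq2.trans ?_
      have : 2 * δ ≤ 2 / 10 ^ 40 := by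
        have := mul_le_mul_of_nonneg_left hδ1 (show (0 : ℝ) ≤ 2 by norm_num)
        calc 2 * δ ≤ 2 * (1 / 10 ^ 40) := this
          _ = _ := by ring
      gcongr
    have e4 : (1 + E) ≤ 2 * E := by linarith
    have e5 : (1 + E) ^ 2 ≤ (2 * E) ^ 2 := by gcongr
    rw [hβ]
    calc ((3 * q * (1 + E)) * (80 * 50 ^ 9)) ^ 2
        = 9 * q ^ 2 * (1 + E) ^ 2 * (80 * 50 ^ 9) ^ 2 := by ring
      _ ≤ 9 * (x * (2 / 10 ^ 40 + 2 ^ 19 / 10 ^ 46)) * (2 * E) ^ 2 * (80 * 50 ^ 9) ^ 2 := by gcongr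
      _ = x * E ^ 2 * (36 * (2 / 10 ^ 40 + 2 ^ 19 / 10 ^ 46) * (80 * 50 ^ 9) ^ 2) := by ring
      _ ≤ x * E ^ 2 * (1 / 200) := by
          gcongr
          norm_num
      _ = _ := by ring
  have hE2 : E ^ 2 ≤ Real.exp (x / 200) := by
    calc E ^ 2 ≤ Real.exp (x / 400) ^ 2 := by gcongr
      _ = Real.exp (x / 200) := by
        rw [← Real.exp_nat_mul]
        congr 1
        push_cast
        ring
  have hfin : (1 + α) ^ 2 + β ^ 2 ≤ Real.exp (x / 80) ^ 2 := by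
    have e1 : 1 + α ≤ Real.exp (3 * x / 400) := by
      calc 1 + α ≤ 1 + 1 / 200 * x * Real.exp (x / 400) := by
            have : 1 / 200 * x * E ≤ 1 / 200 * x * Real.exp (x / 400) := by gcongr
            linarith
        _ ≤ Real.exp (x / 400) * (1 + x / 200) := by
            have : 1 ≤ Real.exp (x / 400) := Real.one_le_exp (by positivity)
            nlinarith
        _ ≤ Real.exp (x / 400) * Real.exp (x / 200) := by
            have := Real.add_one_le_exp (x / 200)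
            gcongr
            linarith
        _ = _ := by
            rw [← Real.exp_add]
            congr 1
            ring
    have e2 : (1 + α) ^ 2 ≤ Real.exp (3 * x / 200) := by
      calc (1 + α) ^ 2 ≤ Real.exp (3 * x / 400) ^ 2 := by gcongr
        _ = _ := by
          rw [← Real.exp_nat_mul]
          congr 1
          push_cast
          ring
    have e3 : β ^ 2 ≤ x / 200 * Real.exp (3 * x / 200) := by
      calc β ^ 2 ≤ 1 / 200 * x * E ^ 2 := hεβ
        _ ≤ 1 / 200 * x * Real.exp (x / 200) := by gcongr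
        _ ≤ 1 / 200 * x * Real.exp (3 * x / 200) := by
            gcongr
            linarith
        _ = _ := by ring
    calc (1 + α) ^ 2 + β ^ 2 ≤ Real.exp (3 * x / 200) * (1 + x / 200) := by linarith
      _ ≤ Real.exp (3 * x / 200) * Real.exp (x / 200) := by
          have := Real.add_one_le_exp (x / 200)
          gcongr
          linarith
      _ = Real.exp (x / 50) := by
          rw [← Real.exp_add]
          congr 1
          ring
      _ ≤ Real.exp (x / 40) := by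
          refine Real.exp_le_exp.2 ?_
          linarith
      _ = Real.exp (x / 80) ^ 2 := by
          rw [← Real.exp_nat_mul]
          congr 1
          push_cast
          ring
  -- conclusion
  have hcI : Continuous fun θ => GT p r θ * cexp (w θ) := cGT.mul cw.cexp
  obtain ⟨S, hS⟩ : ∃ S : ℂ, S = ∫ θ in (-Real.pi)..Real.pi, GT p r θ * cexp (w θ) := ⟨_, rfl⟩
  have hSre : S.re = ∫ θ in (-Real.pi)..Real.pi, (GT p r θ * cexp (w θ)).re := by
    rw [hS]
    exact (Complex.reCLM.intervalIntegral_comp_comm (hcI.intervalIntegrable (μ := volume) _ _)).symm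
  have hSim : S.im = ∫ θ in (-Real.pi)..Real.pi, (GT p r θ * cexp (w θ)).im := by
    rw [hS]
    exact (Complex.imCLM.intervalIntegral_comp_comm (hcI.intervalIntegrable (μ := volume) _ _)).symm
  have hSS : ∫ θ in (-Real.pi)..Real.pi, GT p r θ * cexp ((p : ℂ) * Hg g (ze r θ)) = S := by
    rw [hS]
    exact intervalIntegral.integral_congr fun θ _ => by simp only [hw]
  rw [hSS]
  rw [← hSre] at hRe2
  rw [← hSim] at hIm2
  have hn : ‖S‖ ^ 2 ≤ (Real.exp (x / 80) * ITT p r) ^ 2 := by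
    rw [nsq]
    calc S.re ^ 2 + S.im ^ 2 ≤ ((1 + α) * ITT p r) ^ 2 + (β * ITT p r) ^ 2 := by
          rw [← sq_abs S.re, ← sq_abs S.im]
          gcongr
      _ = ((1 + α) ^ 2 + β ^ 2) * ITT p r ^ 2 := by ring
      _ ≤ Real.exp (x / 80) ^ 2 * ITT p r ^ 2 := by gcongr
      _ = _ := by ring
  have := le_of_sq_le_sq hn (by positivity)
  rwa [hx] at this

end Pool.Agent.Helper854_CM
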