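import Mathlib
import Pool.Agent.Helper854_CM.CB

/-!
Growth along rays, and the lower bound for the growth deficiency.
-/

set_option autoImplicit false

open MeasureTheory Filter Topology Complex Set Metric
open scoped ENNReal
open Pool.Agent.Helper854_CM.DR

noncomputable section

namespace Pool.Agent.Helper854_CM

/-- real version of `kk` -/
def KK (x : ℝ) : ℝ := 2 * Real.log ((1 + x) / (1 - x))

theorem KK_deriv {x : ℝ} (hx : x ∈ Ioo (-1 : ℝ) 1) : HasDerivAt KK (4 / (1 - x ^ 2)) x := by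
  have h1 : 0 < 1 - x := by linarith [hx.2]
  have h2 : 0 < 1 + x := by linarith [hx.1]
  have h3 : HasDerivAt (fun x : ℝ => (1 + x) / (1 - x))
      ((1 * (1 - x) - (1 + x) * (-1)) / (1 - x) ^ 2) x :=
    ((hasDerivAt_id x).const_add 1).div ((hasDerivAt_id x).const_sub 1) h1.ne'
  have h4 := (h3.log (by positivity)).const_mul 2
  refine h4.congr_deriv ?_
  have : 1 - x ^ 2 ≠ 0 := by nlinarith
  field_simp
  ring

theorem kk_KK {x : ℝ} (hx : |x| < 1) : kk (x : ℂ) = ((KK x : ℝ) : ℂ) := kk_real x hx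

theorem KK_zero : KK 0 = 0 := by simp [KK]

theorem KK_cont : ContinuousOn KK (Ioo (-1 : ℝ) 1) := fun _ hx =>
  (KK_deriv hx).continuousAt.continuousWithinAt

theorem rayd {h : ℂ → ℂ} (hh : DifferentiableOn ℂ h (ball 0 1)) {x : ℝ} (hx : x ∈ Ioo (-1 : ℝ) 1)
    (θ : ℝ) : HasDerivAt (fun x : ℝ => (h (zz x θ)).re) (deriv h (zz x θ) * cexp (θ * I)).re x :=
  re_deriv (G_dr hh hx θ)

theorem CC.ray_bd {h : ℂ → ℂ} (hC : CC h) {x : ℝ} (hx : x ∈ Ioo (-1 : ℝ) 1) (θ : ℝ) :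
    |(deriv h (zz x θ) * cexp (θ * I)).re| ≤ 4 / (1 - x ^ 2) := by
  have h1 := hC.bloch (a := zz x θ) (by simpa using zz_mem hx θ)
  rw [norm_zz, sq_abs] at h1
  have h2 : 0 < 1 - x ^ 2 := by nlinarith [hx.1, hx.2]
  rw [le_div_iff₀ h2]
  have h3 := Complex.abs_re_le_norm (deriv h (zz x θ) * cexp (θ * I))
  rw [norm_mul, Complex.norm_exp_ofReal_mul_I, mul_one] at h3
  nlinarith

theorem KK_mono : MonotoneOn KK (Ioo (-1 : ℝ) 1) := by
  refine monotoneOn_of_deriv_nonneg (convex_Ioo _ _) KK_cont ?_ ?_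
  · intro x hx
    rw [interior_Ioo] at hx
    exact (KK_deriv hx).differentiableAt.differentiableWithinAt
  · intro x hx
    rw [interior_Ioo] at hx
    rw [(KK_deriv hx).deriv]
    have h2 : 0 < 1 - x ^ 2 := by nlinarith [hx.1, hx.2]
    positivity

theorem CC.ray_mono1 {h : ℂ → ℂ} (hC : CC h) (θ : ℝ) :
    MonotoneOn (fun x => KK x - (h (zz x θ)).re) (Ioo (-1 : ℝ) 1) := by
  have hd : ∀ x ∈ Ioo (-1 : ℝ) 1, HasDerivAt (fun x => KK x - (h (zz x θ)).re)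
      (4 / (1 - x ^ 2) - (deriv h (zz x θ) * cexp (θ * I)).re) x := fun x hx =>
    (KK_deriv hx).sub (rayd hC.diff hx θ)
  refine monotoneOn_of_deriv_nonneg (convex_Ioo _ _)
    (fun x hx => (hd x hx).continuousAt.continuousWithinAt) ?_ ?_
  · intro x hx
    rw [interior_Ioo] at hx
    exact (hd x hx).differentiableAt.differentiableWithinAt
  · intro x hx
    rw [interior_Ioo] at hx
    rw [(hd x hx).deriv]
    have := (abs_le.1 (hC.ray_bd hx θ)).2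
    linarith

theorem CC.ray_mono2 {h : ℂ → ℂ} (hC : CC h) (θ : ℝ) :
    MonotoneOn (fun x => KK x + (h (zz x θ)).re) (Ioo (-1 : ℝ) 1) := by
  have hd : ∀ x ∈ Ioo (-1 : ℝ) 1, HasDerivAt (fun x => KK x + (h (zz x θ)).re)
      (4 / (1 - x ^ 2) + (deriv h (zz x θ) * cexp (θ * I)).re) x := fun x hx =>
    (KK_deriv hx).add (rayd hC.diff hx θ)
  refine monotoneOn_of_deriv_nonneg (convex_Ioo _ _)
    (fun x hx => (hd x hx).continuousAt.continuousWithinAt) ?_ ?_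
  · intro x hx
    rw [interior_Ioo] at hx
    exact (hd x hx).differentiableAt.differentiableWithinAt
  · intro x hx
    rw [interior_Ioo] at hx
    rw [(hd x hx).deriv]
    have := (abs_le.1 (hC.ray_bd hx θ)).1
    linarith

theorem zz_rad_zero (θ : ℝ) : zz 0 θ = 0 := by simp [zz]

theorem CC.growth {h : ℂ → ℂ} (hC : CC h) (h0 : h 0 = 0) {x : ℝ} (hx0 : 0 ≤ x) (hx1 : x < 1)
    (θ : ℝ) : (h (zz x θ)).re ≤ KK x := by
  have h1 := hC.ray_mono1 θ (show (0 : ℝ) ∈ Ioo (-1 : ℝ) 1 by constructor <;> norm_num)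
    (show x ∈ Ioo (-1 : ℝ) 1 from ⟨by linarith, hx1⟩) hx0
  simp only [zz_rad_zero, h0, KK_zero, Complex.zero_re, sub_zero] at h1
  linarith

theorem mob_real {r s : ℝ} (hr0 : 0 ≤ s) (hr : s ≤ r) (hr1 : r < 1) :
    ∃ y : ℝ, 0 ≤ y ∧ y < 1 ∧ mob (r : ℂ) ((-s : ℝ) : ℂ) = (y : ℂ) ∧ KK y = KK r - KK s := by
  have hd : 0 < 1 - r * s := by nlinarith
  have hr2 : 0 < 1 - r := by linarith
  have hr3 : 0 < 1 + r := by linarith
  have hs2 : 0 < 1 - s := by linarith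
  have hs3 : 0 < 1 + s := by linarith
  refine ⟨(r - s) / (1 - r * s), div_nonneg (by linarith) hd.le, ?_, ?_, ?_⟩
  · rw [div_lt_one hd]
    nlinarith
  · unfold mob
    rw [map_neg, Complex.conj_ofReal]
    push_cast
    congr 1 <;> ring
  · unfold KK
    have e1 : 1 + (r - s) / (1 - r * s) = (1 + r) * (1 - s) / (1 - r * s) := by
      field_simp
      ring
    have e2 : 1 - (r - s) / (1 - r * s) = (1 - r) * (1 + s) / (1 - r * s) := by
      field_simp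
      ring
    rw [e1, e2, div_div_div_cancel_right₀ hd.ne', Real.log_div (by positivity) (by positivity),
      Real.log_mul hr3.ne' hs2.ne', Real.log_mul hr2.ne' hs3.ne', Real.log_div hr3.ne' hr2.ne',
      Real.log_div hs3.ne' hs2.ne']
    ring

theorem zz_theta_zero (x : ℝ) : zz x 0 = (x : ℂ) := by simp [zz]

theorem KK_neg (s : ℝ) : KK (-s) = -KK s := by
  unfold KK
  have : (1 + -s) / (1 - -s) = ((1 + s) / (1 - s))⁻¹ := by
    rw [inv_div, sub_neg_eq_add, ← sub_eq_add_neg]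
  rw [this, Real.log_inv]
  ring

/-- growth deficiency against the derivative deficiency (generic form) -/
theorem D_gen {h : ℂ → ℂ} (hC : CC h) (h0 : h 0 = 0) {r s : ℝ} (hr0 : 0 ≤ s) (hr : s ≤ r)
    (hr1 : r < 1) : (h (mob r ((-s : ℝ) : ℂ))).re - (h r).re + KK s ≤ KK r - (h r).re := by
  obtain ⟨y, hy0, hy1, hy2, hy3⟩ := mob_real hr0 hr hr1
  have h1 := hC.growth h0 hy0 hy1 0
  rw [zz_theta_zero] at h1
  rw [hy2]
  linarith

theorem D_lower {h : ℂ → ℂ} (hC : CC h) (h0 : h 0 = 0) {r δ τ : ℝ} (hr : 1 / 40 ≤ r) (hr1 : r < 1)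
    (D : SDa (fun ζ => h (mob r ζ)) δ τ) : δ / 80 ≤ KK r - (h r).re := by
  have hδ := D.δ0
  have h1 := D_gen hC h0 (s := 1 / 40) (by norm_num) hr hr1
  have h2 := D.real_bd (x := -(1 / 40)) (by norm_num [abs_lt])
  have h3 : (Hg (fun ζ => h (mob r ζ)) ((-(1 / 40) : ℝ) : ℂ)).re =
      (h (mob r ((-(1 / 40) : ℝ) : ℂ))).re - (h r).re + KK (1 / 40) := by
    unfold Hg
    simp only [mob_zero]
    rw [kk_KK (by norm_num [abs_lt]), KK_neg, Complex.sub_re, Complex.sub_re, Complex.ofReal_re]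
    ring
  rw [h3] at h2
  have h4 := (abs_le.1 h2).1
  have h5 : |(-(1 / 40) : ℝ)| = 1 / 40 := by norm_num [abs_of_nonneg]
  rw [h5] at h4
  norm_num at h4 ⊢
  norm_num at h1
  linarith

theorem D_lower2 {h : ℂ → ℂ} (hC : CC h) (h0 : h 0 = 0) {r : ℝ} (hr : 1 / 40 ≤ r) (hr1 : r < 1)
    (hd : (1 - r ^ 2) * (deriv h r).re ≤ 3) : 1 / 80 ≤ KK r - (h r).re := by
  have h1 := D_gen hC h0 (s := 1 / 40) (by norm_num) hr hr1
  have hrr : ‖(r : ℂ)‖ < 1 := by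
    rw [Complex.norm_real, Real.norm_of_nonneg (by linarith)]; exact hr1
  obtain ⟨g, hg⟩ : ∃ g : ℂ → ℂ, ∀ ζ, g ζ = h (mob r ζ) := ⟨_, fun ζ => rfl⟩
  have hgC : CC g := by rw [funext hg]; exact hC.comp (IM_mob hrr)
  have hbl : ∀ z ∈ ball (0 : ℂ) 1, (1 - ‖z‖ ^ 2) * ‖deriv g z‖ ≤ 4 := fun z hz =>
    hgC.bloch (by simpa using hz)
  have hx : ‖((-(1 / 40) : ℝ) : ℂ)‖ < 1 := by
    rw [Complex.norm_real]; norm_num
  have h2 := taylor hgC.diff hx
  have h3 : HasSum (fun m : ℕ => tc g (m + 2) * ((-(1 / 40) : ℝ) : ℂ) ^ (m + 2))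
      (g ((-(1 / 40) : ℝ) : ℂ) - g 0 - deriv g 0 * ((-(1 / 40) : ℝ) : ℂ)) := by
    have h4 := (hasSum_nat_add_iff' 2).2 h2
    have e1 : g ((-(1 / 40) : ℝ) : ℂ) - ∑ i ∈ Finset.range 2, tc g i * ((-(1 / 40) : ℝ) : ℂ) ^ i =
        g ((-(1 / 40) : ℝ) : ℂ) - g 0 - deriv g 0 * ((-(1 / 40) : ℝ) : ℂ) := by
      simp [Finset.sum_range_succ, tc]
      ring
    rw [e1] at h4
    exact h4
  have h5 : ‖g ((-(1 / 40) : ℝ) : ℂ) - g 0 - deriv g 0 * ((-(1 / 40) : ℝ) : ℂ)‖ ≤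
      15 * (1 / 40) ^ 2 * (1 - 1 / 40)⁻¹ := by
    rw [← h3.tsum_eq]
    refine tsum_of_norm_bounded ((hasSum_geometric_of_lt_one (by norm_num : (0 : ℝ) ≤ 1 / 40)
      (by norm_num)).mul_left (15 * (1 / 40) ^ 2)) fun m => ?_
    rw [norm_mul, norm_pow, Complex.norm_real]
    have h6 := coef_bd hgC.diff hbl (m + 1)
    have h7 : ‖(-(1 / 40) : ℝ)‖ = 1 / 40 := by norm_num
    rw [h7]
    calc ‖tc g (m + 2)‖ * (1 / 40) ^ (m + 2) ≤ 15 * (1 / 40) ^ (m + 2) := by gcongr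
      _ = _ := by ring
  have hg0 : deriv g 0 = deriv h r * ((1 - r ^ 2 : ℝ) : ℂ) := by
    have h6 := base_deriv hC.diff hrr 1
    have h7 : (fun z => h (mob r (((1 : ℝ) : ℂ) * z))) = g := by
      funext z
      rw [hg]
      simp
    rw [h7] at h6
    rw [h6, Complex.norm_real, Real.norm_eq_abs, sq_abs]
    simp
  have h8 := (abs_le.1 ((Complex.abs_re_le_norm _).trans h5)).1
  rw [hg0, Complex.sub_re, Complex.sub_re, hg, hg, mob_zero] at h8
  have h9 : (deriv h r * ((1 - r ^ 2 : ℝ) : ℂ) * ((-(1 / 40) : ℝ) : ℂ)).re =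
      -(1 / 40) * ((1 - r ^ 2) * (deriv h r).re) := by
    have : deriv h r * ((1 - r ^ 2 : ℝ) : ℂ) * ((-(1 / 40) : ℝ) : ℂ) =
        ((-(1 / 40) * (1 - r ^ 2) : ℝ) : ℂ) * deriv h r := by
      push_cast
      ring
    rw [this, Complex.re_ofReal_mul]
    ring
  rw [h9] at h8
  have hK : 1 / 10 ≤ KK (1 / 40) := by
    unfold KK
    have h10 := Real.le_log_one_add_of_nonneg (show (0 : ℝ) ≤ 2 / 39 by norm_num)
    have e1 : (1 + 1 / 40 : ℝ) / (1 - 1 / 40) = 1 + 2 / 39 := by norm_num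
    rw [e1]
    norm_num at h10 ⊢
    linarith
  norm_num at h8 h1 hK ⊢
  linarith

end Pool.Agent.Helper854_CM
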