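import Mathlib
import Pool.Agent.Helper854_CM.Gr

/-!
Decay away from the main peak.
-/

set_option autoImplicit false

open MeasureTheory Filter Topology Complex Set Metric
open scoped ENNReal
open Pool.Agent.Helper854_CM.DR

noncomputable section

namespace Pool.Agent.Helper854_CM

theorem mob_bds {b ζ : ℂ} (hb : ‖b‖ < 1) (hζ : ‖ζ‖ < 3 / 4) :
    ‖mob b ζ - b‖ ≤ 3 * (1 - ‖b‖ ^ 2) ∧ (1 - ‖b‖ ^ 2) ≤ 7 * (1 - ‖mob b ζ‖ ^ 2) ∧
      (1 - ‖mob b ζ‖ ^ 2) ≤ 7 * (1 - ‖b‖ ^ 2) := by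
  obtain ⟨d, hd⟩ : ∃ d : ℂ, d = 1 + (starRingEnd ℂ) b * ζ := ⟨_, rfl⟩
  have hm : mob b ζ = (ζ + b) / d := by
    unfold mob
    rw [hd, map_neg]
    congr 1 <;> ring
  have hbz : ‖(starRingEnd ℂ) b * ζ‖ ≤ ‖ζ‖ := by
    rw [norm_mul, RCLike.norm_conj]
    nlinarith [norm_nonneg ζ]
  have hd1 : 1 - ‖ζ‖ ≤ ‖d‖ := by
    have := norm_sub_norm_le (1 : ℂ) (-((starRingEnd ℂ) b * ζ))
    rw [norm_neg, norm_one, sub_neg_eq_add, ← hd] at this
    linarith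
  have hd2 : ‖d‖ ≤ 1 + ‖ζ‖ := by
    have := norm_add_le (1 : ℂ) ((starRingEnd ℂ) b * ζ)
    rw [norm_one, ← hd] at this
    linarith
  have hd0 : 0 < ‖d‖ := by linarith
  have hdne : d ≠ 0 := norm_pos_iff.1 hd0
  have hb2 : 0 < 1 - ‖b‖ ^ 2 := by nlinarith [norm_nonneg b]
  have hz0 := norm_nonneg ζ
  have hid : ‖d‖ ^ 2 - ‖ζ + b‖ ^ 2 = (1 - ‖b‖ ^ 2) * (1 - ‖ζ‖ ^ 2) := by
    rw [hd, nsq, nsq (ζ + b), nsq b, nsq ζ]
    simp only [Complex.add_re, Complex.add_im, Complex.mul_re, Complex.mul_im, Complex.conj_re,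
      Complex.conj_im, Complex.one_re, Complex.one_im]
    ring
  have hw : 1 - ‖mob b ζ‖ ^ 2 = (1 - ‖b‖ ^ 2) * (1 - ‖ζ‖ ^ 2) / ‖d‖ ^ 2 := by
    rw [hm, norm_div, div_pow, ← hid]
    field_simp
  have hid2 : mob b ζ - b = ζ * ((1 - ‖b‖ ^ 2 : ℝ) : ℂ) / d := by
    have h4 : ((1 - ‖b‖ ^ 2 : ℝ) : ℂ) = 1 - (starRingEnd ℂ) b * b := by
      rw [mul_comm, Complex.mul_conj, Complex.normSq_eq_norm_sq]
      push_cast
      ring
    rw [hm, h4]
    field_simp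
    rw [hd]
    ring
  refine ⟨?_, ?_, ?_⟩
  · rw [hid2, norm_div, norm_mul, Complex.norm_real, Real.norm_of_nonneg hb2.le,
      div_le_iff₀ hd0]
    nlinarith
  · rw [hw, mul_div_assoc', le_div_iff₀ (by positivity)]
    have h1 : ‖d‖ ^ 2 ≤ (1 + ‖ζ‖) ^ 2 := by gcongr
    have h2 : (1 + ‖ζ‖) ^ 2 ≤ 7 * (1 - ‖ζ‖ ^ 2) := by nlinarith
    have h3 := mul_le_mul_of_nonneg_left (h1.trans h2) hb2.le
    linarith
  · rw [hw, div_le_iff₀ (by positivity)]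
    have h1 : (1 - ‖ζ‖) ^ 2 ≤ ‖d‖ ^ 2 := by
      have : 0 ≤ 1 - ‖ζ‖ := by linarith
      gcongr
    have h2 : (1 - ‖ζ‖ ^ 2) ≤ 7 * (1 - ‖ζ‖) ^ 2 := by nlinarith
    have h3 : (1 - ‖ζ‖ ^ 2) ≤ 7 * ‖d‖ ^ 2 := by linarith
    have h4 := mul_le_mul_of_nonneg_left h3 hb2.le
    linarith

theorem dist_sq (ρ θ a : ℝ) : ‖zz ρ θ - a‖ ^ 2 = (ρ - a) ^ 2 + 4 * ρ * a * Real.sin (θ / 2) ^ 2 := by
  rw [nsq, Complex.sub_re, Complex.sub_im, zz_re, zz_im, Complex.ofReal_re, Complex.ofReal_im]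
  have h1 := cos_half θ
  have h2 := Real.sin_sq_add_cos_sq θ
  have h3 : (ρ * Real.cos θ - a) ^ 2 + (ρ * Real.sin θ - 0) ^ 2 =
      ρ ^ 2 * (Real.sin θ ^ 2 + Real.cos θ ^ 2) + a ^ 2 - 2 * ρ * a * Real.cos θ := by ring
  rw [h3, h2, h1]
  ring

theorem disj {a ρ θ : ℝ} (ha0 : 0 ≤ a) (ha1 : a < 1) (hρ0 : 99 / 100 ≤ ρ) (hρ1 : ρ < 1)
    (hθ : |θ| ≤ Real.pi) (hh : 1 - ρ ^ 2 ≤ |θ| / 1000) (ζ₁ ζ₂ : ℂ) (h1 : ‖ζ₁‖ < 3 / 4)
    (h2 : ‖ζ₂‖ < 3 / 4) : mob a ζ₁ ≠ mob (zz ρ θ) ζ₂ := by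
  intro he
  have hpi := Real.pi_pos
  have hpi3 : Real.pi < 3.15 := Real.pi_lt_d2
  have hna : ‖(a : ℂ)‖ = a := by rw [Complex.norm_real, Real.norm_of_nonneg ha0]
  have hnz : ‖zz ρ θ‖ = ρ := by rw [norm_zz, abs_of_nonneg (by linarith)]
  obtain ⟨a1, a2, a3⟩ := mob_bds (b := (a : ℂ)) (by rw [hna]; exact ha1) h1
  obtain ⟨b1, b2, b3⟩ := mob_bds (b := zz ρ θ) (by rw [hnz]; exact hρ1) h2
  rw [← he] at b1 b2 b3
  rw [hna] at a1 a2 a3
  rw [hnz] at b1 b2 b3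
  have h3 : ‖zz ρ θ - a‖ ≤ 3 / 20 * |θ| := by
    have h4 : zz ρ θ - a = (mob a ζ₁ - a) - (mob a ζ₁ - zz ρ θ) := by ring
    rw [h4]
    refine (norm_sub_le _ _).trans ?_
    linarith
  have hθ0 : 0 < |θ| := by
    have : 0 < 1 - ρ ^ 2 := by nlinarith
    linarith
  have h5 := dist_sq ρ θ a
  have h6 : ‖zz ρ θ - a‖ ^ 2 ≤ (3 / 20 * |θ|) ^ 2 := by gcongr
  have h7 : (2 / Real.pi * |θ / 2|) ≤ |Real.sin (θ / 2)| := by
    refine Real.mul_abs_le_abs_sin ?_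
    rw [abs_div, abs_two]
    linarith
  have h8 : (|θ| / Real.pi) ^ 2 ≤ Real.sin (θ / 2) ^ 2 := by
    rw [← sq_abs (Real.sin (θ / 2))]
    have : 2 / Real.pi * |θ / 2| = |θ| / Real.pi := by
      rw [abs_div, abs_two]
      field_simp
    rw [this] at h7
    gcongr
  have h9 : |θ| ^ 2 / 10 ≤ (|θ| / Real.pi) ^ 2 := by
    rw [div_pow]
    gcongr
    nlinarith
  rcases le_or_gt a (1 / 2) with h10 | h10
  · have h11 : (49 / 100) ^ 2 ≤ (ρ - a) ^ 2 := by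
      have : 49 / 100 ≤ ρ - a := by linarith
      gcongr
    have h12 : 0 ≤ 4 * ρ * a * Real.sin (θ / 2) ^ 2 := by positivity
    have h13 : (3 / 20 * |θ|) ^ 2 ≤ (3 / 20 * 3.15) ^ 2 := by
      have : |θ| ≤ 3.15 := by linarith
      gcongr
    norm_num at h11 h13
    linarith
  · have h11 : 4 * (99 / 100) * (1 / 2) * (|θ| ^ 2 / 10) ≤ 4 * ρ * a * Real.sin (θ / 2) ^ 2 := by
      have := h9.trans h8
      gcongr
    have h12 := sq_nonneg (ρ - a)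
    have h13 : 0 < |θ| ^ 2 := by positivity
    nlinarith

theorem KK_40 : 1 / 10 ≤ KK (1 / 40) := by
  unfold KK
  have h10 := Real.le_log_one_add_of_nonneg (show (0 : ℝ) ≤ 2 / 39 by norm_num)
  have e1 : (1 + 1 / 40 : ℝ) / (1 - 1 / 40) = 1 + 2 / 39 := by norm_num
  rw [e1]
  norm_num at h10 ⊢
  linarith

theorem peak {h : ℂ → ℂ} (hC : CC h) (h0 : h 0 = 0) {r : ℝ} (hr0 : 1 / 40 ≤ r) (hr1 : r < 1)
    (hD : KK r - (h r).re ≤ 1 / 400) {y : ℝ} (hy0 : 0 ≤ y) (hy1 : y ≤ (h r).re) :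
    ∃ a : ℝ, 0 ≤ a ∧ a < 1 ∧ |(h a).re - y| ≤ 1 / 10 ∧ 3.9 ≤ (1 - a ^ 2) * ‖deriv h a‖ := by
  have hsub : Icc 0 r ⊆ Ioo (-1 : ℝ) 1 := fun x hx => ⟨by linarith [hx.1], by linarith [hx.2]⟩
  obtain ⟨u, hu⟩ : ∃ u : ℝ → ℝ, ∀ x, u x = (h (zz x 0)).re := ⟨_, fun x => rfl⟩
  have hux : ∀ x : ℝ, u x = (h x).re := fun x => by rw [hu, zz_theta_zero]
  have hud : ∀ x ∈ Ioo (-1 : ℝ) 1, HasDerivAt u (deriv h (zz x 0) * cexp ((0 : ℝ) * I)).re x := by
    intro x hx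
    rw [funext hu]
    exact rayd hC.diff hx 0
  have huc : ContinuousOn u (Icc 0 r) := fun x hx =>
    (hud x (hsub hx)).continuousAt.continuousWithinAt
  have hu0 : u 0 = 0 := by rw [hux]; simp [h0]
  have hKc : ContinuousOn KK (Icc 0 r) := KK_cont.mono hsub
  have hm1 : ∀ x ∈ Ioo (-1 : ℝ) 1, ∀ y ∈ Ioo (-1 : ℝ) 1, x ≤ y → KK x - u x ≤ KK y - u y := by
    intro x hx y hy hxy
    rw [hu, hu]
    exact hC.ray_mono1 0 hx hy hxy
  have hm2 : ∀ x ∈ Ioo (-1 : ℝ) 1, ∀ y ∈ Ioo (-1 : ℝ) 1, x ≤ y → KK x + u x ≤ KK y + u y := by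
    intro x hx y hy hxy
    rw [hu, hu]
    exact hC.ray_mono2 0 hx hy hxy
  have h0m : (0 : ℝ) ∈ Icc 0 r := ⟨le_rfl, by linarith⟩
  have hrm : r ∈ Icc 0 r := ⟨by linarith, le_rfl⟩
  have hcl : ∀ x ∈ Icc 0 r, ∀ y ∈ Icc 0 r, |KK x - KK y| ≤ 1 / 10 → |u x - u y| ≤ 1 / 10 := by
    intro x hx y hy hxy
    have hx' := hsub hx
    have hy' := hsub hy
    rw [abs_le] at hxy ⊢
    rcases le_total x y with h1 | h1
    · have := hm1 x hx' y hy' h1
      have := hm2 x hx' y hy' h1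
      constructor <;> linarith
    · have := hm1 y hy' x hx' h1
      have := hm2 y hy' x hx' h1
      constructor <;> linarith
  -- the level
  obtain ⟨x, hx, hxy⟩ : ∃ x ∈ Icc 0 r, u x = y := by
    have := intermediate_value_Icc (by linarith : (0 : ℝ) ≤ r) huc
    have hym : y ∈ Icc (u 0) (u r) := ⟨by rw [hu0]; exact hy0, by rw [hux]; exact hy1⟩
    exact this hym
  have hKr : 1 / 10 ≤ KK r :=
    KK_40.trans (KK_mono (by constructor <;> norm_num) (hsub hrm) hr0)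
  have hK0 : ∀ x ∈ Icc 0 r, 0 ≤ KK x := fun x hx => by
    have := KK_mono (hsub h0m) (hsub hx) hx.1
    rwa [KK_zero] at this
  -- an interval of length `1/10` in the `KK` scale
  obtain ⟨x₁, x₂, hx1, hx2, hKd, hxc⟩ : ∃ x₁ x₂ : ℝ, x₁ ∈ Icc 0 r ∧ x₂ ∈ Icc 0 r ∧
      KK x₂ - KK x₁ = 1 / 10 ∧ ∀ c ∈ Ioo x₁ x₂, |KK c - KK x| ≤ 1 / 10 := by
    rcases le_or_gt (1 / 10) (KK x) with h1 | h1
    · have hKc' : ContinuousOn KK (Icc 0 x) := hKc.mono (Icc_subset_Icc_right hx.2)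
      obtain ⟨x₁, hx1, hx1'⟩ : ∃ x₁ ∈ Icc 0 x, KK x₁ = KK x - 1 / 10 := by
        have := intermediate_value_Icc hx.1 hKc'
        exact this ⟨by rw [KK_zero]; linarith, by linarith⟩
      refine ⟨x₁, x, ⟨hx1.1, hx1.2.trans hx.2⟩, hx, by rw [hx1']; ring, fun c hc => ?_⟩
      have hcm : c ∈ Icc 0 r := ⟨by linarith [hx1.1, hc.1], by linarith [hx.2, hc.2]⟩
      have h2 := KK_mono (hsub ⟨hx1.1, hx1.2.trans hx.2⟩) (hsub hcm) hc.1.le
      have h3 := KK_mono (hsub hcm) (hsub hx) hc.2.le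
      rw [abs_le]
      constructor <;> linarith
    · obtain ⟨x₂, hx2, hx2'⟩ : ∃ x₂ ∈ Icc 0 r, KK x₂ = 1 / 10 := by
        have := intermediate_value_Icc (by linarith : (0 : ℝ) ≤ r) hKc
        exact this ⟨by rw [KK_zero]; norm_num, hKr⟩
      refine ⟨0, x₂, h0m, hx2, by rw [hx2', KK_zero]; ring, fun c hc => ?_⟩
      have hcm : c ∈ Icc 0 r := ⟨hc.1.le, by linarith [hx2.2, hc.2]⟩
      have h2 := hK0 c hcm
      have h3 := KK_mono (hsub hcm) (hsub hx2) hc.2.le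
      have h4 := hK0 x hx
      rw [abs_le]
      constructor <;> linarith
  have hlt : x₁ < x₂ := by
    by_contra hcon
    push Not at hcon
    have := KK_mono (hsub hx2) (hsub hx1) hcon
    linarith
  have hIs : Icc x₁ x₂ ⊆ Icc 0 r := Icc_subset_Icc hx1.1 hx2.2
  obtain ⟨c, hc, hce⟩ := exists_ratio_hasDerivAt_eq_ratio_slope u
    (fun x => (deriv h (zz x 0) * cexp ((0 : ℝ) * I)).re) hlt (huc.mono hIs)
    (fun x hx => hud x (hsub (hIs (Ioo_subset_Icc_self hx)))) KK (fun x => 4 / (1 - x ^ 2))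
    (hKc.mono hIs) (fun x hx => KK_deriv (hsub (hIs (Ioo_subset_Icc_self hx))))
  have hcm : c ∈ Icc 0 r := hIs (Ioo_subset_Icc_self hc)
  have hc1 : c < 1 := by linarith [hcm.2]
  refine ⟨c, hcm.1, hc1, ?_, ?_⟩
  · have := hcl c hcm x hx (hxc c hc)
    rw [hxy, hux] at this
    exact this
  · have h1 : 39 / 400 ≤ u x₂ - u x₁ := by
      have e1 := hm1 x₂ (hsub hx2) r (hsub hrm) hx2.2
      have e2 := hm1 0 (hsub h0m) x₁ (hsub hx1) hx1.1
      rw [hu0, KK_zero] at e2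
      rw [hux r] at e1
      linarith
    have hc2 : 0 < 1 - c ^ 2 := by nlinarith [hcm.1]
    have h2 : (deriv h (zz c 0) * cexp ((0 : ℝ) * I)).re ≤ ‖deriv h c‖ := by
      rw [zz_theta_zero]
      simp only [Complex.ofReal_zero, zero_mul, Complex.exp_zero, mul_one]
      exact Complex.re_le_norm _
    simp only [hKd] at hce
    have h3 : 39 / 400 * (4 / (1 - c ^ 2)) ≤ 1 / 10 * ‖deriv h c‖ := by
      calc 39 / 400 * (4 / (1 - c ^ 2)) ≤ (u x₂ - u x₁) * (4 / (1 - c ^ 2)) := by gcongr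
        _ = 1 / 10 * (deriv h (zz c 0) * cexp ((0 : ℝ) * I)).re := by rw [← hce]
        _ ≤ _ := by gcongr
    have h4 : 39 / 400 * (4 / (1 - c ^ 2)) = (39 / 100) / (1 - c ^ 2) := by ring
    rw [h4, div_le_iff₀ hc2] at h3
    norm_num
    linarith

theorem max_prin {h : ℂ → ℂ} (hh : DifferentiableOn ℂ h (ball 0 1)) {r : ℝ} (hr0 : 0 < r)
    (hr1 : r < 1) {V : ℝ} (hmax : ∀ θ : ℝ, |θ| ≤ Real.pi → (h (zz r θ)).re ≤ V) {ρ : ℝ}
    (hρ0 : 0 ≤ ρ) (hρ : ρ ≤ r) (θ : ℝ) : (h (zz ρ θ)).re ≤ V := by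
  have h1 : DiffContOnCl ℂ (fun z => cexp (h z)) (ball 0 r) := by
    refine DifferentiableOn.diffContOnCl ?_
    rw [closure_ball _ hr0.ne']
    exact (hh.mono (closedBall_subset_ball hr1)).cexp
  have h2 : ∀ z ∈ frontier (ball (0 : ℂ) r), ‖cexp (h z)‖ ≤ Real.exp V := by
    intro z hz
    rw [frontier_ball _ hr0.ne', mem_sphere_zero_iff_norm] at hz
    have h3 : z = zz r (Complex.arg z) := by
      unfold zz
      rw [← hz]
      exact (Complex.norm_mul_exp_arg_mul_I z).symm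
    rw [Complex.norm_exp, h3]
    exact Real.exp_le_exp.2 (hmax _ (Complex.abs_arg_le_pi z))
  have h3 := Complex.norm_le_of_forall_mem_frontier_norm_le isBounded_ball h1 h2
    (z := zz ρ θ) (by
      rw [closure_ball _ hr0.ne', mem_closedBall_zero_iff, norm_zz, abs_of_nonneg hρ0]
      exact hρ)
  rw [Complex.norm_exp] at h3
  exact Real.exp_le_exp.1 h3

theorem far {h : ℂ → ℂ} (hC : CC h) (h0 : h 0 = 0) {r : ℝ} (hr1 : r < 1)
    (hr40 : 1 / 40 ≤ r) (hD : KK r - (h r).re ≤ 1 / 400)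
    (hmax : ∀ θ : ℝ, |θ| ≤ Real.pi → (h (zz r θ)).re ≤ (h r).re)
    {θ : ℝ} (hθ : |θ| ≤ Real.pi) (hs : 6000 ≤ bb r * |θ|) :
    (h (zz r θ)).re - (h r).re ≤ (KK r - (h r).re) - 2 / 5 * Real.log (bb r * |θ| / 2000) := by
  have hpi := Real.pi_pos
  have hpi3 : Real.pi < 3.15 := Real.pi_lt_d2
  have hr0 : 0 < r := by linarith
  have hb := bb_pos hr0 hr1
  have hr2 : 0 < 1 - r := by linarith
  have hθ0 : 0 < |θ| := by
    rcases eq_or_lt_of_le (abs_nonneg θ) with h1 | h1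
    · rw [← h1, mul_zero] at hs
      norm_num at hs
    · exact h1
  have hs1 : bb r * |θ| ≤ |θ| / (1 - r) := by
    have e1 : bb r * |θ| = 2 * r * |θ| / ((1 - r) * (1 + r)) := by
      unfold bb
      have : (1 - r ^ 2) = (1 - r) * (1 + r) := by ring
      rw [this]
      ring
    rw [e1, div_le_div_iff₀ (by positivity) hr2]
    have e2 : 2 * r * |θ| * (1 - r) ≤ (1 + r) * |θ| * (1 - r) := by
      have : 2 * r ≤ 1 + r := by linarith
      gcongr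
    linarith
  have h1r : 1 - r ≤ |θ| / 6000 := by
    have e1 := hs.trans hs1
    rw [le_div_iff₀ hr2] at e1
    linarith
  obtain ⟨ρ₀, hρ₀⟩ : ∃ ρ₀ : ℝ, ρ₀ = 1 - |θ| / 2000 := ⟨_, rfl⟩
  have hρr : ρ₀ ≤ r := by rw [hρ₀]; linarith
  have hρ99 : 99 / 100 ≤ ρ₀ := by rw [hρ₀]; linarith
  have hρ1 : ρ₀ < 1 := by linarith
  have hsub : Icc ρ₀ r ⊆ Ioo (-1 : ℝ) 1 := fun x hx => ⟨by linarith [hx.1], by linarith [hx.2]⟩
  have hK0 : 0 ≤ KK ρ₀ := by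
    have := KK_mono (show (0 : ℝ) ∈ Ioo (-1 : ℝ) 1 by constructor <;> norm_num)
      (hsub ⟨le_rfl, hρr⟩) (by linarith)
    rwa [KK_zero] at this
  have hmain := image_le_of_deriv_right_lt_deriv_boundary'
    (f := fun x => (h (zz x θ)).re) (f' := fun x => (deriv h (zz x θ) * cexp (θ * I)).re)
    (a := ρ₀) (b := r)
    (fun x hx => (rayd hC.diff (hsub hx) θ).continuousAt.continuousWithinAt)
    (fun x hx => (rayd hC.diff (hsub ⟨hx.1, hx.2.le⟩) θ).hasDerivWithinAt)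
    (B := fun x => KK ρ₀ + 4 / 5 * (KK x - KK ρ₀)) (B' := fun x => 4 / 5 * (4 / (1 - x ^ 2)))
    (by
      simp only [sub_self, mul_zero, add_zero]
      exact hC.growth h0 (by linarith) hρ1 θ)
    (fun x hx => ((((KK_deriv (hsub hx)).sub_const _).const_mul _).const_add
      _).continuousAt.continuousWithinAt)
    (fun x hx => ((((KK_deriv (hsub ⟨hx.1, hx.2.le⟩)).sub_const _).const_mul _).const_add
      _).hasDerivWithinAt)
    (by
      intro x hx hfB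
      have hx' := hsub ⟨hx.1, hx.2.le⟩
      have hy0 : 0 ≤ (h (zz x θ)).re := by
        rw [hfB]
        have := KK_mono (hsub ⟨le_rfl, hρr⟩) hx' hx.1
        linarith
      have hy1 : (h (zz x θ)).re ≤ (h r).re :=
        max_prin hC.diff hr0 hr1 hmax (by linarith [hx.1]) hx.2.le θ
      obtain ⟨a, ha0, ha1, ha2, ha3⟩ := peak hC h0 hr40 hr1 hD hy0 hy1
      have hx2 : 0 < 1 - x ^ 2 := by nlinarith [hx'.1, hx'.2]
      have hna : ‖(a : ℂ)‖ = a := by rw [Complex.norm_real, Real.norm_of_nonneg ha0]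
      have hnz : ‖zz x θ‖ = x := by rw [norm_zz, abs_of_nonneg (by linarith [hx.1])]
      have hth : 1 - x ^ 2 ≤ |θ| / 1000 := by
        have e1 : 1 - x ≤ |θ| / 2000 := by have := hx.1; rw [hρ₀] at this; linarith
        have e2 : 0 ≤ 1 - x := by linarith [hx'.2]
        nlinarith [hx'.2]
      have h5 := hC.excl (a := (a : ℂ)) (z := zz x θ) (by rw [hna]; exact ha1)
        (by rw [hnz]; exact hx'.2)
        (disj ha0 ha1 (by linarith [hx.1]) hx'.2 hθ hth) (by rw [hna]; exact ha3) ha2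
      rw [hnz] at h5
      have h6 : (deriv h (zz x θ) * cexp (θ * I)).re ≤ ‖deriv h (zz x θ)‖ := by
        refine (Complex.re_le_norm _).trans ?_
        rw [norm_mul, Complex.norm_exp_ofReal_mul_I, mul_one]
      have h7 : ‖deriv h (zz x θ)‖ ≤ 3.1 / (1 - x ^ 2) := by
        rw [le_div_iff₀ hx2]
        linarith
      have h8 : 3.1 / (1 - x ^ 2) < 4 / 5 * (4 / (1 - x ^ 2)) := by
        rw [mul_div_assoc']
        gcongr
        norm_num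
      exact lt_of_le_of_lt (h6.trans h7) h8)
    (right_mem_Icc.2 hρr)
  have hfin : 2 * Real.log (bb r * |θ| / 2000) ≤ KK r - KK ρ₀ := by
    unfold KK
    have g1 : 0 < (1 + r) / (1 - r) := by positivity
    have g2 : 0 < (1 + ρ₀) / (1 - ρ₀) := div_pos (by linarith) (by linarith)
    have g3 : 2 * Real.log ((1 + r) / (1 - r)) - 2 * Real.log ((1 + ρ₀) / (1 - ρ₀)) =
        2 * Real.log (((1 + r) / (1 - r)) / ((1 + ρ₀) / (1 - ρ₀))) := by
      rw [Real.log_div g1.ne' g2.ne']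
      ring
    rw [g3]
    refine mul_le_mul_of_nonneg_left ?_ (by norm_num)
    refine Real.log_le_log (by positivity) ?_
    have g4 : 1 - ρ₀ = |θ| / 2000 := by rw [hρ₀]; ring
    have e1 : bb r * |θ| / 2000 = (r * |θ| / 1000) / ((1 - r) * (1 + r)) := by
      unfold bb
      have : (1 - r ^ 2) = (1 - r) * (1 + r) := by ring
      rw [this]
      ring
    have e2 : (1 + r) / (1 - r) / ((1 + ρ₀) / (1 - ρ₀)) =
        ((1 + r) * (|θ| / 2000)) / ((1 - r) * (1 + ρ₀)) := by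
      rw [← g4]
      field_simp
    rw [e1, e2, div_le_div_iff₀ (by positivity) (by have : 0 < 1 + ρ₀ := by linarith
                                                    positivity)]
    have e3 : (r * |θ| / 1000) * ((1 - r) * (1 + ρ₀)) ≤ (r * |θ| / 1000) * ((1 - r) * 2) := by
      gcongr
      linarith
    have e4 : (1 + r) * (|θ| / 2000) * ((1 - r) * (1 + r)) -
        (r * |θ| / 1000) * ((1 - r) * 2) = (|θ| / 2000) * (1 - r) * (1 - r) ^ 2 := by ring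
    have e5 : 0 ≤ (|θ| / 2000) * (1 - r) * (1 - r) ^ 2 := by positivity
    linarith
  linarith

end Pool.Agent.Helper854_CM
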