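import Mathlib
import Pool.Agent.Helper854_CM.Far

/-!
The case of a small growth deficiency.
-/

set_option autoImplicit false

open MeasureTheory Filter Topology Complex Set Metric
open scoped ENNReal
open Pool.Agent.Helper854_CM.DR

noncomputable section

namespace Pool.Agent.Helper854_CM

theorem kk_re_le {r : ℝ} (h0 : 0 < r) (h1 : r < 1) (θ : ℝ) : (kk (ze r θ)).re ≤ -‖ze r θ‖ ^ 2 := by
  have h2 := exp_re_upper h0 h1 θ
  have h3 := ze_norm h0 h1 θ
  have h4 : 1 / (1 + 4 * YY r θ ^ 2) ≤ 1 - ‖ze r θ‖ ^ 2 := by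
    rw [h3]
    have : 1 - YY r θ ^ 2 / (1 + YY r θ ^ 2) = 1 / (1 + YY r θ ^ 2) := by
      field_simp
      ring
    rw [this]
    gcongr
    nlinarith [sq_nonneg (YY r θ)]
  have h5 := Real.add_one_le_exp (-‖ze r θ‖ ^ 2)
  have h6 : Real.exp (kk (ze r θ)).re ≤ Real.exp (-‖ze r θ‖ ^ 2) := by linarith
  exact Real.exp_le_exp.1 h6

theorem near_bd {g : ℂ → ℂ} {δ τ : ℝ} (D : SDa g δ τ) (hδ : δ ≤ 1 / 10 ^ 50) {r : ℝ} (h0 : 0 < r)
    (h1 : r < 1) {p : ℝ} (hp : 20 ≤ p) {θ : ℝ} (hθ : |θ| ≤ Real.pi) (hs : bb r * |θ| ≤ 6000) :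
    ‖GT p r θ * cexp ((p : ℂ) * Hg g (ze r θ))‖ ≤
      Real.exp (p * δ ^ 2) * Gam (Real.sqrt p * bb r * θ) := by
  have hδ0 := D.δ0
  have hτ0 := D.τ0
  have hτ : τ ≤ 1 / 10 ^ 25 := by
    have h2 : τ ^ 2 ≤ (1 / 10 ^ 25) ^ 2 := by
      rw [← D.hδ]
      refine hδ.trans (le_of_eq ?_)
      norm_num
    exact le_of_sq_le_sq h2 (by norm_num)
  have hY0 := YY_nonneg h0 h1 θ
  have hY : YY r θ ≤ 3000 := by
    have := YY_le h0 h1 θ
    linarith
  have hz := ze_lt h0 h1 θ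
  have hz0 := norm_nonneg (ze r θ)
  have e1 := D.H_bd hz
  have e2 := ze_inv h0 h1 θ
  have e3 : 64 * τ * ‖ze r θ‖ ^ 2 / (1 - ‖ze r θ‖) ^ 3 ≤ ‖ze r θ‖ ^ 2 / 4 := by
    have f1 : 8 * (1 + YY r θ ^ 2) ^ 3 ≤ 8 * (1 + 3000 ^ 2) ^ 3 := by gcongr
    have f2 : 0 ≤ 1 / (1 - ‖ze r θ‖) ^ 3 := by
      have : 0 ≤ 1 - ‖ze r θ‖ := by linarith
      positivity
    calc 64 * τ * ‖ze r θ‖ ^ 2 / (1 - ‖ze r θ‖) ^ 3
        = 64 * τ * ‖ze r θ‖ ^ 2 * (1 / (1 - ‖ze r θ‖) ^ 3) := by ring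
      _ ≤ 64 * (1 / 10 ^ 25) * ‖ze r θ‖ ^ 2 * (8 * (1 + 3000 ^ 2) ^ 3) := by
          have := e2.trans f1
          gcongr
      _ = ‖ze r θ‖ ^ 2 * (64 * (1 / 10 ^ 25) * (8 * (1 + 3000 ^ 2) ^ 3)) := by ring
      _ ≤ ‖ze r θ‖ ^ 2 * (1 / 4) := by
          gcongr
          norm_num
      _ = _ := by ring
  have e4 : δ * ‖ze r θ‖ ≤ δ ^ 2 + ‖ze r θ‖ ^ 2 / 4 := by
    nlinarith [sq_nonneg (δ - ‖ze r θ‖ / 2)]
  have e5 := kk_re_le h0 h1 θ
  have e6 := Complex.re_le_norm (Hg g (ze r θ))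
  rw [norm_mul, GT_norm, Complex.norm_exp, Complex.re_ofReal_mul, ← Real.exp_add]
  have e7 : p * (kk (ze r θ)).re + p * (Hg g (ze r θ)).re ≤
      p * δ ^ 2 + p / 2 * (kk (ze r θ)).re := by
    have : (kk (ze r θ)).re + (Hg g (ze r θ)).re ≤ δ ^ 2 + (kk (ze r θ)).re / 2 := by linarith
    have := mul_le_mul_of_nonneg_left this (by linarith : 0 ≤ p)
    linarith
  refine (Real.exp_le_exp.2 e7).trans ?_
  rw [Real.exp_add]
  have := decay h0 h1 hp hθ
  gcongr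

theorem log_small {p : ℝ} (hp : 10 ^ 46 ≤ p) : Real.log p ≤ p / 1000 := by
  have hp0 : 0 < p := lt_of_lt_of_le (by norm_num) hp
  have hs0 : 0 < Real.sqrt p := Real.sqrt_pos.2 hp0
  have hs : (10 : ℝ) ^ 23 ≤ Real.sqrt p := by
    apply Real.le_sqrt_of_sq_le
    calc ((10 : ℝ) ^ 23) ^ 2 = 10 ^ 46 := by norm_num
      _ ≤ p := hp
  have h1 : Real.log p = 2 * Real.log (Real.sqrt p) := by
    rw [Real.log_sqrt hp0.le]
    ring
  have h2 := Real.log_le_sub_one_of_pos hs0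
  have h3 : Real.sqrt p * 10 ^ 23 ≤ p := by
    calc Real.sqrt p * 10 ^ 23 ≤ Real.sqrt p * Real.sqrt p := by gcongr
      _ = p := Real.mul_self_sqrt hp0.le
  rw [h1]
  norm_num at h3
  linarith

theorem far_bd {D s p x : ℝ} (hp : 10 ^ 46 ≤ p) (hs : 6000 ≤ s) (hD : D ≤ 1 / 400)
    (hx : x ≤ D - 2 / 5 * Real.log (s / 2000)) :
    Real.exp (p * x) ≤ 1 / (1 + p * s ^ 2 / 50) ^ 10 := by
  have hp0 : 0 < p := lt_of_lt_of_le (by norm_num) hp
  have hp1 : (10 : ℝ) ^ 6 ≤ p := le_trans (by norm_num) hp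
  have hs0 : 0 < s := by linarith
  obtain ⟨L, hL⟩ : ∃ L : ℝ, L = Real.log (s / 2000) := ⟨_, rfl⟩
  rw [← hL] at hx
  have hL1 : 1 ≤ L := by
    rw [hL, Real.le_log_iff_exp_le (by positivity)]
    have := Real.exp_one_lt_d9
    rw [le_div_iff₀ (by norm_num)]
    linarith
  have hLs : Real.log s ≤ L + 8 := by
    have h1 : Real.log s = L + Real.log 2000 := by
      rw [hL, ← Real.log_mul (by positivity) (by norm_num)]
      congr 1
      ring
    have h2 : Real.log 2000 ≤ 8 := by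
      rw [Real.log_le_iff_le_exp (by norm_num)]
      have h3 := Real.exp_one_gt_d9
      have h4 : (2.7 : ℝ) ^ 8 ≤ Real.exp 1 ^ 8 := by gcongr; linarith
      rw [← Real.exp_nat_mul] at h4
      norm_num at h4
      linarith
    linarith
  have hlp := log_small hp
  have h1 : (1 + p * s ^ 2 / 50) ^ 10 ≤ Real.exp (10 * Real.log p + 20 * Real.log s) := by
    have e1 : 1 + p * s ^ 2 / 50 ≤ p * s ^ 2 := by nlinarith
    have e2 : Real.exp (10 * Real.log p + 20 * Real.log s) = (p * s ^ 2) ^ 10 := by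
      rw [Real.exp_add, mul_comm 10 (Real.log p), mul_comm 20 (Real.log s), Real.exp_mul,
        Real.exp_mul, Real.exp_log hp0, Real.exp_log hs0]
      norm_cast
      ring
    rw [e2]
    gcongr
  rw [le_div_iff₀ (by positivity)]
  calc Real.exp (p * x) * (1 + p * s ^ 2 / 50) ^ 10
      ≤ Real.exp (p * x) * Real.exp (10 * Real.log p + 20 * Real.log s) := by gcongr
    _ = Real.exp (p * x + (10 * Real.log p + 20 * Real.log s)) := (Real.exp_add _ _).symm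
    _ ≤ Real.exp 0 := by
        refine Real.exp_le_exp.2 ?_
        have e3 : p * x ≤ p * (1 / 400 - 2 / 5 * L) := by
          have : x ≤ 1 / 400 - 2 / 5 * L := by linarith
          gcongr
        have e4 : p ≤ p * L := by nlinarith
        have e5 : 10 ^ 6 * L ≤ p * L := by gcongr
        norm_num at e5
        nlinarith
    _ = 1 := Real.exp_zero

theorem caseB {h : ℂ → ℂ} (hC : CC h) (h0 : h 0 = 0) {r : ℝ} (hr40 : 1 / 40 ≤ r) (hr1 : r < 1)
    (hmax : ∀ θ : ℝ, (h (zz r θ)).re ≤ (h r).re) (hD : KK r - (h r).re ≤ 1 / 10 ^ 52)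
    {p : ℝ} (hp : 10 ^ 46 ≤ p) :
    ‖∫ θ in (-Real.pi)..Real.pi, cexp ((p : ℂ) * (h (zz r θ) - h r) -
      ((2 * p * bb r * θ : ℝ) : ℂ) * I)‖ ≤ Real.exp (p * (KK r - (h r).re)) * ITT p r := by
  have hr0 : 0 < r := by linarith
  have hp0 : 0 < p := lt_of_lt_of_le (by norm_num) hp
  have hrI : r ∈ Ioo (-1 : ℝ) 1 := ⟨by linarith, hr1⟩
  have hrr : ‖(r : ℂ)‖ < 1 := by
    rw [Complex.norm_real, Real.norm_of_nonneg (by linarith)]; exact hr1
  have hD400 : KK r - (h r).re ≤ 1 / 400 := hD.trans (by norm_num)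
  have hr2 : 0 < 1 - r ^ 2 := by nlinarith
  -- the derivative is real
  have him : (deriv h r).im = 0 := by
    have h1 : HasDerivAt (fun θ : ℝ => (h (zz r θ)).re) (deriv h (zz r 0) * (I * zz r 0)).re 0 :=
      re_deriv (G_dt hC.diff hrI 0)
    have h2 : IsLocalMax (fun θ : ℝ => (h (zz r θ)).re) 0 := by
      refine Eventually.of_forall fun θ => ?_
      simp only [zz_zero]
      exact hmax θ
    have h3 := h2.hasDerivAt_eq_zero h1
    rw [zz_zero, Complex.mul_re, Complex.mul_re, Complex.mul_im] at h3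
    simp at h3
    rcases h3 with h3 | h3
    · exact h3
    · linarith
  obtain ⟨δ, hδ⟩ : ∃ δ : ℝ, δ = 4 - (1 - r ^ 2) * (deriv h r).re := ⟨_, rfl⟩
  have hδ1 : δ < 1 := by
    by_contra hcon
    push Not at hcon
    have := D_lower2 hC h0 hr40 hr1 (by linarith)
    have h2 : (1 : ℝ) / 10 ^ 52 < 1 / 80 := by norm_num
    linarith
  have hδ0 : 0 ≤ δ := by
    have h1 := hC.bloch hrr
    rw [Complex.norm_real, Real.norm_eq_abs, sq_abs] at h1
    have h2 := Complex.re_le_norm (deriv h r)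
    have := mul_le_mul_of_nonneg_left h2 hr2.le
    rw [hδ]
    linarith
  obtain ⟨g, hg⟩ : ∃ g : ℂ → ℂ, g = fun ζ => h (mob r ζ) := ⟨_, rfl⟩
  have hgC : CC g := by rw [hg]; exact hC.comp (IM_mob hrr)
  have hg0 : deriv g 0 = ((4 - δ : ℝ) : ℂ) := by
    have h6 := base_deriv hC.diff hrr 1
    have h7 : (fun z => h (mob r (((1 : ℝ) : ℂ) * z))) = g := by
      funext z
      rw [hg]
      simp
    rw [h7] at h6
    rw [h6, Complex.norm_real, Real.norm_eq_abs, sq_abs]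
    have h8 : deriv h r = (((deriv h r).re : ℝ) : ℂ) := by
      apply Complex.ext <;> simp [him]
    rw [h8, hδ]
    push_cast
    ring
  obtain ⟨τ, hτ⟩ : ∃ τ : ℝ, τ = Real.sqrt δ := ⟨_, rfl⟩
  have hτ0 : 0 ≤ τ := by rw [hτ]; positivity
  have hδτ : δ = τ ^ 2 := by rw [hτ, Real.sq_sqrt hδ0]
  have hτ1 : τ ≤ 1 := by rw [hτ, Real.sqrt_le_one]; exact hδ1.le
  have DD : SDa g δ τ := SDa_of hgC hτ0 hτ1 hδτ hg0
  have hDl : δ / 80 ≤ KK r - (h r).re := by
    rw [hg] at DD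
    exact D_lower hC h0 hr40 hr1 DD
  have hδs : δ ≤ 1 / 10 ^ 50 := by
    have h2 : (1 : ℝ) / 10 ^ 52 * 80 ≤ 1 / 10 ^ 50 := by norm_num
    linarith
  have hid : ∀ θ : ℝ, GT p r θ * cexp ((p : ℂ) * Hg g (ze r θ)) =
      cexp ((p : ℂ) * (h (zz r θ) - h r) - ((2 * p * bb r * θ : ℝ) : ℂ) * I) := by
    intro θ
    unfold GT Hg
    rw [← Complex.exp_add, hg]
    simp only [mob_zero, mob_ze hr0 hr1]
    congr 1
    ring
  have hGb : ∀ θ : ℝ, |θ| ≤ Real.pi → ‖GT p r θ * cexp ((p : ℂ) * Hg g (ze r θ))‖ ≤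
      Real.exp (p * δ ^ 2) * Gam (Real.sqrt p * bb r * θ) := by
    intro θ hθ
    rcases le_or_gt (bb r * |θ|) 6000 with hs | hs
    · exact near_bd DD hδs hr0 hr1 (le_trans (by norm_num) hp) hθ hs
    · have h1 := far hC h0 hr1 hr40 hD400 (fun θ _ => hmax θ) hθ hs.le
      have h2 := far_bd hp hs.le hD400 h1
      have h3 : ‖GT p r θ * cexp ((p : ℂ) * Hg g (ze r θ))‖ =
          Real.exp (p * ((h (zz r θ)).re - (h r).re)) := by
        rw [hid, Complex.norm_exp, Complex.sub_re, Complex.re_ofReal_mul, Complex.sub_re,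
          Complex.re_ofReal_mul, Complex.I_re]
        ring_nf
      rw [h3]
      have h4 : Gam (Real.sqrt p * bb r * θ) = 1 / (1 + p * (bb r * |θ|) ^ 2 / 50) ^ 10 := by
        unfold Gam
        have : (Real.sqrt p * bb r * θ) ^ 2 = p * (bb r * |θ|) ^ 2 := by
          rw [mul_assoc, mul_pow, Real.sq_sqrt hp0.le, mul_pow, mul_pow, sq_abs]
        rw [this]
      rw [h4]
      refine h2.trans ?_
      have h5 : 1 ≤ Real.exp (p * δ ^ 2) := Real.one_le_exp (by positivity)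
      have h6 : 0 ≤ 1 / (1 + p * (bb r * |θ|) ^ 2 / 50) ^ 10 := by positivity
      nlinarith
  have hmain := CB DD hp hr40 hr1 (hδs.trans (by norm_num)) hGb
  rw [intervalIntegral.integral_congr (fun θ _ => hid θ)] at hmain
  refine hmain.trans ?_
  have hITT : 0 ≤ ITT p r := by
    have := ITT_lower (p := p) (r := r) (le_trans (by norm_num) hp) hr40 hr1
    have hb := bb_pos hr0 hr1
    refine le_trans ?_ this
    positivity
  have h5 : p * δ / 80 ≤ p * (KK r - (h r).re) := by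
    have := mul_le_mul_of_nonneg_left hDl hp0.le
    linarith
  have h6 := Real.exp_le_exp.2 h5
  gcongr

end Pool.Agent.Helper854_CM
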