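import Mathlib
import Pool.Agent.Helper854_CM.CsB

/-!
The case of a large growth deficiency: integral means.
-/

set_option autoImplicit false

open MeasureTheory Filter Topology Complex Set Metric
open scoped ENNReal
open Pool.Agent.Helper854_CM.DR

noncomputable section

namespace Pool.Agent.Helper854_CM

/-- integral mean -/
def MM (h : ℂ → ℂ) (p r : ℝ) : ℝ := ∫ θ in (0 : ℝ)..(2 * Real.pi), Real.exp (p * (h (zz r θ)).re)

theorem MM_deriv {h : ℂ → ℂ} (hh : DifferentiableOn ℂ h (ball 0 1)) (p : ℝ) {r : ℝ}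
    (hr : r ∈ Ioo (-1 : ℝ) 1) : HasDerivAt (MM h p)
      (∫ θ in (0 : ℝ)..(2 * Real.pi), Real.exp (p * (h (zz r θ)).re) *
        (p * (deriv h (zz r θ) * cexp (θ * I)).re)) r := by
  have hpi := Real.pi_pos
  unfold MM
  obtain ⟨ε, hε, hball⟩ := Metric.isOpen_iff.1 (isOpen_Ioo (a := (-1 : ℝ)) (b := 1)) r hr
  have hsub : Icc (r - ε / 2) (r + ε / 2) ⊆ Ioo (-1 : ℝ) 1 := by
    intro x hx
    apply hball
    rw [Metric.mem_ball, Real.dist_eq, abs_lt]
    constructor <;> linarith [hx.1, hx.2]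
  have hA : ContinuousOn (fun q : ℝ × ℝ => Real.exp (p * (h (zz q.1 q.2)).re))
      (Ioo (-1 : ℝ) 1 ×ˢ univ) :=
    Real.continuous_exp.comp_continuousOn (continuousOn_const.mul
      (Complex.continuous_re.comp_continuousOn (G_cont hh)))
  have hB : ContinuousOn (fun q : ℝ × ℝ => Real.exp (p * (h (zz q.1 q.2)).re) *
      (p * (deriv h (zz q.1 q.2) * cexp (q.2 * I)).re)) (Ioo (-1 : ℝ) 1 ×ˢ univ) := by
    refine hA.mul (continuousOn_const.mul (Complex.continuous_re.comp_continuousOn ?_))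
    exact (G_cont (hh.deriv isOpen_ball)).mul (by fun_prop)
  have hK : IsCompact (Icc (r - ε / 2) (r + ε / 2) ×ˢ Icc (0 : ℝ) (2 * Real.pi)) :=
    isCompact_Icc.prod isCompact_Icc
  obtain ⟨C, hC⟩ := hK.exists_bound_of_continuousOn
    (hB.mono (prod_mono hsub (subset_univ _)))
  have hs : Icc (r - ε / 2) (r + ε / 2) ∈ 𝓝 r := Icc_mem_nhds (by linarith) (by linarith)
  have hcA : ∀ x ∈ Ioo (-1 : ℝ) 1, Continuous fun θ => Real.exp (p * (h (zz x θ)).re) *
      (p * (deriv h (zz x θ) * cexp (θ * I)).re) := fun x hx => strip_slice hB hx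
  have hcN : ∀ x ∈ Ioo (-1 : ℝ) 1, Continuous fun θ => Real.exp (p * (h (zz x θ)).re) :=
    fun x hx => strip_slice hA hx
  refine (intervalIntegral.hasDerivAt_integral_of_dominated_loc_of_deriv_le
    (F := fun x θ => Real.exp (p * (h (zz x θ)).re))
    (F' := fun x θ => Real.exp (p * (h (zz x θ)).re) *
      (p * (deriv h (zz x θ) * cexp (θ * I)).re))
    (bound := fun _ => C) hs ?_ ((hcN r hr).intervalIntegrable _ _)
    (hcA r hr).aestronglyMeasurable ?_ (continuous_const.intervalIntegrable _ _) ?_).2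
  · filter_upwards [isOpen_Ioo.mem_nhds hr] with x hx
    exact (hcN x hx).aestronglyMeasurable
  · refine Eventually.of_forall fun t ht x hx => ?_
    rw [uIoc_of_le (by positivity)] at ht
    exact hC (x, t) ⟨hx, ⟨ht.1.le, ht.2⟩⟩
  · refine Eventually.of_forall fun t _ x hx => ?_
    exact ((rayd hh (hsub hx) t).const_mul p).exp

theorem MM_bd {h : ℂ → ℂ} (hC : CC h) {p m ρ : ℝ} (hp : 0 < p) (hρ : ρ ∈ Ioo (0 : ℝ) 1)
    (hm : ∀ θ, (h (zz ρ θ)).re ≤ m) :
    ∫ θ in (0 : ℝ)..(2 * Real.pi), Real.exp (p * (h (zz ρ θ)).re) *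
      (p * (deriv h (zz ρ θ) * cexp (θ * I)).re) ≤ 2 * Real.pi * p / ρ * Real.exp (p * m) := by
  have hpi := Real.pi_pos
  have hρ0 := hρ.1
  have h1 := lev_cont hC.diff hC.ci (Psi := fun x => Real.exp (p * min x m)) (by fun_prop)
    (fun x y hxy => Real.exp_le_exp.2 (mul_le_mul_of_nonneg_left (min_le_min_right m hxy) hp.le))
    (a := 0) (b := Real.exp (p * m))
    (by
      have e1 : Tendsto (fun x : ℝ => Real.exp (p * x)) atBot (𝓝 0) :=
        Real.tendsto_exp_atBot.comp (tendsto_id.const_mul_atBot hp)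
      refine e1.congr' ?_
      filter_upwards [eventually_le_atBot m] with x hx
      rw [min_eq_left hx])
    (by
      refine tendsto_const_nhds.congr' ?_
      filter_upwards [eventually_ge_atTop m] with x hx
      rw [min_eq_right hx]) hρ
  have h2 : ∀ θ : ℝ, Real.exp (p * (h (zz ρ θ)).re) * (p * (deriv h (zz ρ θ) * cexp (θ * I)).re) =
      p / ρ * (Real.exp (p * min (h (zz ρ θ)).re m) * (zz ρ θ * deriv h (zz ρ θ)).re) := by
    intro θ
    rw [min_eq_left (hm θ)]
    have h3 : zz ρ θ * deriv h (zz ρ θ) = (ρ : ℂ) * (deriv h (zz ρ θ) * cexp (θ * I)) := by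
      unfold zz
      ring
    rw [h3, Complex.re_ofReal_mul]
    field_simp
  rw [intervalIntegral.integral_congr (fun θ _ => h2 θ), intervalIntegral.integral_const_mul]
  rw [sub_zero] at h1
  calc p / ρ * _ ≤ p / ρ * (2 * Real.pi * Real.exp (p * m)) := by gcongr
    _ = _ := by ring

theorem exp_half_KK {x : ℝ} (hx : x ∈ Ioo (-1 : ℝ) 1) : Real.exp (KK x / 2) = (1 + x) / (1 - x) := by
  have h1 : 0 < (1 + x) / (1 - x) := div_pos (by linarith [hx.1]) (by linarith [hx.2])
  unfold KK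
  have : 2 * Real.log ((1 + x) / (1 - x)) / 2 = Real.log ((1 + x) / (1 - x)) := by ring
  rw [this, Real.exp_log h1]

theorem caseA {h : ℂ → ℂ} (hC : CC h) (h0 : h 0 = 0) {r : ℝ} (hr0 : 0 < r) (hr1 : r < 1)
    {V : ℝ} (hmax : ∀ θ : ℝ, (h (zz r θ)).re ≤ V) {p : ℝ} (hp : 1 ≤ p) :
    MM h p r ≤ 100 * p / r * Real.exp ((p - 1 / 2) * V) := by
  have hpi := Real.pi_pos
  have hpi3 : Real.pi < 3.15 := Real.pi_lt_d2
  have hp0 : 0 < p := by linarith
  have hV : ∀ ρ, 0 ≤ ρ → ρ ≤ r → ∀ θ, (h (zz ρ θ)).re ≤ V := fun ρ h1 h2 θ =>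
    max_prin hC.diff hr0 hr1 (fun θ _ => hmax θ) h1 h2 θ
  have hV0 : 0 ≤ V := by
    have := hV 0 le_rfl hr0.le 0
    rwa [zz_rad_zero, h0, Complex.zero_re] at this
  obtain ⟨κ, hκ⟩ : ∃ κ : ℝ, κ = Real.exp (V / 2) / 2 := ⟨_, rfl⟩
  have hκ0 : 0 < κ := by rw [hκ]; positivity
  have hκ2 : 4 * κ ^ 2 = Real.exp V := by
    rw [hκ, div_pow, ← Real.exp_nat_mul]
    have : ((2 : ℕ) : ℝ) * (V / 2) = V := by push_cast; ring
    rw [this]
    ring
  have hsub : Icc (r / 2) r ⊆ Ioo (-1 : ℝ) 1 := fun x hx =>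
    ⟨by linarith [hx.1], by linarith [hx.2]⟩
  obtain ⟨c, hc⟩ : ∃ c : ℝ, c = 4 * Real.pi * p / r * Real.exp ((p - 1) * V) * (8 * κ) := ⟨_, rfl⟩
  have hc0 : 0 < c := by rw [hc]; positivity
  have hBd : ∀ x : ℝ, HasDerivAt (fun x : ℝ => MM h p (r / 2) +
      c * (Real.arctan (κ * (1 - r / 2)) - Real.arctan (κ * (1 - x))))
      (c * (κ / (1 + (κ * (1 - x)) ^ 2))) x := by
    intro x
    have e1 : HasDerivAt (fun x : ℝ => κ * (1 - x)) (κ * (-1)) x :=
      ((hasDerivAt_id x).const_sub 1).const_mul κ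
    have e2 := ((e1.arctan).const_sub (Real.arctan (κ * (1 - r / 2)))).const_mul c
    refine (e2.const_add _).congr_deriv ?_
    ring
  have hmain := image_le_of_deriv_right_le_deriv_boundary
    (f := MM h p) (f' := fun r => ∫ θ in (0 : ℝ)..(2 * Real.pi),
      Real.exp (p * (h (zz r θ)).re) * (p * (deriv h (zz r θ) * cexp (θ * I)).re))
    (a := r / 2) (b := r)
    (fun x hx => (MM_deriv hC.diff p (hsub hx)).continuousAt.continuousWithinAt)
    (fun x hx => (MM_deriv hC.diff p (hsub ⟨hx.1, hx.2.le⟩)).hasDerivWithinAt)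
    (B := fun x : ℝ => MM h p (r / 2) +
      c * (Real.arctan (κ * (1 - r / 2)) - Real.arctan (κ * (1 - x))))
    (B' := fun x => c * (κ / (1 + (κ * (1 - x)) ^ 2)))
    (by simp)
    (fun x hx => (hBd x).continuousAt.continuousWithinAt)
    (fun x hx => (hBd x).hasDerivWithinAt)
    (by
      intro x hx
      have hx0 : 0 < x := by linarith [hx.1]
      have hx1 : x < 1 := by linarith [hx.2]
      have hxI := hsub ⟨hx.1, hx.2.le⟩
      have e1 := MM_bd hC (p := p) (m := min (KK x) V) hp0 ⟨hx0, hx1⟩ (fun θ =>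
        le_min (hC.growth h0 hx0.le hx1 θ) (hV x hx0.le hx.2.le θ))
      refine e1.trans ?_
      have e2 : 2 * Real.pi * p / x ≤ 4 * Real.pi * p / r := by
        rw [div_le_div_iff₀ hx0 hr0]
        have := hx.1
        have : r ≤ 2 * x := by linarith
        have := mul_le_mul_of_nonneg_left this (by positivity : 0 ≤ 2 * Real.pi * p)
        linarith
      have e3 : Real.exp (p * min (KK x) V) ≤ Real.exp ((p - 1) * V) * (8 * κ) *
          (κ / (1 + (κ * (1 - x)) ^ 2)) := by
        have f1 : Real.exp (p * min (KK x) V) =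
            Real.exp ((p - 1) * min (KK x) V) * Real.exp (min (KK x) V) := by
          rw [← Real.exp_add]
          congr 1
          ring
        have f2 : Real.exp ((p - 1) * min (KK x) V) ≤ Real.exp ((p - 1) * V) := by
          refine Real.exp_le_exp.2 (mul_le_mul_of_nonneg_left (min_le_right _ _) (by linarith))
        have f3 : Real.exp (min (KK x) V) ≤ (8 * κ) * (κ / (1 + (κ * (1 - x)) ^ 2)) := by
          rw [mul_div_assoc', le_div_iff₀ (by positivity)]
          have g1 : Real.exp (min (KK x) V) ≤ 4 * κ ^ 2 := by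
            rw [hκ2]
            exact Real.exp_le_exp.2 (min_le_right _ _)
          have g2 : Real.exp (min (KK x) V) * (1 - x) ^ 2 ≤ 4 := by
            have g3 : Real.exp (min (KK x) V) ≤ ((1 + x) / (1 - x)) ^ 2 := by
              rw [← exp_half_KK hxI, ← Real.exp_nat_mul]
              refine Real.exp_le_exp.2 ((min_le_left _ _).trans (le_of_eq ?_))
              push_cast
              ring
            have g4 : 0 < 1 - x := by linarith
            calc Real.exp (min (KK x) V) * (1 - x) ^ 2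
                ≤ ((1 + x) / (1 - x)) ^ 2 * (1 - x) ^ 2 := by gcongr
              _ = (1 + x) ^ 2 := by field_simp
              _ ≤ 4 := by nlinarith
          have g5 := mul_le_mul_of_nonneg_left g2 (sq_nonneg κ)
          nlinarith
        rw [f1]
        calc _ ≤ Real.exp ((p - 1) * V) * ((8 * κ) * (κ / (1 + (κ * (1 - x)) ^ 2))) := by gcongr
          _ = _ := by ring
      calc 2 * Real.pi * p / x * Real.exp (p * min (KK x) V)
          ≤ 4 * Real.pi * p / r * (Real.exp ((p - 1) * V) * (8 * κ) *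
            (κ / (1 + (κ * (1 - x)) ^ 2))) := by gcongr
        _ = _ := by rw [hc]; ring)
    (right_mem_Icc.2 (by linarith))
  have hexp : Real.exp ((p - 1 / 2) * V) = Real.exp ((p - 1) * V) * (2 * κ) := by
    rw [hκ, mul_div_cancel₀ _ (by norm_num : (2 : ℝ) ≠ 0), ← Real.exp_add]
    congr 1
    ring
  have hat : Real.arctan (κ * (1 - r / 2)) - Real.arctan (κ * (1 - r)) ≤ Real.pi / 2 := by
    have e1 := (Real.arctan_lt_pi_div_two (κ * (1 - r / 2))).le
    have e2 : 0 ≤ Real.arctan (κ * (1 - r)) := by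
      rw [Real.arctan_nonneg]
      have : 0 ≤ 1 - r := by linarith
      positivity
    linarith
  have hhalf : MM h p (r / 2) ≤ 6 * Real.pi * Real.exp ((p - 1 / 2) * V) := by
    have hr2 : r / 2 ∈ Ioo (-1 : ℝ) 1 := ⟨by linarith, by linarith⟩
    have e1 : ∀ θ : ℝ, Real.exp (p * (h (zz (r / 2) θ)).re) ≤
        3 * Real.exp ((p - 1 / 2) * V) := by
      intro θ
      have f1 : Real.exp (p * (h (zz (r / 2) θ)).re) =
          Real.exp ((h (zz (r / 2) θ)).re / 2) * Real.exp ((p - 1 / 2) * (h (zz (r / 2) θ)).re) := by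
        rw [← Real.exp_add]
        congr 1
        ring
      rw [f1]
      have f2 : Real.exp ((h (zz (r / 2) θ)).re / 2) ≤ 3 := by
        have g1 := hC.growth h0 (x := r / 2) (by linarith) (by linarith) θ
        have g2 : Real.exp ((h (zz (r / 2) θ)).re / 2) ≤ Real.exp (KK (r / 2) / 2) :=
          Real.exp_le_exp.2 (by linarith)
        rw [exp_half_KK hr2] at g2
        refine g2.trans ?_
        rw [div_le_iff₀ (by linarith)]
        linarith
      have f3 : Real.exp ((p - 1 / 2) * (h (zz (r / 2) θ)).re) ≤ Real.exp ((p - 1 / 2) * V) :=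
        Real.exp_le_exp.2 (mul_le_mul_of_nonneg_left (hV _ (by linarith) (by linarith) θ)
          (by linarith))
      gcongr
    have e2 : Continuous fun θ : ℝ => Real.exp (p * (h (zz (r / 2) θ)).re) :=
      Real.continuous_exp.comp (continuous_const.mul
        (Complex.continuous_re.comp (slice_cont hC.diff hC.diff hr2)))
    have e3 : MM h p (r / 2) ≤ ∫ θ in (0 : ℝ)..(2 * Real.pi), 3 * Real.exp ((p - 1 / 2) * V) := by
      unfold MM
      exact intervalIntegral.integral_mono_on (by positivity) (e2.intervalIntegrable _ _)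
        (continuous_const.intervalIntegrable _ _) fun θ _ => e1 θ
    rw [intervalIntegral.integral_const, smul_eq_mul, sub_zero] at e3
    linarith
  have hp1r : 1 ≤ p / r := by
    rw [le_div_iff₀ hr0]
    linarith
  have hE := Real.exp_pos ((p - 1 / 2) * V)
  have h2 : c * (Real.arctan (κ * (1 - r / 2)) - Real.arctan (κ * (1 - r))) ≤
      8 * Real.pi ^ 2 * (p / r) * Real.exp ((p - 1 / 2) * V) := by
    calc _ ≤ c * (Real.pi / 2) := by gcongr
      _ = _ := by rw [hc, hexp]; ring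
  have h3 : 6 * Real.pi * Real.exp ((p - 1 / 2) * V) ≤
      6 * Real.pi * (p / r) * Real.exp ((p - 1 / 2) * V) := by
    calc 6 * Real.pi * Real.exp ((p - 1 / 2) * V)
        = 6 * Real.pi * 1 * Real.exp ((p - 1 / 2) * V) := by ring
      _ ≤ _ := by gcongr
  have h4 : (6 * Real.pi + 8 * Real.pi ^ 2) ≤ 100 := by nlinarith
  calc MM h p r ≤ _ := hmain
    _ ≤ 6 * Real.pi * (p / r) * Real.exp ((p - 1 / 2) * V) +
        8 * Real.pi ^ 2 * (p / r) * Real.exp ((p - 1 / 2) * V) := by linarith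
    _ = (6 * Real.pi + 8 * Real.pi ^ 2) * ((p / r) * Real.exp ((p - 1 / 2) * V)) := by ring
    _ ≤ 100 * ((p / r) * Real.exp ((p - 1 / 2) * V)) := by gcongr
    _ = _ := by ring

end Pool.Agent.Helper854_CM
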