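import Mathlib
import Pool.Agent.Helper854_CM.CsA

/-!
Assembly: the coefficient inequality at the saddle radius.
-/

set_option autoImplicit false

open MeasureTheory Filter Topology Complex Set Metric
open scoped ENNReal
open Pool.Agent.Helper854_CM.DR

noncomputable section

namespace Pool.Agent.Helper854_CM

theorem cauchy_coef {h : ℂ → ℂ} (hh : DifferentiableOn ℂ h (ball 0 1)) {r : ℝ}
    (hr : r ∈ Ioo (0 : ℝ) 1) (k : ℕ) :
    ∫ θ in (0 : ℝ)..(2 * Real.pi), h (zz r θ) * cexp (((-(k * θ) : ℝ) : ℂ) * I) =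
      2 * Real.pi * tc h k * (r : ℂ) ^ k := by
  have hpi := Real.pi_pos
  have hsum : Summable fun m : ℕ => ‖tc h m‖ * r ^ m := by
    have := (taylor hh (z := (r : ℂ)) (by
      rw [Complex.norm_real, Real.norm_of_nonneg hr.1.le]; exact hr.2)).summable.norm
    simpa [norm_mul, norm_pow, Real.norm_of_nonneg hr.1.le] using this
  have hz : ∀ θ : ℝ, ‖zz r θ‖ < 1 := fun θ => by rw [norm_zz, abs_of_nonneg hr.1.le]; exact hr.2
  have hzc : Continuous fun θ : ℝ => zz r θ :=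
    zz_cont.comp (by fun_prop : Continuous fun θ : ℝ => (r, θ))
  have h1 := intervalIntegral.hasSum_integral_of_dominated_convergence
    (μ := volume) (a := 0) (b := 2 * Real.pi)
    (F := fun (m : ℕ) (θ : ℝ) => tc h m * zz r θ ^ m * cexp (((-(k * θ) : ℝ) : ℂ) * I))
    (f := fun θ : ℝ => h (zz r θ) * cexp (((-(k * θ) : ℝ) : ℂ) * I))
    (fun m _ => ‖tc h m‖ * r ^ m)
    (fun m => by
      refine Continuous.aestronglyMeasurable ?_
      exact (continuous_const.mul (hzc.pow m)).mul (by fun_prop))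
    (fun m => Eventually.of_forall fun θ _ => by
      rw [norm_mul, norm_mul, norm_pow, norm_zz, abs_of_nonneg hr.1.le,
        Complex.norm_exp_ofReal_mul_I, mul_one])
    (Eventually.of_forall fun θ _ => hsum)
    (continuous_const.intervalIntegrable _ _)
    (Eventually.of_forall fun θ _ => (taylor hh (hz θ)).mul_right _)
  have h2 : ∀ m : ℕ, ∫ θ in (0 : ℝ)..(2 * Real.pi),
      tc h m * zz r θ ^ m * cexp (((-(k * θ) : ℝ) : ℂ) * I) =
      if m = k then 2 * Real.pi * tc h k * (r : ℂ) ^ k else 0 := by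
    intro m
    have e1 : ∀ θ : ℝ, tc h m * zz r θ ^ m * cexp (((-(k * θ) : ℝ) : ℂ) * I) =
        tc h m * (r : ℂ) ^ m * cexp ((((m - k : ℤ) * θ : ℝ) : ℂ) * I) := by
      intro θ
      rw [zz_pow]
      have e4 : cexp ((((m - k : ℤ) * θ : ℝ) : ℂ) * I) =
          cexp (((m * θ : ℝ) : ℂ) * I) * cexp (((-(k * θ) : ℝ) : ℂ) * I) := by
        rw [← Complex.exp_add]
        congr 1
        push_cast
        ring
      rw [e4]
      ring
    rw [intervalIntegral.integral_congr (fun θ _ => e1 θ), intervalIntegral.integral_const_mul]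
    by_cases hmk : m = k
    · subst hmk
      rw [if_pos rfl]
      simp
      ring
    · rw [if_neg hmk, exp_int (by omega : ((m : ℤ) - k) ≠ 0), mul_zero]
  simp only [h2] at h1
  have h3 := hasSum_ite_eq k ((2 * Real.pi : ℂ) * tc h k * (r : ℂ) ^ k)
  exact h1.unique h3

theorem cauchy_coef' {h : ℂ → ℂ} (hh : DifferentiableOn ℂ h (ball 0 1)) {r : ℝ}
    (hr : r ∈ Ioo (0 : ℝ) 1) (k : ℕ) :
    ∫ θ in (-Real.pi)..Real.pi, h (zz r θ) * cexp (((-(k * θ) : ℝ) : ℂ) * I) =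
      2 * Real.pi * tc h k * (r : ℂ) ^ k := by
  rw [← cauchy_coef hh hr k]
  have hp : Function.Periodic (fun θ : ℝ => h (zz r θ) * cexp (((-(k * θ) : ℝ) : ℂ) * I))
      (2 * Real.pi) := by
    intro θ
    simp only
    rw [zz_per]
    congr 1
    have h1 : ((-(k * (θ + 2 * Real.pi)) : ℝ) : ℂ) * I =
        ((-(k * θ) : ℝ) : ℂ) * I + ((-(k : ℤ) : ℤ) : ℂ) * (2 * Real.pi * I) := by
      push_cast
      ring
    rw [h1, Complex.exp_add, Complex.exp_int_mul_two_pi_mul_I, mul_one]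
  have h2 := hp.intervalIntegral_add_eq (-Real.pi) 0
  have h3 : -Real.pi + 2 * Real.pi = Real.pi := by ring
  rw [h3, zero_add] at h2
  exact h2

/-- the extremal function in exponential form -/
theorem exp_kk {p : ℝ} {z : ℂ} (hz : ‖z‖ < 1) : cexp ((p : ℂ) * kk z) = TT (2 * p) z := by
  unfold TT kk
  rw [Complex.cpow_def_of_ne_zero (Complex.slitPlane_ne_zero (cay_mem hz))]
  congr 1
  push_cast
  ring

theorem kk_coef {p r : ℝ} (h0 : 0 < r) (h1 : r < 1) {n : ℕ} (hn : (n : ℝ) = 2 * p * bb r) :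
    tc (fun z => cexp ((p : ℂ) * kk z)) n * (2 * Real.pi * (r : ℂ) ^ n) =
      ((Real.exp (p * KK r) * ITT p r : ℝ) : ℂ) := by
  have h2 := cauchy_coef' (h := fun z => cexp ((p : ℂ) * kk z))
    ((kk_diff.const_mul _).cexp) ⟨h0, h1⟩ n
  have h3 : ∀ θ : ℝ, cexp ((p : ℂ) * kk (zz r θ)) * cexp (((-(n * θ) : ℝ) : ℂ) * I) =
      ((Real.exp (p * KK r) : ℝ) : ℂ) * GT p r θ := by
    intro θ
    unfold GT
    rw [kk_add h0 h1, kk_KK (by rw [abs_of_pos h0]; exact h1), Complex.ofReal_exp,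
      ← Complex.exp_add, ← Complex.exp_add, hn]
    congr 1
    push_cast
    ring
  rw [intervalIntegral.integral_congr (fun θ _ => h3 θ), intervalIntegral.integral_const_mul] at h2
  have h4 : ∫ θ in (-Real.pi)..Real.pi, GT p r θ = ((ITT p r : ℝ) : ℂ) := by
    have cGT := GT_cont h0 h1 p
    have iG := cGT.intervalIntegrable (μ := volume) (-Real.pi) Real.pi
    have hre : (∫ θ in (-Real.pi)..Real.pi, GT p r θ).re = ITT p r := by
      have e1 := Complex.reCLM.intervalIntegral_comp_comm iG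
      have e2 : ∀ θ : ℝ, Complex.reCLM (GT p r θ) = Real.exp (p * (kk (ze r θ)).re) *
          Real.cos (p * ((kk (ze r θ)).im - 2 * bb r * θ)) := fun θ => GT_re p r θ
      rw [intervalIntegral.integral_congr (fun θ _ => e2 θ)] at e1
      exact e1.symm
    have him : (∫ θ in (-Real.pi)..Real.pi, GT p r θ).im = 0 := by
      have e1 := Complex.imCLM.intervalIntegral_comp_comm iG
      have e2 : ∫ θ in (-Real.pi)..Real.pi, Complex.imCLM (GT p r θ) = 0 := by
        refine odd_int (fun θ => ?_) _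
        rw [GT_neg h0 h1]
        simp
      rw [e2] at e1
      exact e1.symm
    apply Complex.ext
    · rw [hre, Complex.ofReal_re]
    · rw [him, Complex.ofReal_im]
  rw [h4] at h2
  rw [Complex.ofReal_mul, h2]
  ring

theorem saddle_r {t : ℝ} (ht : 1 / 16 < t) : ∃ r : ℝ, 1 / 40 ≤ r ∧ r < 1 ∧ bb r = t := by
  have ht0 : 0 < t := by linarith
  obtain ⟨s, hs⟩ : ∃ s : ℝ, s = Real.sqrt (1 + t ^ 2) := ⟨_, rfl⟩
  have hs2 : s ^ 2 = 1 + t ^ 2 := by rw [hs, Real.sq_sqrt (by positivity)]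
  have hs0 : 0 ≤ s := by rw [hs]; positivity
  have hst : t < s := by nlinarith
  have hs1 : 0 < 1 + s := by linarith
  have hr1 : t / (1 + s) < 1 := by
    rw [div_lt_one hs1]
    linarith
  have hb : bb (t / (1 + s)) = t := by
    unfold bb
    have h1 : 1 - (t / (1 + s)) ^ 2 = 2 / (1 + s) := by
      rw [div_pow]
      field_simp
      nlinarith
    rw [h1]
    field_simp
  refine ⟨t / (1 + s), ?_, hr1, hb⟩
  by_contra hcon
  push Not at hcon
  obtain ⟨r, hr⟩ : ∃ r : ℝ, r = t / (1 + s) := ⟨_, rfl⟩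
  have hr0 : 0 < r := by rw [hr]; positivity
  rw [← hr] at hcon hb hr1
  unfold bb at hb
  have h2 : 0 < 1 - r ^ 2 := by nlinarith
  rw [div_eq_iff h2.ne'] at hb
  have h3 : r ^ 2 ≤ 1 / 1600 := by nlinarith
  nlinarith

/-- the numerical inequality in case A -/
theorem caseA_num {p D : ℝ} (hp : 10 ^ 60 ≤ p) (hD : 1 / 10 ^ 52 ≤ D) :
    5000 * p ^ 2 ≤ Real.exp ((p - 1 / 2) * D) := by
  have hp0 : 0 < p := lt_of_lt_of_le (by norm_num) hp
  have hp1 : 1 ≤ p := le_trans (by norm_num) hp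
  obtain ⟨x, hx⟩ : ∃ x : ℝ, x = p / (40 * 10 ^ 52) := ⟨_, rfl⟩
  have hx0 : 0 ≤ x := by rw [hx]; positivity
  have h1 : 20 * x ≤ (p - 1 / 2) * D := by
    have e1 : (p / 2) * (1 / 10 ^ 52) ≤ (p - 1 / 2) * D := by
      have : p / 2 ≤ p - 1 / 2 := by linarith
      have : 0 ≤ p - 1 / 2 := by linarith
      gcongr
    refine le_trans (le_of_eq ?_) e1
    rw [hx]
    ring
  have h2 : x ^ 20 ≤ Real.exp ((p - 1 / 2) * D) := by
    have e1 : x ≤ Real.exp x := by linarith [Real.add_one_le_exp x]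
    calc x ^ 20 ≤ Real.exp x ^ 20 := by gcongr
      _ = Real.exp (20 * x) := by
          rw [← Real.exp_nat_mul]
          norm_num
      _ ≤ _ := Real.exp_le_exp.2 h1
  refine le_trans ?_ h2
  have h3 : (10 : ℝ) ^ 60 / (40 * 10 ^ 52) ≤ x := by
    rw [hx]
    gcongr
  have h4 : x ^ 20 = x ^ 18 * x ^ 2 := by ring
  rw [h4]
  have h5 : (5000 * (40 * 10 ^ 52) ^ 2 : ℝ) ≤ x ^ 18 := by
    calc (5000 * (40 * 10 ^ 52) ^ 2 : ℝ) ≤ ((10 : ℝ) ^ 60 / (40 * 10 ^ 52)) ^ 18 := by norm_num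
      _ ≤ x ^ 18 := by gcongr
  calc 5000 * p ^ 2 = (5000 * (40 * 10 ^ 52) ^ 2) * x ^ 2 := by
        rw [hx]
        field_simp
    _ ≤ x ^ 18 * x ^ 2 := by gcongr

/-- the coefficient inequality at the saddle radius, for a normalised function -/
theorem saddle_norm {h : ℂ → ℂ} (hC : CC h) (h0 : h 0 = 0) {p : ℝ} (hp : 10 ^ 60 ≤ p) {n : ℕ}
    {r : ℝ} (hr40 : 1 / 40 ≤ r) (hr1 : r < 1) (hn : (n : ℝ) = 2 * p * bb r)
    (hmax : ∀ θ : ℝ, (h (zz r θ)).re ≤ (h r).re) :
    ‖tc (fun z => cexp ((p : ℂ) * h z)) n‖ ≤ cc p n := by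
  have hpi := Real.pi_pos
  have hr0 : 0 < r := by linarith
  have hp0 : 0 < p := lt_of_lt_of_le (by norm_num) hp
  have hp1 : 1 ≤ p := le_trans (by norm_num) hp
  have hb := bb_pos hr0 hr1
  have hrI : r ∈ Ioo (-1 : ℝ) 1 := ⟨by linarith, hr1⟩
  have hcc : tc (fun z => cexp ((p : ℂ) * kk z)) n = ((cc p n : ℝ) : ℂ) := by
    have e1 : (fun z => cexp ((p : ℂ) * kk z)) =ᶠ[𝓝 0] TT (2 * p) := by
      filter_upwards [isOpen_ball.mem_nhds (mem_ball_self one_pos : (0 : ℂ) ∈ ball (0 : ℂ) 1)]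
        with z hz
      exact exp_kk (by simpa using hz)
    rw [tc_congr e1, tc, TT_coeff]
    have : (n.factorial : ℂ) ≠ 0 := by exact_mod_cast n.factorial_ne_zero
    push_cast
    field_simp
  have hkc := kk_coef hr0 hr1 hn
  rw [hcc] at hkc
  have hkc' : cc p n * (2 * Real.pi * r ^ n) = Real.exp (p * KK r) * ITT p r := by
    have e1 : ((cc p n * (2 * Real.pi * r ^ n) : ℝ) : ℂ) =
        ((Real.exp (p * KK r) * ITT p r : ℝ) : ℂ) := by
      rw [← hkc]
      push_cast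
      ring
    exact_mod_cast e1
  have hrn : 0 < 2 * Real.pi * r ^ n := by positivity
  have hITT := ITT_lower (p := p) (r := r) (le_trans (by norm_num) hp) hr40 hr1
  -- it suffices to bound the integral
  suffices hs : ‖tc (fun z => cexp ((p : ℂ) * h z)) n‖ * (2 * Real.pi * r ^ n) ≤
      Real.exp (p * KK r) * ITT p r by
    rw [← hkc'] at hs
    exact le_of_mul_le_mul_right hs hrn
  have hdF : DifferentiableOn ℂ (fun z => cexp ((p : ℂ) * h z)) (ball 0 1) :=
    (hC.diff.const_mul _).cexp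
  have hnorm : ‖tc (fun z => cexp ((p : ℂ) * h z)) n‖ * (2 * Real.pi * r ^ n) =
      ‖2 * Real.pi * tc (fun z => cexp ((p : ℂ) * h z)) n * (r : ℂ) ^ n‖ := by
    rw [norm_mul, norm_mul, norm_mul, norm_pow, Complex.norm_real, Complex.norm_real,
      Real.norm_of_nonneg hpi.le, Real.norm_of_nonneg hr0.le, Complex.norm_ofNat]
    ring
  rw [hnorm]
  rcases le_or_gt (KK r - (h r).re) (1 / 10 ^ 52) with hD | hD
  · rw [← cauchy_coef' hdF ⟨hr0, hr1⟩ n]
    have e1 : ∀ θ : ℝ, cexp ((p : ℂ) * h (zz r θ)) * cexp (((-(n * θ) : ℝ) : ℂ) * I) =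
        cexp ((p : ℂ) * h r) * cexp ((p : ℂ) * (h (zz r θ) - h r) -
          ((2 * p * bb r * θ : ℝ) : ℂ) * I) := by
      intro θ
      rw [← Complex.exp_add, ← Complex.exp_add, hn]
      congr 1
      push_cast
      ring
    rw [intervalIntegral.integral_congr (fun θ _ => e1 θ), intervalIntegral.integral_const_mul,
      norm_mul, Complex.norm_exp, Complex.re_ofReal_mul]
    have e2 := caseB hC h0 hr40 hr1 hmax hD (p := p) (le_trans (by norm_num) hp)
    calc _ ≤ Real.exp (p * (h r).re) * (Real.exp (p * (KK r - (h r).re)) * ITT p r) := by gcongr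
      _ = _ := by
          rw [← mul_assoc, ← Real.exp_add]
          congr 2
          ring
  · rw [← cauchy_coef hdF ⟨hr0, hr1⟩ n]
    have e1 : ‖∫ θ in (0 : ℝ)..(2 * Real.pi), cexp ((p : ℂ) * h (zz r θ)) *
        cexp (((-(n * θ) : ℝ) : ℂ) * I)‖ ≤ MM h p r := by
      unfold MM
      have hc : Continuous fun θ : ℝ => Real.exp (p * (h (zz r θ)).re) :=
        Real.continuous_exp.comp (continuous_const.mul
          (Complex.continuous_re.comp (slice_cont hC.diff hC.diff hrI)))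
      refine intervalIntegral.norm_integral_le_of_norm_le (by positivity)
        (Eventually.of_forall fun θ _ => ?_) (hc.intervalIntegrable _ _)
      rw [norm_mul, Complex.norm_exp_ofReal_mul_I, mul_one, Complex.norm_exp,
        Complex.re_ofReal_mul]
    refine e1.trans ((caseA hC h0 hr0 hr1 hmax hp1).trans ?_)
    obtain ⟨D, hDe⟩ : ∃ D : ℝ, D = KK r - (h r).re := ⟨_, rfl⟩
    rw [← hDe] at hD
    have hV : (h r).re = KK r - D := by rw [hDe]; ring
    have hnum := caseA_num hp hD.le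
    have e3 : Real.exp ((p - 1 / 2) * (h r).re) =
        Real.exp (p * KK r) * (Real.exp ((p - 1 / 2) * D))⁻¹ * (Real.exp (KK r / 2))⁻¹ := by
      rw [hV, ← Real.exp_neg, ← Real.exp_neg, ← Real.exp_add, ← Real.exp_add]
      congr 1
      ring
    rw [e3, exp_half_KK hrI, inv_div]
    have e4 : 100 * p / r * (Real.exp (p * KK r) * (Real.exp ((p - 1 / 2) * D))⁻¹ *
        ((1 - r) / (1 + r))) = Real.exp (p * KK r) * (100 * p / r * ((1 - r) / (1 + r)) *
          (Real.exp ((p - 1 / 2) * D))⁻¹) := by ring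
    rw [e4]
    refine mul_le_mul_of_nonneg_left (le_trans ?_ hITT) (Real.exp_pos _).le
    have e5 : (Real.exp ((p - 1 / 2) * D))⁻¹ ≤ (5000 * p ^ 2)⁻¹ := by gcongr
    have h1r : 0 < 1 - r := by linarith
    have hsp : Real.sqrt p ≤ p := by
      rw [Real.sqrt_le_left hp0.le]
      nlinarith
    have hsp0 : 0 < Real.sqrt p := Real.sqrt_pos.2 hp0
    calc 100 * p / r * ((1 - r) / (1 + r)) * (Real.exp ((p - 1 / 2) * D))⁻¹
        ≤ 100 * p / r * ((1 - r) / (1 + r)) * (5000 * p ^ 2)⁻¹ := by gcongr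
      _ ≤ 0.04 / (bb r * p) := by
          unfold bb
          have : (1 - r ^ 2) = (1 - r) * (1 + r) := by ring
          rw [this]
          rw [le_div_iff₀ (by positivity)]
          have e6 : 100 * p / r * ((1 - r) / (1 + r)) * (5000 * p ^ 2)⁻¹ *
              (2 * r / ((1 - r) * (1 + r)) * p) = 0.04 / (1 + r) ^ 2 := by
            field_simp
            norm_num
          rw [e6]
          have : (1 : ℝ) ≤ (1 + r) ^ 2 := by nlinarith
          exact div_le_self (by norm_num) this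
      _ ≤ 0.04 / (bb r * Real.sqrt p) := by gcongr

/-- the coefficient inequality for `p ≥ 10^60` and `p < 8 n` -/
theorem saddle_main {h : ℂ → ℂ} (hC : CC h) (h0 : h 0 = 0) {p : ℝ} (hp : 10 ^ 60 ≤ p) {n : ℕ}
    (hn : p < 8 * (n : ℝ)) : ‖tc (fun z => cexp ((p : ℂ) * h z)) n‖ ≤ cc p n := by
  have hp0 : 0 < p := lt_of_lt_of_le (by norm_num) hp
  obtain ⟨r, hr40, hr1, hrb⟩ := saddle_r (t := (n : ℝ) / (2 * p)) (by
    rw [lt_div_iff₀ (by positivity)]
    linarith)
  have hr0 : 0 < r := by linarith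
  have hn' : (n : ℝ) = 2 * p * bb r := by
    rw [hrb]
    field_simp
  -- the maximum point
  have hcont : ContinuousOn (fun z => (h z).re) (sphere (0 : ℂ) r) :=
    Complex.continuous_re.comp_continuousOn (hC.diff.continuousOn.mono fun z hz => by
      rw [mem_sphere_zero_iff_norm] at hz
      rw [mem_ball_zero_iff, hz]
      exact hr1)
  obtain ⟨z₀, hz₀, hz₀m⟩ := (isCompact_sphere (0 : ℂ) r).exists_isMaxOn
    ⟨(r : ℂ), by simp [abs_of_pos hr0]⟩ hcont
  rw [mem_sphere_zero_iff_norm] at hz₀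
  obtain ⟨c, hc⟩ : ∃ c : ℂ, c = z₀ / r := ⟨_, rfl⟩
  have hrC : (r : ℂ) ≠ 0 := by exact_mod_cast hr0.ne'
  have hc1 : ‖c‖ = 1 := by
    rw [hc, norm_div, hz₀, Complex.norm_real, Real.norm_of_nonneg hr0.le, div_self hr0.ne']
  have hcr : c * r = z₀ := by rw [hc]; field_simp
  have hC' : CC (fun z => h (c * z)) := hC.comp (IM_rot hc1)
  have h1 := saddle_norm hC' (by simp [h0]) hp hr40 hr1 hn' (fun θ => by
    simp only [hcr]
    exact hz₀m (by
      rw [mem_sphere_zero_iff_norm, norm_mul, hc1, one_mul, norm_zz, abs_of_pos hr0]))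
  have h2 := tc_rot c (fun z => cexp ((p : ℂ) * h z)) n
  rw [h2, norm_mul, norm_pow, hc1, one_pow, one_mul] at h1
  exact h1

/-- the coefficient inequality for `p ≥ 10^60` -/
theorem all_n {p : ℝ} (hp : 10 ^ 60 ≤ p) {f : ℂ → ℂ} (hf : DifferentiableOn ℂ f (ball 0 1))
    (hne : ∀ z ∈ ball (0 : ℂ) 1, f z ≠ 0)
    (hN : ∀ R : ℝ, 0 < R →
      ∫⁻ φ in Ioc (0 : ℝ) (2 * Real.pi), val f ((R : ℂ) * cexp ((φ : ℂ) * I)) ≤
        ENNReal.ofReal (2 * Real.pi * p)) (n : ℕ) :
    ‖iteratedDeriv n f 0‖ ≤ ‖f 0‖ * ‖iteratedDeriv n (TT (2 * p)) 0‖ := by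
  have hp0 : 0 < p := lt_of_lt_of_le (by norm_num) hp
  rcases le_or_gt (8 * (n : ℝ)) p with hn | hn
  · exact large_p hp0 hf hne hN hn
  have h0mem : (0 : ℂ) ∈ ball (0 : ℂ) 1 := mem_ball_self one_pos
  obtain ⟨h0, hh0, hhd, hhF⟩ := Pool.Agent.H296R2.LE.exists_log one_pos hf hne
  obtain ⟨h, hh⟩ : ∃ h : ℂ → ℂ, ∀ z, h z = ((1 / p : ℝ) : ℂ) * h0 z := ⟨_, fun z => rfl⟩
  have hpC : (p : ℂ) ≠ 0 := by exact_mod_cast hp0.ne'
  have hd : ∀ z ∈ ball (0 : ℂ) 1, HasDerivAt h (((1 / p : ℝ) : ℂ) * (deriv f z / f z)) z := by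
    intro z hz
    rw [funext hh]
    exact (hhd z hz).const_mul _
  have hph : ∀ z, (p : ℂ) * h z = h0 z := by
    intro z
    rw [hh]
    push_cast
    field_simp
  have hexp : ∀ z ∈ ball (0 : ℂ) 1, f z = f 0 * cexp ((p : ℂ) * h z) := by
    intro z hz
    rw [hph]
    exact hhF z hz
  have hC : CC h := CC_of_cm hp0 hf hne hN hd hexp
  have hmain := saddle_main hC (by rw [hh, hh0, mul_zero]) hp hn
  have hev : f =ᶠ[𝓝 0] fun z => f 0 * cexp ((p : ℂ) * h z) := by
    filter_upwards [isOpen_ball.mem_nhds h0mem] with z hz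
    exact hexp z hz
  have h1 : iteratedDeriv n f 0 = (n.factorial : ℂ) * (f 0 *
      tc (fun z => cexp ((p : ℂ) * h z)) n) := by
    rw [← tc_const_mul, ← tc_congr hev]
    unfold tc
    have : (n.factorial : ℂ) ≠ 0 := by exact_mod_cast n.factorial_ne_zero
    field_simp
  rw [h1, TT_coeff, Complex.norm_real, norm_mul, norm_mul, Complex.norm_natCast,
    Real.norm_of_nonneg (mul_nonneg (by positivity) (cc_nonneg hp0.le n))]
  have h2 : 0 ≤ (n.factorial : ℝ) * ‖f 0‖ := by positivity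
  calc (n.factorial : ℝ) * (‖f 0‖ * ‖tc (fun z => cexp ((p : ℂ) * h z)) n‖)
      = ((n.factorial : ℝ) * ‖f 0‖) * ‖tc (fun z => cexp ((p : ℂ) * h z)) n‖ := by ring
    _ ≤ ((n.factorial : ℝ) * ‖f 0‖) * cc p n := by gcongr
    _ = _ := by ring

end Pool.Agent.Helper854_CM
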