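import Mathlib
import Pool.Agent.Helper854_CM.Crit

/-!
Growth and coefficient estimates for nonvanishing functions `f` with
`(1 - |z|²) |f'(z)| ≤ 2 p |f(z)|`.
-/

set_option autoImplicit false

open MeasureTheory Filter Topology Complex Set Metric
open scoped Nat

noncomputable section

namespace Pool.Agent.Helper854_CM

/-- the Bloch type condition -/
def BC (p : ℝ) (f : ℂ → ℂ) : Prop :=
  ∀ z : ℂ, ‖z‖ < 1 → (1 - ‖z‖ ^ 2) * ‖deriv f z‖ ≤ 2 * p * ‖f z‖

theorem growth {p : ℝ} {f : ℂ → ℂ} (hf : DifferentiableOn ℂ f (ball 0 1))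
    (hne : ∀ z ∈ ball (0 : ℂ) 1, f z ≠ 0) (hb : BC p f) {z : ℂ} (hz : ‖z‖ < 1) :
    ‖f z‖ ≤ ‖f 0‖ * ((1 + ‖z‖) / (1 - ‖z‖)) ^ p := by
  obtain ⟨h, hh0, hhd, hhF⟩ := Pool.Agent.H296R2.LE.exists_log one_pos hf hne
  rcases eq_or_ne z 0 with rfl | hz0
  · simp
  have hzn : 0 < ‖z‖ := norm_pos_iff.2 hz0
  obtain ⟨u, hu⟩ : ∃ u : ℂ, u = z / ‖z‖ := ⟨_, rfl⟩
  have hun : ‖u‖ = 1 := by
    rw [hu, norm_div, Complex.norm_real, norm_norm, div_self hzn.ne']
  have hmem : ∀ t ∈ Icc (0 : ℝ) ‖z‖, ‖(t : ℂ) * u‖ = t := by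
    intro t ht
    rw [norm_mul, hun, mul_one, Complex.norm_real, Real.norm_of_nonneg ht.1]
  have hderiv : ∀ t ∈ Icc (0 : ℝ) ‖z‖, HasDerivAt (fun t : ℝ => h ((t : ℂ) * u))
      (deriv f (t * u) / f (t * u) * u) t := by
    intro t ht
    have h1 : (t : ℂ) * u ∈ ball (0 : ℂ) 1 := by
      rw [mem_ball_zero_iff, hmem t ht]
      linarith [ht.2]
    have h2 : HasDerivAt (fun t : ℝ => (t : ℂ) * u) u t := by
      have := (HasDerivAt.ofReal_comp (hasDerivAt_id t)).mul_const u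
      simpa using this
    exact (hhd _ h1).comp t h2
  have hB : ∀ t ∈ Icc (0 : ℝ) ‖z‖, HasDerivAt
      (fun t : ℝ => p * (Real.log (1 + t) - Real.log (1 - t))) (2 * p / (1 - t ^ 2)) t := by
    intro t ht
    have ht1 : 0 < 1 - t := by linarith [ht.2]
    have ht2 : 0 < 1 + t := by linarith [ht.1]
    have h1 : HasDerivAt (fun t : ℝ => Real.log (1 + t)) (1 / (1 + t)) t :=
      ((hasDerivAt_id t).const_add 1).log ht2.ne'
    have h2 : HasDerivAt (fun t : ℝ => Real.log (1 - t)) (-1 / (1 - t)) t :=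
      ((hasDerivAt_id t).const_sub 1).log ht1.ne'
    refine ((h1.sub h2).const_mul p).congr_deriv ?_
    have : 1 - t ^ 2 ≠ 0 := by nlinarith
    field_simp
    ring
  have hkey : ‖h z‖ ≤ p * (Real.log (1 + ‖z‖) - Real.log (1 - ‖z‖)) := by
    have h1 := image_norm_le_of_norm_deriv_right_le_deriv_boundary'
      (f := fun t : ℝ => h ((t : ℂ) * u)) (f' := fun t => deriv f (t * u) / f (t * u) * u)
      (a := 0) (b := ‖z‖)
      (B := fun t : ℝ => p * (Real.log (1 + t) - Real.log (1 - t)))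
      (B' := fun t => 2 * p / (1 - t ^ 2))
      (fun t ht => (hderiv t ht).continuousAt.continuousWithinAt)
      (fun t ht => (hderiv t ⟨ht.1, ht.2.le⟩).hasDerivWithinAt)
      (by simp [hh0])
      (fun t ht => (hB t ht).continuousAt.continuousWithinAt)
      (fun t ht => (hB t ⟨ht.1, ht.2.le⟩).hasDerivWithinAt)
      (by
        intro t ht
        have ht' : t ∈ Icc (0 : ℝ) ‖z‖ := ⟨ht.1, ht.2.le⟩
        have h2 : ‖(t : ℂ) * u‖ < 1 := by
          rw [hmem t ht']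
          linarith [ht.2]
        have h3 := hb _ h2
        rw [hmem t ht'] at h3
        have h4 : 0 < ‖f (t * u)‖ := norm_pos_iff.2 (hne _ (by simpa using h2))
        have h5 : 0 < 1 - t ^ 2 := by
          have := ht.1
          have := ht.2
          nlinarith
        rw [norm_mul, hun, mul_one, norm_div, div_le_div_iff₀ h4 h5]
        linarith)
      (right_mem_Icc.2 hzn.le)
    have h2 : ((‖z‖ : ℝ) : ℂ) * u = z := by
      rw [hu]
      have : ((‖z‖ : ℝ) : ℂ) ≠ 0 := by exact_mod_cast hzn.ne'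
      rw [mul_div_cancel₀]
      exact this
    simp only [h2] at h1
    exact h1
  have h1 : 0 < 1 - ‖z‖ := by linarith
  have h2 : 0 < 1 + ‖z‖ := by positivity
  rw [hhF z (by simpa using hz), norm_mul, Complex.norm_exp]
  refine mul_le_mul_of_nonneg_left ?_ (norm_nonneg _)
  rw [Real.rpow_def_of_pos (by positivity), Real.log_div h2.ne' h1.ne']
  refine Real.exp_le_exp.2 ?_
  have := (Complex.re_le_norm (h z)).trans hkey
  linarith

theorem eight (m : ℕ) (hm : 1 ≤ m) :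
    (((m : ℝ) + 2) / m) ^ m * (((m : ℝ) + 2) / (m + 1)) ^ 2 ≤ 8 := by
  rcases Nat.lt_or_ge m 25 with h | h
  · interval_cases m <;> norm_num
  · have hm' : (25 : ℝ) ≤ m := by exact_mod_cast h
    have h1 : (((m : ℝ) + 2) / m) ^ m ≤ Real.exp 2 := by
      have h2 : ((m : ℝ) + 2) / m ≤ Real.exp (2 / m) := by
        have := Real.add_one_le_exp (2 / (m : ℝ))
        have h3 : ((m : ℝ) + 2) / m = 2 / m + 1 := by
          field_simp
          ring
        rw [h3]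
        exact this
      calc (((m : ℝ) + 2) / m) ^ m ≤ (Real.exp (2 / m)) ^ m := by gcongr
        _ = Real.exp 2 := by
          rw [← Real.exp_nat_mul]
          congr 1
          field_simp
    have h2 : Real.exp 2 ≤ 7.3891 := by
      have h3 : Real.exp 2 = Real.exp 1 * Real.exp 1 := by
        rw [← Real.exp_add]
        norm_num
      rw [h3]
      have h4 := Real.exp_one_lt_d9
      have h5 := Real.exp_pos 1
      nlinarith
    have h3 : (((m : ℝ) + 2) / (m + 1)) ^ 2 ≤ (27 / 26) ^ 2 := by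
      have : ((m : ℝ) + 2) / (m + 1) ≤ 27 / 26 := by
        rw [div_le_div_iff₀ (by positivity) (by norm_num)]
        linarith
      gcongr
    calc (((m : ℝ) + 2) / m) ^ m * (((m : ℝ) + 2) / (m + 1)) ^ 2
        ≤ 7.3891 * (27 / 26) ^ 2 := by
          have := h1.trans h2
          gcongr
      _ ≤ 8 := by norm_num

/-- The criterion for `1 ≤ p ≤ 2`. -/
theorem crit_small {p : ℝ} (hp : 1 ≤ p) (hp2 : p ≤ 2) {f : ℂ → ℂ}
    (hf : DifferentiableOn ℂ f (ball 0 1))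
    (hne : ∀ z ∈ ball (0 : ℂ) 1, f z ≠ 0) (hb : BC p f) (n : ℕ) :
    ‖iteratedDeriv n f 0‖ ≤ ‖f 0‖ * ((n ! : ℝ) * cc p n) := by
  match n with
  | 0 => simp [cc]
  | 1 =>
    have h := hb 0 (by simp)
    have h0 := norm_nonneg (f 0)
    rw [iteratedDeriv_one]
    simp [cc] at h ⊢
    nlinarith
  | (m + 2) =>
    -- Cauchy's estimate on the circle of radius `(m+1)/(m+3)`
    obtain ⟨r, hr⟩ : ∃ r : ℝ, r = ((m : ℝ) + 1) / (m + 3) := ⟨_, rfl⟩
    have hr0 : 0 < r := by rw [hr]; positivity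
    have hr1 : r < 1 := by
      rw [hr, div_lt_one (by positivity)]
      linarith
    have hdd : DifferentiableOn ℂ (deriv f) (ball 0 1) := hf.deriv isOpen_ball
    have hsub : closedBall (0 : ℂ) r ⊆ ball 0 1 := closedBall_subset_ball hr1
    have hdc : DiffContOnCl ℂ (deriv f) (ball (0 : ℂ) r) :=
      (hdd.mono hsub).diffContOnCl_ball subset_rfl
    have e1 : (1 + r) / (1 - r) = m + 2 := by
      rw [hr]
      have : (m : ℝ) + 3 ≠ 0 := by positivity
      field_simp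
      ring
    have e2 : 1 - r ^ 2 = 4 * (m + 2) / (m + 3) ^ 2 := by
      rw [hr]
      have : (m : ℝ) + 3 ≠ 0 := by positivity
      field_simp
      ring
    have hbd : ∀ z ∈ sphere (0 : ℂ) r, ‖deriv f z‖ ≤
        p / 2 * (m + 3) ^ 2 / (m + 2) * (‖f 0‖ * ((m : ℝ) + 2) ^ p) := by
      intro z hz
      have hzr : ‖z‖ = r := by simpa using hz
      have hz1 : ‖z‖ < 1 := by rw [hzr]; exact hr1
      have h1 := hb z hz1
      have h2 := growth hf hne hb hz1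
      rw [hzr, e1] at h2
      rw [hzr, e2] at h1
      have hm2 : (0 : ℝ) < m + 2 := by positivity
      have hm3 : (0 : ℝ) < (m + 3) ^ 2 := by positivity
      have h3 : 4 * (m + 2) / (m + 3) ^ 2 * ‖deriv f z‖ ≤
          2 * p * (‖f 0‖ * ((m : ℝ) + 2) ^ p) :=
        h1.trans (mul_le_mul_of_nonneg_left h2 (by linarith))
      rw [div_mul_eq_mul_div, div_le_iff₀ hm3] at h3
      rw [div_mul_eq_mul_div, le_div_iff₀ hm2]
      nlinarith
    have hC := Complex.norm_iteratedDeriv_le_of_forall_mem_sphere_norm_le (m + 1) hr0 hdc hbd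
    rw [← iteratedDeriv_succ'] at hC
    refine hC.trans ?_
    have hlow := cc_lower hp hp2 (m + 1)
    have h8 := eight (m + 1) (by omega)
    push_cast at hlow h8
    have ea : (m : ℝ) + 1 + 1 = m + 2 := by ring
    have eb : (m : ℝ) + 1 + 2 = m + 3 := by ring
    rw [ea] at hlow
    rw [ea, eb] at h8
    have hf0 := norm_nonneg (f 0)
    have hfac : (((m + 2)! : ℕ) : ℝ) = (m + 2) * ((m + 1)! : ℕ) := by
      rw [Nat.factorial_succ (m + 1)]
      push_cast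
      ring
    rw [hfac]
    have hfp : (0 : ℝ) < ((m + 1)! : ℕ) := by positivity
    have hX : (0 : ℝ) < ((m : ℝ) + 2) ^ p := by positivity
    have hrp : (r ^ (m + 1))⁻¹ = (((m : ℝ) + 3) / (m + 1)) ^ (m + 1) := by
      rw [hr, ← inv_pow, inv_div]
    rw [div_eq_mul_inv _ (r ^ (m + 1)), hrp]
    generalize (((m : ℝ) + 3) / (m + 1)) ^ (m + 1) = Y at h8 ⊢
    generalize ((m : ℝ) + 2) ^ p = X at hX hlow ⊢
    have hm2 : (0 : ℝ) < m + 2 := by positivity
    rw [div_pow, mul_div_assoc', div_le_iff₀ (by positivity)] at h8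
    calc ((m + 1)! : ℕ) * (p / 2 * (m + 3) ^ 2 / (m + 2) * (‖f 0‖ * X)) * Y
        = ‖f 0‖ * ((m + 1)! : ℕ) * (p / 2) * X / (m + 2) * (Y * (m + 3) ^ 2) := by
          field_simp
      _ ≤ ‖f 0‖ * ((m + 1)! : ℕ) * (p / 2) * X / (m + 2) * (8 * (m + 2) ^ 2) := by
          gcongr
      _ = ‖f 0‖ * ((m + 2) * ((m + 1)! : ℕ) * (4 * p * X)) := by
          field_simp
          ring
      _ ≤ ‖f 0‖ * ((m + 2) * ((m + 1)! : ℕ) * cc p (m + 2)) := by
          gcongr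

/-- Majorants multiply. -/
theorem dom_mul {f g T U : ℂ → ℂ} (hf : AnalyticAt ℂ f 0) (hg : AnalyticAt ℂ g 0)
    (hT : AnalyticAt ℂ T 0) (hU : AnalyticAt ℂ U 0) {a b : ℕ → ℝ}
    (ha : ∀ n, 0 ≤ a n) (hTa : ∀ n, iteratedDeriv n T 0 = (a n : ℂ))
    (hUb : ∀ n, iteratedDeriv n U 0 = (b n : ℂ))
    (hfa : ∀ n, ‖iteratedDeriv n f 0‖ ≤ a n) (hgb : ∀ n, ‖iteratedDeriv n g 0‖ ≤ b n) :
    ∃ c : ℕ → ℝ, (∀ n, 0 ≤ c n) ∧ (∀ n, iteratedDeriv n (T * U) 0 = (c n : ℂ)) ∧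
      ∀ n, ‖iteratedDeriv n (f * g) 0‖ ≤ c n := by
  refine ⟨fun n => ∑ i ∈ Finset.range (n + 1), n.choose i * a i * b (n - i), ?_, ?_, ?_⟩
  · intro n
    refine Finset.sum_nonneg fun i _ => ?_
    have := ha i
    have := (norm_nonneg _).trans (hgb (n - i))
    positivity
  · intro n
    rw [iteratedDeriv_mul hT.contDiffAt hU.contDiffAt]
    push_cast
    refine Finset.sum_congr rfl fun i _ => ?_
    rw [hTa, hUb]
  · intro n
    rw [iteratedDeriv_mul hf.contDiffAt hg.contDiffAt]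
    refine (norm_sum_le _ _).trans (Finset.sum_le_sum fun i _ => ?_)
    rw [norm_mul, norm_mul, Complex.norm_natCast]
    have h1 := hfa i
    have h2 := hgb (n - i)
    have h3 := ha i
    gcongr

theorem dom_pow {f T : ℂ → ℂ} (hf : AnalyticAt ℂ f 0) (hT : AnalyticAt ℂ T 0) {a : ℕ → ℝ}
    (ha : ∀ n, 0 ≤ a n) (hTa : ∀ n, iteratedDeriv n T 0 = (a n : ℂ))
    (hfa : ∀ n, ‖iteratedDeriv n f 0‖ ≤ a n) (j : ℕ) :
    ∃ c : ℕ → ℝ, (∀ n, 0 ≤ c n) ∧ (∀ n, iteratedDeriv n (T ^ (j + 1)) 0 = (c n : ℂ)) ∧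
      ∀ n, ‖iteratedDeriv n (f ^ (j + 1)) 0‖ ≤ c n := by
  induction j with
  | zero => exact ⟨a, ha, by simpa using hTa, by simpa using hfa⟩
  | succ k ih =>
    obtain ⟨c, hc0, hcT, hcf⟩ := ih
    have h := dom_mul (hf.pow (k + 1)) hf (hT.pow (k + 1)) hT hc0 hcT hTa hcf hfa
    simpa [pow_succ] using h

/-- The criterion for all `p ≥ 1`. -/
theorem crit {p : ℝ} (hp : 1 ≤ p) {f : ℂ → ℂ} (hf : DifferentiableOn ℂ f (ball 0 1))
    (hne : ∀ z ∈ ball (0 : ℂ) 1, f z ≠ 0) (hb : BC p f) (n : ℕ) :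
    ‖iteratedDeriv n f 0‖ ≤ ‖f 0‖ * ‖iteratedDeriv n (TT (2 * p)) 0‖ := by
  have h0mem : (0 : ℂ) ∈ ball (0 : ℂ) 1 := mem_ball_self one_pos
  obtain ⟨h, hh0, hhd, hhF⟩ := Pool.Agent.H296R2.LE.exists_log one_pos hf hne
  obtain ⟨j, hj⟩ : ∃ j : ℕ, j + 1 = ⌊p⌋₊ := by
    refine ⟨⌊p⌋₊ - 1, ?_⟩
    have : 1 ≤ ⌊p⌋₊ := (Nat.one_le_floor_iff p).2 hp
    omega
  have hj1 : ((j : ℝ) + 1) ≤ p := by
    have := Nat.floor_le (by linarith : 0 ≤ p)
    rw [← hj] at this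
    push_cast at this
    exact this
  have hj2 : p < (j : ℝ) + 1 + 1 := by
    have := Nat.lt_floor_add_one p
    rw [← hj] at this
    push_cast at this
    exact this
  have hjp : (0 : ℝ) < (j : ℝ) + 1 := by positivity
  obtain ⟨q, hq⟩ : ∃ q : ℝ, q = p / ((j : ℝ) + 1) := ⟨_, rfl⟩
  have hq1 : 1 ≤ q := by rw [hq, one_le_div hjp]; exact hj1
  have hq2 : q ≤ 2 := by
    rw [hq, div_le_iff₀ hjp]
    have : (0 : ℝ) ≤ j := Nat.cast_nonneg j
    linarith
  have hqp : p = q * ((j : ℝ) + 1) := by rw [hq]; field_simp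
  -- the root of `f`
  obtain ⟨g, hg⟩ : ∃ g : ℂ → ℂ, ∀ z, g z = cexp ((((j : ℝ) + 1)⁻¹ : ℝ) * h z) := ⟨_, fun z => rfl⟩
  have hgd : ∀ z ∈ ball (0 : ℂ) 1, HasDerivAt g
      (g z * ((((j : ℝ) + 1)⁻¹ : ℝ) * (deriv f z / f z))) z := by
    intro z hz
    rw [hg z, funext hg]
    exact ((hhd z hz).const_mul _).cexp
  have hgdiff : DifferentiableOn ℂ g (ball 0 1) :=
    fun z hz => (hgd z hz).differentiableAt.differentiableWithinAt
  have hg0 : g 0 = 1 := by rw [hg, hh0]; simp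
  have hgne : ∀ z ∈ ball (0 : ℂ) 1, g z ≠ 0 := fun z _ => by rw [hg]; exact Complex.exp_ne_zero _
  have hgb : BC q g := by
    intro z hz
    have hzm : z ∈ ball (0 : ℂ) 1 := by simpa using hz
    have h1 := hb z hz
    have h2 : 0 < ‖f z‖ := norm_pos_iff.2 (hne z hzm)
    rw [(hgd z hzm).deriv, norm_mul, norm_mul, norm_div, Complex.norm_real,
      Real.norm_of_nonneg (by positivity)]
    have h3 : (1 - ‖z‖ ^ 2) * (‖deriv f z‖ / ‖f z‖) ≤ 2 * p := by
      rw [← mul_div_assoc, div_le_iff₀ h2]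
      exact h1
    have h4 : 0 ≤ ‖g z‖ * ((j : ℝ) + 1)⁻¹ := by positivity
    calc (1 - ‖z‖ ^ 2) * (‖g z‖ * (((j : ℝ) + 1)⁻¹ * (‖deriv f z‖ / ‖f z‖)))
        = (‖g z‖ * ((j : ℝ) + 1)⁻¹) * ((1 - ‖z‖ ^ 2) * (‖deriv f z‖ / ‖f z‖)) := by ring
      _ ≤ (‖g z‖ * ((j : ℝ) + 1)⁻¹) * (2 * p) := mul_le_mul_of_nonneg_left h3 h4
      _ = 2 * q * ‖g z‖ := by rw [hq]; field_simp
  have hgan : AnalyticAt ℂ g 0 := hgdiff.analyticAt (isOpen_ball.mem_nhds h0mem)
  have hdom : ∀ m, ‖iteratedDeriv m g 0‖ ≤ (m ! : ℝ) * cc q m := by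
    intro m
    have := crit_small hq1 hq2 hgdiff hgne hgb m
    rwa [hg0, norm_one, one_mul] at this
  obtain ⟨c, hc0, hcT, hcg⟩ := dom_pow hgan (TT_an (2 * q))
    (a := fun m => (m ! : ℝ) * cc q m)
    (fun m => mul_nonneg (by positivity) (cc_nonneg (by linarith) m)) (TT_coeff q) hdom j
  have hTeq : TT (2 * p) = (TT (2 * q)) ^ (j + 1) := by
    funext z
    rw [Pi.pow_apply, TT, TT, ← Complex.cpow_nat_mul]
    congr 1
    rw [hqp]
    push_cast
    ring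
  have hfeq : f =ᶠ[𝓝 0] fun z => f 0 * (g ^ (j + 1)) z := by
    filter_upwards [isOpen_ball.mem_nhds h0mem] with z hz
    rw [hhF z hz, Pi.pow_apply, hg, ← Complex.exp_nat_mul]
    congr 2
    push_cast
    have : (j : ℂ) + 1 ≠ 0 := by
      have := Nat.cast_add_one_ne_zero (R := ℂ) j
      exact this
    field_simp
  rw [hTeq, hcT, hfeq.iteratedDeriv_eq, iteratedDeriv_const_mul _ (hgan.pow (j + 1)).contDiffAt,
    norm_mul, Complex.norm_real, Real.norm_of_nonneg (hc0 n)]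
  exact mul_le_mul_of_nonneg_left (hcg n) (norm_nonneg _)

end Pool.Agent.Helper854_CM
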